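import Pool.Agent.UFree.Base

set_option autoImplicit false
set_option linter.unusedSectionVars false
set_option linter.unusedVariables false
set_option linter.unusedSimpArgs false
open Finset

namespace UF
variable {α : Type*} [Fintype α] [DecidableEq α]

/-! ## part o1 -/

/-- comparison principle for the down-solver -/
theorem Ds_le {k s X : Finset α → ℝ} {Q₀ : Finset α} (hk : ∀ Q, k Q ≤ 1)
    (hX : ∀ Q, Q ⊆ Q₀ → s Q + (1 - k Q) * Dn X Q ≤ X Q) : Ds k s Q₀ ≤ X Q₀ := by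
  induction Q₀ using Finset.strongInduction with
  | H Q ih =>
    rw [Ds_eq]
    refine le_trans ?_ (hX Q (Finset.Subset.refl _))
    have h1 : Dn (Ds k s) Q ≤ Dn X Q := Dn_mono fun y hy =>
      ih (Q.erase y) (Finset.erase_ssubset hy) fun R hR => hX R (hR.trans (Finset.erase_subset _ _))
    have h2 : 0 ≤ 1 - k Q := sub_nonneg.2 (hk Q)
    have h3 := mul_le_mul_of_nonneg_left h1 h2
    linarith

theorem le_Ds {k s X : Finset α → ℝ} {Q₀ : Finset α} (hk : ∀ Q, k Q ≤ 1)
    (hX : ∀ Q, Q ⊆ Q₀ → X Q ≤ s Q + (1 - k Q) * Dn X Q) : X Q₀ ≤ Ds k s Q₀ := by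
  induction Q₀ using Finset.strongInduction with
  | H Q ih =>
    rw [Ds_eq]
    refine le_trans (hX Q (Finset.Subset.refl _)) ?_
    have h1 : Dn X Q ≤ Dn (Ds k s) Q := Dn_mono fun y hy =>
      ih (Q.erase y) (Finset.erase_ssubset hy) fun R hR => hX R (hR.trans (Finset.erase_subset _ _))
    have h2 : 0 ≤ 1 - k Q := sub_nonneg.2 (hk Q)
    have h3 := mul_le_mul_of_nonneg_left h1 h2
    linarith

theorem compl_insert_card_lt {P : Finset α} {w : α} (hw : w ∉ P) :
    (insert w P)ᶜ.card < Pᶜ.card := by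
  apply Finset.card_lt_card
  rw [Finset.ssubset_iff_subset_ne]
  refine ⟨Finset.compl_subset_compl.2 (Finset.subset_insert _ _), fun h => ?_⟩
  have h1 : w ∈ (insert w P)ᶜ := by rw [h]; simpa using hw
  simp at h1

/-- comparison principle for the up-solver -/
theorem Us_le {k s X : Finset α → ℝ} {P₀ : Finset α} (hk : ∀ Q, k Q ≤ 1)
    (hX : ∀ P, P₀ ⊆ P → s P + (1 - k P) * Up X P ≤ X P) : Us k s P₀ ≤ X P₀ := by
  have key : ∀ n : ℕ, ∀ P : Finset α, Pᶜ.card = n →
      (∀ R, P ⊆ R → s R + (1 - k R) * Up X R ≤ X R) → Us k s P ≤ X P := by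
    intro n
    induction n using Nat.strong_induction_on with
    | _ n ih =>
      intro P hP hX
      rw [Us_eq]
      refine le_trans ?_ (hX P (Finset.Subset.refl _))
      have h1 : Up (Us k s) P ≤ Up X P := Up_mono fun w hw =>
        ih _ (hP ▸ compl_insert_card_lt hw) (insert w P) rfl fun R hR =>
          hX R ((Finset.subset_insert _ _).trans hR)
      have h2 : 0 ≤ 1 - k P := sub_nonneg.2 (hk P)
      have h3 := mul_le_mul_of_nonneg_left h1 h2
      linarith
  exact key _ P₀ rfl hX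

theorem le_Us {k s X : Finset α → ℝ} {P₀ : Finset α} (hk : ∀ Q, k Q ≤ 1)
    (hX : ∀ P, P₀ ⊆ P → X P ≤ s P + (1 - k P) * Up X P) : X P₀ ≤ Us k s P₀ := by
  have key : ∀ n : ℕ, ∀ P : Finset α, Pᶜ.card = n →
      (∀ R, P ⊆ R → X R ≤ s R + (1 - k R) * Up X R) → X P ≤ Us k s P := by
    intro n
    induction n using Nat.strong_induction_on with
    | _ n ih =>
      intro P hP hX
      rw [Us_eq]
      refine le_trans (hX P (Finset.Subset.refl _)) ?_
      have h1 : Up X P ≤ Up (Us k s) P := Up_mono fun w hw =>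
        ih _ (hP ▸ compl_insert_card_lt hw) (insert w P) rfl fun R hR =>
          hX R ((Finset.subset_insert _ _).trans hR)
      have h2 : 0 ≤ 1 - k P := sub_nonneg.2 (hk P)
      have h3 := mul_le_mul_of_nonneg_left h1 h2
      linarith
  exact key _ P₀ rfl hX

theorem Ds_nonneg {k s : Finset α → ℝ} (hk : ∀ Q, k Q ≤ 1) (hs : ∀ Q, 0 ≤ s Q) (Q : Finset α) :
    0 ≤ Ds k s Q := by
  refine le_Ds (X := fun _ => 0) hk fun Q _ => ?_
  exact add_nonneg (hs Q) (mul_nonneg (sub_nonneg.2 (hk Q)) (Dn_nonneg fun _ _ => le_rfl))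

theorem Us_nonneg {k s : Finset α → ℝ} (hk : ∀ Q, k Q ≤ 1) (hs : ∀ Q, 0 ≤ s Q) (P : Finset α) :
    0 ≤ Us k s P := by
  refine le_Us (X := fun _ => 0) hk fun Q _ => ?_
  exact add_nonneg (hs Q) (mul_nonneg (sub_nonneg.2 (hk Q)) (Up_nonneg fun _ _ => le_rfl))

theorem Ds_le_one {k s : Finset α → ℝ} (hk : ∀ Q, k Q ≤ 1) (hs : ∀ Q, s Q ≤ k Q)
    (Q : Finset α) : Ds k s Q ≤ 1 := by
  refine Ds_le (X := fun _ => 1) hk fun Q _ => ?_
  have h1 : Dn (fun _ => (1:ℝ)) Q ≤ 1 := Dn_le_of_le zero_le_one fun _ _ => le_rfl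
  have h2 : 0 ≤ 1 - k Q := sub_nonneg.2 (hk Q)
  have h3 := mul_le_mul_of_nonneg_left h1 h2
  have h4 := hs Q
  show s Q + (1 - k Q) * Dn (fun _ => (1:ℝ)) Q ≤ 1
  linarith

theorem Us_le_one {k s : Finset α → ℝ} (hk : ∀ Q, k Q ≤ 1) (hs : ∀ Q, s Q ≤ k Q)
    (P : Finset α) : Us k s P ≤ 1 := by
  refine Us_le (X := fun _ => 1) hk fun Q _ => ?_
  have h1 : Up (fun _ => (1:ℝ)) Q ≤ 1 := Up_le_of_le zero_le_one fun _ _ => le_rfl
  have h2 : 0 ≤ 1 - k Q := sub_nonneg.2 (hk Q)
  have h3 := mul_le_mul_of_nonneg_left h1 h2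
  have h4 := hs Q
  show s Q + (1 - k Q) * Up (fun _ => (1:ℝ)) Q ≤ 1
  linarith

theorem Us_mono {k s s' : Finset α → ℝ} (hk : ∀ Q, k Q ≤ 1) (hs : ∀ Q, s Q ≤ s' Q)
    (P : Finset α) : Us k s P ≤ Us k s' P := by
  refine Us_le (X := Us k s') hk fun Q _ => ?_
  rw [Us_eq k s' Q]
  have := hs Q
  linarith

theorem Ds_mono {k s s' : Finset α → ℝ} (hk : ∀ Q, k Q ≤ 1) (hs : ∀ Q, s Q ≤ s' Q)
    (Q : Finset α) : Ds k s Q ≤ Ds k s' Q := by
  refine Ds_le (X := Ds k s') hk fun Q _ => ?_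
  rw [Ds_eq k s' Q]
  have := hs Q
  linarith

/-! ## part o2 -/

theorem Us_unique_aux {k s X : Finset α → ℝ} (hX : ∀ P, X P = s P + (1 - k P) * Up X P) :
    ∀ (n : ℕ) (P : Finset α), Pᶜ.card = n → X P = Us k s P := by
  intro n
  induction n using Nat.strong_induction_on with
  | _ n ih =>
    intro P hP
    rw [hX P, Us_eq k s P]
    congr 2
    refine Up_congr fun w hw => ?_
    have hw' : w ∈ Pᶜ := by simpa using hw
    have hc : (insert w P)ᶜ = Pᶜ.erase w := by
      ext a; simp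
    refine ih ((insert w P)ᶜ.card) ?_ _ rfl
    rw [hc, ← hP]
    exact Finset.card_erase_lt_of_mem hw'

theorem Us_unique {k s X : Finset α → ℝ} (hX : ∀ P, X P = s P + (1 - k P) * Up X P)
    (P : Finset α) : X P = Us k s P := Us_unique_aux hX _ P rfl

theorem Us_sum {ι : Type*} (k : Finset α → ℝ) (t : Finset ι) (s : ι → Finset α → ℝ)
    (P : Finset α) : Us k (fun Q => ∑ i ∈ t, s i Q) P = ∑ i ∈ t, Us k (s i) P := by
  refine (Us_unique (k := k) (s := fun Q => ∑ i ∈ t, s i Q)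
    (X := fun P => ∑ i ∈ t, Us k (s i) P) (fun P => ?_) P).symm
  show ∑ i ∈ t, Us k (s i) P = ∑ i ∈ t, s i P + (1 - k P) * Up (fun Q => ∑ i ∈ t, Us k (s i) Q) P
  rw [Up_sum t (fun i => Us k (s i)) P, Finset.mul_sum, ← Finset.sum_add_distrib]
  exact Finset.sum_congr rfl fun i _ => Us_eq k (s i) P

theorem Us_add (k s s' : Finset α → ℝ) (P : Finset α) :
    Us k (fun Q => s Q + s' Q) P = Us k s P + Us k s' P := by
  refine (Us_unique (k := k) (s := fun Q => s Q + s' Q)
    (X := fun P => Us k s P + Us k s' P) (fun P => ?_) P).symm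
  show Us k s P + Us k s' P = s P + s' P + (1 - k P) * Up (fun Q => Us k s Q + Us k s' Q) P
  rw [Up_add (Us k s) (Us k s') P, Us_eq k s P, Us_eq k s' P]
  ring

theorem Us_const_mul (k s : Finset α → ℝ) (c : ℝ) (P : Finset α) :
    Us k (fun Q => c * s Q) P = c * Us k s P := by
  refine (Us_unique (k := k) (s := fun Q => c * s Q)
    (X := fun P => c * Us k s P) (fun P => ?_) P).symm
  show c * Us k s P = c * s P + (1 - k P) * Up (fun Q => c * Us k s Q) P
  rw [Up_const_mul c (Us k s) P, Us_eq k s P]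
  ring

theorem rho_nonneg {f : Finset α → ℝ} (hf0 : ∀ Q, 0 ≤ f Q) (hf1 : ∀ Q, f Q ≤ 1)
    (z : Finset α → α) {χ : ℕ → ℝ} (hχ0 : ∀ s, 0 ≤ χ s) (x : α) (Q : Finset α) :
    0 ≤ rho f z χ x Q := by
  refine Us_nonneg hf1 (fun Q => ?_) Q
  show 0 ≤ (if z Q = x then f Q * χ Q.card else 0)
  split_ifs
  · exact mul_nonneg (hf0 _) (hχ0 _)
  · exact le_rfl

theorem sum_rho (f : Finset α → ℝ) (z : Finset α → α) (χ : ℕ → ℝ) (Q : Finset α) :
    ∑ x, rho f z χ x Q = Us f (fun Q => f Q * χ Q.card) Q := by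
  unfold rho
  rw [← Us_sum f univ (fun x => fun Q => if z Q = x then f Q * χ Q.card else 0) Q]
  congr 1
  funext Q
  simp

theorem psi_add_Uout (f : Finset α → ℝ) (z : Finset α → α) (χ : ℕ → ℝ) (Q : Finset α) :
    psi f z χ Q + Uout f z χ Q = Us f (fun Q => f Q * χ Q.card) Q := by
  unfold psi Uout
  rw [Finset.sum_add_sum_compl, sum_rho]

theorem sum_rho_le_one {f : Finset α → ℝ} (hf0 : ∀ Q, 0 ≤ f Q) (hf1 : ∀ Q, f Q ≤ 1)
    (z : Finset α → α) {χ : ℕ → ℝ} (hχ0 : ∀ s, 0 ≤ χ s) (hχ1 : ∀ s, χ s ≤ 1)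
    (S : Finset α) (Q : Finset α) : ∑ x ∈ S, rho f z χ x Q ≤ 1 := by
  calc ∑ x ∈ S, rho f z χ x Q ≤ ∑ x, rho f z χ x Q :=
        Finset.sum_le_sum_of_subset_of_nonneg (Finset.subset_univ _)
          (fun x _ _ => rho_nonneg hf0 hf1 z hχ0 x Q)
    _ = Us f (fun Q => f Q * χ Q.card) Q := sum_rho f z χ Q
    _ ≤ 1 := Us_le_one hf1 (fun Q => by
        show f Q * χ Q.card ≤ f Q
        exact mul_le_of_le_one_right (hf0 Q) (hχ1 _)) Q

theorem rho_mono {f : Finset α → ℝ} (hf0 : ∀ Q, 0 ≤ f Q) (hf1 : ∀ Q, f Q ≤ 1)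
    (z : Finset α → α) {χ χ' : ℕ → ℝ} (hχ : ∀ s, χ s ≤ χ' s) (x : α) (Q : Finset α) :
    rho f z χ x Q ≤ rho f z χ' x Q := by
  refine Us_mono hf1 (fun Q => ?_) Q
  show (if z Q = x then f Q * χ Q.card else 0) ≤ (if z Q = x then f Q * χ' Q.card else 0)
  split_ifs
  · exact mul_le_mul_of_nonneg_left (hχ _) (hf0 _)
  · exact le_rfl

/-! ## part o3 -/

/-- `E_t[(1-DH)(1-u)]` does not depend on `t` -/
theorem nu_identity (f : Finset α → ℝ) {t : ℕ} (ht : t ≤ Fintype.card α) :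
    Ev t (fun P => (1 - Dn (Ds f f) P) * (1 - Us f f P)) = 1 - Ds f f (univ : Finset α) := by
  have key : ∀ k t : ℕ, t + k = Fintype.card α →
      Ev t (fun P => (1 - Dn (Ds f f) P) * (1 - Us f f P)) = 1 - Ds f f (univ : Finset α) := by
    intro k
    induction k with
    | zero =>
      intro t ht
      rw [Nat.add_zero] at ht
      subst ht
      rw [Ev_top, Us_eq f f univ, Up_univ, Ds_eq f f univ]
      ring
    | succ k ih =>
      intro t ht
      have hlt : t < Fintype.card α := by omega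
      rw [← ih (t + 1) (by omega)]
      have e1 : Ev t (fun P => (1 - Dn (Ds f f) P) * (1 - Us f f P)) =
          Ev t (fun P => (fun P => 1 - Ds f f P) P * Up (fun Q => 1 - Us f f Q) P) := by
        refine Ev_congr fun P hP => ?_
        have hPu : P ≠ univ := by
          rintro rfl
          rw [Finset.card_univ] at hP
          omega
        rw [Up_one_sub hPu]
        have h1 := Us_eq f f P
        have h2 := Ds_eq f f P
        have h3 : 1 - Us f f P = (1 - f P) * (1 - Up (Us f f) P) := by rw [h1]; ring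
        have h4 : 1 - Ds f f P = (1 - f P) * (1 - Dn (Ds f f) P) := by rw [h2]; ring
        show (1 - Dn (Ds f f) P) * (1 - Us f f P) = (1 - Ds f f P) * (1 - Up (Us f f) P)
        rw [h3, h4]
        ring
      rw [e1, Ev_Up_mul hlt]
      refine Ev_congr fun Q hQ => ?_
      have hQe : Q ≠ ∅ := by
        rintro rfl
        simp at hQ
      rw [Dn_one_sub hQe]
  exact key (Fintype.card α - t) t (by omega)

/-- expected number of hits minus probability of a hit (down version) -/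
theorem T_identity (f : Finset α → ℝ) :
    ∑ p ∈ range (Fintype.card α + 1), Ev p f
      - ∑ p ∈ range (Fintype.card α + 1), Ev p (fun P => f P * Dn (Ds f f) P)
      = Ds f f (univ : Finset α) := by
  rw [← Finset.sum_sub_distrib]
  have e1 : ∀ p, Ev p f - Ev p (fun P => f P * Dn (Ds f f) P) =
      Ev p (Ds f f) - Ev p (Dn (Ds f f)) := by
    intro p
    have h1 := Ev_sub p f (fun P => f P * Dn (Ds f f) P)
    have h2 := Ev_sub p (Ds f f) (Dn (Ds f f))
    rw [← h1, ← h2]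
    refine Ev_congr fun P _ => ?_
    rw [Ds_eq f f P]
    ring
  rw [Finset.sum_congr rfl fun p _ => e1 p, Finset.sum_range_succ']
  have e2 : ∑ k ∈ range (Fintype.card α), (Ev (k + 1) (Ds f f) - Ev (k + 1) (Dn (Ds f f))) =
      ∑ k ∈ range (Fintype.card α), (Ev (k + 1) (Ds f f) - Ev k (Ds f f)) := by
    refine Finset.sum_congr rfl fun k hk => ?_
    rw [Ev_Dn (Finset.mem_range.1 hk)]
  rw [e2, Finset.sum_range_sub (fun k => Ev k (Ds f f)), Ev_top, Ev_zero, Ev_zero, Dn_empty]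
  ring

/-- expected number of hits minus probability of a hit (up version) -/
theorem T_identity_up (f : Finset α → ℝ) :
    ∑ p ∈ range (Fintype.card α + 1), Ev p f
      - ∑ p ∈ range (Fintype.card α + 1), Ev p (fun P => f P * Up (Us f f) P)
      = Us f f (∅ : Finset α) := by
  rw [← Finset.sum_sub_distrib]
  have e1 : ∀ p, Ev p f - Ev p (fun P => f P * Up (Us f f) P) =
      Ev p (Us f f) - Ev p (Up (Us f f)) := by
    intro p
    have h1 := Ev_sub p f (fun P => f P * Up (Us f f) P)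
    have h2 := Ev_sub p (Us f f) (Up (Us f f))
    rw [← h1, ← h2]
    refine Ev_congr fun P _ => ?_
    rw [Us_eq f f P]
    ring
  rw [Finset.sum_congr rfl fun p _ => e1 p, Finset.sum_range_succ]
  have e2 : ∑ k ∈ range (Fintype.card α), (Ev k (Us f f) - Ev k (Up (Us f f))) =
      ∑ k ∈ range (Fintype.card α), (Ev k (Us f f) - Ev (k + 1) (Us f f)) := by
    refine Finset.sum_congr rfl fun k hk => ?_
    rw [Ev_Up (Finset.mem_range.1 hk)]
  rw [e2, Finset.sum_range_sub' (fun k => Ev k (Us f f)), Ev_top, Ev_top, Ev_zero, Up_univ]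
  ring

theorem G_eq_up (f : Finset α → ℝ) :
    ∑ p ∈ range (Fintype.card α + 1), Ev p (fun P => f P * Dn (Ds f f) P)
      = ∑ p ∈ range (Fintype.card α + 1), Ev p (fun P => f P * Up (Us f f) P) := by
  have h1 := T_identity f
  have h2 := T_identity_up f
  have h3 := nu_identity f (Nat.zero_le (Fintype.card α))
  rw [Ev_zero, Dn_empty] at h3
  linarith

/-! ## part o4 -/

theorem J4781_psi {f : Finset α → ℝ} (z : Finset α → α) (χ : ℕ → ℝ)
    (hz : ∀ C, f C ≠ 0 → z C ∈ C) (Q : Finset α) :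
    psi f z χ Q = f Q * χ Q.card + (1 - f Q) * ∑ x ∈ Q, Up (rho f z χ x) Q := by
  unfold psi
  have h1 : ∀ x ∈ Q, rho f z χ x Q = (if z Q = x then f Q * χ Q.card else 0) +
      (1 - f Q) * Up (rho f z χ x) Q := fun x _ => Us_eq f _ Q
  rw [Finset.sum_congr rfl h1, Finset.sum_add_distrib, ← Finset.mul_sum, Finset.sum_ite_eq]
  congr 1
  by_cases hf : f Q = 0
  · rw [hf]; simp
  · rw [if_pos (hz Q hf)]

theorem J4781_Up_psi (f : Finset α → ℝ) (z : Finset α → α) (χ : ℕ → ℝ) (Q : Finset α) :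
    Up (psi f z χ) Q = Rh f z χ Q + ∑ x ∈ Q, Up (rho f z χ x) Q := by
  have h1 : ∀ w ∈ Qᶜ, psi f z χ (insert w Q) = rho f z χ w (insert w Q) +
      ∑ x ∈ Q, rho f z χ x (insert w Q) := by
    intro w hw
    unfold psi
    rw [Finset.sum_insert (Finset.mem_compl.1 hw)]
  have h2 : ∑ x ∈ Q, Up (rho f z χ x) Q =
      (∑ w ∈ Qᶜ, ∑ x ∈ Q, rho f z χ x (insert w Q)) / (Qᶜ.card : ℝ) := by
    unfold Up
    rw [Finset.sum_comm, Finset.sum_div]
  rw [h2, Rh, ← add_div, ← Finset.sum_add_distrib, Up, Finset.sum_congr rfl h1]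

/-- one step of the telescoping identity for `E_t[psi DH]` -/
theorem psi_block_step {f : Finset α → ℝ} (z : Finset α → α) (χ : ℕ → ℝ)
    (hz : ∀ C, f C ≠ 0 → z C ∈ C) {t : ℕ} (ht : t < Fintype.card α) :
    Ev t (fun Q => psi f z χ Q * Dn (Ds f f) Q)
      = Ev t (fun Q => f Q * χ Q.card * Dn (Ds f f) Q)
        + Ev (t + 1) (fun Q => psi f z χ Q * Dn (Ds f f) Q)
        - Ev t (fun Q => Ds f f Q * Rh f z χ Q)
        - Ev t (fun Q => f Q * ∑ x ∈ Q, Up (rho f z χ x) Q) := by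
  have h1 : Ev (t + 1) (fun Q => psi f z χ Q * Dn (Ds f f) Q) =
      Ev t (fun P => Ds f f P * Up (psi f z χ) P) := by
    rw [Ev_Up_mul ht]
    exact Ev_congr fun Q _ => mul_comm _ _
  rw [h1, ← Ev_add, ← Ev_sub, ← Ev_sub]
  apply Ev_congr
  intro Q _
  rw [J4781_psi z χ hz Q, J4781_Up_psi]
  have h2 := Ds_eq f f Q
  have h3 : (1 - f Q) * Dn (Ds f f) Q = Ds f f Q - f Q := by linarith
  linear_combination (∑ x ∈ Q, Up (rho f z χ x) Q) * h3

theorem block_identity {f : Finset α → ℝ} (z : Finset α → α) (χ : ℕ → ℝ)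
    (hz : ∀ C, f C ≠ 0 → z C ∈ C) :
    ∑ p ∈ range (Fintype.card α + 1), Ev p (fun Q => f Q * χ Q.card * Dn (Ds f f) Q)
      = ∑ q ∈ range (Fintype.card α), Ev q (fun Q => Ds f f Q * Rh f z χ Q)
        + ∑ p ∈ range (Fintype.card α), Ev p (fun Q => f Q * ∑ x ∈ Q, Up (rho f z χ x) Q) := by
  set S : ℕ → ℝ := fun t => Ev t (fun Q => psi f z χ Q * Dn (Ds f f) Q) with hS
  have hstep : ∀ t ∈ range (Fintype.card α), Ev t (fun Q => f Q * χ Q.card * Dn (Ds f f) Q) =
      (S t - S (t + 1)) + (Ev t (fun Q => Ds f f Q * Rh f z χ Q) +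
        Ev t (fun Q => f Q * ∑ x ∈ Q, Up (rho f z χ x) Q)) := by
    intro t ht
    have := psi_block_step z χ hz (Finset.mem_range.1 ht)
    rw [hS]
    show _ = (Ev t (fun Q => psi f z χ Q * Dn (Ds f f) Q) -
      Ev (t + 1) (fun Q => psi f z χ Q * Dn (Ds f f) Q)) + _
    linarith
  have h0 : S 0 = 0 := by
    rw [hS]
    show Ev 0 (fun Q => psi f z χ Q * Dn (Ds f f) Q) = 0
    rw [Ev_zero, Dn_empty, mul_zero]
  have hn : Ev (Fintype.card α) (fun Q => f Q * χ Q.card * Dn (Ds f f) Q) = S (Fintype.card α) := by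
    rw [hS]
    show _ = Ev (Fintype.card α) (fun Q => psi f z χ Q * Dn (Ds f f) Q)
    rw [Ev_top, Ev_top, J4781_psi z χ hz univ]
    have : ∑ x ∈ (univ : Finset α), Up (rho f z χ x) univ = 0 :=
      Finset.sum_eq_zero fun x _ => Up_univ _
    rw [this, mul_zero, add_zero]
  rw [Finset.sum_range_succ, hn, Finset.sum_congr rfl hstep, Finset.sum_add_distrib,
    Finset.sum_range_sub', h0, Finset.sum_add_distrib]
  ring

/-! ## part o5 -/

theorem Dn_sq_le (g : Finset α → ℝ) (Q : Finset α) :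
    (Dn g Q) ^ 2 ≤ Dn (fun P => g P ^ 2) Q := by
  by_cases hQ : Q = ∅
  · subst hQ; rw [Dn_empty, Dn_empty]; norm_num
  · unfold Dn
    have h : (0:ℝ) < (Q.card : ℝ) := by
      exact_mod_cast (Finset.nonempty_iff_ne_empty.2 hQ).card_pos
    have h1 := sq_sum_le_card_mul_sum_sq (s := Q) (f := fun y => g (Q.erase y))
    rw [div_pow, div_le_div_iff₀ (by positivity) h]
    have h2 := mul_le_mul_of_nonneg_right h1 h.le
    calc (∑ y ∈ Q, g (Q.erase y)) ^ 2 * (Q.card : ℝ)
        ≤ ((Q.card : ℝ) * ∑ i ∈ Q, g (Q.erase i) ^ 2) * (Q.card : ℝ) := h2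
      _ = (∑ y ∈ Q, g (Q.erase y) ^ 2) * (Q.card : ℝ) ^ 2 := by ring

theorem Ds0_eq (s : Finset α → ℝ) (Q : Finset α) :
    Ds (fun _ => 0) s Q = s Q + Dn (Ds (fun _ => 0) s) Q := by
  rw [Ds_eq]; ring

theorem Ev_Ds0 (s : Finset α → ℝ) (p : ℕ) (hp : p ≤ Fintype.card α) :
    Ev p (Ds (fun _ => 0) s) = ∑ i ∈ range (p + 1), Ev i s := by
  induction p with
  | zero =>
    rw [Ev_zero, Ds0_eq, Dn_empty, Finset.sum_range_one, Ev_zero, add_zero]
  | succ p ih =>
    have h1 : Ev (p + 1) (Dn (Ds (fun _ => 0) s)) = Ev p (Ds (fun _ => 0) s) :=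
      Ev_Dn (by omega) _
    rw [Finset.sum_range_succ, ← ih (by omega), ← h1, ← Ev_add]
    refine Ev_congr fun P _ => ?_
    rw [Ds0_eq]; ring

theorem Ds0_univ (s : Finset α → ℝ) :
    Ds (fun _ => 0) s (univ : Finset α) = ∑ i ∈ range (Fintype.card α + 1), Ev i s := by
  rw [← Ev_Ds0 s _ le_rfl, Ev_top]

theorem Ds0_sq_le (f : Finset α → ℝ) (Q : Finset α) :
    (Ds (fun _ => 0) f Q) ^ 2
      ≤ Ds (fun _ => 0) (fun P => f P ^ 2 + 2 * (f P * Dn (Ds (fun _ => 0) f) P)) Q := by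
  induction hn : Q.card using Nat.strong_induction_on generalizing Q with
  | _ n ih =>
    rw [Ds0_eq, Ds0_eq (fun P => f P ^ 2 + 2 * (f P * Dn (Ds (fun _ => 0) f) P))]
    have h1 := Dn_sq_le (Ds (fun _ => 0) f) Q
    have h2 : Dn (fun P => (Ds (fun _ => 0) f P) ^ 2) Q
        ≤ Dn (Ds (fun _ => 0) (fun P => f P ^ 2 + 2 * (f P * Dn (Ds (fun _ => 0) f) P))) Q := by
      apply Dn_mono
      intro y hy
      exact ih _ (by rw [← hn]; exact Finset.card_erase_lt_of_mem hy) _ rfl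
    nlinarith [h1, h2]

theorem second_moment {f : Finset α → ℝ} (hf0 : ∀ Q, 0 ≤ f Q) :
    (∑ p ∈ range (Fintype.card α + 1), Ev p f) ^ 2
      ≤ ∑ p ∈ range (Fintype.card α + 1), Ev p (fun P => f P ^ 2)
        + 2 * ∑ p ∈ range (Fintype.card α + 1), Ev p (fun P => f P * Dn (Ds (fun _ => 0) f) P) := by
  have h := Ds0_sq_le f (univ : Finset α)
  rw [Ds0_univ, Ds0_univ] at h
  refine h.trans (le_of_eq ?_)
  rw [Finset.mul_sum, ← Finset.sum_add_distrib]
  refine Finset.sum_congr rfl fun p _ => ?_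
  rw [Ev_add, Ev_const_mul]

/-! ## part o6 -/

theorem K_le_H {f : Finset α → ℝ} (hf0 : ∀ Q, 0 ≤ f Q) (hf1 : ∀ Q, f Q ≤ 1) {κ : ℝ}
    (hκ : 0 ≤ κ) (hD : ∀ C, f C ≠ 0 → (1 + κ) * Dn (Ds f f) C ≤ κ) (Q : Finset α) :
    Ds (fun _ => 0) f Q ≤ (1 + κ) * Ds f f Q := by
  refine Ds_le (k := fun _ => 0) (s := f) (X := fun Q => (1 + κ) * Ds f f Q)
    (fun _ => zero_le_one) (fun P _ => ?_)
  rw [Dn_const_mul]
  beta_reduce
  rw [Ds_eq f f P]
  have key : f P * ((1 + κ) * Dn (Ds f f) P) ≤ f P * κ := by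
    by_cases h : f P = 0
    · rw [h]; simp
    · exact mul_le_mul_of_nonneg_left (hD P h) (hf0 P)
  nlinarith [key]

theorem H_le_K {f : Finset α → ℝ} (hf0 : ∀ Q, 0 ≤ f Q) (hf1 : ∀ Q, f Q ≤ 1) (Q : Finset α) :
    Ds f f Q ≤ Ds (fun _ => 0) f Q := by
  refine Ds_le (k := f) (s := f) (X := Ds (fun _ => 0) f) hf1 (fun P _ => ?_)
  rw [Ds_eq (fun _ => 0) f P]
  have h1 : 0 ≤ Dn (Ds (fun _ => 0) f) P :=
    Dn_nonneg (fun y _ => Ds_nonneg (fun _ => zero_le_one) hf0 _)
  nlinarith [hf0 P, mul_nonneg (hf0 P) h1]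

theorem Dn_H_le_H {f : Finset α → ℝ} (hf0 : ∀ Q, 0 ≤ f Q) (hf1 : ∀ Q, f Q ≤ 1) (Q : Finset α) :
    Dn (Ds f f) Q ≤ Ds f f Q := by
  have h1 : Dn (Ds f f) Q ≤ 1 :=
    Dn_le_of_le zero_le_one (fun y _ => Ds_le_one hf1 (fun _ => le_rfl) _)
  rw [Ds_eq f f Q]
  nlinarith [hf0 Q, mul_nonneg (hf0 Q) (sub_nonneg.2 h1)]

theorem Ev_K (f : Finset α → ℝ) {q : ℕ} (hq : q ≤ Fintype.card α) :
    Ev q (Ds (fun _ => 0) f) = ∑ p ∈ range (q + 1), Ev p f := by
  induction q with
  | zero =>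
    rw [Ev_zero, Ds_eq, Dn_empty]
    simp [Ev_zero]
  | succ q ih =>
    rw [Finset.sum_range_succ, ← ih (by omega)]
    have h1 : Ev (q + 1) (Ds (fun _ => 0) f) =
        Ev (q + 1) (fun Q => f Q + Dn (Ds (fun _ => 0) f) Q) := by
      refine Ev_congr fun Q _ => ?_
      rw [Ds_eq (fun _ => 0) f Q]
      ring
    have h2 : Ev (q + 1) (fun Q => Dn (Ds (fun _ => 0) f) Q) = Ev q (Ds (fun _ => 0) f) :=
      Ev_Dn (by omega) _
    rw [h1, Ev_add, h2, add_comm]

/-! ## part o7 -/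

theorem Us_le_sum {f s : Finset α → ℝ} (hf0 : ∀ Q, 0 ≤ f Q) (hf1 : ∀ Q, f Q ≤ 1)
    (hs : ∀ Q, 0 ≤ s Q) (P : Finset α) :
    Us f s P ≤ ∑ i ∈ range (Fintype.card α - P.card + 1), (Up^[i] s) P := by
  have main : ∀ n : ℕ, ∀ P : Finset α, Fintype.card α - P.card = n →
      Us f s P ≤ ∑ i ∈ range (Fintype.card α - P.card + 1), (Up^[i] s) P := by
    intro n
    induction n with
    | zero =>
      intro P hP
      have hle : P.card ≤ Fintype.card α := Finset.card_le_univ P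
      have hPu : P = univ := by
        rw [← Finset.card_eq_iff_eq_univ]
        omega
      rw [Us_eq, hPu, Up_univ]
      simp
    | succ n ih =>
      intro P hP
      rw [Us_eq]
      have hU0 : 0 ≤ Up (Us f s) P := Up_nonneg fun w _ => Us_nonneg hf1 hs _
      have h1 : (1 - f P) * Up (Us f s) P ≤ Up (Us f s) P := by
        nlinarith [hf0 P]
      have h2 : Up (Us f s) P ≤ Up (fun Q => ∑ i ∈ range (n + 1), (Up^[i] s) Q) P := by
        refine Up_mono fun w hw => ?_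
        have hc : Fintype.card α - (insert w P).card = n := by
          rw [Finset.card_insert_of_notMem hw]
          omega
        have h3 := ih (insert w P) hc
        rwa [hc] at h3
      rw [Up_sum] at h2
      rw [hP, Finset.sum_range_succ']
      have h4 : ∀ i ∈ range (n + 1), Up (fun Q => (Up^[i] s) Q) P = (Up^[i + 1] s) P := by
        intro i _
        rw [Function.iterate_succ_apply']
      rw [Finset.sum_congr rfl h4] at h2
      have h5 : (Up^[0] s) P = s P := rfl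
      rw [h5]
      linarith
  exact main _ P rfl

/-- iterated duality -/
theorem Ev_iter (h g : Finset α → ℝ) {t i : ℕ} (hti : t + i ≤ Fintype.card α) :
    Ev t (fun P => h P * (Up^[i] g) P) = Ev (t + i) (fun C => (Dn^[i] h) C * g C) := by
  induction i generalizing h t with
  | zero => rfl
  | succ i ih =>
    have h1 : Ev t (fun P => h P * (Up^[i + 1] g) P) =
        Ev t (fun P => h P * Up (Up^[i] g) P) := by
      rw [Function.iterate_succ_apply']
    rw [h1, Ev_Up_mul (by omega), ih (Dn h) (t := t + 1) (by omega)]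
    rw [show t + 1 + i = t + (i + 1) by ring, Function.iterate_succ_apply]

/-- the fundamental duality bound for `rho` -/
theorem rho_dual {f : Finset α → ℝ} (hf0 : ∀ Q, 0 ≤ f Q) (hf1 : ∀ Q, f Q ≤ 1)
    (z : Finset α → α) {χ : ℕ → ℝ} (hχ0 : ∀ s, 0 ≤ χ s)
    (g : α → Finset α → ℝ) (hg : ∀ x Q, 0 ≤ g x Q) {t : ℕ} (ht : t ≤ Fintype.card α) :
    Ev t (fun T => ∑ x, g x T * rho f z χ x T)
      ≤ ∑ s ∈ Icc t (Fintype.card α),
          Ev s (fun C => f C * χ C.card * (Dn^[s - t] (g (z C))) C) := by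
  set N := Fintype.card α with hN
  set S : α → Finset α → ℝ := fun x Q => if z Q = x then f Q * χ Q.card else 0 with hS
  have hS0 : ∀ x Q, 0 ≤ S x Q := by
    intro x Q
    simp only [hS]
    split_ifs
    · exact mul_nonneg (hf0 _) (hχ0 _)
    · exact le_rfl
  have step1 : Ev t (fun T => ∑ x, g x T * rho f z χ x T) ≤
      Ev t (fun T => ∑ i ∈ range (N - t + 1), ∑ x, g x T * (Up^[i] (S x)) T) := by
    refine Ev_mono fun T hT => ?_
    rw [Finset.sum_comm]
    refine Finset.sum_le_sum fun x _ => ?_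
    rw [← Finset.mul_sum]
    refine mul_le_mul_of_nonneg_left ?_ (hg x T)
    have h := Us_le_sum hf0 hf1 (hS0 x) T
    rw [hT] at h
    exact h
  refine step1.trans (le_of_eq ?_)
  rw [Ev_sum]
  have step2 : ∀ i ∈ range (N - t + 1), Ev t (fun T => ∑ x, g x T * (Up^[i] (S x)) T) =
      Ev (t + i) (fun C => f C * χ C.card * (Dn^[t + i - t] (g (z C))) C) := by
    intro i hi
    have hi' : t + i ≤ N := by
      have := Finset.mem_range.1 hi
      omega
    rw [Ev_sum]
    have h1 : ∀ x ∈ (univ : Finset α), Ev t (fun T => g x T * (Up^[i] (S x)) T) =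
        Ev (t + i) (fun C => (Dn^[i] (g x)) C * S x C) := by
      intro x _
      exact Ev_iter (g x) (S x) hi'
    rw [Finset.sum_congr rfl h1, ← Ev_sum]
    refine Ev_congr fun C _ => ?_
    rw [Nat.add_sub_cancel_left]
    simp only [hS]
    rw [Finset.sum_eq_single (z C)]
    · simp only [if_true]
      ring
    · intro x _ hx
      rw [if_neg (Ne.symm hx), mul_zero]
    · intro h
      exact absurd (Finset.mem_univ _) h
  rw [Finset.sum_congr rfl step2]
  have h6 : Icc t N = (range (N - t + 1)).map (addLeftEmbedding t) := by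
    rw [Finset.range_eq_Ico, Finset.map_add_left_Ico]
    ext a
    simp only [Finset.mem_Icc, Finset.mem_Ico]
    omega
  rw [h6, Finset.sum_map]
  rfl

theorem rho_dual_mem {f : Finset α → ℝ} (hf0 : ∀ Q, 0 ≤ f Q) (hf1 : ∀ Q, f Q ≤ 1)
    (z : Finset α → α) {χ : ℕ → ℝ} (hχ0 : ∀ s, 0 ≤ χ s)
    (g : α → Finset α → ℝ) (hg : ∀ x Q, 0 ≤ g x Q) {t : ℕ} (ht : t ≤ Fintype.card α) :
    Ev t (fun T => ∑ x ∈ T, g x T * rho f z χ x T)
      ≤ ∑ s ∈ Icc t (Fintype.card α),
          Ev s (fun C => f C * χ C.card *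
            (Dn^[s - t] (fun T => if z C ∈ T then g (z C) T else 0)) C) := by
  have h := rho_dual hf0 hf1 z hχ0 (fun x T => if x ∈ T then g x T else 0)
    (fun x Q => by
      split_ifs
      · exact hg x Q
      · exact le_rfl) ht
  refine le_trans (le_of_eq ?_) h
  refine Ev_congr fun T _ => ?_
  simp only [ite_mul, zero_mul]
  rw [Finset.sum_ite_mem, Finset.univ_inter]

/-! ## part o8 -/

theorem Dn_iter_succ (g : Finset α → ℝ) (i : ℕ) (Q : Finset α) :
    (Dn^[i + 1] g) Q = (∑ y ∈ Q, (Dn^[i] g) (Q.erase y)) / (Q.card : ℝ) := by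
  rw [Function.iterate_succ_apply']
  rfl

theorem Dn_iter_eq_zero {g : Finset α → ℝ} {i : ℕ} {Q : Finset α}
    (H : ∀ P, P ⊆ Q → g P = 0) : (Dn^[i] g) Q = 0 := by
  induction i generalizing Q with
  | zero => exact H Q (Finset.Subset.refl _)
  | succ i ih =>
    rw [Dn_iter_succ]
    rw [Finset.sum_eq_zero, zero_div]
    intro y hy
    exact ih fun P hP => H P (hP.trans (Finset.erase_subset _ _))

theorem Dn_iter_eq_one {g : Finset α → ℝ} {i : ℕ} {Q : Finset α}
    (H : ∀ P, P ⊆ Q → g P = 1) (hi : i ≤ Q.card) : (Dn^[i] g) Q = 1 := by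
  induction i generalizing Q with
  | zero => exact H Q (Finset.Subset.refl _)
  | succ i ih =>
    rw [Dn_iter_succ]
    have h1 : ∀ y ∈ Q, (Dn^[i] g) (Q.erase y) = 1 := by
      intro y hy
      refine ih (fun P hP => H P (hP.trans (Finset.erase_subset _ _))) ?_
      rw [Finset.card_erase_of_mem hy]
      omega
    rw [Finset.sum_congr rfl h1, Finset.sum_const, nsmul_eq_mul, mul_one]
    have : (Q.card : ℝ) ≠ 0 := by
      have : Q.card ≠ 0 := by omega
      exact_mod_cast this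
    exact div_self this

theorem Dn_iter_mem {C : Finset α} {x : α} (hx : x ∈ C) {i : ℕ} (hi : i ≤ C.card) :
    (Dn^[i] (fun T => if x ∈ T then (1 : ℝ) else 0)) C = ((C.card : ℝ) - i) / C.card := by
  induction i generalizing C with
  | zero =>
    have : (C.card : ℝ) ≠ 0 := by
      have : C.card ≠ 0 := (Finset.card_pos.2 ⟨x, hx⟩).ne'
      exact_mod_cast this
    simp only [Function.iterate_zero, id_eq, if_pos hx, Nat.cast_zero, sub_zero]
    exact (div_self this).symm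
  | succ i ih =>
    rw [Dn_iter_succ]
    congr 1
    rw [← Finset.add_sum_erase C _ hx]
    have h0 : (Dn^[i] (fun T => if x ∈ T then (1 : ℝ) else 0)) (C.erase x) = 0 := by
      apply Dn_iter_eq_zero
      intro P hP
      have : x ∉ P := fun h => Finset.notMem_erase x C (hP h)
      rw [if_neg this]
    rw [h0, zero_add]
    have h1 : ∀ y ∈ C.erase x, (Dn^[i] (fun T => if x ∈ T then (1 : ℝ) else 0)) (C.erase y) =
        (((C.card - 1 : ℕ) : ℝ) - i) / ((C.card - 1 : ℕ) : ℝ) := by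
      intro y hy
      rw [Finset.mem_erase] at hy
      have hc := Finset.card_erase_of_mem hy.2
      rw [ih (Finset.mem_erase.2 ⟨fun h => hy.1 h.symm, hx⟩) (by rw [hc]; omega), hc]
    rw [Finset.sum_congr rfl h1, Finset.sum_const, nsmul_eq_mul, Finset.card_erase_of_mem hx]
    obtain ⟨c, hc⟩ : ∃ c, C.card = c + 1 := ⟨C.card - 1, by omega⟩
    rw [hc]
    have e1 : c + 1 - 1 = c := by omega
    rw [e1]
    rcases Nat.eq_zero_or_pos c with h | h
    · subst h
      have : i = 0 := by omega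
      subst this
      simp
    · have hc' : (c : ℝ) ≠ 0 := by exact_mod_cast h.ne'
      field_simp
      push_cast
      ring

theorem Dn_iter_notMem {C : Finset α} {x : α} (hx : x ∈ C) {i : ℕ} (hi : i ≤ C.card) :
    (Dn^[i] (fun T => if x ∈ T then (0 : ℝ) else 1)) C = (i : ℝ) / C.card := by
  induction i generalizing C with
  | zero =>
    simp only [Function.iterate_zero, id_eq, if_pos hx, Nat.cast_zero, zero_div]
  | succ i ih =>
    rw [Dn_iter_succ]
    congr 1
    rw [← Finset.add_sum_erase C _ hx]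
    have h0 : (Dn^[i] (fun T => if x ∈ T then (0 : ℝ) else 1)) (C.erase x) = 1 := by
      apply Dn_iter_eq_one
      · intro P hP
        have : x ∉ P := fun h => Finset.notMem_erase x C (hP h)
        rw [if_neg this]
      · rw [Finset.card_erase_of_mem hx]; omega
    rw [h0]
    have h1 : ∀ y ∈ C.erase x, (Dn^[i] (fun T => if x ∈ T then (0 : ℝ) else 1)) (C.erase y) =
        (i : ℝ) / ((C.card - 1 : ℕ) : ℝ) := by
      intro y hy
      rw [Finset.mem_erase] at hy
      have hc := Finset.card_erase_of_mem hy.2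
      rw [ih (Finset.mem_erase.2 ⟨fun h => hy.1 h.symm, hx⟩) (by rw [hc]; omega), hc]
    rw [Finset.sum_congr rfl h1, Finset.sum_const, nsmul_eq_mul, Finset.card_erase_of_mem hx]
    obtain ⟨c, hc⟩ : ∃ c, C.card = c + 1 := ⟨C.card - 1, by omega⟩
    rw [hc]
    have e1 : c + 1 - 1 = c := by omega
    rw [e1]
    rcases Nat.eq_zero_or_pos c with h | h
    · subst h
      have : i = 0 := by omega
      subst this
      simp
    · have hc' : (c : ℝ) ≠ 0 := by exact_mod_cast h.ne'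
      field_simp
      push_cast
      ring

theorem Dn_iter_mono {g h : Finset α → ℝ} {i : ℕ} {Q : Finset α}
    (H : ∀ P, P ⊆ Q → P.card + i = Q.card → g P ≤ h P) (hi : i ≤ Q.card) :
    (Dn^[i] g) Q ≤ (Dn^[i] h) Q := by
  induction i generalizing Q with
  | zero => exact H Q (Finset.Subset.refl _) (by omega)
  | succ i ih =>
    rw [Function.iterate_succ_apply', Function.iterate_succ_apply']
    refine Dn_mono fun y hy => ?_
    have hc := Finset.card_erase_of_mem hy
    refine ih (fun P hP hPc => H P (hP.trans (Finset.erase_subset _ _)) ?_) ?_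
    · rw [hc] at hPc
      omega
    · rw [hc]
      omega

/-- iterated `Dn` is the average over `i`-element deletions -/
theorem Dn_iter_eq (g : Finset α → ℝ) {i : ℕ} {Q : Finset α} (hi : i ≤ Q.card) :
    (Dn^[i] g) Q = (∑ V ∈ powersetCard i Q, g (Q \ V)) / (Q.card.choose i : ℝ) := by
  induction i generalizing Q with
  | zero => simp
  | succ i ih =>
    rw [Dn_iter_succ]
    obtain ⟨q, hq⟩ : ∃ q, Q.card = q + 1 := ⟨Q.card - 1, by omega⟩
    have h1 : ∀ y ∈ Q, (Dn^[i] g) (Q.erase y) =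
        (∑ V ∈ powersetCard i (Q.erase y), g (Q.erase y \ V)) / (q.choose i : ℝ) := by
      intro y hy
      have hc := Finset.card_erase_of_mem hy
      rw [ih (by rw [hc]; omega), hc, hq]
      rfl
    rw [Finset.sum_congr rfl h1, ← Finset.sum_div]
    have e3 : ∑ y ∈ Q, ∑ V ∈ powersetCard i (Q.erase y), g (Q.erase y \ V)
        = ∑ V ∈ powersetCard (i + 1) Q, ∑ _y ∈ V, g (Q \ V) := by
      rw [Finset.sum_sigma', Finset.sum_sigma']
      refine Finset.sum_bij' (fun a _ => ⟨insert a.1 a.2, a.1⟩) (fun a _ => ⟨a.2, a.1.erase a.2⟩)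
        ?_ ?_ ?_ ?_ ?_
      · rintro ⟨y, V⟩ h
        simp only [Finset.mem_sigma, Finset.mem_powersetCard, Finset.subset_erase] at h ⊢
        refine ⟨⟨Finset.insert_subset h.1 h.2.1.1, ?_⟩, Finset.mem_insert_self _ _⟩
        rw [Finset.card_insert_of_notMem h.2.1.2, h.2.2]
      · rintro ⟨V, y⟩ h
        simp only [Finset.mem_sigma, Finset.mem_powersetCard, Finset.subset_erase] at h ⊢
        refine ⟨h.1.1 h.2, ⟨(Finset.erase_subset _ _).trans h.1.1, Finset.notMem_erase _ _⟩, ?_⟩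
        rw [Finset.card_erase_of_mem h.2, h.1.2]; rfl
      · rintro ⟨y, V⟩ h
        simp only [Finset.mem_sigma, Finset.mem_powersetCard, Finset.subset_erase] at h
        simp [Finset.erase_insert h.2.1.2]
      · rintro ⟨V, y⟩ h
        simp only [Finset.mem_sigma, Finset.mem_powersetCard] at h
        simp [Finset.insert_erase h.2]
      · rintro ⟨y, V⟩ h
        congr 1
        ext z
        simp only [Finset.mem_sdiff, Finset.mem_erase, Finset.mem_insert, not_or]
        tauto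
    have e4 : ∑ V ∈ powersetCard (i + 1) Q, ∑ _y ∈ V, g (Q \ V) =
        ((i : ℝ) + 1) * ∑ V ∈ powersetCard (i + 1) Q, g (Q \ V) := by
      rw [Finset.mul_sum]
      refine Finset.sum_congr rfl fun V hV => ?_
      rw [Finset.sum_const, (Finset.mem_powersetCard.1 hV).2, nsmul_eq_mul]
      push_cast
      ring
    rw [e3, e4, hq]
    have h2 : (q + 1) * q.choose i = (q + 1).choose (i + 1) * (i + 1) := Nat.add_one_mul_choose_eq q i
    have h2' : ((q : ℝ) + 1) * (q.choose i : ℝ) = ((q + 1).choose (i + 1) : ℝ) * ((i : ℝ) + 1) := by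
      exact_mod_cast h2
    have h3 : (q.choose i : ℝ) ≠ 0 := by
      have : 0 < q.choose i := Nat.choose_pos (by omega)
      exact_mod_cast this.ne'
    have h4 : ((q + 1).choose (i + 1) : ℝ) ≠ 0 := by
      have : 0 < (q + 1).choose (i + 1) := Nat.choose_pos (by omega)
      exact_mod_cast this.ne'
    have h5 : (q : ℝ) + 1 ≠ 0 := by positivity
    push_cast
    rw [div_div, div_eq_div_iff (mul_ne_zero h3 h5) h4]
    have : (q.choose i : ℝ) * ((q : ℝ) + 1) = ((q + 1).choose (i + 1) : ℝ) * ((i : ℝ) + 1) := by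
      rw [← h2']; ring
    rw [this]
    ring

theorem Dn_iter_mem_le (g : Finset α → ℝ) (hg : ∀ Q, 0 ≤ g Q) {i : ℕ} {P : Finset α} {x : α}
    (hx : x ∈ P) (hi : i + 1 ≤ P.card) :
    (Dn^[i] (fun X => if x ∈ X then g X else 0)) P
      ≤ (∑ V ∈ powersetCard i (P.erase x), g (P \ V)) / ((P.erase x).card.choose i : ℝ) := by
  rw [Dn_iter_eq _ (by omega)]
  have h1 : ∑ V ∈ powersetCard i P, (if x ∈ P \ V then g (P \ V) else 0) =
      ∑ V ∈ powersetCard i (P.erase x), g (P \ V) := by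
    rw [← Finset.sum_filter]
    refine Finset.sum_congr ?_ fun _ _ => rfl
    ext V
    simp only [Finset.mem_filter, Finset.mem_powersetCard, Finset.mem_sdiff, Finset.subset_erase]
    tauto
  rw [h1]
  have hc := Finset.card_erase_of_mem hx
  have h2 : 0 ≤ ∑ V ∈ powersetCard i (P.erase x), g (P \ V) := Finset.sum_nonneg fun V _ => hg _
  have h3 : (0 : ℝ) < ((P.erase x).card.choose i : ℝ) := by
    have : 0 < (P.erase x).card.choose i := Nat.choose_pos (by rw [hc]; omega)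
    exact_mod_cast this
  have h4 : ((P.erase x).card.choose i : ℝ) ≤ (P.card.choose i : ℝ) := by
    have : (P.erase x).card.choose i ≤ P.card.choose i :=
      Nat.choose_le_choose i (by rw [hc]; omega)
    exact_mod_cast this
  exact div_le_div_of_nonneg_left h2 h3 h4

/-! ## part o9 -/

/-- `E_q[Rh] = E_{q+1}[psi]/(q+1)` -/
theorem Ev_Rh (f : Finset α → ℝ) (z : Finset α → α) (χ : ℕ → ℝ) {q : ℕ}
    (hq : q < Fintype.card α) :
    Ev q (Rh f z χ) = Ev (q + 1) (fun Q => psi f z χ Q / (Q.card : ℝ)) := by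
  have h := Ev_double hq (fun P w => rho f z χ w (insert w P))
  have e1 : Ev q (Rh f z χ) =
      Ev q (fun P => (∑ w ∈ Pᶜ, rho f z χ w (insert w P)) / (Pᶜ.card : ℝ)) := rfl
  rw [e1, h]
  apply Ev_congr
  intro Q _
  unfold psi
  congr 1
  apply Finset.sum_congr rfl
  intro y hy
  rw [Finset.insert_erase hy]

theorem Ev_psi_le {f : Finset α → ℝ} (hf0 : ∀ Q, 0 ≤ f Q) (hf1 : ∀ Q, f Q ≤ 1)
    (z : Finset α → α) (hz : ∀ C, f C ≠ 0 → z C ∈ C) {χ : ℕ → ℝ} (hχ0 : ∀ s, 0 ≤ χ s)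
    {t : ℕ} (ht : t ≤ Fintype.card α) :
    Ev t (psi f z χ) ≤ ∑ s ∈ Icc t (Fintype.card α), (t : ℝ) / s * χ s * Ev s f := by
  have h := rho_dual_mem hf0 hf1 z hχ0 (fun _ _ => (1 : ℝ)) (fun _ _ => zero_le_one) ht
  have e1 : Ev t (psi f z χ) = Ev t (fun T => ∑ x ∈ T, (1 : ℝ) * rho f z χ x T) := by
    apply Ev_congr
    intro Q _
    unfold psi
    simp only [one_mul]
  rw [e1]
  refine h.trans (le_of_eq ?_)
  apply Finset.sum_congr rfl
  intro s hs
  have hts : t ≤ s := (Finset.mem_Icc.1 hs).1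
  rw [← Ev_const_mul]
  apply Ev_congr
  intro C hC
  by_cases hf : f C = 0
  · rw [hf]; ring
  · rw [Dn_iter_mem (hz C hf) (by omega), hC, Nat.cast_sub hts]
    ring

theorem Ev_Rh_le {f : Finset α → ℝ} (hf0 : ∀ Q, 0 ≤ f Q) (hf1 : ∀ Q, f Q ≤ 1)
    (z : Finset α → α) (hz : ∀ C, f C ≠ 0 → z C ∈ C) {χ : ℕ → ℝ} (hχ0 : ∀ s, 0 ≤ χ s)
    {q : ℕ} (hq : q < Fintype.card α) :
    Ev q (Rh f z χ) ≤ ∑ s ∈ Icc (q + 1) (Fintype.card α), 1 / (s : ℝ) * χ s * Ev s f := by
  have h := Ev_psi_le hf0 hf1 z hz hχ0 (t := q + 1) hq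
  have hq0 : (0 : ℝ) < ((q + 1 : ℕ) : ℝ) := by positivity
  have e1 : Ev (q + 1) (fun Q => psi f z χ Q / (Q.card : ℝ)) =
      (((q + 1 : ℕ) : ℝ))⁻¹ * Ev (q + 1) (psi f z χ) := by
    rw [← Ev_const_mul]
    apply Ev_congr
    intro Q hQ
    rw [hQ, div_eq_inv_mul]
  rw [Ev_Rh f z χ hq, e1]
  calc (((q + 1 : ℕ) : ℝ))⁻¹ * Ev (q + 1) (psi f z χ)
      ≤ (((q + 1 : ℕ) : ℝ))⁻¹ *
        ∑ s ∈ Icc (q + 1) (Fintype.card α), ((q + 1 : ℕ) : ℝ) / s * χ s * Ev s f :=
        mul_le_mul_of_nonneg_left h (inv_nonneg.2 hq0.le)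
    _ = _ := by
        rw [Finset.mul_sum]
        apply Finset.sum_congr rfl
        intro s _
        field_simp

theorem Ev_Uout_le {f : Finset α → ℝ} (hf0 : ∀ Q, 0 ≤ f Q) (hf1 : ∀ Q, f Q ≤ 1)
    (z : Finset α → α) (hz : ∀ C, f C ≠ 0 → z C ∈ C) {χ : ℕ → ℝ} (hχ0 : ∀ s, 0 ≤ χ s)
    {t : ℕ} (ht : t ≤ Fintype.card α) :
    Ev t (Uout f z χ)
      ≤ ∑ s ∈ Icc t (Fintype.card α), ((s : ℝ) - t) / s * χ s * Ev s f := by
  have h := rho_dual hf0 hf1 z hχ0 (fun x T => if x ∈ T then (0 : ℝ) else 1)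
    (fun _ _ => by split_ifs <;> norm_num) ht
  have e1 : Ev t (Uout f z χ) =
      Ev t (fun T => ∑ x, (if x ∈ T then (0 : ℝ) else 1) * rho f z χ x T) := by
    apply Ev_congr
    intro Q _
    unfold Uout
    rw [← Finset.sum_compl_add_sum Q]
    have h1 : ∑ x ∈ Q, (if x ∈ Q then (0 : ℝ) else 1) * rho f z χ x Q = 0 :=
      Finset.sum_eq_zero fun x hx => by rw [if_pos hx, zero_mul]
    rw [h1, add_zero]
    apply Finset.sum_congr rfl
    intro x hx
    rw [if_neg (Finset.mem_compl.1 hx), one_mul]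
  rw [e1]
  refine h.trans (le_of_eq ?_)
  apply Finset.sum_congr rfl
  intro s hs
  have hts : t ≤ s := (Finset.mem_Icc.1 hs).1
  rw [← Ev_const_mul]
  apply Ev_congr
  intro C hC
  by_cases hf : f C = 0
  · rw [hf]; ring
  · rw [Dn_iter_notMem (hz C hf) (by omega), hC, Nat.cast_sub hts]
    ring

/-! ## part o10 -/

/-- `b ≥ (1-f) Ub` for `b = 1 - psi` -/
theorem one_sub_psi_ge {f : Finset α → ℝ} (hf0 : ∀ Q, 0 ≤ f Q) (hf1 : ∀ Q, f Q ≤ 1)
    (z : Finset α → α) {χ : ℕ → ℝ} (hχ0 : ∀ s, 0 ≤ χ s) (hχ1 : ∀ s, χ s ≤ 1)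
    (Q : Finset α) :
    (1 - f Q) * Up (fun R => 1 - psi f z χ R) Q ≤ 1 - psi f z χ Q := by
  by_cases hQ : Q = univ
  · subst hQ
    rw [Up_univ, mul_zero]
    have := sum_rho_le_one hf0 hf1 z hχ0 hχ1 (univ : Finset α) (univ : Finset α)
    unfold psi
    linarith
  · rw [Up_one_sub hQ]
    have e1 : psi f z χ Q = (∑ x ∈ Q, (if z Q = x then f Q * χ Q.card else 0))
        + (1 - f Q) * ∑ x ∈ Q, Up (rho f z χ x) Q := by
      unfold psi
      rw [Finset.mul_sum, ← Finset.sum_add_distrib]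
      refine Finset.sum_congr rfl fun x _ => ?_
      unfold rho
      rw [Us_eq]
    have e2 : (∑ x ∈ Q, (if z Q = x then f Q * χ Q.card else 0)) ≤ f Q := by
      rw [Finset.sum_ite_eq]
      split_ifs
      · have := hf0 Q
        have := hχ1 Q.card
        nlinarith
      · exact hf0 Q
    have e3 : ∑ x ∈ Q, Up (rho f z χ x) Q ≤ Up (psi f z χ) Q := by
      rw [← Up_sum]
      refine Up_mono fun w hw => ?_
      unfold psi
      exact Finset.sum_le_sum_of_subset_of_nonneg (Finset.subset_insert w Q)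
        fun x _ _ => rho_nonneg hf0 hf1 z hχ0 x _
    have e4 : 0 ≤ 1 - f Q := sub_nonneg.2 (hf1 Q)
    have e5 := mul_le_mul_of_nonneg_left e3 e4
    rw [e1]
    nlinarith

theorem psi_nonneg {f : Finset α → ℝ} (hf0 : ∀ Q, 0 ≤ f Q) (hf1 : ∀ Q, f Q ≤ 1)
    (z : Finset α → α) {χ : ℕ → ℝ} (hχ0 : ∀ s, 0 ≤ χ s) (Q : Finset α) :
    0 ≤ psi f z χ Q := by
  unfold psi
  exact Finset.sum_nonneg fun x _ => rho_nonneg hf0 hf1 z hχ0 x Q

theorem Rh_nonneg {f : Finset α → ℝ} (hf0 : ∀ Q, 0 ≤ f Q) (hf1 : ∀ Q, f Q ≤ 1)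
    (z : Finset α → α) {χ : ℕ → ℝ} (hχ0 : ∀ s, 0 ≤ χ s) (P : Finset α) :
    0 ≤ Rh f z χ P := by
  unfold Rh
  exact div_nonneg (Finset.sum_nonneg fun x _ => rho_nonneg hf0 hf1 z hχ0 x _) (by positivity)

/-! ## part o11 -/

/-- below the block `Rh` is a submartingale going up -/
theorem Rh_le_Up {f : Finset α → ℝ} (hf0 : ∀ Q, 0 ≤ f Q) (hf1 : ∀ Q, f Q ≤ 1)
    (z : Finset α → α) {χ : ℕ → ℝ} (hχ0 : ∀ s, 0 ≤ χ s) (P : Finset α)
    (hP : χ (P.card + 1) = 0) :
    Rh f z χ P ≤ Up (Rh f z χ) P := by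
  by_cases hPu : Pᶜ.card = 0
  · have hP' : Pᶜ = ∅ := Finset.card_eq_zero.1 hPu
    unfold Rh Up
    rw [hP']; simp
  have key : ∀ x ∈ Pᶜ, rho f z χ x (insert x P)
      ≤ (∑ w ∈ (insert x P)ᶜ, rho f z χ x (insert w (insert x P))) / ((Pᶜ.card - 1 : ℕ) : ℝ) := by
    intro x hx
    have hx' : x ∉ P := by simpa using hx
    have hc : (insert x P)ᶜ.card = Pᶜ.card - 1 := by
      rw [Finset.card_compl, Finset.card_insert_of_notMem hx', Finset.card_compl]; omega
    have h1 : rho f z χ x (insert x P) = (1 - f (insert x P)) * Up (rho f z χ x) (insert x P) := by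
      unfold rho
      rw [Us_eq]
      rw [Finset.card_insert_of_notMem hx', hP]
      simp
    have h2 : 0 ≤ Up (rho f z χ x) (insert x P) :=
      Up_nonneg fun w _ => rho_nonneg hf0 hf1 z hχ0 x _
    rw [h1]
    have h3 : Up (rho f z χ x) (insert x P)
        = (∑ w ∈ (insert x P)ᶜ, rho f z χ x (insert w (insert x P))) / ((Pᶜ.card - 1 : ℕ) : ℝ) := by
      unfold Up; rw [hc]
    rw [← h3]
    nlinarith [hf0 (insert x P)]
  have hsw : ∑ x ∈ Pᶜ, ∑ w ∈ (insert x P)ᶜ, rho f z χ x (insert w (insert x P))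
      = ∑ w ∈ Pᶜ, ∑ x ∈ (insert w P)ᶜ, rho f z χ x (insert x (insert w P)) := by
    have e : ∑ x ∈ Pᶜ, ∑ w ∈ (insert x P)ᶜ, rho f z χ x (insert w (insert x P))
        = ∑ w ∈ Pᶜ, ∑ x ∈ (insert w P)ᶜ, rho f z χ x (insert w (insert x P)) := by
      apply Finset.sum_comm'
      intro x w
      simp only [Finset.mem_compl, Finset.mem_insert, not_or]
      constructor
      · rintro ⟨h1, h2, h3⟩; exact ⟨⟨fun h => h2 h.symm, h1⟩, h3⟩
      · rintro ⟨⟨h1, h2⟩, h3⟩; exact ⟨h2, fun h => h1 h.symm, h3⟩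
    rw [e]
    refine Finset.sum_congr rfl fun w _ => ?_
    refine Finset.sum_congr rfl fun x _ => ?_
    rw [Finset.insert_comm w x P]
  have hU : Up (Rh f z χ) P
      = ((∑ w ∈ Pᶜ, ∑ x ∈ (insert w P)ᶜ, rho f z χ x (insert x (insert w P)))
          / ((Pᶜ.card - 1 : ℕ) : ℝ)) / (Pᶜ.card : ℝ) := by
    have e : (∑ w ∈ Pᶜ, Rh f z χ (insert w P))
        = (∑ w ∈ Pᶜ, ∑ x ∈ (insert w P)ᶜ, rho f z χ x (insert x (insert w P)))
          / ((Pᶜ.card - 1 : ℕ) : ℝ) := by
      rw [Finset.sum_div]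
      refine Finset.sum_congr rfl fun w hw => ?_
      have hw' : w ∉ P := by simpa using hw
      have hc : (insert w P)ᶜ.card = Pᶜ.card - 1 := by
        rw [Finset.card_compl, Finset.card_insert_of_notMem hw', Finset.card_compl]; omega
      unfold Rh
      rw [hc]
    unfold Up
    rw [e]
  rw [hU, ← hsw, Finset.sum_div]
  unfold Rh
  apply div_le_div_of_nonneg_right _ (by positivity)
  exact Finset.sum_le_sum key

theorem dom_step {f : Finset α → ℝ} (hf0 : ∀ Q, 0 ≤ f Q) (hf1 : ∀ Q, f Q ≤ 1)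
    (z : Finset α → α) {χ : ℕ → ℝ} (hχ0 : ∀ s, 0 ≤ χ s) {q : ℕ} (hq : q < Fintype.card α)
    (hχq : χ (q + 1) = 0) (h : Finset α → ℝ) (hh0 : ∀ Q, 0 ≤ h Q) (hh : ∀ Q, Dn h Q ≤ h Q)
    (a : ℝ) :
    Ev q (fun P => h P * max (Rh f z χ P - a) 0)
      ≤ Ev (q + 1) (fun P => h P * max (Rh f z χ P - a) 0) := by
  have hstep : Ev q (fun P => h P * max (Rh f z χ P - a) 0)
      ≤ Ev q (fun P => h P * Up (fun Q => max (Rh f z χ Q - a) 0) P) := by
    refine Ev_mono fun P hPc => ?_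
    apply mul_le_mul_of_nonneg_left _ (hh0 P)
    have hPu : P ≠ univ := by
      rintro rfl
      rw [Finset.card_univ] at hPc; omega
    apply max_le
    · have h1 : Rh f z χ P ≤ Up (Rh f z χ) P :=
        Rh_le_Up hf0 hf1 z hχ0 P (by rw [hPc]; exact hχq)
      have h2 : Up (fun Q => Rh f z χ Q - a) P = Up (Rh f z χ) P - a := by
        rw [Up_sub (Rh f z χ) (fun _ => a) P, Up_const hPu]
      have h3 : Up (fun Q => Rh f z χ Q - a) P ≤ Up (fun Q => max (Rh f z χ Q - a) 0) P :=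
        Up_mono fun w _ => le_max_left _ _
      linarith
    · exact Up_nonneg fun w _ => le_max_right _ _
  refine hstep.trans ?_
  rw [Ev_Up_mul hq h (fun Q => max (Rh f z χ Q - a) 0)]
  exact Ev_mono fun Q _ => mul_le_mul_of_nonneg_right (hh Q) (le_max_right _ _)

/-- domination: all levels below the block can be moved up to one level `t` -/
theorem domination {f : Finset α → ℝ} (hf0 : ∀ Q, 0 ≤ f Q) (hf1 : ∀ Q, f Q ≤ 1)
    (z : Finset α → α) {χ : ℕ → ℝ} (hχ0 : ∀ s, 0 ≤ χ s) {q t : ℕ} (hqt : q ≤ t)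
    (ht : t ≤ Fintype.card α) (hχq : ∀ s, q < s → s ≤ t → χ s = 0)
    (h : Finset α → ℝ) (hh0 : ∀ Q, 0 ≤ h Q) (hh : ∀ Q, Dn h Q ≤ h Q) (a : ℝ) :
    Ev q (fun P => h P * max (Rh f z χ P - a) 0)
      ≤ Ev t (fun P => h P * max (Rh f z χ P - a) 0) := by
  induction t, hqt using Nat.le_induction with
  | base => exact le_rfl
  | succ t hqt ih =>
    refine (ih (by omega) (fun s hs hst => hχq s hs (by omega))).trans ?_
    exact dom_step hf0 hf1 z hχ0 (by omega) (hχq (t + 1) (by omega) le_rfl) h hh0 hh a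

/-! ## part o12 -/

/-- cap -/
noncomputable def capf (θ x : ℝ) : ℝ := min 1 (x / θ)

theorem drop_step {f : Finset α → ℝ} (hf0 : ∀ Q, 0 ≤ f Q) (hf1 : ∀ Q, f Q ≤ 1)
    (b : Finset α → ℝ) (hb0 : ∀ Q, 0 ≤ b Q)
    (hb : ∀ Q, (1 - f Q) * Up b Q ≤ b Q) {θ : ℝ} (hθ : 0 < θ) {t : ℕ}
    (ht : t < Fintype.card α) :
    9 * Ev t (fun P => if Up b P ≤ θ then
        (1 - Ds f f P) * Up (fun R => if 10 * θ ≤ b R then (1 : ℝ) else 0) P else 0)
      + Ev (t + 1) (fun P => (1 - Dn (Ds f f) P) * capf θ (b P))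
      ≤ Ev t (fun P => (1 - Dn (Ds f f) P) * capf θ (b P)) := by
  have hH1 : ∀ Q, Ds f f Q ≤ 1 := fun Q => Ds_le_one hf1 (fun Q => le_rfl) Q
  have hDH1 : ∀ Q, Dn (Ds f f) Q ≤ 1 := fun Q => Dn_le_of_le zero_le_one (fun y _ => hH1 _)
  have hU0 : ∀ Q, 0 ≤ Up b Q := fun Q => Up_nonneg (fun w _ => hb0 _)
  have e1 : Ev (t + 1) (fun P => (1 - Dn (Ds f f) P) * capf θ (b P))
      = Ev t (fun P => (1 - Ds f f P) * Up (fun R => capf θ (b R)) P) := by
    rw [Ev_Up_mul ht]
    refine Ev_congr fun Q hQ => ?_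
    rw [Dn_one_sub]
    rintro rfl
    simp at hQ
  rw [e1, ← Ev_const_mul, ← Ev_add]
  refine Ev_mono fun P hP => ?_
  have hPu : P ≠ univ := by
    rintro rfl
    rw [Finset.card_univ] at hP
    omega
  have hH : 1 - Ds f f P = (1 - f P) * (1 - Dn (Ds f f) P) := by
    rw [Ds_eq]; ring
  have hH0 : 0 ≤ 1 - Ds f f P := by linarith [hH1 P]
  -- lower bound for the right side
  have hr : (1 - Ds f f P) * capf θ (Up b P) ≤ (1 - Dn (Ds f f) P) * capf θ (b P) := by
    have h1 : (1 - f P) * capf θ (Up b P) ≤ capf θ (b P) := by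
      unfold capf
      apply le_min
      · have h2 : min 1 (Up b P / θ) ≤ 1 := min_le_left _ _
        have h3 : 0 ≤ min 1 (Up b P / θ) := le_min zero_le_one (div_nonneg (hU0 P) hθ.le)
        nlinarith [hf0 P, hf1 P]
      · have h2 : min 1 (Up b P / θ) ≤ Up b P / θ := min_le_right _ _
        have h3 : (1 - f P) * min 1 (Up b P / θ) ≤ (1 - f P) * (Up b P / θ) :=
          mul_le_mul_of_nonneg_left h2 (by linarith [hf1 P])
        refine h3.trans ?_
        rw [← mul_div_assoc]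
        exact div_le_div_of_nonneg_right (hb P) hθ.le
    rw [hH]
    have h4 : 0 ≤ 1 - Dn (Ds f f) P := by linarith [hDH1 P]
    calc (1 - f P) * (1 - Dn (Ds f f) P) * capf θ (Up b P)
        = (1 - Dn (Ds f f) P) * ((1 - f P) * capf θ (Up b P)) := by ring
      _ ≤ _ := mul_le_mul_of_nonneg_left h1 h4
  refine le_trans ?_ hr
  by_cases hc : Up b P ≤ θ
  · rw [if_pos hc]
    have h5 : capf θ (Up b P) = Up b P / θ := by
      unfold capf
      apply min_eq_right
      rwa [div_le_one hθ]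
    rw [h5]
    have h6 : 9 * Up (fun R => if 10 * θ ≤ b R then (1 : ℝ) else 0) P + Up (fun R => capf θ (b R)) P
        ≤ Up b P / θ := by
      rw [← Up_const_mul, ← Up_add]
      have h7 : Up b P / θ = Up (fun R => (1 / θ) * b R) P := by
        rw [Up_const_mul]; ring
      rw [h7]
      refine Up_mono fun w _ => ?_
      have h8 : (1 / θ) * b (insert w P) = b (insert w P) / θ := by ring
      rw [h8]
      by_cases h9 : 10 * θ ≤ b (insert w P)
      · rw [if_pos h9]
        have h10 : capf θ (b (insert w P)) ≤ 1 := min_le_left _ _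
        have h11 : 10 ≤ b (insert w P) / θ := by rwa [le_div_iff₀ hθ]
        linarith
      · rw [if_neg h9]
        have h10 : capf θ (b (insert w P)) ≤ b (insert w P) / θ := min_le_right _ _
        linarith
    calc 9 * ((1 - Ds f f P) * Up (fun R => if 10 * θ ≤ b R then (1 : ℝ) else 0) P)
          + (1 - Ds f f P) * Up (fun R => capf θ (b R)) P
        = (1 - Ds f f P) * (9 * Up (fun R => if 10 * θ ≤ b R then (1 : ℝ) else 0) P
          + Up (fun R => capf θ (b R)) P) := by ring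
      _ ≤ _ := mul_le_mul_of_nonneg_left h6 hH0
  · rw [if_neg hc, mul_zero, zero_add]
    have h5 : capf θ (Up b P) = 1 := by
      unfold capf
      apply min_eq_left
      rw [le_div_iff₀ hθ]
      linarith
    rw [h5]
    apply mul_le_mul_of_nonneg_left _ hH0
    exact Up_le_of_le zero_le_one (fun w _ => min_le_left _ _)

/-- drop lemma: `b` with `b ≥ (1-f) Ub`; the total probability of a step from `Ub ≤ θ` to
`b ≥ 10 θ` along a window of levels is at most `E[(1-DH) b]/(9 θ)` -/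
theorem drop_lemma {f : Finset α → ℝ} (hf0 : ∀ Q, 0 ≤ f Q) (hf1 : ∀ Q, f Q ≤ 1)
    (b : Finset α → ℝ) (hb0 : ∀ Q, 0 ≤ b Q) (hb1 : ∀ Q, b Q ≤ 1)
    (hb : ∀ Q, (1 - f Q) * Up b Q ≤ b Q) {θ : ℝ} (hθ : 0 < θ) {t₁ w : ℕ}
    (htw : t₁ + w ≤ Fintype.card α) :
    ∑ t ∈ Ico t₁ (t₁ + w), Ev t (fun P => if Up b P ≤ θ then
        (1 - Ds f f P) * Up (fun R => if 10 * θ ≤ b R then (1 : ℝ) else 0) P else 0)
      ≤ 1 / (9 * θ) * Ev t₁ (fun P => (1 - Dn (Ds f f) P) * b P) := by
  have hH1 : ∀ Q, Ds f f Q ≤ 1 := fun Q => Ds_le_one hf1 (fun Q => le_rfl) Q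
  have hDH1 : ∀ Q, Dn (Ds f f) Q ≤ 1 := fun Q => Dn_le_of_le zero_le_one (fun y _ => hH1 _)
  have key : ∀ v : ℕ, v ≤ w → 9 * ∑ t ∈ Ico t₁ (t₁ + v), Ev t (fun P => if Up b P ≤ θ then
        (1 - Ds f f P) * Up (fun R => if 10 * θ ≤ b R then (1 : ℝ) else 0) P else 0)
      + Ev (t₁ + v) (fun P => (1 - Dn (Ds f f) P) * capf θ (b P))
      ≤ Ev t₁ (fun P => (1 - Dn (Ds f f) P) * capf θ (b P)) := by
    intro v
    induction v with
    | zero => intro _; simp
    | succ v ih =>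
      intro hv
      have h1 := ih (by omega)
      have h2 := drop_step hf0 hf1 b hb0 hb hθ (t := t₁ + v) (by omega)
      rw [← add_assoc, Finset.sum_Ico_succ_top (by omega), mul_add]
      linarith
  have h1 := key w le_rfl
  have h2 : 0 ≤ Ev (t₁ + w) (fun P => (1 - Dn (Ds f f) P) * capf θ (b P)) := by
    refine Ev_nonneg fun P _ => ?_
    apply mul_nonneg (by linarith [hDH1 P])
    exact le_min zero_le_one (div_nonneg (hb0 P) hθ.le)
  have h3 : Ev t₁ (fun P => (1 - Dn (Ds f f) P) * capf θ (b P))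
      ≤ 1 / θ * Ev t₁ (fun P => (1 - Dn (Ds f f) P) * b P) := by
    rw [← Ev_const_mul]
    refine Ev_mono fun P _ => ?_
    have h4 : capf θ (b P) ≤ b P / θ := min_le_right _ _
    have h5 : 0 ≤ 1 - Dn (Ds f f) P := by linarith [hDH1 P]
    calc (1 - Dn (Ds f f) P) * capf θ (b P) ≤ (1 - Dn (Ds f f) P) * (b P / θ) :=
          mul_le_mul_of_nonneg_left h4 h5
      _ = _ := by ring
  have h6 : 1 / (9 * θ) * Ev t₁ (fun P => (1 - Dn (Ds f f) P) * b P)
      = (1 / θ * Ev t₁ (fun P => (1 - Dn (Ds f f) P) * b P)) / 9 := by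
    field_simp
  rw [h6]
  linarith

/-! ## part o13 -/

/-- `U^i v ≤ v + P(next hit within i levels)`, `v = 1-u` -/
theorem Up_iter_v_le {f : Finset α → ℝ} (hf0 : ∀ Q, 0 ≤ f Q) (hf1 : ∀ Q, f Q ≤ 1)
    (T : Finset α) (i : ℕ) (hi : T.card + i ≤ Fintype.card α) :
    (Up^[i] (fun Q => 1 - Us f f Q)) T
      ≤ (1 - Us f f T) + Us f (fun Q => f Q * (if Q.card < T.card + i then 1 else 0)) T := by
  induction i generalizing T with
  | zero =>
    simp only [Function.iterate_zero, id_eq]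
    have h0 : 0 ≤ Us f (fun Q => f Q * (if Q.card < T.card + 0 then 1 else 0)) T := by
      apply Us_nonneg hf1
      intro Q
      apply mul_nonneg (hf0 Q)
      split_ifs <;> norm_num
    linarith
  | succ i ih =>
    rw [Function.iterate_succ_apply']
    have hT : T ≠ univ := by
      rintro rfl
      rw [Finset.card_univ] at hi
      omega
    set s : Finset α → ℝ := fun Q => f Q * (if Q.card < T.card + (i + 1) then 1 else 0) with hs
    have h1 : Up (Up^[i] (fun Q => 1 - Us f f Q)) T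
        ≤ Up (fun Q => (1 - Us f f Q) + Us f s Q) T := by
      apply Up_mono
      intro w hw
      have hc : (insert w T).card = T.card + 1 := Finset.card_insert_of_notMem hw
      have h2 := ih (insert w T) (by rw [hc]; omega)
      have h3 : (fun Q : Finset α => f Q * (if Q.card < (insert w T).card + i then (1:ℝ) else 0))
          = s := by
        rw [hs, hc]
        have : T.card + 1 + i = T.card + (i + 1) := by omega
        rw [this]
      rw [h3] at h2
      exact h2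
    rw [Up_add, Up_one_sub hT] at h1
    have hsT : s T = f T := by
      rw [hs]
      have : T.card < T.card + (i + 1) := by omega
      simp [this]
    have hle : Up (Us f s) T ≤ Up (Us f f) T := by
      apply Up_mono
      intro w _
      apply Us_mono hf1
      intro Q
      rw [hs]
      dsimp only
      split_ifs
      · rw [mul_one]
      · rw [mul_zero]; exact hf0 Q
    have e1 := Us_eq f f T
    have e2 := Us_eq f s T
    rw [hsT] at e2
    have hprod : 0 ≤ f T * (Up (Us f f) T - Up (Us f s) T) :=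
      mul_nonneg (hf0 T) (by linarith)
    rw [e1, e2]
    have h1' : Up (Up^[i] (fun Q => 1 - Us f f Q)) T
        ≤ 1 - Up (Us f f) T + Up (Us f s) T := h1
    nlinarith [h1', hprod]

/-! ## part o14 -/

theorem Up_iter_mem_aux (g : Finset α → ℝ) {x : α} (j : ℕ) : ∀ {S : Finset α}, x ∈ S →
    (Up^[j] (fun Y => if x ∈ Y then g Y else 0)) S = (Up^[j] g) S := by
  induction j with
  | zero =>
    intro S hS
    simp [hS]
  | succ j ih =>
    intro S hS
    rw [Function.iterate_succ_apply', Function.iterate_succ_apply']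
    apply Up_congr
    intro w hw
    exact ih (Finset.mem_insert_of_mem hS)

/-- prescribing that `x` is among the added elements -/
theorem Up_iter_insert (g : Finset α → ℝ) {x : α} {T : Finset α} (hx : x ∉ T) (j : ℕ)
    (hj : T.card + j + 1 ≤ Fintype.card α) :
    (Up^[j + 1] (fun Y => if x ∈ Y then g Y else 0)) T
      = ((j : ℝ) + 1) / ((Fintype.card α : ℝ) - T.card) * (Up^[j] g) (insert x T) := by
  induction j generalizing T with
  | zero =>
    have hN : ((Tᶜ.card : ℕ) : ℝ) = (Fintype.card α : ℝ) - T.card := by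
      rw [Finset.card_compl, Nat.cast_sub (Finset.card_le_univ T)]
    rw [Function.iterate_succ_apply', Function.iterate_zero]
    simp only [id]
    unfold Up
    rw [hN]
    have hsum : ∑ w ∈ Tᶜ, (if x ∈ insert w T then g (insert w T) else 0) = g (insert x T) := by
      rw [Finset.sum_eq_single x]
      · simp
      · intro w hw hwx
        have : x ∉ insert w T := by
          simp [hx, Ne.symm hwx]
        simp [this]
      · intro h
        exact absurd (by simpa using hx) h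
    rw [hsum]
    simp [div_eq_mul_inv, mul_comm]
  | succ j ih =>
    have hN : ((Tᶜ.card : ℕ) : ℝ) = (Fintype.card α : ℝ) - T.card := by
      rw [Finset.card_compl, Nat.cast_sub (Finset.card_le_univ T)]
    have hN2 : (2 : ℝ) ≤ (Fintype.card α : ℝ) - T.card := by
      have : T.card + 2 ≤ Fintype.card α := by omega
      have h' : ((T.card + 2 : ℕ) : ℝ) ≤ (Fintype.card α : ℝ) := by exact_mod_cast this
      push_cast at h'
      linarith
    rw [Function.iterate_succ_apply']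
    set F : Finset α → ℝ := fun Y => if x ∈ Y then g Y else 0 with hF
    have hstep : Up (Up^[j + 1] F) T =
        (∑ w ∈ Tᶜ, (Up^[j + 1] F) (insert w T)) / ((Fintype.card α : ℝ) - T.card) := by
      rw [Up, hN]
    rw [hstep]
    have hxT : x ∈ Tᶜ := by simpa using hx
    rw [← Finset.add_sum_erase _ _ hxT, Up_iter_mem_aux g (j + 1) (Finset.mem_insert_self x T)]
    have hc : Tᶜ.erase x = (insert x T)ᶜ := by
      ext a; simp
    have h2 : ∀ w ∈ Tᶜ.erase x, (Up^[j + 1] F) (insert w T) =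
        ((j : ℝ) + 1) / ((Fintype.card α : ℝ) - T.card - 1) *
          (Up^[j] g) (insert w (insert x T)) := by
      intro w hw
      rw [Finset.mem_erase, Finset.mem_compl] at hw
      have hx' : x ∉ insert w T := by
        simp [hx, Ne.symm hw.1]
      rw [ih hx' (by rw [Finset.card_insert_of_notMem hw.2]; omega),
        Finset.card_insert_of_notMem hw.2, Finset.insert_comm]
      push_cast
      ring
    rw [Finset.sum_congr rfl h2, ← Finset.mul_sum, hc]
    have h3 : ∑ w ∈ (insert x T)ᶜ, (Up^[j] g) (insert w (insert x T)) =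
        ((Fintype.card α : ℝ) - T.card - 1) * (Up^[j + 1] g) (insert x T) := by
      rw [Function.iterate_succ_apply', Up, Finset.card_compl, Finset.card_insert_of_notMem hx,
        Nat.cast_sub (by omega)]
      push_cast
      have : (Fintype.card α : ℝ) - (T.card + 1) ≠ 0 := by
        have : (0:ℝ) < (Fintype.card α : ℝ) - (T.card + 1) := by linarith
        exact this.ne'
      field_simp
      ring
    rw [h3]
    have h4 : (Fintype.card α : ℝ) - T.card - 1 ≠ 0 := by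
      have : (0:ℝ) < (Fintype.card α : ℝ) - T.card - 1 := by linarith
      exact this.ne'
    have h5 : (Fintype.card α : ℝ) - T.card ≠ 0 := by
      have : (0:ℝ) < (Fintype.card α : ℝ) - T.card := by linarith
      exact this.ne'
    push_cast
    field_simp
    ring

theorem Up_iter_sum_aux {ι : Type*} (s : Finset ι) (j : ℕ) :
    ∀ (g : ι → Finset α → ℝ) (P : Finset α),
      (Up^[j] (fun Q => ∑ i ∈ s, g i Q)) P = ∑ i ∈ s, (Up^[j] (g i)) P := by
  induction j with
  | zero => intro g P; simp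
  | succ j ih =>
    intro g P
    rw [Function.iterate_succ_apply']
    have : Up^[j] (fun Q => ∑ i ∈ s, g i Q) = fun Q => ∑ i ∈ s, (Up^[j] (g i)) Q := by
      funext Q
      exact ih g Q
    rw [this, Up_sum]
    refine Finset.sum_congr rfl fun i _ => ?_
    rw [Function.iterate_succ_apply']

theorem Up_iter_le_one_aux (j : ℕ) : ∀ (g : Finset α → ℝ), (∀ Q, g Q ≤ 1) →
    ∀ P, (Up^[j] g) P ≤ 1 := by
  induction j with
  | zero => intro g hg P; simpa using hg P
  | succ j ih =>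
    intro g hg P
    rw [Function.iterate_succ_apply']
    exact Up_le_of_le zero_le_one fun w _ => ih g hg _

/-- exchangeability bound: if `χ` vanishes below level `s₀` then
`∑_{x ∉ P} rho x (P+x) ≤ (n-p)/(s₀-p)` -/
theorem Rbar_bound {f : Finset α → ℝ} (hf0 : ∀ Q, 0 ≤ f Q) (hf1 : ∀ Q, f Q ≤ 1)
    (z : Finset α → α) {χ : ℕ → ℝ} (hχ0 : ∀ s, 0 ≤ χ s) (hχ1 : ∀ s, χ s ≤ 1)
    {s₀ : ℕ} (hs₀ : ∀ s, s < s₀ → χ s = 0) (hs₀n : s₀ ≤ Fintype.card α)
    (P : Finset α) (hP : P.card < s₀) :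
    ∑ x ∈ Pᶜ, rho f z χ x (insert x P)
      ≤ ((Fintype.card α : ℝ) - P.card) / ((s₀ : ℝ) - P.card) := by
  have hstep : ∀ (x : α) (Y : Finset α), Y.card < s₀ →
      rho f z χ x Y ≤ Up (rho f z χ x) Y := by
    intro x Y hY
    have h0 : 0 ≤ Up (rho f z χ x) Y :=
      Up_nonneg fun w _ => rho_nonneg hf0 hf1 z hχ0 x _
    have h1 : rho f z χ x Y = (1 - f Y) * Up (rho f z χ x) Y := by
      conv_lhs => rw [rho, Us_eq]
      rw [hs₀ _ hY]
      simp [rho]
    rw [h1]
    have := hf0 Y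
    nlinarith
  have hiter : ∀ (i : ℕ) (x : α) (Y : Finset α), Y.card + i ≤ s₀ →
      rho f z χ x Y ≤ (Up^[i] (rho f z χ x)) Y := by
    intro i
    induction i with
    | zero => intro x Y _; simp
    | succ i ih =>
      intro x Y hY
      rw [Function.iterate_succ_apply']
      refine le_trans (hstep x Y (by omega)) (Up_mono fun w hw => ih x _ ?_)
      rw [Finset.card_insert_of_notMem hw]
      omega
  obtain ⟨i, hi⟩ : ∃ i, s₀ = P.card + i + 1 := ⟨s₀ - P.card - 1, by omega⟩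
  have hsp : (s₀ : ℝ) - P.card = (i : ℝ) + 1 := by
    rw [hi]; push_cast; ring
  have hNpos : (0 : ℝ) < (Fintype.card α : ℝ) - P.card := by
    have : P.card < Fintype.card α := by omega
    have h' : (P.card : ℝ) < (Fintype.card α : ℝ) := by exact_mod_cast this
    linarith
  have hbound : ∀ x ∈ Pᶜ, rho f z χ x (insert x P) ≤
      ((Fintype.card α : ℝ) - P.card) / ((s₀ : ℝ) - P.card) *
        (Up^[i + 1] (fun Y => if x ∈ Y then rho f z χ x Y else 0)) P := by
    intro x hx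
    have hx' : x ∉ P := by simpa using hx
    have h1 := hiter i x (insert x P) (by rw [Finset.card_insert_of_notMem hx']; omega)
    rw [Up_iter_insert (rho f z χ x) hx' i (by omega), hsp]
    have hi1 : (0 : ℝ) < (i : ℝ) + 1 := by positivity
    have : ((Fintype.card α : ℝ) - P.card) / ((i : ℝ) + 1) *
        (((i : ℝ) + 1) / ((Fintype.card α : ℝ) - P.card) *
          (Up^[i] (rho f z χ x)) (insert x P)) = (Up^[i] (rho f z χ x)) (insert x P) := by
      field_simp
    rw [this]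
    exact h1
  refine le_trans (Finset.sum_le_sum hbound) ?_
  rw [← Finset.mul_sum, ← Up_iter_sum_aux]
  have hle : (Up^[i + 1] (fun Q => ∑ x ∈ Pᶜ, if x ∈ Q then rho f z χ x Q else 0)) P ≤ 1 := by
    apply Up_iter_le_one_aux
    intro Q
    rw [← Finset.sum_filter]
    exact sum_rho_le_one hf0 hf1 z hχ0 hχ1 _ Q
  have hnn : 0 ≤ ((Fintype.card α : ℝ) - P.card) / ((s₀ : ℝ) - P.card) := by
    rw [hsp]
    positivity
  calc _ ≤ ((Fintype.card α : ℝ) - P.card) / ((s₀ : ℝ) - P.card) * 1 :=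
        mul_le_mul_of_nonneg_left hle hnn
    _ = _ := mul_one _

/-! ## part o15 -/

theorem dbl_sum (p : ℕ) (Φ : Finset α → α → ℝ) :
    ∑ P ∈ powersetCard p (univ : Finset α), ∑ w ∈ Pᶜ, Φ P w
      = ∑ Q ∈ powersetCard (p + 1) (univ : Finset α), ∑ y ∈ Q, Φ (Q.erase y) y := by
  rw [Finset.sum_sigma', Finset.sum_sigma']
  refine Finset.sum_bij' (fun a _ => ⟨insert a.2 a.1, a.2⟩) (fun a _ => ⟨a.1.erase a.2, a.2⟩)
    ?_ ?_ ?_ ?_ ?_
  · rintro ⟨P, w⟩ h
    simp only [Finset.mem_sigma, Finset.mem_powersetCard, Finset.mem_compl] at h ⊢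
    refine ⟨⟨Finset.subset_univ _, ?_⟩, Finset.mem_insert_self _ _⟩
    rw [Finset.card_insert_of_notMem h.2, h.1.2]
  · rintro ⟨Q, y⟩ h
    simp only [Finset.mem_sigma, Finset.mem_powersetCard, Finset.mem_compl] at h ⊢
    refine ⟨⟨Finset.subset_univ _, ?_⟩, Finset.notMem_erase _ _⟩
    rw [Finset.card_erase_of_mem h.2, h.1.2]; rfl
  · rintro ⟨P, w⟩ h
    simp only [Finset.mem_sigma, Finset.mem_powersetCard, Finset.mem_compl] at h
    simp [Finset.erase_insert h.2]
  · rintro ⟨Q, y⟩ h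
    simp only [Finset.mem_sigma, Finset.mem_powersetCard] at h
    simp [Finset.insert_erase h.2]
  · rintro ⟨P, w⟩ h
    simp only [Finset.mem_sigma, Finset.mem_powersetCard, Finset.mem_compl] at h
    simp [Finset.erase_insert h.2]

theorem dbl_sum2 (p : ℕ) (Φ : Finset α → α → α → ℝ) :
    ∑ P ∈ powersetCard p (univ : Finset α), ∑ x ∈ Pᶜ, ∑ y ∈ Pᶜ.erase x, Φ P x y
      = ∑ T ∈ powersetCard (p + 2) (univ : Finset α),
          ∑ x ∈ T, ∑ y ∈ T.erase x, Φ ((T.erase x).erase y) x y := by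
  rw [dbl_sum p (fun P x => ∑ y ∈ Pᶜ.erase x, Φ P x y)]
  have e1 : ∀ Q ∈ powersetCard (p + 1) (univ : Finset α),
      ∑ x ∈ Q, ∑ y ∈ (Q.erase x)ᶜ.erase x, Φ (Q.erase x) x y
        = ∑ y ∈ Qᶜ, ∑ x ∈ Q, Φ (Q.erase x) x y := by
    intro Q _
    rw [Finset.sum_comm]
    refine Finset.sum_congr rfl fun x hx => ?_
    refine Finset.sum_congr ?_ fun y _ => rfl
    ext a
    simp only [Finset.mem_erase, Finset.mem_compl, not_and]
    constructor
    · rintro ⟨h1, h2⟩; exact h2 h1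
    · intro h
      exact ⟨fun h3 => h (h3 ▸ hx), fun _ => h⟩
  rw [Finset.sum_congr rfl e1, dbl_sum (p + 1) (fun Q y => ∑ x ∈ Q, Φ (Q.erase x) x y)]
  refine Finset.sum_congr rfl fun T _ => ?_
  rw [Finset.sum_comm' (s' := fun x => T.erase x) (t' := T)]
  · refine Finset.sum_congr rfl fun x _ => Finset.sum_congr rfl fun y _ => ?_
    rw [Finset.erase_right_comm]
  · intro x y
    simp only [Finset.mem_erase]
    tauto

/-- double counting of pairs -/
theorem Ev_double2 {p : ℕ} (hp : p + 2 ≤ Fintype.card α) (Φ : Finset α → α → α → ℝ) :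
    Ev p (fun P => ∑ x ∈ Pᶜ, ∑ y ∈ Pᶜ.erase x, Φ P x y)
        / (((Fintype.card α : ℝ) - p) * ((Fintype.card α : ℝ) - p - 1))
      = Ev (p + 2) (fun T => ∑ x ∈ T, ∑ y ∈ T.erase x, Φ ((T.erase x).erase y) x y)
        / (((p : ℝ) + 2) * ((p : ℝ) + 1)) := by
  unfold Ev
  rw [dbl_sum2, div_div, div_div]
  congr 1
  have h1 : ((Fintype.card α).choose (p + 1) : ℝ) * (p + 1)
      = (Fintype.card α).choose p * ((Fintype.card α : ℝ) - p) := by
    have h := Nat.choose_succ_right_eq (Fintype.card α) p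
    have h' := congrArg (Nat.cast (R := ℝ)) h
    rw [Nat.cast_mul, Nat.cast_mul, Nat.cast_sub (by omega)] at h'
    push_cast at h'
    exact h'
  have h2 : ((Fintype.card α).choose (p + 2) : ℝ) * (p + 2)
      = (Fintype.card α).choose (p + 1) * ((Fintype.card α : ℝ) - p - 1) := by
    have h := Nat.choose_succ_right_eq (Fintype.card α) (p + 1)
    have h' := congrArg (Nat.cast (R := ℝ)) h
    rw [Nat.cast_mul, Nat.cast_mul, Nat.cast_sub (by omega)] at h'
    push_cast at h'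
    rw [show p + 2 = p + 1 + 1 from rfl]
    linarith
  calc ((Fintype.card α).choose p : ℝ) * (((Fintype.card α : ℝ) - p) * ((Fintype.card α : ℝ) - p - 1))
      = ((Fintype.card α).choose p * ((Fintype.card α : ℝ) - p)) * ((Fintype.card α : ℝ) - p - 1) := by
        ring
    _ = ((Fintype.card α).choose (p + 1) * ((Fintype.card α : ℝ) - p - 1)) * (p + 1) := by
        rw [← h1]; ring
    _ = (Fintype.card α).choose (p + 2) * (((p : ℝ) + 2) * ((p : ℝ) + 1)) := by
        rw [← h2]; ring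

/-! ## part o16 -/

theorem sum_pos_part_range {a : ℝ} (ha : 0 < a) (J : ℕ) : ∀ R : ℝ, 0 ≤ R →
    ∑ j ∈ range J, max (R - a * ((j + 1 : ℕ) : ℝ)) 0 ≤ R ^ 2 / (2 * a) := by
  induction J with
  | zero =>
    intro R _
    simp
    positivity
  | succ J ih =>
    intro R hR
    rw [Finset.sum_range_succ']
    rcases le_or_gt a R with h | h
    · have h1 := ih (R - a) (by linarith)
      have h2 : ∑ j ∈ range J, max (R - a * ((j + 1 + 1 : ℕ) : ℝ)) 0
          = ∑ j ∈ range J, max (R - a - a * ((j + 1 : ℕ) : ℝ)) 0 := by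
        apply Finset.sum_congr rfl
        intro j _
        congr 1
        push_cast
        ring
      rw [h2]
      have h3 : max (R - a * ((0 + 1 : ℕ) : ℝ)) 0 = R - a := by
        push_cast
        rw [mul_one]
        exact max_eq_left (by linarith)
      rw [h3]
      have h4 : (R - a) ^ 2 / (2 * a) + (R - a) ≤ R ^ 2 / (2 * a) := by
        have h5 : (R - a) ^ 2 / (2 * a) + (R - a) = R ^ 2 / (2 * a) - a / 2 := by
          field_simp
          ring
        rw [h5]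
        linarith
      linarith
    · have h1 : ∀ j : ℕ, max (R - a * ((j + 1 : ℕ) : ℝ)) 0 = 0 := by
        intro j
        apply max_eq_right
        push_cast
        have : (0 : ℝ) ≤ a * j := by positivity
        nlinarith
      rw [Finset.sum_eq_zero (fun j _ => h1 (j + 1)), h1 0, zero_add]
      positivity

theorem sum_pos_part {R a : ℝ} (hR : 0 ≤ R) (ha : 0 < a) (J : ℕ) :
    ∑ j ∈ Icc 1 J, max (R - a * j) 0 ≤ R ^ 2 / (2 * a) := by
  have h : ∑ j ∈ Icc 1 J, max (R - a * j) 0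
      = ∑ j ∈ range J, max (R - a * ((j + 1 : ℕ) : ℝ)) 0 := by
    induction J with
    | zero => simp
    | succ J ih =>
      rw [Finset.sum_Icc_succ_top (by omega), Finset.sum_range_succ, ih]
  rw [h]
  exact sum_pos_part_range ha J R hR

end UF
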