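import Pool.Agent.UFree.Base

set_option autoImplicit false
set_option linter.unusedSectionVars false
set_option linter.unusedVariables false
set_option linter.unusedSimpArgs false
open Finset

namespace UF
variable {α : Type*} [DecidableEq α]

/-! ## part m1a -/

theorem M1a_mono_ins {g : Finset α → ℝ} (hg : Monotone g) (x : α) :
    Monotone (fun V => g (insert x V)) := fun _ _ hAB => hg (Finset.insert_subset_insert x hAB)

/-- monotone in the density -/
theorem mu_mono_q {q q' : ℝ} (h0 : 0 ≤ q) (hqq : q ≤ q') (h1 : q' ≤ 1) (S : Finset α)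
    {g : Finset α → ℝ} (hg : Monotone g) : mu q S g ≤ mu q' S g := by
  induction S using Finset.induction_on generalizing g with
  | empty => rw [mu_empty, mu_empty]
  | insert x S hx ih =>
    rw [mu_insert q S x hx, mu_insert q' S x hx]
    have e1 := ih (M1a_mono_ins hg x)
    have e2 := ih hg
    have e3 : mu q S g ≤ mu q S (fun V => g (insert x V)) :=
      mu_mono h0 (hqq.trans h1) S (fun V _ => hg (Finset.subset_insert x V))
    have f1 : q' * mu q S (fun V => g (insert x V)) ≤ q' * mu q' S (fun V => g (insert x V)) :=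
      mul_le_mul_of_nonneg_left e1 (h0.trans hqq)
    have f2 : (1 - q') * mu q S g ≤ (1 - q') * mu q' S g :=
      mul_le_mul_of_nonneg_left e2 (by linarith)
    have f3 : 0 ≤ (q' - q) * (mu q S (fun V => g (insert x V)) - mu q S g) :=
      mul_nonneg (by linarith) (by linarith)
    linarith

/-- monotone in the ground set -/
theorem mu_subset {q : ℝ} (h0 : 0 ≤ q) (h1 : q ≤ 1) {S S' : Finset α} (hS : S ⊆ S')
    {g : Finset α → ℝ} (hg : Monotone g) : mu q S g ≤ mu q S' g := by
  have key : ∀ D : Finset α, mu q S g ≤ mu q (S ∪ D) g := by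
    intro D
    induction D using Finset.induction_on with
    | empty => rw [Finset.union_empty]
    | insert x D _ ih =>
      rw [Finset.union_insert]
      by_cases hx : x ∈ S ∪ D
      · rw [Finset.insert_eq_of_mem hx]
        exact ih
      · rw [mu_insert q _ x hx]
        have e3 : mu q (S ∪ D) g ≤ mu q (S ∪ D) (fun V => g (insert x V)) :=
          mu_mono h0 h1 _ (fun V _ => hg (Finset.subset_insert x V))
        have := mul_le_mul_of_nonneg_left e3 h0
        linarith
  have h := key S'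
  rw [Finset.union_eq_right.mpr hS] at h
  exact h

/-- restriction: only the trace on `S` matters -/
theorem mu_inter (q : ℝ) {S S' : Finset α} (hS : S ⊆ S') (g : Finset α → ℝ) :
    mu q S' (fun V => g (V ∩ S)) = mu q S g := by
  have key : ∀ D : Finset α, mu q (S ∪ D) (fun V => g (V ∩ S)) = mu q S g := by
    intro D
    induction D using Finset.induction_on with
    | empty =>
      rw [Finset.union_empty]
      apply mu_congr
      intro V hV
      rw [Finset.inter_eq_left.mpr hV]
    | insert x D _ ih =>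
      rw [Finset.union_insert]
      by_cases hx : x ∈ S ∪ D
      · rw [Finset.insert_eq_of_mem hx]
        exact ih
      · have hxS : x ∉ S := fun h => hx (Finset.mem_union_left _ h)
        rw [mu_insert q _ x hx]
        have e : (fun V => g (insert x V ∩ S)) = fun V => g (V ∩ S) := by
          funext V
          rw [Finset.insert_inter_of_notMem hxS]
        rw [e, ih]
        ring
  have h := key S'
  rw [Finset.union_eq_right.mpr hS] at h
  exact h

/-- complement -/
theorem mu_compl (q : ℝ) (S : Finset α) (g : Finset α → ℝ) :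
    mu q S (fun V => g (S \ V)) = mu (1 - q) S g := by
  induction S using Finset.induction_on generalizing g with
  | empty => rw [mu_empty, mu_empty]; simp
  | insert x S hx ih =>
    rw [mu_insert q S x hx, mu_insert (1 - q) S x hx]
    have e1 : mu q S (fun V => g (insert x S \ insert x V)) = mu q S (fun V => g (S \ V)) := by
      apply mu_congr
      intro V hV
      congr 1
      ext y
      simp only [Finset.mem_sdiff, Finset.mem_insert]
      constructor
      · rintro ⟨h1, h2⟩
        push Not at h2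
        rcases h1 with h1 | h1
        · exact absurd h1 h2.1
        · exact ⟨h1, h2.2⟩
      · rintro ⟨h1, h2⟩
        refine ⟨Or.inr h1, ?_⟩
        rintro (h3 | h3)
        · rw [h3] at h1
          exact hx h1
        · exact h2 h3
    have e2 : mu q S (fun V => g (insert x S \ V)) =
        mu q S (fun V => (fun W => g (insert x W)) (S \ V)) := by
      apply mu_congr
      intro V hV
      have hxV : x ∉ V := fun h => hx (hV h)
      rw [Finset.insert_sdiff_of_notMem _ hxV]
    rw [e1, e2, ih g, ih (fun W => g (insert x W))]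
    ring

/-! ## part m1b -/

/-- union of two independent random sets -/
theorem mu_union (q₁ q₂ : ℝ) (S : Finset α) (g : Finset α → ℝ) :
    mu q₁ S (fun V₁ => mu q₂ S (fun V₂ => g (V₁ ∪ V₂))) = mu (1 - (1 - q₁) * (1 - q₂)) S g := by
  induction S using Finset.induction_on generalizing g with
  | empty => simp [mu_empty]
  | insert x S hx ih =>
    have i1 : ∀ V₁ : Finset α, mu q₂ (insert x S) (fun V₂ => g (insert x V₁ ∪ V₂)) =
        mu q₂ S (fun V₂ => g (insert x (V₁ ∪ V₂))) := by
      intro V₁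
      rw [mu_insert q₂ S x hx]
      have e1 : (fun V₂ => g (insert x V₁ ∪ insert x V₂)) = fun V₂ => g (insert x (V₁ ∪ V₂)) := by
        funext V₂
        congr 1
        ext y
        simp only [Finset.mem_union, Finset.mem_insert]
        tauto
      have e2 : (fun V₂ => g (insert x V₁ ∪ V₂)) = fun V₂ => g (insert x (V₁ ∪ V₂)) := by
        funext V₂
        rw [Finset.insert_union]
      rw [e1, e2]
      ring
    have i2 : ∀ V₁ : Finset α, mu q₂ (insert x S) (fun V₂ => g (V₁ ∪ V₂)) =
        q₂ * mu q₂ S (fun V₂ => g (insert x (V₁ ∪ V₂))) +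
          (1 - q₂) * mu q₂ S (fun V₂ => g (V₁ ∪ V₂)) := by
      intro V₁
      rw [mu_insert q₂ S x hx]
      have e1 : (fun V₂ => g (V₁ ∪ insert x V₂)) = fun V₂ => g (insert x (V₁ ∪ V₂)) := by
        funext V₂
        rw [Finset.union_insert]
      rw [e1]
    rw [mu_insert q₁ S x hx, mu_insert _ S x hx]
    have e1 : mu q₁ S (fun V => mu q₂ (insert x S) (fun V₂ => g (insert x V ∪ V₂))) =
        mu (1 - (1 - q₁) * (1 - q₂)) S (fun V => g (insert x V)) := by
      rw [mu_congr S (fun V _ => i1 V)]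
      exact ih (fun V => g (insert x V))
    have e2 : mu q₁ S (fun V => mu q₂ (insert x S) (fun V₂ => g (V ∪ V₂))) =
        q₂ * mu (1 - (1 - q₁) * (1 - q₂)) S (fun V => g (insert x V)) +
          (1 - q₂) * mu (1 - (1 - q₁) * (1 - q₂)) S g := by
      rw [mu_congr S (fun V _ => i2 V), mu_add, mu_const_mul, mu_const_mul]
      rw [ih (fun V => g (insert x V)), ih g]
    rw [e1, e2]
    ring

/-- Bollobas-Thomason type inequality for an increasing event -/
theorem mu_BT {q : ℝ} (h0 : 0 ≤ q) (h1 : q ≤ 1) (S : Finset α) (I : Finset α → Prop)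
    [DecidablePred I] (hI : ∀ A B, A ⊆ B → I A → I B) (k : ℕ) :
    1 - (1 - mu q S (fun V => if I V then 1 else 0)) ^ k ≤
      mu (1 - (1 - q) ^ k) S (fun V => if I V then 1 else 0) := by
  obtain ⟨f, hf⟩ : ∃ f : Finset α → ℝ, f = fun V => if I V then 1 else 0 := ⟨_, rfl⟩
  rw [← hf]
  have hf0 : ∀ V, 0 ≤ f V := by
    intro V
    rw [hf]
    simp only
    split_ifs <;> norm_num
  have hf1 : ∀ V, f V ≤ 1 := by
    intro V
    rw [hf]
    simp only
    split_ifs <;> norm_num
  have hfu : ∀ V W, f V + (1 - f V) * f W ≤ f (V ∪ W) := by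
    intro V W
    rw [hf]
    simp only
    by_cases hV : I V
    · rw [if_pos hV, if_pos (hI V _ Finset.subset_union_left hV)]
      simp
    · by_cases hW : I W
      · rw [if_pos hW, if_pos (hI W _ Finset.subset_union_right hW), if_neg hV]
        simp
      · rw [if_neg hV, if_neg hW]
        split_ifs <;> norm_num
  obtain ⟨p, hp⟩ : ∃ p, p = mu q S f := ⟨_, rfl⟩
  have hp1 : p ≤ 1 := by
    rw [hp]
    have := mu_mono h0 h1 S (fun V _ => hf1 V)
    rwa [mu_const] at this
  rw [← hp]
  induction k with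
  | zero =>
    simp only [pow_zero, sub_self]
    exact mu_nonneg le_rfl zero_le_one S (fun V _ => hf0 V)
  | succ k ih =>
    have hq0 : 0 ≤ 1 - (1 - q) ^ k := by
      have := pow_le_one₀ (n := k) (show 0 ≤ 1 - q by linarith) (by linarith)
      linarith
    have hq1 : 1 - (1 - q) ^ k ≤ 1 := by
      have := pow_nonneg (show 0 ≤ 1 - q by linarith) k
      linarith
    have e1 : 1 - (1 - q) ^ (k + 1) = 1 - (1 - (1 - (1 - q) ^ k)) * (1 - q) := by ring
    rw [e1, ← mu_union]
    have h2 : mu (1 - (1 - q) ^ k) S (fun V => f V + (1 - f V) * p) ≤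
        mu (1 - (1 - q) ^ k) S (fun V₁ => mu q S (fun V₂ => f (V₁ ∪ V₂))) := by
      apply mu_mono hq0 hq1
      intro V _
      have h3 : mu q S (fun W => f V + (1 - f V) * f W) = f V + (1 - f V) * p := by
        rw [mu_add, mu_const, mu_const_mul, hp]
      rw [← h3]
      exact mu_mono h0 h1 S (fun W _ => hfu V W)
    refine le_trans ?_ h2
    have h4 : mu (1 - (1 - q) ^ k) S (fun V => f V + (1 - f V) * p) =
        p + (1 - p) * mu (1 - (1 - q) ^ k) S f := by
      have h5 : mu (1 - (1 - q) ^ k) S (fun V => f V + (1 - f V) * p) =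
          mu (1 - (1 - q) ^ k) S (fun V => p + (1 - p) * f V) := by
        apply mu_congr
        intro V _
        ring
      rw [h5, mu_add, mu_const, mu_const_mul]
    rw [h4, pow_succ]
    have h6 : 0 ≤ 1 - p := by linarith
    have h7 := mul_le_mul_of_nonneg_left ih h6
    linarith

/-! ## part m2a -/

/-- cross-intersecting pair of increasing events: if the first is not small, the second is tiny -/
theorem cross_small {q : ℝ} (h0 : 0 < q) (h1 : q ≤ 1 / 4) (S : Finset α)
    (I J : Finset α → Prop) [DecidablePred I] [DecidablePred J]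
    (hI : ∀ A B, A ⊆ B → I A → I B)
    (hcross : ∀ A B, A ⊆ S → B ⊆ S → I A → J B → (A ∩ B).Nonempty)
    (hheavy : 4 * q ≤ mu q S (fun V => if I V then 1 else 0)) :
    mu q S (fun V => if J V then 1 else 0) ≤ (q / (1 - q)) ^ 4 := by
  classical
  have hq1 : 0 < 1 - q := by linarith
  have hex : ∃ n : ℕ, (1 - q) ^ n < q := exists_pow_lt_of_lt_one h0 (by linarith)
  obtain ⟨k, hk1, hk2⟩ : ∃ k : ℕ, (1 - q) ^ (k + 1) < q ∧ q ≤ (1 - q) ^ k := by
    have hn := Nat.find_spec hex
    have hmin := fun m (hm : m < Nat.find hex) => Nat.find_min hex hm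
    rcases Nat.eq_zero_or_pos (Nat.find hex) with h | h
    · rw [h, pow_zero] at hn; linarith
    · refine ⟨Nat.find hex - 1, ?_, ?_⟩
      · have : Nat.find hex - 1 + 1 = Nat.find hex := by omega
        rw [this]; exact hn
      · exact not_lt.1 (hmin _ (by omega))
  set a := mu q S (fun V => if I V then 1 else 0) with ha
  have ha1 : a ≤ 1 := by
    have := mu_mono h0.le (by linarith : q ≤ 1) S (g := fun V => if I V then (1 : ℝ) else 0)
      (h := fun _ => 1) (fun V _ => by split_ifs <;> norm_num)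
    rwa [mu_const] at this
  have hBT := mu_BT h0.le (by linarith : q ≤ 1) S I hI k
  rw [← ha] at hBT
  have hb : 1 - 4 * q ≤ (1 - q) ^ 4 := by
    nlinarith [sq_nonneg q, sq_nonneg (q - 1), mul_nonneg h0.le (sq_nonneg (q - 2)),
      mul_nonneg h0.le h0.le, mul_nonneg (mul_nonneg h0.le h0.le) hq1.le,
      mul_nonneg (sq_nonneg q) (sq_nonneg (q - 2))]
  have hpow : (1 - a) ^ k ≤ ((1 - q) ^ k) ^ 4 := by
    calc (1 - a) ^ k ≤ ((1 - q) ^ 4) ^ k := by
          apply pow_le_pow_left₀ (by linarith)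
          linarith
      _ = ((1 - q) ^ k) ^ 4 := by rw [← pow_mul, ← pow_mul, mul_comm]
  have hk0 : (1 - q) ^ k ≤ 1 := pow_le_one₀ hq1.le (by linarith)
  have hgm : Monotone (fun V : Finset α => if I V then (1 : ℝ) else 0) := by
    intro A B hAB
    dsimp only
    by_cases hA : I A
    · rw [if_pos hA, if_pos (hI A B hAB hA)]
    · rw [if_neg hA]; split_ifs <;> norm_num
  have hmq := mu_mono_q (q := 1 - (1 - q) ^ k) (q' := 1 - q) (by linarith) (by linarith)
    (by linarith) S hgm
  have hlow : 1 - ((1 - q) ^ k) ^ 4 ≤ mu (1 - q) S (fun V => if I V then 1 else 0) := by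
    linarith
  have hup : mu q S (fun V => if J V then 1 else 0) ≤
      1 - mu (1 - q) S (fun V => if I V then 1 else 0) := by
    have e1 : (1 : ℝ) - mu (1 - q) S (fun V => if I V then 1 else 0) =
        mu q S (fun V => 1 + (-1) * (if I (S \ V) then 1 else 0)) := by
      rw [mu_add q S (fun _ => 1) (fun V => (-1) * (if I (S \ V) then 1 else 0)), mu_const,
        mu_const_mul q (-1) S (fun V => if I (S \ V) then 1 else 0)]
      have := mu_compl q S (fun V => if I V then 1 else 0)
      rw [this]; ring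
    rw [e1]
    apply mu_mono h0.le (by linarith)
    intro V hV
    by_cases hJ : J V
    · have hnI : ¬ I (S \ V) := by
        intro hI'
        obtain ⟨z, hz⟩ := hcross (S \ V) V Finset.sdiff_subset hV hI' hJ
        rw [Finset.mem_inter, Finset.mem_sdiff] at hz
        exact hz.1.2 hz.2
      rw [if_pos hJ, if_neg hnI]; norm_num
    · rw [if_neg hJ]; split_ifs <;> norm_num
  have hfin : (1 - q) ^ k ≤ q / (1 - q) := by
    rw [le_div_iff₀ hq1, ← pow_succ]; exact hk1.le
  calc mu q S (fun V => if J V then 1 else 0) ≤ ((1 - q) ^ k) ^ 4 := by linarith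
    _ ≤ (q / (1 - q)) ^ 4 := pow_le_pow_left₀ (by positivity) hfin 4

/-- the part avoiding a heavy centre is tiny -/
theorem avoid_small {q : ℝ} (h0 : 0 < q) (h1 : q ≤ 3 / 16) (S : Finset α) (x : α) (hx : x ∈ S)
    (I : Finset α → Prop) [DecidablePred I] (hI : ∀ A B, A ⊆ B → I A → I B)
    (hint : ∀ A B, I A → I B → (A ∩ B).Nonempty)
    (hheavy : 4 * q ≤ mu q (S.erase x) (fun V => if I (insert x V) then 1 else 0)) :
    mu q (S.erase x) (fun V => if I V then 1 else 0) ≤ (q / (1 - q)) ^ 4 := by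
  refine cross_small h0 (by linarith) (S.erase x) (fun V => I (insert x V)) I ?_ ?_ hheavy
  · intro A B hAB hA
    exact hI _ _ (Finset.insert_subset_insert x hAB) hA
  · intro A B hA hB hIA hIB
    obtain ⟨z, hz⟩ := hint _ _ hIA hIB
    rw [Finset.mem_inter, Finset.mem_insert] at hz
    refine ⟨z, ?_⟩
    rw [Finset.mem_inter]
    refine ⟨?_, hz.2⟩
    rcases hz.1 with h | h
    · exact absurd (hB hz.2) (by rw [h]; exact Finset.notMem_erase x S)
    · exact h

/-! ## part m2b -/

/-- persistence of heaviness -/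
theorem heavy_persist {s q : ℝ} (h0 : 0 < s) (hsq : s ≤ q) (hq : q ≤ 3 / 16) (S : Finset α)
    (I : Finset α → Prop) [DecidablePred I] (hI : ∀ A B, A ⊆ B → I A → I B)
    (hheavy : 16 * s ≤ mu s S (fun V => if I V then 1 else 0)) :
    4 * q ≤ mu q S (fun V => if I V then 1 else 0) := by
  have hq0 : 0 < q := lt_of_lt_of_le h0 hsq
  have hs1 : s ≤ 1 := by linarith
  have hs2 : 0 ≤ 1 - s := by linarith
  set a : ℝ := mu s S (fun V => if I V then 1 else 0) with ha
  have ha1 : a ≤ 1 := by
    have h := mu_mono (q := s) h0.le hs1 S (g := fun V => if I V then (1 : ℝ) else 0)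
      (h := fun _ => (1 : ℝ)) (fun V _ => by split_ifs <;> norm_num)
    rw [mu_const] at h
    exact h
  set k : ℕ := ⌊q / s⌋₊ with hk
  have hqs : 1 ≤ q / s := by rw [le_div_iff₀ h0]; linarith
  have hk1 : 1 ≤ k := by
    rw [hk]; exact Nat.one_le_floor_iff _ |>.mpr hqs
  have hk1' : (1 : ℝ) ≤ k := by exact_mod_cast hk1
  have hks : (k : ℝ) * s ≤ q := by
    have h := Nat.floor_le (le_trans zero_le_one hqs)
    rw [← hk] at h
    rw [le_div_iff₀ h0] at h
    exact h
  have hks2 : q < ((k : ℝ) + 1) * s := by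
    have h := Nat.lt_floor_add_one (q / s)
    rw [← hk] at h
    rw [div_lt_iff₀ h0] at h
    exact h
  have hks3 : q ≤ 2 * ((k : ℝ) * s) := by nlinarith
  have hB : 1 - (1 - s) ^ k ≤ q := by
    have h := one_add_mul_le_pow (a := -s) (by linarith) k
    have e : (1 + -s) = 1 - s := by ring
    rw [e] at h
    linarith
  have hp1 : (1 - s) ^ k ≤ 1 := pow_le_one₀ hs2 (by linarith)
  have hmono : Monotone (fun V : Finset α => if I V then (1 : ℝ) else 0) := by
    intro A B hAB
    dsimp only
    by_cases hA : I A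
    · rw [if_pos hA, if_pos (hI A B hAB hA)]
    · rw [if_neg hA]; split_ifs <;> norm_num
  have h1 := mu_mono_q (q := 1 - (1 - s) ^ k) (q' := q) (by linarith) hB (by linarith) S hmono
  have h2 := mu_BT h0.le hs1 S I hI k
  rw [← ha] at h2
  have h3 : (1 - a) ^ k ≤ (1 - 16 * s) ^ k :=
    pow_le_pow_left₀ (by linarith) (by linarith) k
  have h4 : (1 - 16 * s) ^ k ≤ Real.exp (-(16 * s)) ^ k := by
    refine pow_le_pow_left₀ (by linarith) ?_ k
    have := Real.add_one_le_exp (-(16 * s))
    linarith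
  have h5 : Real.exp (-(16 * s)) ^ k = Real.exp (-(16 * (k * s))) := by
    rw [← Real.exp_nat_mul]; congr 1; ring
  have h6 : Real.exp (-(16 * (k * s))) ≤ Real.exp (-(8 * q)) := by
    apply Real.exp_le_exp.mpr; linarith
  have h7 : Real.exp (-(8 * q)) ≤ 1 - 4 * q := by
    have ht := Real.sum_le_exp_of_nonneg (x := 8 * q) (by linarith) 4
    simp only [Finset.sum_range_succ, Finset.sum_range_zero] at ht
    norm_num [Nat.factorial] at ht
    have hpos := Real.exp_pos (-(8 * q))
    have hmul : Real.exp (-(8 * q)) * Real.exp (8 * q) = 1 := by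
      rw [← Real.exp_add]; simp
    have hE : (0 : ℝ) < Real.exp (8 * q) := Real.exp_pos _
    have h8 : 1 ≤ (1 - 4 * q) * Real.exp (8 * q) := by
      have h9 : (1 - 4 * q) * (1 + 8 * q + (8 * q) ^ 2 / 2 + (8 * q) ^ 3 / 6) ≤
          (1 - 4 * q) * Real.exp (8 * q) := by
        apply mul_le_mul_of_nonneg_left _ (by linarith)
        linarith
      have h10 : 1 ≤ (1 - 4 * q) * (1 + 8 * q + (8 * q) ^ 2 / 2 + (8 * q) ^ 3 / 6) := by
        have e : (1 - 4 * q) * (1 + 8 * q + (8 * q) ^ 2 / 2 + (8 * q) ^ 3 / 6) - 1 =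
            q * (4 - (8 * q) ^ 2 * 8 / 12 - (8 * q) ^ 3 * 8 / 12) := by ring
        have hq2 : q ^ 2 ≤ (3 / 16) ^ 2 := pow_le_pow_left₀ hq0.le hq 2
        have hq3 : q ^ 3 ≤ (3 / 16) ^ 3 := pow_le_pow_left₀ hq0.le hq 3
        have h11 : 0 ≤ 4 - (8 * q) ^ 2 * 8 / 12 - (8 * q) ^ 3 * 8 / 12 := by
          nlinarith
        have := mul_nonneg hq0.le h11
        linarith
      linarith
    by_contra hcon
    push Not at hcon
    have : (1 - 4 * q) * Real.exp (8 * q) < Real.exp (-(8 * q)) * Real.exp (8 * q) :=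
      mul_lt_mul_of_pos_right hcon hE
    linarith
  linarith

/-! ## part m2c -/

/-- two different elements cannot both be heavy -/
theorem heavy_unique {q : ℝ} (h0 : 0 < q) (h1 : q ≤ 3 / 16) (S : Finset α) (x y : α)
    (hx : x ∈ S) (hy : y ∈ S)
    (I : Finset α → Prop) [DecidablePred I] (hI : ∀ A B, A ⊆ B → I A → I B)
    (hint : ∀ A B, I A → I B → (A ∩ B).Nonempty)
    (hxh : 4 * q ≤ mu q (S.erase x) (fun V => if I (insert x V) then 1 else 0))
    (hyh : 4 * q ≤ mu q (S.erase y) (fun V => if I (insert y V) then 1 else 0)) :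
    x = y := by
  by_contra hxy
  have hq1 : q ≤ 1 := by linarith
  have hsm := avoid_small h0 h1 S x hx I hI hint hxh
  have hyS : y ∈ S.erase x := Finset.mem_erase.2 ⟨fun h => hxy h.symm, hy⟩
  have hxS : x ∈ S.erase y := Finset.mem_erase.2 ⟨hxy, hx⟩
  have e1 : S.erase x = insert y ((S.erase x).erase y) := (Finset.insert_erase hyS).symm
  have e2 : S.erase y = insert x ((S.erase x).erase y) := by
    rw [Finset.erase_right_comm]; exact (Finset.insert_erase hxS).symm
  have hn1 : y ∉ (S.erase x).erase y := Finset.notMem_erase y _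
  have hn2 : x ∉ (S.erase x).erase y := fun h =>
    Finset.notMem_erase x S (Finset.mem_of_mem_erase h)
  generalize (S.erase x).erase y = S0 at e1 e2 hn1 hn2
  rw [e2, mu_insert q S0 x hn2] at hyh
  rw [e1, mu_insert q S0 y hn1] at hsm
  have hA : mu q S0 (fun V => if I (insert y (insert x V)) then (1:ℝ) else 0) ≤ 1 := by
    have := mu_mono (q := q) h0.le hq1 S0
      (g := fun V => if I (insert y (insert x V)) then (1:ℝ) else 0) (h := fun _ => 1)
      (fun V _ => by split_ifs <;> norm_num)
    rwa [mu_const] at this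
  have hB : 0 ≤ mu q S0 (fun V => if I (insert y V) then (1:ℝ) else 0) :=
    mu_nonneg h0.le hq1 S0 (fun V _ => by split_ifs <;> norm_num)
  have hC : 0 ≤ mu q S0 (fun V => if I V then (1:ℝ) else 0) :=
    mu_nonneg h0.le hq1 S0 (fun V _ => by split_ifs <;> norm_num)
  generalize mu q S0 (fun V => if I (insert y (insert x V)) then (1:ℝ) else 0) = A at hA hyh
  generalize mu q S0 (fun V => if I (insert y V) then (1:ℝ) else 0) = B at hB hyh hsm
  generalize mu q S0 (fun V => if I V then (1:ℝ) else 0) = C at hC hsm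
  have hB3 : 3 * q ≤ B := by nlinarith
  have hlow : 3 * q ^ 2 ≤ (q / (1 - q)) ^ 4 := by nlinarith
  have h1q : (0:ℝ) < 1 - q := by linarith
  have hr : q / (1 - q) ≤ 16 / 13 * q := by
    rw [div_le_iff₀ h1q]; nlinarith
  have hr0 : 0 ≤ q / (1 - q) := by positivity
  have hr2 : (q / (1 - q)) ^ 4 ≤ (16 / 13 * q) ^ 4 := pow_le_pow_left₀ hr0 hr 4
  have hq2 : q ^ 2 ≤ 9 / 256 := by nlinarith
  have hq2p : 0 < q ^ 2 := by positivity
  have : (16 / 13 * q) ^ 4 = (16/13)^4 * q ^ 2 * q ^ 2 := by ring
  rw [this] at hr2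
  have hc : ((16:ℝ)/13)^4 * q ^ 2 ≤ 1 := by norm_num; nlinarith
  nlinarith

/-! ## part m3a -/

/-- Russo's formula -/
theorem mu_hasDerivAt (S : Finset α) (g : Finset α → ℝ) (q : ℝ) :
    HasDerivAt (fun s => mu s S g)
      (∑ x ∈ S, mu q (S.erase x) (fun V => g (insert x V) - g V)) q := by
  induction S using Finset.induction_on generalizing g with
  | empty =>
    simp only [mu_empty, Finset.sum_empty]
    exact hasDerivAt_const q (g ∅)
  | insert x S hx ih =>
    have hfun : (fun s => mu s (insert x S) g) =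
        fun s => s * mu s S (fun V => g (insert x V)) + (1 - s) * mu s S g := by
      funext s
      exact mu_insert s S x hx g
    rw [hfun]
    have h1 := (hasDerivAt_id q).mul (ih (fun V => g (insert x V)))
    have h2 := ((hasDerivAt_id q).const_sub 1).mul (ih g)
    have h3 := h1.add h2
    refine h3.congr_deriv ?_
    have hsub : mu q S (fun V => g (insert x V) - g V) =
        mu q S (fun V => g (insert x V)) - mu q S g := by
      have e1 : (fun V => g (insert x V) - g V) =
          fun V => g (insert x V) + (-1) * g V := by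
        funext V; ring
      rw [e1, mu_add, mu_const_mul]; ring
    rw [Finset.sum_insert hx, Finset.erase_insert hx, hsub]
    have hterm : ∀ y ∈ S, mu q ((insert x S).erase y) (fun V => g (insert y V) - g V) =
        q * mu q (S.erase y) (fun V => g (insert x (insert y V)) - g (insert x V)) +
          (1 - q) * mu q (S.erase y) (fun V => g (insert y V) - g V) := by
      intro y hy
      have hxy : x ≠ y := fun h => hx (h ▸ hy)
      have hx' : x ∉ S.erase y := fun h => hx (Finset.mem_of_mem_erase h)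
      rw [Finset.erase_insert_of_ne hxy, mu_insert q _ x hx']
      congr 2
      refine mu_congr _ fun V _ => ?_
      rw [Finset.insert_comm]
    rw [Finset.sum_congr rfl hterm, Finset.sum_add_distrib, ← Finset.mul_sum, ← Finset.mul_sum]
    simp only [id_eq]
    ring

/-! ## part m3b -/

theorem excl_bilin (q q' : ℝ) (S : Finset α) (f0 f1 g0 g1 : Finset α → ℝ) (a b c d : ℝ) :
    mu q S (fun R => (a * f0 R + b * f1 R) * mu q' (S \ R) (fun V => c * g0 V + d * g1 V)) =
      a * c * mu q S (fun R => f0 R * mu q' (S \ R) g0) +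
      a * d * mu q S (fun R => f0 R * mu q' (S \ R) g1) +
      b * c * mu q S (fun R => f1 R * mu q' (S \ R) g0) +
      b * d * mu q S (fun R => f1 R * mu q' (S \ R) g1) := by
  rw [← mu_const_mul, ← mu_const_mul, ← mu_const_mul, ← mu_const_mul, ← mu_add, ← mu_add,
    ← mu_add]
  refine mu_congr S (fun V _ => ?_)
  rw [mu_add, mu_const_mul, mu_const_mul]
  ring

theorem excl_insert {q q' : ℝ} (h : (1 - q) * q' = q) (S : Finset α) (e : α) (he : e ∉ S)
    (f g : Finset α → ℝ) :
    mu q (insert e S) (fun R => f R * mu q' (insert e S \ R) g) =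
      q * mu q S (fun R => f (insert e R) * mu q' (S \ R) g) +
      q * mu q S (fun R => f R * mu q' (S \ R) (fun V => g (insert e V))) +
      (1 - 2 * q) * mu q S (fun R => f R * mu q' (S \ R) g) := by
  rw [mu_insert q S e he]
  have h1 : mu q S (fun V => f (insert e V) * mu q' (insert e S \ insert e V) g) =
      mu q S (fun R => f (insert e R) * mu q' (S \ R) g) := by
    refine mu_congr S (fun V hV => ?_)
    have : insert e S \ insert e V = S \ V := by
      ext x
      simp only [Finset.mem_sdiff, Finset.mem_insert, not_or]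
      constructor
      · rintro ⟨h1 | h1, h2, h3⟩
        · exact absurd h1 h2
        · exact ⟨h1, h3⟩
      · rintro ⟨h1, h2⟩
        exact ⟨Or.inr h1, fun h3 => he (h3 ▸ h1), h2⟩
    rw [this]
  have h2 : mu q S (fun V => f V * mu q' (insert e S \ V) g) =
      q' * mu q S (fun R => f R * mu q' (S \ R) (fun V => g (insert e V))) +
      (1 - q') * mu q S (fun R => f R * mu q' (S \ R) g) := by
    rw [← mu_const_mul, ← mu_const_mul, ← mu_add]
    refine mu_congr S (fun V hV => ?_)
    have h3 : insert e S \ V = insert e (S \ V) := by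
      rw [Finset.insert_sdiff_of_notMem]
      exact fun h3 => he (hV h3)
    have h4 : e ∉ S \ V := fun h3 => he (Finset.mem_sdiff.1 h3).1
    rw [h3, mu_insert q' _ e h4]
    ring
  rw [h1, h2]
  linear_combination (mu q S (fun R => f R * mu q' (S \ R) (fun V => g (insert e V))) -
    mu q S (fun R => f R * mu q' (S \ R) g)) * h

/-- exclusive colouring inequality (an element is red w.p. q, blue w.p. q, never both) -/
theorem excl_ineq {q q' : ℝ} (h0 : 0 ≤ q) (h1 : q ≤ 1 / 2) (hq' : q' = q / (1 - q))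
    (S : Finset α) (f g : Finset α → ℝ) (hf : Monotone f) (hg : Monotone g)
    (hf0 : ∀ V, 0 ≤ f V) (hg0 : ∀ V, 0 ≤ g V) :
    mu q S f * mu q S g
      - q ^ 2 * ∑ x ∈ S, mu q (S.erase x) (fun V => f (insert x V) - f V)
          * mu q' (S.erase x) (fun V => g (insert x V))
      ≤ mu q S (fun R => f R * mu q' (S \ R) g) := by
  have hq1 : q ≤ 1 := by linarith
  have hpos : 0 < 1 - q := by linarith
  have hh : (1 - q) * q' = q := by
    rw [hq']; field_simp
  have hq'0 : 0 ≤ q' := by rw [hq']; positivity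
  have hq'1 : q' ≤ 1 := by
    rw [hq', div_le_one hpos]; linarith
  have hqq' : q ≤ q' := by nlinarith
  induction S using Finset.induction_on generalizing f g with
  | empty =>
    simp [mu_empty]
  | insert e S he ih =>
    have hins : Monotone (fun V : Finset α => insert e V) := fun V W h => Finset.insert_subset_insert e h
    have hf1 : Monotone (fun V => f (insert e V)) := hf.comp hins
    have hg1 : Monotone (fun V => g (insert e V)) := hg.comp hins
    have hle : ∀ V, f V ≤ f (insert e V) := fun V => hf (Finset.subset_insert e V)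
    have hgle : ∀ V, g V ≤ g (insert e V) := fun V => hg (Finset.subset_insert e V)
    obtain ⟨fb, hfb⟩ : ∃ fb : Finset α → ℝ, fb = fun V => (1 - q) * f V + q * f (insert e V) := ⟨_, rfl⟩
    obtain ⟨gb, hgb⟩ : ∃ gb : Finset α → ℝ, gb = fun V => (1 - q) * g V + q * g (insert e V) := ⟨_, rfl⟩
    have hfbm : Monotone fb := by
      intro V W h
      have a1 := hf h
      have a2 := hf1 h
      simp only [hfb]
      simp only at a2
      nlinarith
    have hgbm : Monotone gb := by
      intro V W h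
      have a1 := hg h
      have a2 := hg1 h
      simp only [hgb]
      simp only at a2
      nlinarith
    have hfb0 : ∀ V, 0 ≤ fb V := by
      intro V
      have a1 := hf0 V
      have a2 := hf0 (insert e V)
      simp only [hfb]
      positivity
    have hgb0 : ∀ V, 0 ≤ gb V := by
      intro V
      have a1 := hg0 V
      have a2 := hg0 (insert e V)
      simp only [hgb]
      positivity
    have IH := ih fb gb hfbm hgbm hfb0 hgb0
    -- averages
    have hmf : mu q S fb = mu q (insert e S) f := by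
      rw [mu_insert q S e he, hfb, mu_add, mu_const_mul, mu_const_mul]; ring
    have hmg : mu q S gb = mu q (insert e S) g := by
      rw [mu_insert q S e he, hgb, mu_add, mu_const_mul, mu_const_mul]; ring
    -- expansion
    have hexp := excl_insert hh S e he f g
    have hb1 := excl_bilin q q' S f (fun V => f (insert e V)) g (fun V => g (insert e V))
      (1 - q) q (1 - q) q
    have hb2 := excl_bilin q q' S f (fun V => f (insert e V)) g (fun V => g (insert e V))
      (-1) 1 (-1) 1
    have hbb : mu q S (fun R => fb R * mu q' (S \ R) gb) =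
        mu q S (fun R => ((1 - q) * f R + q * f (insert e R)) *
          mu q' (S \ R) (fun V => (1 - q) * g V + q * g (insert e V))) := by
      rw [hfb, hgb]
    -- the last term
    have hlast : mu q S (fun R => (-1 * f R + 1 * f (insert e R)) *
          mu q' (S \ R) (fun V => -1 * g V + 1 * g (insert e V))) ≤
        mu q S (fun V => f (insert e V) - f V) * mu q' S (fun V => g (insert e V)) := by
      have a1 : mu q S (fun V => f (insert e V) - f V) * mu q' S (fun V => g (insert e V)) =
          mu q S (fun V => mu q' S (fun V => g (insert e V)) * (f (insert e V) - f V)) := by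
        rw [mu_const_mul]; ring
      rw [a1]
      refine mu_mono h0 hq1 S (fun R hR => ?_)
      have a2 : mu q' (S \ R) (fun V => -1 * g V + 1 * g (insert e V)) ≤
          mu q' S (fun V => g (insert e V)) := by
        refine le_trans (mu_mono hq'0 hq'1 _ (fun V _ => ?_))
          (mu_subset hq'0 hq'1 Finset.sdiff_subset hg1)
        have := hg0 V
        linarith
      have a3 : 0 ≤ -1 * f R + 1 * f (insert e R) := by
        have := hle R
        linarith
      calc (-1 * f R + 1 * f (insert e R)) * mu q' (S \ R) (fun V => -1 * g V + 1 * g (insert e V))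
          ≤ (-1 * f R + 1 * f (insert e R)) * mu q' S (fun V => g (insert e V)) :=
            mul_le_mul_of_nonneg_left a2 a3
        _ = _ := by ring
    -- the sum
    have hsum : ∑ x ∈ S, mu q (S.erase x) (fun V => fb (insert x V) - fb V)
          * mu q' (S.erase x) (fun V => gb (insert x V)) ≤
        ∑ x ∈ S, mu q ((insert e S).erase x) (fun V => f (insert x V) - f V)
          * mu q' ((insert e S).erase x) (fun V => g (insert x V)) := by
      refine Finset.sum_le_sum (fun x hx => ?_)
      have hxe : x ≠ e := fun h => he (h ▸ hx)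
      have hE : (insert e S).erase x = insert e (S.erase x) :=
        Finset.erase_insert_of_ne (Ne.symm hxe)
      have heE : e ∉ S.erase x := fun h => he (Finset.mem_of_mem_erase h)
      rw [hE]
      have b1 : mu q (S.erase x) (fun V => fb (insert x V) - fb V) =
          mu q (insert e (S.erase x)) (fun V => f (insert x V) - f V) := by
        rw [mu_insert q _ e heE, ← mu_const_mul, ← mu_const_mul, ← mu_add]
        refine mu_congr _ (fun V _ => ?_)
        simp only [hfb]
        rw [Finset.insert_comm e x V]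
        ring
      have b2 : 0 ≤ mu q (insert e (S.erase x)) (fun V => f (insert x V) - f V) :=
        mu_nonneg h0 hq1 _ (fun V _ => sub_nonneg.2 (hf (Finset.subset_insert x V)))
      have b3 : mu q' (S.erase x) (fun V => gb (insert x V)) ≤
          mu q' (insert e (S.erase x)) (fun V => g (insert x V)) := by
        rw [mu_insert q' _ e heE, ← mu_const_mul, ← mu_const_mul, ← mu_add]
        refine mu_mono hq'0 hq'1 _ (fun V _ => ?_)
        simp only [hgb]
        rw [Finset.insert_comm e x V]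
        have b4 := hg (show insert x V ⊆ insert x (insert e V) from
          Finset.insert_subset_insert x (Finset.subset_insert e V))
        nlinarith
      rw [b1]
      exact mul_le_mul_of_nonneg_left b3 b2
    rw [Finset.sum_insert he, Finset.erase_insert he]
    rw [hmf, hmg, hbb, hb1] at IH
    rw [hb2] at hlast
    rw [hexp]
    have hq2 : 0 ≤ q ^ 2 := sq_nonneg q
    have c1 := mul_le_mul_of_nonneg_left hlast hq2
    have c2 := mul_le_mul_of_nonneg_left hsum hq2
    nlinarith [IH, c1, c2]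

/-! ## part m4a -/

/-- light case: if no link is heavy on `[q,3q]`, the family is `O(q^2)` -/
theorem light_small {q : ℝ} (h0 : 0 < q) (h1 : q ≤ 1 / 16) (S : Finset α)
    (I : Finset α → Prop) [DecidablePred I] (hI : ∀ A B, A ⊆ B → I A → I B)
    (hint : ∀ A B, I A → I B → (A ∩ B).Nonempty)
    (hlight : ∀ x ∈ S, ∀ s : ℝ, q ≤ s → s ≤ 3 * q →
      mu s (S.erase x) (fun V => if I (insert x V) then 1 else 0) < 16 * s) :
    mu q S (fun V => if I V then 1 else 0) ≤ 50 * q ^ 2 := by
  classical
  set f : Finset α → ℝ := fun V => if I V then 1 else 0 with hfdef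
  have hfm : Monotone f := by
    intro A B hAB
    simp only [hfdef]
    by_cases hA : I A
    · rw [if_pos hA, if_pos (hI A B hAB hA)]
    · rw [if_neg hA]; split_ifs <;> norm_num
  have hf0 : ∀ V, 0 ≤ f V := by
    intro V; simp only [hfdef]; split_ifs <;> norm_num
  by_contra hcon
  push Not at hcon
  have hq2 : 0 < q ^ 2 := by positivity
  have hyq : 0 < mu q S f := by nlinarith
  have hypos : ∀ s, q ≤ s → s ≤ 2 * q → 0 < mu s S f := by
    intro s hs1 hs2
    exact lt_of_lt_of_le hyq (mu_mono_q h0.le hs1 (by linarith) S hfm)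
  -- the derivative
  set y' : ℝ → ℝ := fun s => ∑ x ∈ S, mu s (S.erase x) (fun V => f (insert x V) - f V) with hy'
  have hth : ∀ s, q ≤ s → s ≤ 2 * q → ∀ x ∈ S,
      0 ≤ mu s (S.erase x) (fun V => f (insert x V) - f V) := by
    intro s hs1 hs2 x hx
    refine mu_nonneg (by linarith) (by linarith) _ ?_
    intro V hV
    have := hfm (Finset.subset_insert x V)
    linarith
  have hmain : ∀ s, q ≤ s → s ≤ 2 * q →
      mu s S f ^ 2 ≤ 16 * s ^ 3 / (1 - s) * y' s := by
    intro s hs1 hs2
    have hs0 : 0 < s := by linarith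
    have hs8 : s ≤ 1 / 8 := by linarith
    have h1s : 0 < 1 - s := by linarith
    have hex := excl_ineq (q := s) (q' := s / (1 - s)) hs0.le (by linarith) rfl S f f hfm hfm hf0 hf0
    have hzero : mu s S (fun R => f R * mu (s / (1 - s)) (S \ R) f) = 0 := by
      rw [mu_congr (h := fun _ => 0)]
      · exact mu_const s 0 S
      · intro R hR
        by_cases hIR : I R
        · have : mu (s / (1 - s)) (S \ R) f = 0 := by
            rw [mu_congr (h := fun _ => 0)]
            · exact mu_const _ 0 _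
            · intro V hV
              simp only [hfdef]
              rw [if_neg]
              intro hIV
              obtain ⟨z, hz⟩ := hint R V hIR hIV
              rw [Finset.mem_inter] at hz
              exact (Finset.mem_sdiff.1 (hV hz.2)).2 hz.1
          rw [this, mul_zero]
        · simp only [hfdef]; rw [if_neg hIR, zero_mul]
    rw [hzero] at hex
    have hs'1 : q ≤ s / (1 - s) := by
      rw [le_div_iff₀ h1s]; nlinarith
    have hs'2 : s / (1 - s) ≤ 3 * q := by
      rw [div_le_iff₀ h1s]; nlinarith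
    have hs'0 : 0 < s / (1 - s) := div_pos hs0 h1s
    have hsum : ∑ x ∈ S, mu s (S.erase x) (fun V => f (insert x V) - f V)
          * mu (s / (1 - s)) (S.erase x) (fun V => f (insert x V))
        ≤ ∑ x ∈ S, mu s (S.erase x) (fun V => f (insert x V) - f V) * (16 * (s / (1 - s))) := by
      refine Finset.sum_le_sum fun x hx => ?_
      exact mul_le_mul_of_nonneg_left (hlight x hx _ hs'1 hs'2).le (hth s hs1 hs2 x hx)
    rw [← Finset.sum_mul] at hsum
    have h3 : s ^ 2 * ∑ x ∈ S, mu s (S.erase x) (fun V => f (insert x V) - f V)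
          * mu (s / (1 - s)) (S.erase x) (fun V => f (insert x V))
        ≤ s ^ 2 * (y' s * (16 * (s / (1 - s)))) :=
      mul_le_mul_of_nonneg_left hsum (by positivity)
    have h4 : s ^ 2 * (y' s * (16 * (s / (1 - s)))) = 16 * s ^ 3 / (1 - s) * y' s := by
      field_simp
    rw [← h4]
    nlinarith
  -- the function Φ
  have hder : ∀ s, q ≤ s → s ≤ 2 * q →
      HasDerivAt (fun s => (mu s S f)⁻¹ - (1 - 2 * q) / 32 * (s ^ 2)⁻¹)
        (-(y' s) / (mu s S f) ^ 2 - (1 - 2 * q) / 32 * (-(2 * s) / (s ^ 2) ^ 2)) s := by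
    intro s hs1 hs2
    have hs0 : 0 < s := by linarith
    have h1 := (mu_hasDerivAt S f s).inv (hypos s hs1 hs2).ne'
    have h2 : HasDerivAt (fun s : ℝ => (s ^ 2)⁻¹) (-(2 * s) / (s ^ 2) ^ 2) s := by
      have h3 : HasDerivAt (fun s : ℝ => s ^ 2) (2 * s) s := by
        simpa using hasDerivAt_pow 2 s
      exact h3.inv (by positivity : s ^ 2 ≠ 0)
    exact h1.sub (h2.const_mul _)
  have hnonpos : ∀ s, q ≤ s → s ≤ 2 * q →
      -(y' s) / (mu s S f) ^ 2 - (1 - 2 * q) / 32 * (-(2 * s) / (s ^ 2) ^ 2) ≤ 0 := by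
    intro s hs1 hs2
    have hs0 : 0 < s := by linarith
    have h1s : 0 < 1 - s := by linarith
    have hm := hmain s hs1 hs2
    have hyp := hypos s hs1 hs2
    have hy2 : 0 < mu s S f ^ 2 := by positivity
    have e1 : (1 - s) / (16 * s ^ 3) ≤ y' s / (mu s S f) ^ 2 := by
      rw [div_le_div_iff₀ (by positivity) hy2]
      have : 16 * s ^ 3 / (1 - s) * y' s * (1 - s) = y' s * (16 * s ^ 3) := by
        field_simp
      nlinarith [mul_le_mul_of_nonneg_right hm h1s.le]
    have e2 : (1 - 2 * q) / 32 * ((2 * s) / (s ^ 2) ^ 2) = (1 - 2 * q) / (16 * s ^ 3) := by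
      field_simp; ring
    have e3 : (1 - 2 * q) / (16 * s ^ 3) ≤ (1 - s) / (16 * s ^ 3) := by
      apply div_le_div_of_nonneg_right _ (by positivity)
      linarith
    have e4 : -(y' s) / (mu s S f) ^ 2 = -(y' s / (mu s S f) ^ 2) := by ring
    have e5 : -(2 * s) / (s ^ 2) ^ 2 = -((2 * s) / (s ^ 2) ^ 2) := by ring
    rw [e4, e5]
    linarith
  have hanti : AntitoneOn (fun s => (mu s S f)⁻¹ - (1 - 2 * q) / 32 * (s ^ 2)⁻¹)
      (Set.Icc q (2 * q)) := by
    apply antitoneOn_of_deriv_nonpos (convex_Icc _ _)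
    · intro s hs
      exact (hder s hs.1 hs.2).continuousAt.continuousWithinAt
    · intro s hs
      rw [interior_Icc] at hs
      exact (hder s hs.1.le hs.2.le).differentiableAt.differentiableWithinAt
    · intro s hs
      rw [interior_Icc] at hs
      rw [(hder s hs.1.le hs.2.le).deriv]
      exact hnonpos s hs.1.le hs.2.le
  have hfin := hanti (Set.left_mem_Icc.2 (by linarith)) (Set.right_mem_Icc.2 (by linarith))
    (by linarith : q ≤ 2 * q)
  simp only at hfin
  have hy2q : 0 < (mu (2 * q) S f)⁻¹ := inv_pos.2 (hypos (2 * q) (by linarith) le_rfl)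
  have e6 : (1 - 2 * q) / 32 * ((2 * q) ^ 2)⁻¹ = (1 - 2 * q) / 128 * (q ^ 2)⁻¹ := by
    field_simp; ring
  rw [e6] at hfin
  have e7 : 3 * (1 - 2 * q) / 128 * (q ^ 2)⁻¹ < (mu q S f)⁻¹ := by
    have : 3 * (1 - 2 * q) / 128 * (q ^ 2)⁻¹
        = (1 - 2 * q) / 32 * (q ^ 2)⁻¹ - (1 - 2 * q) / 128 * (q ^ 2)⁻¹ := by ring
    rw [this]; linarith
  have e8 : (mu q S f)⁻¹ < (50 * q ^ 2)⁻¹ := by
    exact (inv_lt_inv₀ hyq (by positivity)).2 hcon
  have e9 : (50 * q ^ 2)⁻¹ = 1 / 50 * (q ^ 2)⁻¹ := by
    rw [mul_inv]; norm_num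
  rw [e9] at e8
  have hiq : 0 < (q ^ 2)⁻¹ := by positivity
  have : 3 * (1 - 2 * q) / 128 * (q ^ 2)⁻¹ < 1 / 50 * (q ^ 2)⁻¹ := e7.trans e8
  have h10 := lt_of_mul_lt_mul_right this hiq.le
  nlinarith

/-! ## part m4b -/

/-- centre lemma -/
theorem exists_centre (S : Finset α) (hS : S.Nonempty)
    (I : Finset α → Prop) [DecidablePred I] (hI : ∀ A B, A ⊆ B → I A → I B)
    (hint : ∀ A B, I A → I B → (A ∩ B).Nonempty) :
    ∃ z ∈ S, ∀ q : ℝ, 0 ≤ q → q ≤ 1 →
      mu q (S.erase z) (fun V => if I V then 1 else 0) ≤ 256 * q ^ 2 := by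
  have hmono : Monotone (fun V : Finset α => if I V then (1:ℝ) else 0) := by
    intro A B hAB
    show (if I A then (1:ℝ) else 0) ≤ (if I B then (1:ℝ) else 0)
    by_cases hA : I A
    · rw [if_pos hA, if_pos (hI A B hAB hA)]
    · rw [if_neg hA]; split_ifs <;> norm_num
  have hle1 : ∀ (q : ℝ), 0 ≤ q → q ≤ 1 → ∀ T : Finset α,
      mu q T (fun V => if I V then 1 else 0) ≤ 1 := by
    intro q h0 h1 T
    have := mu_mono h0 h1 T (g := fun V => if I V then 1 else 0) (h := fun _ => 1)
      (fun V _ => by split_ifs <;> norm_num)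
    rwa [mu_const] at this
  have hI0 : ¬ I ∅ := fun h => by simpa using hint ∅ ∅ h h
  have hq0 : ∀ T : Finset α, mu 0 T (fun V => if I V then (1:ℝ) else 0) = 0 := by
    intro T
    unfold mu
    apply Finset.sum_eq_zero
    intro V hV
    by_cases hV0 : V = ∅
    · subst hV0; simp [hI0]
    · have : V.card ≠ 0 := by simpa using hV0
      rw [zero_pow this]; simp
  have hlightcase : ∀ z ∈ S, ∀ q : ℝ, 0 < q → q ≤ 1 / 16 →
      (∀ x ∈ S, ∀ s : ℝ, q ≤ s → s ≤ 3 * q →
        mu s (S.erase x) (fun V => if I (insert x V) then 1 else 0) < 16 * s) →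
      mu q (S.erase z) (fun V => if I V then 1 else 0) ≤ 256 * q ^ 2 := by
    intro z hz q hq hq1 hl
    have h1 := light_small hq hq1 S I hI hint hl
    have h2 := mu_subset hq.le (by linarith) (Finset.erase_subset z S) hmono
    have h3 : 0 ≤ q ^ 2 := by positivity
    linarith
  by_cases hcase : ∃ x ∈ S, ∃ s : ℝ, 0 < s ∧ s ≤ 3 / 16 ∧
      16 * s ≤ mu s (S.erase x) (fun V => if I (insert x V) then 1 else 0)
  · obtain ⟨z, hz, s0, hs0, hs0', hheavy⟩ := hcase
    refine ⟨z, hz, fun q hq hq1 => ?_⟩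
    rcases hq.eq_or_lt with rfl | hqpos
    · rw [hq0]; norm_num
    rcases lt_or_ge (1 / 16) q with hbig | hsmall
    · refine (hle1 q hq hq1 _).trans ?_
      nlinarith
    by_cases hl : ∀ x ∈ S, ∀ s : ℝ, q ≤ s → s ≤ 3 * q →
        mu s (S.erase x) (fun V => if I (insert x V) then 1 else 0) < 16 * s
    · exact hlightcase z hz q hqpos hsmall hl
    · push Not at hl
      obtain ⟨x', hx', s, hs1, hs2, hh⟩ := hl
      have hs : 0 < s := by linarith
      have hs3 : s ≤ 3 / 16 := by linarith
      have hx'z : x' = z := heavy_unique (q := max s s0) (lt_max_of_lt_left hs)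
        (max_le hs3 hs0') S x' z hx' hz I hI hint
        (heavy_persist hs (le_max_left _ _) (max_le hs3 hs0') (S.erase x')
          (fun V => I (insert x' V))
          (fun A B hAB hA => hI _ _ (Finset.insert_subset_insert _ hAB) hA) hh)
        (heavy_persist hs0 (le_max_right _ _) (max_le hs3 hs0') (S.erase z)
          (fun V => I (insert z V))
          (fun A B hAB hA => hI _ _ (Finset.insert_subset_insert _ hAB) hA) hheavy)
      subst hx'z
      have h3 := avoid_small hs hs3 S x' hx' I hI hint (by linarith)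
      have h4 := mu_mono_q hq hs1 (by linarith) (S.erase x') hmono
      have h5 : s / (1 - s) ≤ 16 / 13 * s := by
        rw [div_le_iff₀ (by linarith)]
        nlinarith
      have h6 : 0 ≤ s / (1 - s) := div_nonneg hs.le (by linarith)
      have h7 : (s / (1 - s)) ^ 4 ≤ (16 / 13 * s) ^ 4 := pow_le_pow_left₀ h6 h5 4
      have h8 : s ^ 2 ≤ 9 / 256 := by nlinarith
      have h9 : s ^ 2 ≤ 9 * q ^ 2 := by nlinarith
      have h10 : (16 / 13 * s) ^ 4 = (16 / 13) ^ 4 * (s ^ 2 * s ^ 2) := by ring
      have h11 : s ^ 2 * s ^ 2 ≤ 9 / 256 * s ^ 2 := by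
        have : 0 ≤ s ^ 2 := by positivity
        nlinarith
      have h12 : (16 / 13 * s) ^ 4 ≤ s ^ 2 := by
        rw [h10]
        have : 0 ≤ s ^ 2 := by positivity
        norm_num
        nlinarith
      have h13 : 0 ≤ q ^ 2 := by positivity
      linarith
  · push Not at hcase
    obtain ⟨z, hz⟩ := hS
    refine ⟨z, hz, fun q hq hq1 => ?_⟩
    rcases hq.eq_or_lt with rfl | hqpos
    · rw [hq0]; norm_num
    rcases lt_or_ge (1 / 16) q with hbig | hsmall
    · refine (hle1 q hq hq1 _).trans ?_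
      nlinarith
    · exact hlightcase z hz q hqpos hsmall
        (fun x hx s h1 h2 => hcase x hx s (by linarith) (by linarith))

/-! ## part m5a -/

/-- double counting -/
theorem double_count (S : Finset α) (j : ℕ) (f : Finset α → ℝ) :
    ∑ V ∈ S.powersetCard j, ∑ x ∈ S \ V, f (insert x V)
      = ∑ V ∈ S.powersetCard (j + 1), ∑ _x ∈ V, f V := by
  rw [Finset.sum_sigma', Finset.sum_sigma']
  refine Finset.sum_bij' (fun p _ => (⟨insert p.2 p.1, p.2⟩ : Sigma fun _ : Finset α => α))
    (fun p _ => (⟨p.1.erase p.2, p.2⟩ : Sigma fun _ : Finset α => α)) ?_ ?_ ?_ ?_ ?_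
  · rintro ⟨V, x⟩ h
    simp only [Finset.mem_sigma, Finset.mem_powersetCard, Finset.mem_sdiff] at h ⊢
    obtain ⟨⟨h1, h2⟩, h3, h4⟩ := h
    refine ⟨⟨Finset.insert_subset h3 h1, ?_⟩, Finset.mem_insert_self _ _⟩
    rw [Finset.card_insert_of_notMem h4, h2]
  · rintro ⟨V, x⟩ h
    simp only [Finset.mem_sigma, Finset.mem_powersetCard, Finset.mem_sdiff] at h ⊢
    obtain ⟨⟨h1, h2⟩, h3⟩ := h
    refine ⟨⟨(Finset.erase_subset _ _).trans h1, ?_⟩, h1 h3, Finset.notMem_erase _ _⟩
    rw [Finset.card_erase_of_mem h3, h2]; rfl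
  · rintro ⟨V, x⟩ h
    simp only [Finset.mem_sigma, Finset.mem_powersetCard, Finset.mem_sdiff] at h
    simp only [Finset.erase_insert h.2.2]
  · rintro ⟨V, x⟩ h
    simp only [Finset.mem_sigma, Finset.mem_powersetCard] at h
    simp only [Finset.insert_erase h.2]
  · rintro ⟨V, x⟩ h
    rfl

theorem avg_step (S : Finset α) (j : ℕ) (hj : j < S.card) (g : Finset α → ℝ)
    (hg : Monotone g) :
    (∑ V ∈ S.powersetCard j, g V) / (S.card.choose j : ℝ)
      ≤ (∑ V ∈ S.powersetCard (j+1), g V) / (S.card.choose (j+1) : ℝ) := by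
  have hc0 : (0:ℝ) < (S.card.choose j : ℝ) := by
    exact_mod_cast Nat.choose_pos hj.le
  have hc1 : (0:ℝ) < (S.card.choose (j+1) : ℝ) := by
    exact_mod_cast Nat.choose_pos hj
  have hid : (S.card.choose (j+1) : ℝ) * ((j:ℝ)+1) = (S.card.choose j : ℝ) * ((S.card : ℝ) - j) := by
    have := Nat.choose_succ_right_eq S.card j
    have h2 : ((S.card.choose (j+1) * (j+1) : ℕ) : ℝ) = ((S.card.choose j * (S.card - j) : ℕ) : ℝ) := by
      rw [this]
    rw [Nat.cast_mul, Nat.cast_mul, Nat.cast_sub hj.le] at h2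
    push_cast at h2
    exact h2
  have hle : ((S.card : ℝ) - j) * ∑ V ∈ S.powersetCard j, g V
      ≤ ((j:ℝ)+1) * ∑ V ∈ S.powersetCard (j+1), g V := by
    have h1 : ((S.card : ℝ) - j) * ∑ V ∈ S.powersetCard j, g V
        = ∑ V ∈ S.powersetCard j, ∑ _x ∈ S \ V, g V := by
      rw [Finset.mul_sum]
      refine Finset.sum_congr rfl fun V hV => ?_
      rw [Finset.mem_powersetCard] at hV
      rw [Finset.sum_const, nsmul_eq_mul, Finset.card_sdiff_of_subset hV.1, hV.2,
        Nat.cast_sub hj.le]
    have h2 : ((j:ℝ)+1) * ∑ V ∈ S.powersetCard (j+1), g V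
        = ∑ V ∈ S.powersetCard (j+1), ∑ _x ∈ V, g V := by
      rw [Finset.mul_sum]
      refine Finset.sum_congr rfl fun V hV => ?_
      rw [Finset.mem_powersetCard] at hV
      rw [Finset.sum_const, nsmul_eq_mul, hV.2]
      push_cast; ring
    rw [h1, h2, ← double_count S j g]
    refine Finset.sum_le_sum fun V _ => Finset.sum_le_sum fun x _ => ?_
    exact hg (Finset.subset_insert x V)
  rw [div_le_div_iff₀ hc0 hc1]
  have hjN : (0:ℝ) < (S.card : ℝ) - j := by
    have : (j:ℝ) < S.card := by exact_mod_cast hj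
    linarith
  have hj1 : (0:ℝ) < (j:ℝ) + 1 := by positivity
  -- A * C1 ≤ B * C0 ; multiply by (j+1)
  have key : (∑ V ∈ S.powersetCard j, g V) * (S.card.choose (j+1) : ℝ) * ((j:ℝ)+1)
      ≤ (∑ V ∈ S.powersetCard (j+1), g V) * (S.card.choose j : ℝ) * ((j:ℝ)+1) := by
    calc (∑ V ∈ S.powersetCard j, g V) * (S.card.choose (j+1) : ℝ) * ((j:ℝ)+1)
        = (((S.card : ℝ) - j) * ∑ V ∈ S.powersetCard j, g V) * (S.card.choose j : ℝ) := by
          rw [mul_assoc, hid]; ring
      _ ≤ (((j:ℝ)+1) * ∑ V ∈ S.powersetCard (j+1), g V) * (S.card.choose j : ℝ) :=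
          mul_le_mul_of_nonneg_right hle hc0.le
      _ = _ := by ring
  exact le_of_mul_le_mul_right key hj1

theorem avg_mono (S : Finset α) (g : Finset α → ℝ) (hg : Monotone g) (d : ℕ) :
    ∀ j, d ≤ j → j ≤ S.card →
    (∑ V ∈ S.powersetCard d, g V) / (S.card.choose d : ℝ)
      ≤ (∑ V ∈ S.powersetCard j, g V) / (S.card.choose j : ℝ) := by
  intro j hdj
  induction j, hdj using Nat.le_induction with
  | base => intro _; exact le_rfl
  | succ j hj ih =>
    intro hjS
    exact (ih (by omega)).trans (avg_step S j (by omega) g hg)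

theorem mu_first (q : ℝ) (S : Finset α) :
    mu q S (fun V => (V.card : ℝ) - q * S.card) = 0 := by
  induction S using Finset.induction_on with
  | empty => simp [mu_empty]
  | insert x S hx ih =>
    rw [mu_insert q S x hx]
    have h1 : mu q S (fun V => ((insert x V).card : ℝ) - q * (insert x S).card)
        = mu q S (fun V => ((V.card : ℝ) - q * S.card) + (1 - q)) := by
      refine mu_congr S fun V hV => ?_
      rw [Finset.card_insert_of_notMem (fun h => hx (hV h)), Finset.card_insert_of_notMem hx]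
      push_cast; ring
    have h2 : mu q S (fun V => (V.card : ℝ) - q * (insert x S).card)
        = mu q S (fun V => ((V.card : ℝ) - q * S.card) + (-q)) := by
      refine mu_congr S fun V hV => ?_
      rw [Finset.card_insert_of_notMem hx]
      push_cast; ring
    rw [h1, h2, mu_add, mu_add, mu_const, mu_const, ih]
    ring

theorem mu_var (q : ℝ) (S : Finset α) :
    mu q S (fun V => ((V.card : ℝ) - q * S.card) ^ 2) = q * (1 - q) * S.card := by
  induction S using Finset.induction_on with
  | empty => simp [mu_empty]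
  | insert x S hx ih =>
    rw [mu_insert q S x hx]
    have h1 : mu q S (fun V => (((insert x V).card : ℝ) - q * (insert x S).card) ^ 2)
        = mu q S (fun V => (((V.card : ℝ) - q * S.card) ^ 2
            + (2 * (1 - q)) * ((V.card : ℝ) - q * S.card)) + (1 - q) ^ 2) := by
      refine mu_congr S fun V hV => ?_
      rw [Finset.card_insert_of_notMem (fun h => hx (hV h)), Finset.card_insert_of_notMem hx]
      push_cast; ring
    have h2 : mu q S (fun V => ((V.card : ℝ) - q * (insert x S).card) ^ 2)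
        = mu q S (fun V => (((V.card : ℝ) - q * S.card) ^ 2
            + (-(2 * q)) * ((V.card : ℝ) - q * S.card)) + q ^ 2) := by
      refine mu_congr S fun V hV => ?_
      rw [Finset.card_insert_of_notMem hx]
      push_cast; ring
    rw [h1, h2, mu_add, mu_add, mu_add, mu_add, mu_const, mu_const, mu_const_mul, mu_const_mul,
      ih, mu_first, Finset.card_insert_of_notMem hx]
    push_cast
    ring

theorem mu_tail {q : ℝ} (h0 : 0 ≤ q) (h1 : q ≤ 1) (S : Finset α) (d : ℕ)
    (hd : 4 * (d : ℝ) ≤ q * (S.card : ℝ)) :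
    5 / 9 ≤ mu q S (fun V => if d ≤ V.card then 1 else 0) := by
  rcases Nat.eq_zero_or_pos d with rfl | hdp
  · have : mu q S (fun V => if 0 ≤ V.card then (1:ℝ) else 0) = mu q S (fun _ => (1:ℝ)) :=
      mu_congr S fun V _ => by simp
    rw [this, mu_const]; norm_num
  · set m : ℝ := q * S.card with hm
    have hd1 : (1:ℝ) ≤ d := by exact_mod_cast hdp
    have hm4 : 4 ≤ m := by linarith
    have hmd : 3 / 4 * m ≤ m - d := by linarith
    have hmd0 : 0 < m - d := by linarith
    have hlow : mu q S (fun V => 1 + (-(1 / (m - d) ^ 2)) * ((V.card : ℝ) - q * S.card) ^ 2)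
        ≤ mu q S (fun V => if d ≤ V.card then (1:ℝ) else 0) := by
      refine mu_mono h0 h1 S fun V _ => ?_
      have hsq : 0 ≤ ((V.card : ℝ) - q * S.card) ^ 2 := sq_nonneg _
      by_cases h : d ≤ V.card
      · rw [if_pos h]
        have : 0 ≤ (1 / (m - d) ^ 2) * ((V.card : ℝ) - q * S.card) ^ 2 := by positivity
        linarith
      · rw [if_neg h]
        have hlt : (V.card : ℝ) < d := by exact_mod_cast not_le.1 h
        have h3 : (m - d) ^ 2 ≤ ((V.card : ℝ) - q * S.card) ^ 2 := by
          rw [← hm]; nlinarith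
        have h4 : 1 ≤ (1 / (m - d) ^ 2) * ((V.card : ℝ) - q * S.card) ^ 2 := by
          rw [one_div, inv_mul_eq_div, le_div_iff₀ (by positivity)]
          linarith
        linarith
    rw [mu_add, mu_const, mu_const_mul, mu_var] at hlow
    refine le_trans ?_ hlow
    have h5 : q * (1 - q) * S.card ≤ m := by
      have : q * (1 - q) * S.card = (1 - q) * m := by rw [hm]; ring
      rw [this]
      nlinarith
    have h6 : (1 / (m - d) ^ 2) * (q * (1 - q) * S.card) ≤ 4 / 9 := by
      rw [one_div, inv_mul_eq_div, div_le_iff₀ (by positivity)]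
      nlinarith
    linarith

theorem mu_decomp (q : ℝ) (S : Finset α) (g : Finset α → ℝ) :
    mu q S g = ∑ j ∈ Finset.range (S.card + 1),
      q ^ j * (1 - q) ^ (S.card - j) * ∑ V ∈ S.powersetCard j, g V := by
  unfold mu
  rw [Finset.sum_powerset]
  refine Finset.sum_congr rfl fun j _ => ?_
  rw [Finset.mul_sum]
  refine Finset.sum_congr rfl fun V hV => ?_
  rw [(Finset.mem_powersetCard.1 hV).2]

/-- uniform `d`-subset is dominated by a product random set: Chebyshev gives `P(Bin(N,q) ≥ d) ≥ 5/9`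
as soon as `q*N ≥ 4*d`. -/
theorem unif_le_mu {q : ℝ} (h0 : 0 ≤ q) (h1 : q ≤ 1) (S : Finset α) (d : ℕ)
    (hd : 4 * (d : ℝ) ≤ q * (S.card : ℝ)) (g : Finset α → ℝ) (hg : Monotone g)
    (hg0 : ∀ V, 0 ≤ g V) :
    (∑ V ∈ S.powersetCard d, g V) / (S.card.choose d : ℝ) ≤ 9 / 5 * mu q S g := by
  set A : ℝ := (∑ V ∈ S.powersetCard d, g V) / (S.card.choose d : ℝ) with hA
  have hA0 : 0 ≤ A := div_nonneg (Finset.sum_nonneg fun V _ => hg0 V) (Nat.cast_nonneg _)
  have hkey : A * mu q S (fun V => if d ≤ V.card then (1:ℝ) else 0) ≤ mu q S g := by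
    rw [mu_decomp, mu_decomp, Finset.mul_sum]
    refine Finset.sum_le_sum fun j hj => ?_
    have hjS : j ≤ S.card := by
      have := Finset.mem_range.1 hj; omega
    have hw : 0 ≤ q ^ j * (1 - q) ^ (S.card - j) := by
      have : (0:ℝ) ≤ 1 - q := by linarith
      positivity
    have hs : ∑ V ∈ S.powersetCard j, (if d ≤ V.card then (1:ℝ) else 0)
        = if d ≤ j then (S.card.choose j : ℝ) else 0 := by
      have : ∀ V ∈ S.powersetCard j, (if d ≤ V.card then (1:ℝ) else 0) = if d ≤ j then (1:ℝ) else 0 := by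
        intro V hV
        rw [(Finset.mem_powersetCard.1 hV).2]
      rw [Finset.sum_congr rfl this, Finset.sum_const, Finset.card_powersetCard]
      split_ifs <;> simp
    rw [hs]
    have hc : (0:ℝ) < (S.card.choose j : ℝ) := by exact_mod_cast Nat.choose_pos hjS
    by_cases h : d ≤ j
    · rw [if_pos h]
      have h2 := avg_mono S g hg d j h hjS
      rw [← hA, le_div_iff₀ hc] at h2
      calc A * (q ^ j * (1 - q) ^ (S.card - j) * (S.card.choose j : ℝ))
          = (q ^ j * (1 - q) ^ (S.card - j)) * (A * (S.card.choose j : ℝ)) := by ring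
        _ ≤ _ := mul_le_mul_of_nonneg_left h2 hw
    · rw [if_neg h, mul_zero, mul_zero]
      exact mul_nonneg hw (Finset.sum_nonneg fun V _ => hg0 V)
  have htail := mu_tail h0 h1 S d hd
  have h3 : A * (5 / 9) ≤ mu q S g := le_trans (mul_le_mul_of_nonneg_left htail hA0) hkey
  linarith

/-! ## part m5b -/

theorem mu_sum {ι : Type*} (q : ℝ) (S : Finset α) (s : Finset ι) (f : ι → Finset α → ℝ) :
    mu q S (fun V => ∑ i ∈ s, f i V) = ∑ i ∈ s, mu q S (f i) := by
  unfold mu
  rw [Finset.sum_comm]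
  refine Finset.sum_congr rfl fun V _ => ?_
  rw [Finset.mul_sum]

theorem mu_ind (q : ℝ) (S : Finset α) : ∀ T ⊆ S,
    mu q S (fun V => if T ⊆ V then (1 : ℝ) else 0) = q ^ T.card := by
  induction S using Finset.induction_on with
  | empty =>
    intro T hT
    have : T = ∅ := Finset.subset_empty.1 hT
    subst this
    simp [mu_empty]
  | insert x S hx ih =>
    intro T hT
    rw [mu_insert q S x hx]
    by_cases hxT : x ∈ T
    · have h1 : T.erase x ⊆ S := by
        intro y hy
        have h2 := hT (Finset.mem_of_mem_erase hy)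
        rcases Finset.mem_insert.1 h2 with h3 | h3
        · exact absurd h3 (Finset.ne_of_mem_erase hy)
        · exact h3
      have h2 : mu q S (fun V => if T ⊆ insert x V then (1 : ℝ) else 0) =
          mu q S (fun V => if T.erase x ⊆ V then (1 : ℝ) else 0) := by
        apply mu_congr
        intro V hV
        have h3 : T ⊆ insert x V ↔ T.erase x ⊆ V := by
          rw [Finset.subset_insert_iff]
        simp only [h3]
      have h4 : mu q S (fun V => if T ⊆ V then (1 : ℝ) else 0) = 0 := by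
        have h5 : mu q S (fun V => if T ⊆ V then (1 : ℝ) else 0) = mu q S (fun _ => (0 : ℝ)) := by
          apply mu_congr
          intro V hV
          rw [if_neg]
          intro h6
          exact hx (hV (h6 hxT))
        rw [h5, mu_const]
      rw [h2, ih _ h1, h4, mul_zero, add_zero, ← pow_succ', Finset.card_erase_add_one hxT]
    · have h1 : T ⊆ S := by
        intro y hy
        rcases Finset.mem_insert.1 (hT hy) with h3 | h3
        · exact absurd (h3 ▸ hy) hxT
        · exact h3
      have h2 : mu q S (fun V => if T ⊆ insert x V then (1 : ℝ) else 0) =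
          mu q S (fun V => if T ⊆ V then (1 : ℝ) else 0) := by
        apply mu_congr
        intro V hV
        have h3 : T ⊆ insert x V ↔ T ⊆ V := by
          rw [Finset.subset_insert_iff, Finset.erase_eq_of_notMem hxT]
        simp only [h3]
      rw [h2, ih _ h1]
      ring

theorem card_pair_union (x y x' y' : α) (hxy : x ≠ y) (hxy' : x' ≠ y') :
    2 ≤ (({x, y} : Finset α) ∪ {x', y'}).card ∧
    (¬ ((x' = x ∧ y' = y) ∨ (x' = y ∧ y' = x)) → 3 ≤ (({x, y} : Finset α) ∪ {x', y'}).card) ∧
    (x' ≠ x → x' ≠ y → y' ≠ x → y' ≠ y → 4 ≤ (({x, y} : Finset α) ∪ {x', y'}).card) := by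
  have h2 : (({x, y} : Finset α)).card = 2 := Finset.card_pair hxy
  refine ⟨?_, ?_, ?_⟩
  · rw [← h2]
    exact Finset.card_le_card Finset.subset_union_left
  · intro h
    have h3 : ∃ z ∈ ({x', y'} : Finset α), z ∉ ({x, y} : Finset α) := by
      by_contra hcon
      push Not at hcon
      have h4 := hcon x' (by simp)
      have h5 := hcon y' (by simp)
      simp only [Finset.mem_insert, Finset.mem_singleton] at h4 h5
      apply h
      rcases h4 with h4 | h4 <;> rcases h5 with h5 | h5
      · exact absurd (h4.trans h5.symm) hxy'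
      · exact Or.inl ⟨h4, h5⟩
      · exact Or.inr ⟨h4, h5⟩
      · exact absurd (h4.trans h5.symm) hxy'
    obtain ⟨z, hz, hz'⟩ := h3
    have h6 : insert z ({x, y} : Finset α) ⊆ ({x, y} : Finset α) ∪ {x', y'} := by
      intro t ht
      rcases Finset.mem_insert.1 ht with h7 | h7
      · rw [h7]; exact Finset.mem_union_right _ hz
      · exact Finset.mem_union_left _ h7
    have h7 := Finset.card_le_card h6
    rw [Finset.card_insert_of_notMem hz', h2] at h7
    exact h7
  · intro a b c e
    rw [Finset.card_union_of_disjoint, h2, Finset.card_pair hxy']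
    rw [Finset.disjoint_left]
    intro t ht ht'
    simp only [Finset.mem_insert, Finset.mem_singleton] at ht ht'
    rcases ht with ht | ht <;> rcases ht' with ht' | ht' <;> subst ht
    · exact a ht'.symm
    · exact c ht'.symm
    · exact b ht'.symm
    · exact e ht'.symm

theorem pow_pair_le (t : ℝ) (ht0 : 0 ≤ t) (ht1 : t ≤ 1) (x y x' y' : α) (hxy : x ≠ y)
    (hxy' : x' ≠ y') :
    t ^ (({x, y} : Finset α) ∪ {x', y'}).card ≤
      t ^ 2 * ((if x' = x then (if y' = y then (1 : ℝ) else 0) else 0) +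
        (if x' = y then (if y' = x then (1 : ℝ) else 0) else 0)) +
      t ^ 3 * ((if x' = x then (1 : ℝ) else 0) + (if x' = y then (1 : ℝ) else 0) +
        (if y' = x then (1 : ℝ) else 0) + (if y' = y then (1 : ℝ) else 0)) + t ^ 4 := by
  obtain ⟨ha, hb, hc⟩ := card_pair_union x y x' y' hxy hxy'
  have i0 : ∀ p : Prop, [Decidable p] → 0 ≤ (if p then (1 : ℝ) else 0) := by
    intro p _
    split_ifs <;> norm_num
  have i1 : 0 ≤ (if x' = x then (if y' = y then (1 : ℝ) else 0) else 0) := by
    split_ifs <;> norm_num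
  have i2 : 0 ≤ (if x' = y then (if y' = x then (1 : ℝ) else 0) else 0) := by
    split_ifs <;> norm_num
  have t4 : 0 ≤ t ^ 4 := by positivity
  have t3 : 0 ≤ t ^ 3 := by positivity
  have t2 : 0 ≤ t ^ 2 := by positivity
  by_cases h1 : (x' = x ∧ y' = y) ∨ (x' = y ∧ y' = x)
  · have h2 : t ^ (({x, y} : Finset α) ∪ {x', y'}).card ≤ t ^ 2 := pow_le_pow_of_le_one ht0 ht1 ha
    have h3 : 1 ≤ (if x' = x then (if y' = y then (1 : ℝ) else 0) else 0) +
        (if x' = y then (if y' = x then (1 : ℝ) else 0) else 0) := by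
      rcases h1 with ⟨h4, h5⟩ | ⟨h4, h5⟩
      · rw [if_pos h4, if_pos h5]; linarith
      · rw [if_pos h4, if_pos h5]; linarith
    have h6 := mul_le_mul_of_nonneg_left h3 t2
    have h7 : 0 ≤ t ^ 3 * ((if x' = x then (1 : ℝ) else 0) + (if x' = y then (1 : ℝ) else 0) +
        (if y' = x then (1 : ℝ) else 0) + (if y' = y then (1 : ℝ) else 0)) := by
      have := i0 (x' = x); have := i0 (x' = y); have := i0 (y' = x); have := i0 (y' = y)
      positivity
    linarith
  · have h6 : 0 ≤ t ^ 2 * ((if x' = x then (if y' = y then (1 : ℝ) else 0) else 0) +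
        (if x' = y then (if y' = x then (1 : ℝ) else 0) else 0)) := by positivity
    by_cases h2 : x' = x ∨ x' = y ∨ y' = x ∨ y' = y
    · have h3 : t ^ (({x, y} : Finset α) ∪ {x', y'}).card ≤ t ^ 3 :=
        pow_le_pow_of_le_one ht0 ht1 (hb h1)
      have h4 : 1 ≤ (if x' = x then (1 : ℝ) else 0) + (if x' = y then (1 : ℝ) else 0) +
        (if y' = x then (1 : ℝ) else 0) + (if y' = y then (1 : ℝ) else 0) := by
        have := i0 (x' = x); have := i0 (x' = y); have := i0 (y' = x); have := i0 (y' = y)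
        rcases h2 with h5 | h5 | h5 | h5 <;> rw [if_pos h5] <;> linarith
      have h5 := mul_le_mul_of_nonneg_left h4 t3
      linarith
    · push Not at h2
      obtain ⟨a1, a2, a3, a4⟩ := h2
      have h3 : t ^ (({x, y} : Finset α) ∪ {x', y'}).card ≤ t ^ 4 :=
        pow_le_pow_of_le_one ht0 ht1 (hc a1 a2 a3 a4)
      have h7 : 0 ≤ t ^ 3 * ((if x' = x then (1 : ℝ) else 0) + (if x' = y then (1 : ℝ) else 0) +
        (if y' = x then (1 : ℝ) else 0) + (if y' = y then (1 : ℝ) else 0)) := by
        have := i0 (x' = x); have := i0 (x' = y); have := i0 (y' = x); have := i0 (y' = y)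
        positivity
      linarith

theorem second_moment_m5b (M : Finset α) (N : ℝ) (hN1 : 1 ≤ N)
    (hN : (M.card : ℝ) ≤ N) (ω : α → α → ℝ) (hω0 : ∀ x y, 0 ≤ ω x y)
    (hrow : ∀ x ∈ M, ∑ y ∈ M, ω x y ≤ 1) (hcol : ∀ y ∈ M, ∑ x ∈ M, ω x y ≤ 1)
    (x y : α) (hx : x ∈ M) (hy : y ∈ M) (hxy : x ≠ y) (t : ℝ) (ht0 : 0 ≤ t) (ht1 : t ≤ 1)
    (ht2 : t ^ 2 = 1 / N) :
    ∑ x' ∈ M, ∑ y' ∈ M.erase x', ω x' y' * t ^ (({x, y} : Finset α) ∪ {x', y'}).card ≤ 7 * t ^ 2 := by
  have hN0 : 0 < N := by linarith
  have t4 : 0 ≤ t ^ 4 := by positivity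
  have t3 : 0 ≤ t ^ 3 := by positivity
  have t2 : 0 ≤ t ^ 2 := by positivity
  let F : α → α → ℝ := fun x' y' => ω x' y' *
    (t ^ 2 * ((if x' = x then (if y' = y then (1 : ℝ) else 0) else 0) +
        (if x' = y then (if y' = x then (1 : ℝ) else 0) else 0)) +
      t ^ 3 * ((if x' = x then (1 : ℝ) else 0) + (if x' = y then (1 : ℝ) else 0) +
        (if y' = x then (1 : ℝ) else 0) + (if y' = y then (1 : ℝ) else 0)) + t ^ 4)
  have hF0 : ∀ x' y', 0 ≤ F x' y' := by
    intro x' y'
    apply mul_nonneg (hω0 _ _)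
    have i0 : ∀ p : Prop, [Decidable p] → 0 ≤ (if p then (1 : ℝ) else 0) := by
      intro p _
      split_ifs <;> norm_num
    have i1 : 0 ≤ (if x' = x then (if y' = y then (1 : ℝ) else 0) else 0) := by
      split_ifs <;> norm_num
    have i2 : 0 ≤ (if x' = y then (if y' = x then (1 : ℝ) else 0) else 0) := by
      split_ifs <;> norm_num
    have := i0 (x' = x); have := i0 (x' = y); have := i0 (y' = x); have := i0 (y' = y)
    positivity
  have h1 : ∑ x' ∈ M, ∑ y' ∈ M.erase x', ω x' y' * t ^ (({x, y} : Finset α) ∪ {x', y'}).card ≤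
      ∑ x' ∈ M, ∑ y' ∈ M, F x' y' := by
    apply Finset.sum_le_sum
    intro x' _
    calc _ ≤ ∑ y' ∈ M.erase x', F x' y' := by
          apply Finset.sum_le_sum
          intro y' hy'
          apply mul_le_mul_of_nonneg_left _ (hω0 _ _)
          exact pow_pair_le t ht0 ht1 x y x' y' hxy (Finset.ne_of_mem_erase hy').symm
      _ ≤ _ := Finset.sum_le_sum_of_subset_of_nonneg (Finset.erase_subset _ _)
          (fun y' _ _ => hF0 x' y')
  refine h1.trans ?_
  have hw1 : ∀ a ∈ M, ∀ b ∈ M, ω a b ≤ 1 := fun a ha b hb =>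
    (Finset.single_le_sum (fun c _ => hω0 a c) hb).trans (hrow a ha)
  have e1 : ∑ x' ∈ M, ∑ y' ∈ M, F x' y' =
      t ^ 2 * (ω x y + ω y x) +
      t ^ 3 * (∑ y' ∈ M, ω x y' + ∑ y' ∈ M, ω y y' + ∑ x' ∈ M, ω x' x + ∑ x' ∈ M, ω x' y) +
      t ^ 4 * ∑ x' ∈ M, ∑ y' ∈ M, ω x' y' := by
    have s1 : ∀ a ∈ M, ∀ b ∈ M, ∑ x' ∈ M, ∑ y' ∈ M,
        ω x' y' * (if x' = a then (if y' = b then (1 : ℝ) else 0) else 0) = ω a b := by
      intro a ha b hb
      rw [Finset.sum_eq_single a, Finset.sum_eq_single b]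
      · simp
      · intro c _ hc; simp [hc]
      · intro h; exact absurd hb h
      · intro c _ hc; simp [hc]
      · intro h; exact absurd ha h
    have s2 : ∀ a ∈ M, ∑ x' ∈ M, ∑ y' ∈ M,
        ω x' y' * (if x' = a then (1 : ℝ) else 0) = ∑ y' ∈ M, ω a y' := by
      intro a ha
      rw [Finset.sum_eq_single a]
      · simp
      · intro c _ hc; simp [hc]
      · intro h; exact absurd ha h
    have s3 : ∀ a ∈ M, ∑ x' ∈ M, ∑ y' ∈ M,
        ω x' y' * (if y' = a then (1 : ℝ) else 0) = ∑ x' ∈ M, ω x' a := by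
      intro a ha
      refine Finset.sum_congr rfl fun x' _ => ?_
      rw [Finset.sum_eq_single a]
      · simp
      · intro c _ hc; simp [hc]
      · intro h; exact absurd ha h
    rw [← s1 x hx y hy, ← s1 y hy x hx, ← s2 x hx, ← s2 y hy, ← s3 x hx, ← s3 y hy]
    simp only [Finset.mul_sum, ← Finset.sum_add_distrib]
    refine Finset.sum_congr rfl fun x' _ => Finset.sum_congr rfl fun y' _ => ?_
    simp only [F]
    ring
  rw [e1]
  have b1 : ω x y + ω y x ≤ 2 := by
    have := hw1 x hx y hy; have := hw1 y hy x hx; linarith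
  have b2 : ∑ y' ∈ M, ω x y' + ∑ y' ∈ M, ω y y' + ∑ x' ∈ M, ω x' x + ∑ x' ∈ M, ω x' y ≤ 4 := by
    have := hrow x hx; have := hrow y hy; have := hcol x hx; have := hcol y hy; linarith
  have b3 : ∑ x' ∈ M, ∑ y' ∈ M, ω x' y' ≤ N := by
    calc _ ≤ ∑ _x' ∈ M, (1 : ℝ) := Finset.sum_le_sum (fun a ha => hrow a ha)
      _ = M.card := by simp
      _ ≤ N := hN
  have c1 := mul_le_mul_of_nonneg_left b1 t2
  have c2 := mul_le_mul_of_nonneg_left b2 t3
  have c3 := mul_le_mul_of_nonneg_left b3 t4
  have c4 : t ^ 3 ≤ t ^ 2 := pow_le_pow_of_le_one ht0 ht1 (by norm_num)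
  have c5 : t ^ 4 * N = t ^ 2 := by
    have : t ^ 4 = t ^ 2 * t ^ 2 := by ring
    rw [this, ht2]
    field_simp
  linarith

/-- two-round exposure of a fractional matching of pairs -/
theorem two_round {q : ℝ} (h0 : 0 ≤ q) (h1 : q ≤ 1) (M : Finset α) (N : ℝ) (hN1 : 1 ≤ N)
    (hN : (M.card : ℝ) ≤ N) (ω : α → α → ℝ) (hω0 : ∀ x y, 0 ≤ ω x y)
    (hrow : ∀ x ∈ M, ∑ y ∈ M, ω x y ≤ 1) (hcol : ∀ y ∈ M, ∑ x ∈ M, ω x y ≤ 1)
    (g : Finset α → ℝ) (hg : Monotone g) (hg0 : ∀ V, 0 ≤ g V) :
    1 / (8 * N) * ∑ x ∈ M, ∑ y ∈ M.erase x, ω x y * mu q M (fun V => g (insert x (insert y V)))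
      ≤ mu (Real.sqrt (1 / N)) M (fun V₁ => mu q M (fun V₂ => g (V₁ ∪ V₂))) := by
  have hN0 : 0 < N := by linarith
  set t := Real.sqrt (1 / N) with ht
  have ht0 : 0 ≤ t := Real.sqrt_nonneg _
  have ht2 : t ^ 2 = 1 / N := Real.sq_sqrt (by positivity)
  have ht1 : t ≤ 1 := by
    have h5 : (1 : ℝ) / N ≤ 1 := by
      rw [div_le_one hN0]; exact hN1
    calc t ≤ Real.sqrt 1 := Real.sqrt_le_sqrt h5
      _ = 1 := Real.sqrt_one
  let W : Finset α → ℝ := fun V => ∑ x ∈ M, ∑ y ∈ M.erase x,
    ω x y * (if ({x, y} : Finset α) ⊆ V then (1 : ℝ) else 0)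
  have hind0 : ∀ (T V : Finset α), 0 ≤ (if T ⊆ V then (1 : ℝ) else 0) := by
    intro T V; split_ifs <;> norm_num
  have hW0 : ∀ V, 0 ≤ W V := fun V => Finset.sum_nonneg fun x _ => Finset.sum_nonneg fun y _ =>
    mul_nonneg (hω0 _ _) (hind0 _ _)
  -- step 1
  have step1 : ∀ V₁ V₂ : Finset α,
      (∑ x ∈ M, ∑ y ∈ M.erase x, (ω x y * (if ({x, y} : Finset α) ⊆ V₁ then (1 : ℝ) else 0) *
        ((15 - W V₁) / 64)) * g (insert x (insert y V₂))) ≤ g (V₁ ∪ V₂) := by
    intro V₁ V₂
    set A := ∑ x ∈ M, ∑ y ∈ M.erase x, (ω x y * (if ({x, y} : Finset α) ⊆ V₁ then (1 : ℝ) else 0)) *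
        g (insert x (insert y V₂)) with hA
    have e1 : (∑ x ∈ M, ∑ y ∈ M.erase x, (ω x y * (if ({x, y} : Finset α) ⊆ V₁ then (1 : ℝ) else 0) *
        ((15 - W V₁) / 64)) * g (insert x (insert y V₂))) = ((15 - W V₁) / 64) * A := by
      rw [hA]
      simp only [Finset.mul_sum]
      refine Finset.sum_congr rfl fun x _ => Finset.sum_congr rfl fun y _ => ?_
      ring
    have hA0 : 0 ≤ A := Finset.sum_nonneg fun x _ => Finset.sum_nonneg fun y _ =>
      mul_nonneg (mul_nonneg (hω0 _ _) (hind0 _ _)) (hg0 _)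
    have hA1 : A ≤ W V₁ * g (V₁ ∪ V₂) := by
      rw [hA]
      simp only [W, Finset.sum_mul]
      refine Finset.sum_le_sum fun x _ => Finset.sum_le_sum fun y _ => ?_
      by_cases h2 : ({x, y} : Finset α) ⊆ V₁
      · apply mul_le_mul_of_nonneg_left _ (mul_nonneg (hω0 _ _) (hind0 _ _))
        apply hg
        intro z hz
        rw [Finset.mem_insert, Finset.mem_insert] at hz
        rcases hz with hz | hz | hz
        · exact Finset.mem_union_left _ (h2 (by simp [hz]))
        · exact Finset.mem_union_left _ (h2 (by simp [hz]))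
        · exact Finset.mem_union_right _ hz
      · rw [if_neg h2]; simp
    rw [e1]
    have hW := hW0 V₁
    have hgg := hg0 (V₁ ∪ V₂)
    rcases le_total 15 (W V₁) with h3 | h3
    · have : (15 - W V₁) / 64 * A ≤ 0 := by
        apply mul_nonpos_of_nonpos_of_nonneg _ hA0
        linarith
      linarith
    · have h4 : 0 ≤ (15 - W V₁) / 64 := by linarith
      calc _ ≤ (15 - W V₁) / 64 * (W V₁ * g (V₁ ∪ V₂)) := mul_le_mul_of_nonneg_left hA1 h4
        _ = ((15 - W V₁) * W V₁ / 64) * g (V₁ ∪ V₂) := by ring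
        _ ≤ 1 * g (V₁ ∪ V₂) := by
          apply mul_le_mul_of_nonneg_right _ hgg
          nlinarith [sq_nonneg (W V₁ - 15 / 2)]
        _ = _ := one_mul _
  -- step 2
  let η : α → α → ℝ := fun x y => mu q M (fun V => g (insert x (insert y V)))
  have hη0 : ∀ x y, 0 ≤ η x y := fun x y => mu_nonneg h0 h1 M (fun V _ => hg0 _)
  have step2 : ∀ V₁ : Finset α,
      (∑ x ∈ M, ∑ y ∈ M.erase x, (ω x y * (if ({x, y} : Finset α) ⊆ V₁ then (1 : ℝ) else 0) *
        ((15 - W V₁) / 64)) * η x y) ≤ mu q M (fun V₂ => g (V₁ ∪ V₂)) := by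
    intro V₁
    have h2 := mu_mono h0 h1 M (fun V₂ _ => step1 V₁ V₂)
    refine le_trans (le_of_eq ?_) h2
    rw [mu_sum]
    refine Finset.sum_congr rfl fun x _ => ?_
    rw [mu_sum]
    refine Finset.sum_congr rfl fun y _ => ?_
    rw [mu_const_mul]
  -- step 3
  have step3 : mu t M (fun V₁ => ∑ x ∈ M, ∑ y ∈ M.erase x,
      (ω x y * (if ({x, y} : Finset α) ⊆ V₁ then (1 : ℝ) else 0) *
        ((15 - W V₁) / 64)) * η x y) ≤
      mu t M (fun V₁ => mu q M (fun V₂ => g (V₁ ∪ V₂))) :=
    mu_mono ht0 ht1 M (fun V₁ _ => step2 V₁)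
  refine le_trans ?_ step3
  rw [mu_sum, Finset.mul_sum]
  refine Finset.sum_le_sum fun x hx => ?_
  rw [mu_sum, Finset.mul_sum]
  refine Finset.sum_le_sum fun y hy => ?_
  have hyM := Finset.mem_of_mem_erase hy
  have hxy : x ≠ y := (Finset.ne_of_mem_erase hy).symm
  have hxyM : ({x, y} : Finset α) ⊆ M := by
    intro z hz
    rw [Finset.mem_insert, Finset.mem_singleton] at hz
    rcases hz with hz | hz <;> rw [hz] <;> assumption
  -- the integrand
  have e2 : ∀ V₁ : Finset α, (ω x y * (if ({x, y} : Finset α) ⊆ V₁ then (1 : ℝ) else 0) *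
        ((15 - W V₁) / 64)) * η x y =
      (15 / 64 * (ω x y * η x y)) * (if ({x, y} : Finset α) ⊆ V₁ then (1 : ℝ) else 0) +
      (-(1 / 64) * (ω x y * η x y)) * ∑ x' ∈ M, ∑ y' ∈ M.erase x',
        ω x' y' * (if ({x, y} ∪ {x', y'} : Finset α) ⊆ V₁ then (1 : ℝ) else 0) := by
    intro V₁
    have e3 : (if ({x, y} : Finset α) ⊆ V₁ then (1 : ℝ) else 0) * W V₁ =
        ∑ x' ∈ M, ∑ y' ∈ M.erase x',
        ω x' y' * (if ({x, y} ∪ {x', y'} : Finset α) ⊆ V₁ then (1 : ℝ) else 0) := by
      simp only [W, Finset.mul_sum]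
      refine Finset.sum_congr rfl fun x' _ => Finset.sum_congr rfl fun y' _ => ?_
      by_cases h2 : ({x, y} : Finset α) ⊆ V₁
      · by_cases h3 : ({x', y'} : Finset α) ⊆ V₁
        · rw [if_pos h2, if_pos h3, if_pos (Finset.union_subset h2 h3)]; ring
        · rw [if_pos h2, if_neg h3, if_neg (fun h => h3 (Finset.union_subset_iff.1 h).2)]; ring
      · rw [if_neg h2, if_neg (fun h => h2 (Finset.union_subset_iff.1 h).1)]; ring
    rw [← e3]
    ring
  have e4 : mu t M (fun V₁ => (ω x y * (if ({x, y} : Finset α) ⊆ V₁ then (1 : ℝ) else 0) *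
        ((15 - W V₁) / 64)) * η x y) =
      (15 / 64 * (ω x y * η x y)) * t ^ 2 + (-(1 / 64) * (ω x y * η x y)) *
        ∑ x' ∈ M, ∑ y' ∈ M.erase x', ω x' y' * t ^ (({x, y} : Finset α) ∪ {x', y'}).card := by
    simp only [e2]
    rw [mu_add, mu_const_mul, mu_const_mul, mu_ind t M _ hxyM, Finset.card_pair hxy, mu_sum]
    congr 2
    refine Finset.sum_congr rfl fun x' hx' => ?_
    rw [mu_sum]
    refine Finset.sum_congr rfl fun y' hy' => ?_
    rw [mu_const_mul, mu_ind t M]
    apply Finset.union_subset hxyM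
    intro z hz
    rw [Finset.mem_insert, Finset.mem_singleton] at hz
    rcases hz with hz | hz <;> rw [hz]
    · exact hx'
    · exact Finset.mem_of_mem_erase hy'
  rw [e4]
  have h7 := second_moment_m5b M N hN1 hN ω hω0 hrow hcol x y hx hyM hxy t ht0 ht1 ht2
  have h8 : 0 ≤ ω x y * η x y := mul_nonneg (hω0 _ _) (hη0 _ _)
  have h9 := mul_le_mul_of_nonneg_left h7 (by positivity : 0 ≤ 1 / 64 * (ω x y * η x y))
  have h10 : 1 / (8 * N) * (ω x y * η x y) = 1 / 8 * (ω x y * η x y) * t ^ 2 := by
    rw [ht2]; field_simp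
  show 1 / (8 * N) * (ω x y * η x y) ≤ _
  rw [h10]
  nlinarith

end UF
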