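import Pool.Agent.UFree.Base
import Pool.Agent.UFree.Mu
import Pool.Agent.UFree.Ops

set_option autoImplicit false
set_option linter.unusedSectionVars false
set_option linter.unusedVariables false
set_option linter.unusedSimpArgs false
open Finset

namespace UF
variable {α : Type*} [Fintype α] [DecidableEq α]

/-! ## part u2 -/

theorem xiR_nonneg (F : Finset (Finset α)) (C B : Finset α) : 0 ≤ xiR F C B := by
  unfold xiR
  split_ifs <;> norm_num

theorem xiR_le_one (F : Finset (Finset α)) (C B : Finset α) : xiR F C B ≤ 1 := by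
  unfold xiR
  split_ifs <;> norm_num

theorem xiR_anti (F : Finset (Finset α)) (C : Finset α) {B B' : Finset α} (h : B ⊆ B') :
    xiR F C B' ≤ xiR F C B := by
  by_cases h1 : xi F C B'
  · have h2 : xi F C B := by
      obtain ⟨A, hA, hB, hC⟩ := h1
      exact ⟨A, hA, h.trans hB, hC⟩
    unfold xiR
    rw [if_pos h1, if_pos h2]
  · have h3 : xiR F C B' = 0 := by
      unfold xiR
      rw [if_neg h1]
    rw [h3]
    exact xiR_nonneg F C B

theorem xiR_eq_one {F : Finset (Finset α)} {C A B : Finset α} (hA : A ∈ F) (hAC : A ⊂ C)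
    (hB : B ⊆ A) : xiR F C B = 1 := by
  unfold xiR
  rw [if_pos ⟨A, hA, hB, hAC⟩]

theorem Fb_nonneg (F : Finset (Finset α)) (b : ℕ) (Q : Finset α) : 0 ≤ Fb F b Q := by
  unfold Fb
  split_ifs <;> norm_num

theorem Fb_le_one (F : Finset (Finset α)) (b : ℕ) (Q : Finset α) : Fb F b Q ≤ 1 := by
  unfold Fb
  split_ifs <;> norm_num

theorem Hb_nonneg (F : Finset (Finset α)) (b : ℕ) (Q : Finset α) : 0 ≤ Hb F b Q :=
  Ds_nonneg (Fb_le_one F b) (Fb_nonneg F b) Q

theorem Hb_le_one (F : Finset (Finset α)) (b : ℕ) (Q : Finset α) : Hb F b Q ≤ 1 :=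
  Ds_le_one (Fb_le_one F b) (fun _ => le_rfl) Q

theorem Hb_of_card_lt (F : Finset (Finset α)) (b : ℕ) (Q : Finset α) (h : Q.card < b) :
    Hb F b Q = 0 := by
  have key : ∀ n : ℕ, ∀ Q : Finset α, Q.card = n → Q.card < b → Hb F b Q = 0 := by
    intro n
    induction n using Nat.strong_induction_on with
    | _ n ih =>
      intro Q hQ hQb
      have h1 : Hb F b Q = Fb F b Q + (1 - Fb F b Q) * Dn (Hb F b) Q := Ds_eq _ _ Q
      have h2 : Fb F b Q = 0 := by
        unfold Fb
        rw [if_neg]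
        rintro ⟨_, h3⟩
        omega
      have h3 : Dn (Hb F b) Q = 0 := by
        unfold Dn
        have h4 : ∑ y ∈ Q, Hb F b (Q.erase y) = 0 := by
          refine Finset.sum_eq_zero fun y hy => ?_
          have h5 := Finset.card_erase_of_mem hy
          have h6 := Finset.card_pos.2 ⟨y, hy⟩
          exact ih (Q.erase y).card (by omega) _ rfl (by omega)
        rw [h4, zero_div]
      rw [h1, h2, h3]
      ring
  exact key Q.card Q rfl h

theorem Dn_Hb_le (F : Finset (Finset α)) (b : ℕ) (Q : Finset α) :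
    Dn (Hb F b) Q ≤ Hb F b Q :=
  Dn_H_le_H (Fb_nonneg F b) (Fb_le_one F b) Q

/-! ## part u1 -/

theorem centre_exists (F : Finset (Finset α))
    (hF : ∀ A ∈ F, ∀ B ∈ F, ∀ C ∈ F, A ≠ B → A ≠ C → B ≠ C → A ∪ B ≠ C)
    (C : Finset α) (hC : C ∈ F) (hne : C.Nonempty) : ∃ z, Centre F C z := by
  classical
  have hmono : ∀ A B : Finset α, A ⊆ B → xi F C (C \ A) → xi F C (C \ B) := by
    rintro A B hAB ⟨D, hD, h1, h2⟩
    exact ⟨D, hD, (Finset.sdiff_subset_sdiff (Finset.Subset.refl C) hAB).trans h1, h2⟩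
  have hint : ∀ A B : Finset α, xi F C (C \ A) → xi F C (C \ B) → (A ∩ B).Nonempty := by
    rintro A B ⟨D, hD, h1, h2⟩ ⟨E, hE, h3, h4⟩
    by_contra hcon
    rw [Finset.not_nonempty_iff_eq_empty] at hcon
    have hun : D ∪ E = C := by
      apply Finset.Subset.antisymm
      · exact Finset.union_subset h2.subset h4.subset
      · intro x hx
        by_cases hA : x ∈ A
        · have hB : x ∉ B := fun hB => by
            have : x ∈ A ∩ B := Finset.mem_inter.2 ⟨hA, hB⟩
            rw [hcon] at this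
            exact absurd this (Finset.notMem_empty x)
          exact Finset.mem_union_right _ (h3 (Finset.mem_sdiff.2 ⟨hx, hB⟩))
        · exact Finset.mem_union_left _ (h1 (Finset.mem_sdiff.2 ⟨hx, hA⟩))
    have hDE : D ≠ E := by
      rintro rfl
      rw [Finset.union_self] at hun
      exact h2.ne hun
    exact hF D hD E hE C hC hDE h2.ne h4.ne hun
  obtain ⟨z, hz, H⟩ := exists_centre C hne (fun V => xi F C (C \ V)) hmono hint
  refine ⟨z, hz, fun q h0 h1 => ?_⟩
  have := H q h0 h1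
  refine le_trans (le_of_eq ?_) this
  refine mu_congr _ fun V _ => ?_
  unfold xiR
  by_cases h : xi F C (C \ V)
  · simp [h]
  · simp [h]

/-! ## part u3 -/

theorem Dn_iter_one (i : ℕ) : ∀ Q : Finset α, i ≤ Q.card → (Dn^[i] (fun _ : Finset α => (1 : ℝ))) Q = 1 := by
  induction i with
  | zero => intro Q _; rfl
  | succ i ih =>
    intro Q hQ
    rw [Function.iterate_succ_apply']
    have hne : Q ≠ ∅ := by rintro rfl; simp at hQ
    have h1 : Dn (Dn^[i] (fun _ : Finset α => (1 : ℝ))) Q = Dn (fun _ => 1) Q := by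
      apply Dn_congr
      intro y hy
      apply ih
      rw [Finset.card_erase_of_mem hy]; omega
    rw [h1, Dn_const hne]

theorem Hb_le_iter_aux (F : Finset (Finset α)) (C : Finset α) (z : α) {b : ℕ} (i : ℕ) :
    ∀ P : Finset α, P ⊂ C → P.card = b + i →
    Hb F b P ≤ (Dn^[i] (fun X => if z ∈ X then xiR F C X else 1)) P := by
  induction i with
  | zero =>
    intro P hPC hP
    show Hb F b P ≤ if z ∈ P then xiR F C P else 1
    by_cases hF : P ∈ F
    · rw [xiR_eq_one hF hPC (Finset.Subset.refl P), ite_self]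
      exact Hb_le_one F b P
    · have h0 : Hb F b P = 0 := by
        unfold Hb
        rw [Ds_eq]
        have : Fb F b P = 0 := by unfold Fb; rw [if_neg (fun h => hF h.1)]
        rw [this]
        have h2 : Dn (Ds (Fb F b) (Fb F b)) P = 0 := by
          unfold Dn
          rw [Finset.sum_eq_zero, zero_div]
          intro y hy
          apply Hb_of_card_lt F b
          rw [Finset.card_erase_of_mem hy]
          have : 0 < P.card := Finset.card_pos.2 ⟨y, hy⟩
          omega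
        rw [h2]; ring
      rw [h0]
      split_ifs
      · exact xiR_nonneg _ _ _
      · exact zero_le_one
  | succ i ih =>
    intro P hPC hP
    by_cases hF : P ∈ F
    · refine (Hb_le_one F b P).trans ?_
      refine (Dn_iter_one (i + 1) P (by omega)).ge.trans ?_
      apply Dn_iter_mono (g := fun _ : Finset α => (1 : ℝ)) _ (by omega)
      intro X hX _
      by_cases hz : z ∈ X
      · rw [if_pos hz, xiR_eq_one hF hPC hX]
      · rw [if_neg hz]
    · have h0 : Hb F b P = Dn (Hb F b) P := by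
        unfold Hb
        rw [Ds_eq]
        have : Fb F b P = 0 := by unfold Fb; rw [if_neg (fun h => hF h.1)]
        rw [this]; ring
      rw [h0, Function.iterate_succ_apply']
      apply Dn_mono
      intro y hy
      apply ih
      · exact (Finset.erase_subset y P).trans_ssubset hPC
      · rw [Finset.card_erase_of_mem hy]; omega

theorem Hb_le_iter (F : Finset (Finset α)) (C : Finset α) (z : α) {b : ℕ} {P : Finset α}
    (hPC : P ⊂ C) (hb : b ≤ P.card) :
    Hb F b P ≤ (Dn^[P.card - b] (fun X => if z ∈ X then xiR F C X else 1)) P :=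
  Hb_le_iter_aux F C z (P.card - b) P hPC (by omega)

/-! ## part u4 -/

/-- iterated deletion is dominated by a product random deletion -/
theorem Dn_iter_xi_le (F : Finset (Finset α)) (C : Finset α) {P : Finset α} {z : α} (hz : z ∈ P)
    {i : ℕ} (hi : i + 1 ≤ P.card) {q : ℝ} (hq0 : 0 ≤ q) (hq1 : q ≤ 1)
    (hq : 4 * (i : ℝ) ≤ q * ((P.card : ℝ) - 1)) :
    (Dn^[i] (fun X => if z ∈ X then xiR F C X else 0)) P
      ≤ 9 / 5 * mu q (P.erase z) (fun V => xiR F C (P \ V)) := by
  have h1 := Dn_iter_mem_le (xiR F C) (xiR_nonneg F C) hz hi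
  refine h1.trans ?_
  have hcard : ((P.erase z).card : ℝ) = (P.card : ℝ) - 1 := by
    rw [Finset.card_erase_of_mem hz, Nat.cast_sub (by omega)]
    simp
  refine unif_le_mu hq0 hq1 (P.erase z) i (by rw [hcard]; exact hq) (fun V => xiR F C (P \ V)) ?_ ?_
  · intro V W hVW
    exact xiR_anti F C (Finset.sdiff_subset_sdiff (Finset.Subset.refl P) hVW)
  · intro V
    exact xiR_nonneg F C _

theorem Dn_iter_member_le (F : Finset (Finset α)) (C : Finset α) {z : α} (hC : Centre F C z)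
    {i : ℕ} (hi1 : 1 ≤ i) (hi : i + 1 ≤ C.card) {q : ℝ} (hq0 : 0 ≤ q) (hq1 : q ≤ 1)
    (hq : 4 * (i : ℝ) ≤ q * ((C.card : ℝ) - 1)) :
    (Dn^[i] (fun X => if z ∈ X then (if X ∈ F then (1 : ℝ) else 0) else 0)) C
      ≤ 9 / 5 * (256 * q ^ 2) := by
  have h1 : (Dn^[i] (fun X => if z ∈ X then (if X ∈ F then (1 : ℝ) else 0) else 0)) C
      ≤ (Dn^[i] (fun X => if z ∈ X then xiR F C X else 0)) C := by
    refine Dn_iter_mono (fun P hPC hcard => ?_) (by omega)
    by_cases hz : z ∈ P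
    · simp only [hz, if_true]
      by_cases hPF : P ∈ F
      · simp only [hPF, if_true]
        have hss : P ⊂ C := by
          refine ⟨hPC, fun h => ?_⟩
          have := Finset.card_le_card h
          omega
        rw [xiR_eq_one hPF hss (Finset.Subset.refl P)]
      · simp only [hPF, if_false]
        exact xiR_nonneg F C P
    · simp [hz]
  refine h1.trans ?_
  refine (Dn_iter_xi_le F C hC.1 hi hq0 hq1 hq).trans ?_
  have h2 := hC.2 q hq0 hq1
  linarith

/-! ## part u5 -/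

theorem Dn_iter_add (g h : Finset α → ℝ) (i : ℕ) (Q : Finset α) :
    (Dn^[i] (fun X => g X + h X)) Q = (Dn^[i] g) Q + (Dn^[i] h) Q := by
  induction i generalizing g h with
  | zero => rfl
  | succ i ih =>
    rw [Function.iterate_succ_apply, Function.iterate_succ_apply, Function.iterate_succ_apply]
    have e : Dn (fun X => g X + h X) = fun X => Dn g X + Dn h X := funext fun X => Dn_add g h X
    rw [e]
    exact ih (Dn g) (Dn h)

theorem Dn_iter_Psi (F : Finset (Finset α)) (C : Finset α) {z : α} {b : ℕ} {P : Finset α}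
    (hzP : z ∈ P) (hb1 : 1 ≤ b) (hb : b ≤ P.card) {q : ℝ} (hq0 : 0 ≤ q)
    (hq1 : q ≤ 1) (hq : 4 * ((P.card : ℝ) - b) ≤ q * ((P.card : ℝ) - 1)) :
    (Dn^[P.card - b] (fun X => if z ∈ X then xiR F C X else 1)) P ≤ ((P.card : ℝ) - b) / P.card
      + 9 / 5 * mu q (P.erase z) (fun V => xiR F C (P \ V)) := by
  have e : (fun X : Finset α => if z ∈ X then xiR F C X else 1) =
      fun X => (if z ∈ X then (0 : ℝ) else 1) + (if z ∈ X then xiR F C X else 0) := by
    funext X
    split_ifs <;> simp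
  have hc : ((P.card - b : ℕ) : ℝ) = (P.card : ℝ) - b := by
    rw [Nat.cast_sub hb]
  rw [e, Dn_iter_add, Dn_iter_notMem hzP (Nat.sub_le _ _), hc]
  have h1 := Dn_iter_xi_le F C hzP (i := P.card - b) (by omega) hq0 hq1 (by rw [hc]; exact hq)
  linarith

theorem Hb_bound (F : Finset (Finset α)) (C : Finset α) {z : α} {b : ℕ} {P : Finset α}
    (hPC : P ⊂ C) (hzP : z ∈ P) (hb1 : 1 ≤ b) (hb : b ≤ P.card) {q : ℝ} (hq0 : 0 ≤ q)
    (hq1 : q ≤ 1) (hq : 4 * ((P.card : ℝ) - b) ≤ q * ((P.card : ℝ) - 1)) :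
    Hb F b P ≤ ((P.card : ℝ) - b) / P.card
      + 9 / 5 * mu q (P.erase z) (fun V => xiR F C (P \ V)) :=
  (Hb_le_iter F C z hPC hb).trans (Dn_iter_Psi F C hzP hb1 hb hq0 hq1 hq)

theorem DHb_bound (F : Finset (Finset α)) (C : Finset α) {z : α} (hC : Centre F C z) {b : ℕ}
    (hb1 : 1 ≤ b) (hb : b < C.card) {q : ℝ} (hq0 : 0 ≤ q)
    (hq1 : q ≤ 1) (hq : 4 * ((C.card : ℝ) - b) ≤ q * ((C.card : ℝ) - 1)) :
    Dn (Hb F b) C ≤ ((C.card : ℝ) - b) / C.card + 9 / 5 * (256 * q ^ 2) := by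
  have h1 : Dn (Hb F b) C ≤
      Dn (Dn^[C.card - 1 - b] (fun X => if z ∈ X then xiR F C X else 1)) C := by
    apply Dn_mono
    intro y hy
    have h2 := Hb_le_iter F C z (P := C.erase y) (b := b) (Finset.erase_ssubset hy)
      (by rw [Finset.card_erase_of_mem hy]; omega)
    rwa [Finset.card_erase_of_mem hy] at h2
  rw [← Function.iterate_succ_apply' Dn] at h1
  have h3 : (C.card - 1 - b).succ = C.card - b := by omega
  rw [h3] at h1
  have h4 := Dn_iter_Psi F C hC.1 hb1 hb.le hq0 hq1 hq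
  have h5 := hC.2 q hq0 hq1
  linarith

/-! ## part u6 -/

theorem Dn_iter_congr_sub {g h : Finset α → ℝ} (i : ℕ) : ∀ P : Finset α,
    (∀ X, X ⊆ P → g X = h X) → (Dn^[i] g) P = (Dn^[i] h) P := by
  induction i with
  | zero => intro P H; exact H P (Finset.Subset.refl _)
  | succ i ih =>
    intro P H
    rw [Function.iterate_succ']
    simp only [Function.comp]
    exact Dn_congr fun y _ => ih _ fun X hX => H X (hX.trans (Finset.erase_subset _ _))

theorem Dn_iter_nonneg' {g : Finset α → ℝ} (hg : ∀ X, 0 ≤ g X) (i : ℕ) : ∀ P : Finset α,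
    0 ≤ (Dn^[i] g) P := by
  induction i with
  | zero => intro P; exact hg P
  | succ i ih =>
    intro P
    rw [Function.iterate_succ']
    simp only [Function.comp]
    exact Dn_nonneg fun y _ => ih _

/-- hits containing `z` -/
noncomputable def fz (F : Finset (Finset α)) (b : ℕ) (z : α) (A : Finset α) : ℝ :=
  if z ∈ A then Fb F b A else 0

theorem fz_nonneg (F : Finset (Finset α)) (b : ℕ) (z : α) (A : Finset α) : 0 ≤ fz F b z A := by
  unfold fz
  split_ifs
  · exact Fb_nonneg F b A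
  · exact le_rfl

theorem fz_le_one (F : Finset (Finset α)) (b : ℕ) (z : α) (A : Finset α) : fz F b z A ≤ 1 := by
  unfold fz
  split_ifs
  · exact Fb_le_one F b A
  · exact zero_le_one

theorem fz_zero_or (F : Finset (Finset α)) (b : ℕ) (z : α) (A : Finset α) :
    fz F b z A = 0 ∨ (fz F b z A = 1 ∧ z ∈ A ∧ A ∈ F ∧ b ≤ A.card) := by
  unfold fz Fb
  by_cases h : z ∈ A
  · by_cases h2 : A ∈ F ∧ b ≤ A.card
    · right
      simp [h, h2]
    · left
      simp [h2]
  · left
    simp [h]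

theorem Hz_le_Hb (F : Finset (Finset α)) (b : ℕ) (z : α) (Q : Finset α) :
    Ds (fz F b z) (fz F b z) Q ≤ Hb F b Q := by
  apply Ds_le (fun Q => fz_le_one F b z Q)
  intro Q _
  by_cases h : z ∈ Q
  · have e : fz F b z Q = Fb F b Q := by simp [fz, h]
    rw [e]
    exact (Ds_eq (Fb F b) (Fb F b) Q).ge
  · have e : fz F b z Q = 0 := by simp [fz, h]
    rw [e]
    have := Dn_Hb_le F b Q
    linarith

theorem Hz_claim (F : Finset (Finset α)) (C : Finset α) (z : α) {b : ℕ} (hb1 : 1 ≤ b) (n : ℕ) :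
    ∀ P : Finset α, P.card = n → P ⊂ C → b ≤ P.card →
    ((b : ℝ) / (P.card : ℝ)) * Ds (fz F b z) (fz F b z) P
      ≤ (Dn^[P.card - b] (fun X => if z ∈ X then xiR F C X else 0)) P := by
  have hg : ∀ X : Finset α, 0 ≤ (fun X => if z ∈ X then xiR F C X else 0) X := by
    intro X
    simp only
    split_ifs
    · exact xiR_nonneg F C X
    · exact le_rfl
  have hHz0 : ∀ Q : Finset α, 0 ≤ Ds (fz F b z) (fz F b z) Q := fun Q =>
    Ds_nonneg (fun Q => fz_le_one F b z Q) (fun Q => fz_nonneg F b z Q) Q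
  induction n with
  | zero =>
    intro P hP _ hb
    omega
  | succ n ih =>
    intro P hP hPC hb
    have hbR : (1:ℝ) ≤ (b:ℝ) := by exact_mod_cast hb1
    have hPpos : (0:ℝ) < (P.card : ℝ) := by
      have : (b:ℝ) ≤ (P.card:ℝ) := by exact_mod_cast hb
      linarith
    rcases fz_zero_or F b z P with h0 | ⟨h1, hz, hPF, _⟩
    · have e : Ds (fz F b z) (fz F b z) P = Dn (Ds (fz F b z) (fz F b z)) P := by
        conv_lhs => rw [Ds_eq, h0]
        ring
      rcases Nat.lt_or_ge b P.card with hlt | hge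
      · have hsplit : P.card - b = (n - b) + 1 := by omega
        rw [hsplit, Function.iterate_succ', e]
        simp only [Function.comp]
        rw [← Dn_const_mul]
        apply Dn_mono
        intro y hy
        have hc : (P.erase y).card = n := by
          rw [Finset.card_erase_of_mem hy, hP]
          rfl
        have hsub : P.erase y ⊂ C := lt_of_le_of_lt (Finset.erase_subset _ _) hPC
        have hbn : b ≤ n := by omega
        have hI := ih (P.erase y) hc hsub (by rw [hc]; exact hbn)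
        rw [hc] at hI
        refine le_trans ?_ hI
        apply mul_le_mul_of_nonneg_right _ (hHz0 _)
        have hnpos : (0:ℝ) < (n:ℝ) := by
          have : (b:ℝ) ≤ (n:ℝ) := by exact_mod_cast hbn
          linarith
        apply div_le_div_of_nonneg_left (by linarith) hnpos
        rw [hP]
        push_cast
        linarith
      · have hPb : P.card = b := le_antisymm hge hb
        have hzero : Ds (fz F b z) (fz F b z) P ≤ 0 := by
          rw [e]
          apply Dn_le_of_le le_rfl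
          intro y hy
          have hlt : (P.erase y).card < b := by
            rw [Finset.card_erase_of_mem hy]
            omega
          have := Hz_le_Hb F b z (P.erase y)
          rw [Hb_of_card_lt F b _ hlt] at this
          exact this
        have h2 : ((b : ℝ) / (P.card : ℝ)) * Ds (fz F b z) (fz F b z) P ≤ 0 :=
          mul_nonpos_of_nonneg_of_nonpos (by positivity) hzero
        exact h2.trans (Dn_iter_nonneg' hg _ P)
    · have e : Ds (fz F b z) (fz F b z) P = 1 := by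
        rw [Ds_eq, h1]
        ring
      rw [e, mul_one]
      have hcong := Dn_iter_congr_sub (g := fun X => if z ∈ X then xiR F C X else 0)
        (h := fun X => if z ∈ X then (1:ℝ) else 0) (P.card - b) P (by
          intro X hX
          rw [xiR_eq_one hPF hPC hX])
      rw [hcong, Dn_iter_mem hz (Nat.sub_le _ _)]
      rw [Nat.cast_sub hb]
      have : (P.card : ℝ) - ((P.card : ℝ) - (b:ℝ)) = b := by ring
      rw [this]

/-- expected number of members of size `≥ b` containing the centre, strictly below `C` -/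
theorem Nz_bound (F : Finset (Finset α)) (C : Finset α) {z : α} (hC : Centre F C z) {b : ℕ}
    (hb1 : 1 ≤ b) (hb : b < C.card) {κ : ℝ} (hκ : 0 ≤ κ)
    (hD : ∀ A ∈ F, b ≤ A.card → (1 + κ) * Dn (Hb F b) A ≤ κ) {q : ℝ} (hq0 : 0 ≤ q)
    (hq1 : q ≤ 1) (hq : 4 * ((C.card : ℝ) - b) ≤ q * ((C.card : ℝ) - 1)) :
    Dn (Ds (fun _ => 0) (fun A => if z ∈ A then Fb F b A else 0)) C
      ≤ (1 + κ) * ((C.card : ℝ) / b) * (9 / 5 * (256 * q ^ 2)) := by
  have hHz0 : ∀ Q : Finset α, 0 ≤ Ds (fz F b z) (fz F b z) Q := fun Q =>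
    Ds_nonneg (fun Q => fz_le_one F b z Q) (fun Q => fz_nonneg F b z Q) Q
  have hbR : (1:ℝ) ≤ (b:ℝ) := by exact_mod_cast hb1
  have hsR : (b:ℝ) < (C.card:ℝ) := by exact_mod_cast hb
  have hD' : ∀ A, fz F b z A ≠ 0 → (1 + κ) * Dn (Ds (fz F b z) (fz F b z)) A ≤ κ := by
    intro A hA
    rcases fz_zero_or F b z A with h0 | ⟨_, _, hAF, hAb⟩
    · exact absurd h0 hA
    · refine le_trans ?_ (hD A hAF hAb)
      apply mul_le_mul_of_nonneg_left _ (by linarith)
      exact Dn_mono fun y _ => Hz_le_Hb F b z _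
  have hK : ∀ Q, Ds (fun _ => 0) (fz F b z) Q ≤ (1 + κ) * Ds (fz F b z) (fz F b z) Q := fun Q =>
    K_le_H (fz_nonneg F b z) (fz_le_one F b z) hκ hD' Q
  have e0 : (fun A => if z ∈ A then Fb F b A else 0) = fz F b z := rfl
  rw [e0]
  have hstep : Dn (Ds (fun _ => 0) (fz F b z)) C ≤ (1 + κ) * Dn (Ds (fz F b z) (fz F b z)) C := by
    rw [← Dn_const_mul]
    exact Dn_mono fun y _ => hK _
  have hz : z ∈ C := hC.1
  have hmain : Dn (Ds (fz F b z) (fz F b z)) C
      ≤ ((C.card : ℝ) / b) * (Dn^[C.card - b] (fun X => if z ∈ X then xiR F C X else 0)) C := by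
    have hsplit : C.card - b = (C.card - 1 - b) + 1 := by omega
    rw [hsplit, Function.iterate_succ']
    simp only [Function.comp]
    rw [← Dn_const_mul]
    apply Dn_mono
    intro y hy
    have hc : (C.erase y).card = C.card - 1 := Finset.card_erase_of_mem hy
    have hsub : C.erase y ⊂ C := Finset.erase_ssubset hy
    have hI := Hz_claim F C z hb1 (C.card - 1) (C.erase y) hc hsub (by omega)
    rw [hc] at hI
    have hcR : ((C.card - 1 : ℕ) : ℝ) = (C.card : ℝ) - 1 := by
      rw [Nat.cast_sub (by omega)]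
      simp
    rw [hcR] at hI
    have hs1 : (0:ℝ) < (C.card : ℝ) - 1 := by linarith
    have h1 : Ds (fz F b z) (fz F b z) (C.erase y)
        = (((C.card : ℝ) - 1) / b) * (((b : ℝ) / ((C.card : ℝ) - 1))
          * Ds (fz F b z) (fz F b z) (C.erase y)) := by
      have hb0 : (b:ℝ) ≠ 0 := by linarith
      have hs0 : (C.card : ℝ) - 1 ≠ 0 := by linarith
      generalize Ds (fz F b z) (fz F b z) (C.erase y) = D
      generalize (C.card : ℝ) - 1 = t at hs0 ⊢
      rw [← mul_assoc, div_mul_div_comm, mul_comm t (b:ℝ), div_self (mul_ne_zero hb0 hs0), one_mul]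
    have hX0 : 0 ≤ ((b : ℝ) / ((C.card : ℝ) - 1)) * Ds (fz F b z) (fz F b z) (C.erase y) :=
      mul_nonneg (by positivity) (hHz0 _)
    rw [h1]
    have h2 : ((C.card : ℝ) - 1) / b ≤ (C.card : ℝ) / b :=
      div_le_div_of_nonneg_right (by linarith) (by linarith)
    calc (((C.card : ℝ) - 1) / b) * (((b : ℝ) / ((C.card : ℝ) - 1))
          * Ds (fz F b z) (fz F b z) (C.erase y))
        ≤ ((C.card : ℝ) / b) * (((b : ℝ) / ((C.card : ℝ) - 1))
          * Ds (fz F b z) (fz F b z) (C.erase y)) := mul_le_mul_of_nonneg_right h2 hX0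
      _ ≤ _ := mul_le_mul_of_nonneg_left hI (div_nonneg (Nat.cast_nonneg _) (Nat.cast_nonneg _))
  have hfin : (Dn^[C.card - b] (fun X => if z ∈ X then xiR F C X else 0)) C
      ≤ 9 / 5 * (256 * q ^ 2) := by
    have h1 := Dn_iter_xi_le F C hz (i := C.card - b) (by omega) hq0 hq1 (by
      rw [Nat.cast_sub hb.le]
      exact hq)
    refine h1.trans ?_
    have h2 := hC.2 q hq0 hq1
    linarith
  calc Dn (Ds (fun _ => 0) (fz F b z)) C ≤ (1 + κ) * Dn (Ds (fz F b z) (fz F b z)) C := hstep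
    _ ≤ (1 + κ) * (((C.card : ℝ) / b)
        * (Dn^[C.card - b] (fun X => if z ∈ X then xiR F C X else 0)) C) :=
        mul_le_mul_of_nonneg_left hmain (by linarith)
    _ ≤ (1 + κ) * (((C.card : ℝ) / b) * (9 / 5 * (256 * q ^ 2))) := by
        apply mul_le_mul_of_nonneg_left _ (by linarith)
        exact mul_le_mul_of_nonneg_left hfin (div_nonneg (Nat.cast_nonneg _) (Nat.cast_nonneg _))
    _ = _ := by ring

/-! ## part u7 -/

theorem pairs_C_claimA (F : Finset (Finset α)) (C : Finset α) {z : α} {b t : ℕ}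
    (hb1 : 1 ≤ b) (ht4 : 4 ≤ t) {q₂ δ : ℝ} (hq20 : 0 ≤ q₂)
    (hq21 : q₂ ≤ 1) (hδ0 : 0 ≤ δ) (hδ : ((t : ℝ) - 2 - b) / ((t : ℝ) - 2) ≤ δ)
    (hq2 : 4 * ((t : ℝ) - 2 - b) ≤ q₂ * ((t : ℝ) - 3))
    (T : Finset α) (hTC : T ⊆ C) (hT : T.card = t) (hzT : z ∈ T) (x y : α)
    (hx : x ∈ T.erase z) (hy : y ∈ (T.erase z).erase x) :
    max (Hb F b ((T.erase x).erase y) - δ) 0
      ≤ 9 / 5 * mu q₂ (T.erase z) (fun V => xiR F C (T \ insert x (insert y V))) := by
  have hx1 : x ≠ z := Finset.ne_of_mem_erase hx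
  have hx2 : x ∈ T := Finset.mem_of_mem_erase hx
  have hy1 : y ≠ x := Finset.ne_of_mem_erase hy
  have hy2 : y ≠ z := Finset.ne_of_mem_erase (Finset.mem_of_mem_erase hy)
  have hy3 : y ∈ T := Finset.mem_of_mem_erase (Finset.mem_of_mem_erase hy)
  set P := (T.erase x).erase y with hP
  have hPcard : P.card = t - 2 := by
    rw [hP, Finset.card_erase_of_mem (Finset.mem_erase.2 ⟨hy1, hy3⟩),
      Finset.card_erase_of_mem hx2, hT]; omega
  have hPT : P ⊆ T := (Finset.erase_subset _ _).trans (Finset.erase_subset _ _)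
  have hzP : z ∈ P := Finset.mem_erase.2 ⟨hy2.symm, Finset.mem_erase.2 ⟨hx1.symm, hzT⟩⟩
  have hPC : P ⊂ C := by
    refine ⟨hPT.trans hTC, fun h => ?_⟩
    have := h (hTC hx2)
    rw [hP] at this
    simp at this
  have hmono : Monotone (fun V : Finset α => xiR F C (T \ insert x (insert y V))) := by
    intro V W hVW
    exact xiR_anti F C (Finset.sdiff_subset_sdiff le_rfl
      (Finset.insert_subset_insert _ (Finset.insert_subset_insert _ hVW)))
  have hnn : 0 ≤ mu q₂ (T.erase z) (fun V => xiR F C (T \ insert x (insert y V))) :=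
    mu_nonneg hq20 hq21 _ fun V _ => xiR_nonneg _ _ _
  have h1 : mu q₂ (P.erase z) (fun V => xiR F C (P \ V))
      ≤ mu q₂ (T.erase z) (fun V => xiR F C (T \ insert x (insert y V))) := by
    have e : mu q₂ (P.erase z) (fun V => xiR F C (P \ V))
        = mu q₂ (P.erase z) (fun V => xiR F C (T \ insert x (insert y V))) := by
      refine mu_congr _ fun V _ => ?_
      congr 1
      ext a
      simp only [hP, Finset.mem_sdiff, Finset.mem_erase, Finset.mem_insert]
      tauto
    rw [e]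
    exact mu_subset hq20 hq21 (Finset.erase_subset_erase _ hPT) hmono
  apply max_le _ (by positivity)
  by_cases hb : b ≤ P.card
  · have hPr : (P.card : ℝ) = (t:ℝ) - 2 := by
      rw [hPcard, Nat.cast_sub (by omega)]; norm_num
    have h2 := Hb_bound F C hPC hzP hb1 hb hq20 hq21 (by rw [hPr]; linarith)
    rw [hPr] at h2
    linarith
  · rw [Hb_of_card_lt F b P (by omega)]
    linarith

/-- pairs lemma below a member `C` (two-round exposure) -/
theorem pairs_C (F : Finset (Finset α)) (C : Finset α) {z : α} (hC : Centre F C z) {b t : ℕ}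
    (hb1 : 1 ≤ b) (ht4 : 4 ≤ t) (htC : t ≤ C.card) {N : ℝ} (hN1 : 1 ≤ N)
    (hN : (C.card : ℝ) ≤ N) {q₀ q₂ δ : ℝ} (hq00 : 0 ≤ q₀) (hq01 : q₀ ≤ 1) (hq20 : 0 ≤ q₂)
    (hq21 : q₂ ≤ 1) (hδ0 : 0 ≤ δ) (hδ : ((t : ℝ) - 2 - b) / ((t : ℝ) - 2) ≤ δ)
    (hq0 : 4 * ((C.card : ℝ) - t) ≤ q₀ * ((C.card : ℝ) - 1))
    (hq2 : 4 * ((t : ℝ) - 2 - b) ≤ q₂ * ((t : ℝ) - 3))
    (ω : Finset α → α → α → ℝ) (hω0 : ∀ T x y, 0 ≤ ω T x y)
    (hrow : ∀ T, ∀ x ∈ T, ∑ y ∈ T, ω T x y ≤ 1) (hcol : ∀ T, ∀ y ∈ T, ∑ x ∈ T, ω T x y ≤ 1) :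
    (Dn^[C.card - t] (fun T => if z ∈ T then
        ∑ x ∈ T.erase z, ∑ y ∈ (T.erase z).erase x,
          ω T x y * max (Hb F b ((T.erase x).erase y) - δ) 0 else 0)) C
      ≤ 6636 * N * (q₀ + Real.sqrt (1 / N) + q₂) ^ 2 := by
  classical
  obtain ⟨hzC, hCen⟩ := hC
  set q₁ := Real.sqrt (1 / N) with hq1def
  have hq10 : 0 ≤ q₁ := Real.sqrt_nonneg _
  have hq11 : q₁ ≤ 1 := by
    rw [hq1def]
    rw [Real.sqrt_le_left (by norm_num), one_pow]
    rw [div_le_one (by linarith)]; exact hN1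
  set S := C.erase z with hS
  set Γ : Finset α → ℝ := fun X => mu q₁ S (fun V₁ => mu q₂ S (fun V₂ => xiR F C (X \ (V₁ ∪ V₂))))
    with hΓ
  have hΓ0 : ∀ X, 0 ≤ Γ X := fun X =>
    mu_nonneg hq10 hq11 _ fun V _ => mu_nonneg hq20 hq21 _ fun W _ => xiR_nonneg _ _ _
  have hΓanti : ∀ X Y, X ⊆ Y → Γ Y ≤ Γ X := fun X Y hXY =>
    mu_mono hq10 hq11 _ fun V _ => mu_mono hq20 hq21 _ fun W _ =>
      xiR_anti F C (Finset.sdiff_subset_sdiff hXY le_rfl)
  have hi : C.card - t ≤ C.card := Nat.sub_le _ _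
  -- the pointwise bound
  have hpt : ∀ T, T ⊆ C → T.card + (C.card - t) = C.card →
      (if z ∈ T then
        ∑ x ∈ T.erase z, ∑ y ∈ (T.erase z).erase x,
          ω T x y * max (Hb F b ((T.erase x).erase y) - δ) 0 else 0)
      ≤ (if z ∈ T then 72 / 5 * N * Γ T else 0) := by
    intro T hTC hTcard
    have hT : T.card = t := by omega
    split_ifs with hzT
    swap
    · exact le_rfl
    set M := T.erase z with hM
    set g : Finset α → ℝ := fun W => xiR F C (T \ W) with hg
    have hgmono : Monotone g := fun V W hVW =>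
      xiR_anti F C (Finset.sdiff_subset_sdiff le_rfl hVW)
    have hg0 : ∀ V, 0 ≤ g V := fun V => xiR_nonneg _ _ _
    have hMC : M ⊆ S := Finset.erase_subset_erase _ hTC
    have hMN : (M.card : ℝ) ≤ N := by
      have h1 : M.card ≤ C.card := (Finset.card_le_card hMC).trans
        (Finset.card_le_card (Finset.erase_subset _ _))
      exact le_trans (by exact_mod_cast h1) hN
    have hrow' : ∀ x ∈ M, ∑ y ∈ M, ω T x y ≤ 1 := by
      intro x hx
      refine le_trans ?_ (hrow T x (Finset.mem_of_mem_erase hx))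
      exact Finset.sum_le_sum_of_subset_of_nonneg (Finset.erase_subset _ _)
        fun y _ _ => hω0 T x y
    have hcol' : ∀ y ∈ M, ∑ x ∈ M, ω T x y ≤ 1 := by
      intro y hy
      refine le_trans ?_ (hcol T y (Finset.mem_of_mem_erase hy))
      exact Finset.sum_le_sum_of_subset_of_nonneg (Finset.erase_subset _ _)
        fun x _ _ => hω0 T x y
    have h2r := two_round hq20 hq21 M N hN1 hMN (ω T) (hω0 T) hrow' hcol' g hgmono hg0
    have hsum : ∑ x ∈ M, ∑ y ∈ M.erase x, ω T x y * max (Hb F b ((T.erase x).erase y) - δ) 0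
        ≤ 9 / 5 * ∑ x ∈ M, ∑ y ∈ M.erase x,
            ω T x y * mu q₂ M (fun V => g (insert x (insert y V))) := by
      rw [Finset.mul_sum]
      refine Finset.sum_le_sum fun x hx => ?_
      rw [Finset.mul_sum]
      refine Finset.sum_le_sum fun y hy => ?_
      have hA := pairs_C_claimA F C hb1 ht4 hq20 hq21 hδ0 hδ hq2 T hTC hT hzT x y hx hy
      calc ω T x y * max (Hb F b ((T.erase x).erase y) - δ) 0
          ≤ ω T x y * (9 / 5 * mu q₂ M (fun V => g (insert x (insert y V)))) :=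
            mul_le_mul_of_nonneg_left hA (hω0 T x y)
        _ = 9 / 5 * (ω T x y * mu q₂ M (fun V => g (insert x (insert y V)))) := by ring
    have hbig : mu q₁ M (fun V₁ => mu q₂ M (fun V₂ => g (V₁ ∪ V₂))) ≤ Γ T := by
      calc mu q₁ M (fun V₁ => mu q₂ M (fun V₂ => g (V₁ ∪ V₂)))
          ≤ mu q₁ M (fun V₁ => mu q₂ S (fun V₂ => g (V₁ ∪ V₂))) := by
            refine mu_mono hq10 hq11 _ fun V₁ _ => ?_
            exact mu_subset hq20 hq21 hMC fun V W hVW =>
              hgmono (Finset.union_subset_union le_rfl hVW)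
        _ ≤ mu q₁ S (fun V₁ => mu q₂ S (fun V₂ => g (V₁ ∪ V₂))) := by
            refine mu_subset hq10 hq11 hMC fun V W hVW => ?_
            exact mu_mono hq20 hq21 _ fun V₂ _ =>
              hgmono (Finset.union_subset_union hVW le_rfl)
    have hN0 : 0 < N := by linarith
    have h3 : ∑ x ∈ M, ∑ y ∈ M.erase x, ω T x y * mu q₂ M (fun V => g (insert x (insert y V)))
        ≤ 8 * N * Γ T := by
      have h4 := h2r.trans hbig
      rw [one_div, inv_mul_le_iff₀ (by positivity)] at h4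
      exact h4
    linarith
  refine (Dn_iter_mono hpt hi).trans ?_
  have hK0 : ∀ Q, 0 ≤ 72 / 5 * N * Γ Q := fun Q => by
    have := hΓ0 Q
    positivity
  refine (Dn_iter_mem_le (fun T => 72 / 5 * N * Γ T) hK0 hzC (by omega)).trans ?_
  have hScard : (S.card : ℝ) = (C.card : ℝ) - 1 := by
    rw [hS, Finset.card_erase_of_mem hzC, Nat.cast_sub (by omega)]; norm_num
  have hu := unif_le_mu hq00 hq01 S (C.card - t)
    (by rw [hScard, Nat.cast_sub htC]; exact hq0) (fun V => 72 / 5 * N * Γ (C \ V))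
    (fun V W hVW => by
      have := hΓanti (C \ W) (C \ V) (Finset.sdiff_subset_sdiff le_rfl hVW)
      have hN0 : 0 < N := by linarith
      exact mul_le_mul_of_nonneg_left this (by positivity))
    (fun V => hK0 _)
  refine hu.trans ?_
  rw [mu_const_mul]
  set q' := 1 - (1 - q₁) * (1 - q₂) with hq'
  set qs := 1 - (1 - q₀) * (1 - q') with hqs
  have hmu : mu q₀ S (fun V => Γ (C \ V)) = mu qs S (fun V => xiR F C (C \ V)) := by
    rw [hqs, ← mu_union]
    refine mu_congr _ fun V₀ _ => ?_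
    rw [hq', ← mu_union q₁ q₂ S (fun V₂ => xiR F C (C \ (V₀ ∪ V₂)))]
    refine mu_congr _ fun V₁ _ => mu_congr _ fun V₂ _ => ?_
    congr 1
    ext a
    simp only [Finset.mem_sdiff, Finset.mem_union]
    tauto
  rw [hmu]
  have hqsv : 1 - qs = (1 - q₀) * ((1 - q₁) * (1 - q₂)) := by
    rw [hqs, hq']; ring
  have hprod0 : 0 ≤ (1 - q₀) * ((1 - q₁) * (1 - q₂)) :=
    mul_nonneg (by linarith) (mul_nonneg (by linarith) (by linarith))
  have h12 : (1 - q₁) * (1 - q₂) ≤ 1 := by nlinarith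
  have h120 : 0 ≤ (1 - q₁) * (1 - q₂) := mul_nonneg (by linarith) (by linarith)
  have hprod1 : (1 - q₀) * ((1 - q₁) * (1 - q₂)) ≤ 1 := by nlinarith
  have hqs0 : 0 ≤ qs := by linarith
  have hqs1 : qs ≤ 1 := by linarith
  have hqsle : qs ≤ q₀ + q₁ + q₂ := by
    have h5 : 1 - (q₁ + q₂) ≤ (1 - q₁) * (1 - q₂) := by nlinarith
    have h6 : 1 - (q₀ + q₁ + q₂) ≤ (1 - q₀) * ((1 - q₁) * (1 - q₂)) := by nlinarith
    linarith
  have hcen := hCen qs hqs0 hqs1
  have hsq : qs ^ 2 ≤ (q₀ + q₁ + q₂) ^ 2 := pow_le_pow_left₀ hqs0 hqsle 2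
  have hN0 : 0 < N := by linarith
  have h7 : mu qs S (fun V => xiR F C (C \ V)) ≤ 256 * (q₀ + q₁ + q₂) ^ 2 := by
    linarith
  have h8 : 9 / 5 * (72 / 5 * N * mu qs S (fun V => xiR F C (C \ V)))
      ≤ 9 / 5 * (72 / 5 * N * (256 * (q₀ + q₁ + q₂) ^ 2)) := by
    apply mul_le_mul_of_nonneg_left _ (by norm_num)
    exact mul_le_mul_of_nonneg_left h7 (by positivity)
  refine h8.trans ?_
  have h9 : 0 ≤ N * (q₀ + q₁ + q₂) ^ 2 := by positivity
  nlinarith

/-! ## part w1 -/

theorem choose_gauss_aux {m : ℕ} (hm : 1 ≤ m) (j : ℕ) : j ≤ m →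
    (((2 * m).choose (m + j) : ℕ) : ℝ) ≤ ((2 * m).choose m : ℝ) * Real.exp (-((j : ℝ) ^ 2) / (2 * m)) := by
  have hmR : (0 : ℝ) < m := by exact_mod_cast hm
  induction j with
  | zero => intro _; simp
  | succ j ih =>
    intro hj
    have ih' := ih (by omega)
    have h1 := Nat.choose_succ_right_eq (2 * m) (m + j)
    have h2 : (((2 * m).choose (m + (j + 1)) : ℕ) : ℝ) * ((m : ℝ) + j + 1)
        = ((2 * m).choose (m + j) : ℝ) * ((m : ℝ) - j) := by
      have h3 : 2 * m - (m + j) = m - j := by omega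
      rw [h3] at h1
      have h4 : (((m - j : ℕ)) : ℝ) = (m : ℝ) - j := by
        rw [Nat.cast_sub (by omega)]
      rw [← h4]
      have h5 : m + (j + 1) = m + j + 1 := by ring
      rw [h5]
      exact_mod_cast h1
    have hjR : (j : ℝ) + 1 ≤ m := by exact_mod_cast hj
    have hj0 : (0 : ℝ) ≤ j := Nat.cast_nonneg j
    have hpos : (0 : ℝ) < (m : ℝ) + j + 1 := by linarith
    have h6 : ((m : ℝ) - j) / ((m : ℝ) + j + 1) ≤ Real.exp (-(2 * (j : ℝ) + 1) / (2 * m)) := by
      have h7 : ((m : ℝ) - j) / ((m : ℝ) + j + 1) ≤ -(2 * (j : ℝ) + 1) / (2 * m) + 1 := by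
        have h8 : ((m : ℝ) - j) / ((m : ℝ) + j + 1) = 1 - (2 * (j : ℝ) + 1) / ((m : ℝ) + j + 1) := by
          field_simp; ring
        have h9 : (2 * (j : ℝ) + 1) / (2 * m) ≤ (2 * (j : ℝ) + 1) / ((m : ℝ) + j + 1) := by
          apply div_le_div_of_nonneg_left (by linarith) hpos (by linarith)
        rw [h8, neg_div]
        linarith
      exact h7.trans (Real.add_one_le_exp _)
    have h10 : (((2 * m).choose (m + (j + 1)) : ℕ) : ℝ)
        = ((2 * m).choose (m + j) : ℝ) * (((m : ℝ) - j) / ((m : ℝ) + j + 1)) := by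
      rw [mul_div_assoc', eq_div_iff hpos.ne']
      exact h2
    have h11 : Real.exp (-(((j + 1 : ℕ) : ℝ) ^ 2) / (2 * m))
        = Real.exp (-((j : ℝ) ^ 2) / (2 * m)) * Real.exp (-(2 * (j : ℝ) + 1) / (2 * m)) := by
      rw [← Real.exp_add]
      congr 1
      push_cast
      ring
    rw [h10, h11, ← mul_assoc]
    exact mul_le_mul ih' h6 (div_nonneg (by linarith) hpos.le) (by positivity)

theorem choose_gauss {m : ℕ} (hm : 1 ≤ m) (j : ℕ) :
    (((2 * m).choose (m + j) : ℕ) : ℝ) ≤ ((2 * m).choose m : ℝ) * Real.exp (-((j : ℝ) ^ 2) / (2 * m)) := by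
  rcases le_or_gt j m with h | h
  · exact choose_gauss_aux hm j h
  · rw [Nat.choose_eq_zero_of_lt (by omega)]
    push_cast
    positivity

theorem wt_le_exp {m : ℕ} (hm : 1 ≤ m) (p : ℕ) :
    wt m p ≤ Real.exp (-(((p : ℝ) - m) ^ 2) / (2 * m)) := by
  have hc : (0 : ℝ) < ((2 * m).choose m : ℝ) := by
    exact_mod_cast Nat.choose_pos (by omega)
  unfold wt
  rw [div_le_iff₀ hc, mul_comm (Real.exp _)]
  rcases le_total m p with h | h
  · obtain ⟨j, rfl⟩ := Nat.exists_eq_add_of_le h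
    have h1 : (((m + j : ℕ) : ℝ) - m) = j := by push_cast; ring
    rw [h1]
    exact choose_gauss hm j
  · obtain ⟨j, hj⟩ := Nat.exists_eq_add_of_le h
    have h1 : ((p : ℝ) - m) ^ 2 = (j : ℝ) ^ 2 := by
      have : (m : ℝ) = p + j := by exact_mod_cast hj
      rw [this]; ring
    have h2 : (2 * m).choose p = (2 * m).choose (m + j) := Nat.choose_symm_of_eq_add (by omega)
    rw [h1, h2]
    exact choose_gauss hm j

/-! ## part w2 -/

theorem wt_nonneg (m p : ℕ) : 0 ≤ wt m p := by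
  unfold wt; positivity

theorem wt_le_one (m p : ℕ) : wt m p ≤ 1 := by
  unfold wt
  have h1 : (2 * m).choose p ≤ (2 * m).choose m := Nat.choose_le_centralBinom p m
  have h2 : (0 : ℝ) < ((2 * m).choose m : ℝ) := by
    exact_mod_cast Nat.choose_pos (by omega)
  rw [div_le_one h2]
  exact_mod_cast h1

/-- `1 - wt ≥ min(1, j²/m)/4` -/
theorem one_sub_wt_ge {m : ℕ} (hm : 1 ≤ m) (p : ℕ) :
    1 / 4 * min 1 (((p : ℝ) - m) ^ 2 / m) ≤ 1 - wt m p := by
  have hm0 : (0 : ℝ) < m := by exact_mod_cast hm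
  set x : ℝ := ((p : ℝ) - m) ^ 2 / (2 * m) with hx
  have hx0 : 0 ≤ x := by positivity
  have h1 : wt m p ≤ Real.exp (-x) := by
    have := wt_le_exp hm p
    rwa [neg_div] at this
  have h2 : ((p : ℝ) - m) ^ 2 / m = 2 * x := by
    rw [hx]; field_simp
  have h3 : Real.exp (-x) ≤ 1 / (1 + x) := by
    rw [Real.exp_neg, one_div]
    apply inv_anti₀ (by positivity)
    linarith [Real.add_one_le_exp x]
  have h4 : x / (1 + x) ≤ 1 - wt m p := by
    have : x / (1 + x) = 1 - 1 / (1 + x) := by field_simp; ring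
    rw [this]; linarith
  refine le_trans ?_ h4
  rw [h2, le_div_iff₀ (by positivity)]
  rcases le_total x (1 / 2) with h | h
  · have : min 1 (2 * x) ≤ 2 * x := min_le_right _ _
    nlinarith
  · have : min 1 (2 * x) ≤ 1 := min_le_left _ _
    nlinarith

/-! ## part w3 -/

theorem Cw_summable :
    Summable (fun k : ℕ => Real.exp (-((k : ℝ) ^ 2) / 2) * ((k : ℝ) + 2) ^ 10) := by
  have hr0 : 0 < Real.exp (-1/2) := Real.exp_pos _
  have hr1 : ‖Real.exp (-1/2)‖ < 1 := by
    rw [Real.norm_of_nonneg hr0.le]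
    rw [Real.exp_lt_one_iff]
    norm_num
  have h1 := summable_pow_mul_geometric_of_norm_lt_one 10 hr1
  have h2 := ((summable_nat_add_iff 2).2 h1).mul_left ((Real.exp (-1/2) ^ 2)⁻¹)
  refine Summable.of_nonneg_of_le (fun k => by positivity) (fun k => ?_) h2
  have e1 : (Real.exp (-1/2) ^ 2)⁻¹ * (((k + 2 : ℕ) : ℝ) ^ 10 * Real.exp (-1/2) ^ (k + 2)) =
      Real.exp (-1/2) ^ k * ((k : ℝ) + 2) ^ 10 := by
    push_cast
    rw [pow_add]
    field_simp
  rw [e1]
  apply mul_le_mul_of_nonneg_right _ (by positivity)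
  rw [← Real.exp_nat_mul]
  apply Real.exp_le_exp.2
  have hk : (k : ℝ) ≤ (k : ℝ) ^ 2 := by
    rcases Nat.eq_zero_or_pos k with h | h
    · subst h; norm_num
    · have : (1 : ℝ) ≤ k := by exact_mod_cast h
      nlinarith
  linarith

theorem shell_sum_le (M : ℕ) :
    ∑ k ∈ range M, Real.exp (-((k : ℝ) ^ 2) / 2) * ((k : ℝ) + 2) ^ 10 ≤ Cw := by
  exact Cw_summable.sum_le_tsum _ (fun k _ => by positivity)

theorem one_le_Cw : 1 ≤ Cw := by
  refine le_trans ?_ (shell_sum_le 1)
  rw [Finset.sum_range_one]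
  norm_num

end UF
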