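import Pool.Agent.UFree.Base
import Pool.Agent.UFree.Member
import Pool.Agent.UFree.Ops

set_option autoImplicit false
set_option linter.unusedSectionVars false
set_option linter.unusedVariables false
set_option linter.unusedSimpArgs false
open Finset

namespace UF
variable {α : Type*} [Fintype α] [DecidableEq α]

/-! ## part s1 -/

theorem Sys.f_nonneg (S : Sys α) (Q : Finset α) : 0 ≤ S.f Q := by
  unfold Sys.f
  split_ifs
  · exact wt_nonneg _ _
  · exact le_rfl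

theorem Sys.f_le_one (S : Sys α) (Q : Finset α) : S.f Q ≤ 1 := by
  unfold Sys.f
  split_ifs
  · exact wt_le_one _ _
  · norm_num

theorem Sys.mem_of_f (S : Sys α) {C : Finset α} (h : S.f C ≠ 0) : C ∈ S.F := by
  unfold Sys.f at h
  by_contra hC
  rw [if_neg hC] at h
  exact h rfl

theorem Sys.z_mem (S : Sys α) {C : Finset α} (h : S.f C ≠ 0) : S.z C ∈ C :=
  (S.hz C (S.mem_of_f h)).1

theorem Sys.H_nonneg (S : Sys α) (Q : Finset α) : 0 ≤ S.H Q :=
  Ds_nonneg S.f_le_one S.f_nonneg Q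

theorem Sys.H_le_one (S : Sys α) (Q : Finset α) : S.H Q ≤ 1 :=
  Ds_le_one S.f_le_one (fun _ => le_rfl) Q

theorem Sys.u_nonneg (S : Sys α) (Q : Finset α) : 0 ≤ S.u Q :=
  Us_nonneg S.f_le_one S.f_nonneg Q

theorem Sys.u_le_one (S : Sys α) (Q : Finset α) : S.u Q ≤ 1 :=
  Us_le_one S.f_le_one (fun _ => le_rfl) Q

theorem Sys.Dn_H_nonneg (S : Sys α) (Q : Finset α) : 0 ≤ Dn S.H Q :=
  Dn_nonneg fun y _ => S.H_nonneg _

theorem Sys.Dn_H_le_one (S : Sys α) (Q : Finset α) : Dn S.H Q ≤ 1 :=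
  Dn_le_of_le zero_le_one fun y _ => S.H_le_one _

theorem Sys.ph_nonneg (S : Sys α) (s : ℕ) : 0 ≤ S.ph s :=
  Ev_nonneg fun P _ => S.f_nonneg P

theorem Sys.ph_eq_zero (S : Sys α) {s : ℕ} (hs : s + S.h < S.m ∨ S.m + S.h < s) :
    S.ph s = 0 := by
  unfold Sys.ph
  have h1 : Ev s S.f = Ev s (fun _ : Finset α => (0:ℝ)) := by
    refine Ev_congr fun P hP => ?_
    by_contra hne
    have hF := S.mem_of_f hne
    have h1 := S.hlo P hF
    have h2 := S.hhi P hF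
    omega
  rw [h1]
  simp [Ev]

theorem Sys.nu_nonneg (S : Sys α) : 0 ≤ S.nu := by
  unfold Sys.nu
  have := S.H_le_one (univ : Finset α)
  linarith

theorem Sys.b_nonneg (S : Sys α) (Q : Finset α) : 0 ≤ S.b Q := by
  unfold Sys.b psi
  have := sum_rho_le_one S.f_nonneg S.f_le_one S.z (χ := fun _ => 1) (fun _ => zero_le_one)
    (fun _ => le_rfl) Q Q
  linarith

theorem Sys.b_le_one (S : Sys α) (Q : Finset α) : S.b Q ≤ 1 := by
  unfold Sys.b
  have := psi_nonneg S.f_nonneg S.f_le_one S.z (χ := fun _ => 1) (fun _ => zero_le_one) Q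
  linarith

theorem Sys.b_ge (S : Sys α) (Q : Finset α) : (1 - S.f Q) * Up S.b Q ≤ S.b Q :=
  one_sub_psi_ge S.f_nonneg S.f_le_one S.z (χ := fun _ => 1) (fun _ => zero_le_one)
    (fun _ => le_rfl) Q

theorem Sys.rho_nonneg (S : Sys α) {χ : ℕ → ℝ} (hχ0 : ∀ s, 0 ≤ χ s) (x : α) (Q : Finset α) :
    0 ≤ rho S.f S.z χ x Q :=
  UF.rho_nonneg S.f_nonneg S.f_le_one S.z hχ0 x Q

theorem Sys.rho_le_one (S : Sys α) {χ : ℕ → ℝ} (hχ0 : ∀ s, 0 ≤ χ s) (hχ1 : ∀ s, χ s ≤ 1)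
    (x : α) (Q : Finset α) : rho S.f S.z χ x Q ≤ 1 := by
  have := sum_rho_le_one S.f_nonneg S.f_le_one S.z hχ0 hχ1 {x} Q
  simpa using this

theorem Sys.a_nonneg (S : Sys α) {χ : ℕ → ℝ} (hχ0 : ∀ s, 0 ≤ χ s) (x : α) (Q : Finset α) :
    0 ≤ S.a χ x Q := by
  unfold Sys.a
  split_ifs
  · exact S.rho_nonneg hχ0 x Q
  · exact le_rfl

theorem Sys.a_le_rho (S : Sys α) {χ : ℕ → ℝ} (hχ0 : ∀ s, 0 ≤ χ s) (x : α) (Q : Finset α) :
    S.a χ x Q ≤ rho S.f S.z χ x Q := by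
  unfold Sys.a
  split_ifs
  · exact le_rfl
  · exact S.rho_nonneg hχ0 x Q

theorem Sys.sum_a_le_one (S : Sys α) {χ : ℕ → ℝ} (hχ0 : ∀ s, 0 ≤ χ s) (hχ1 : ∀ s, χ s ≤ 1)
    (A : Finset α) (Q : Finset α) : ∑ x ∈ A, S.a χ x Q ≤ 1 :=
  (Finset.sum_le_sum fun x _ => S.a_le_rho hχ0 x Q).trans
    (sum_rho_le_one S.f_nonneg S.f_le_one S.z hχ0 hχ1 A Q)

theorem Sys.Ga_nonneg (S : Sys α) (k : ℕ) (T : Finset α) (x y : α) : 0 ≤ S.Ga k T x y :=
  le_max_right _ _

theorem Sys.Ga_le_one (S : Sys α) (k : ℕ) (T : Finset α) (x y : α) : S.Ga k T x y ≤ 1 := by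
  unfold Sys.Ga
  refine max_le ?_ zero_le_one
  have h1 : Hb S.F (S.bk k) ((T.erase x).erase y) ≤ 1 := by
    unfold Hb
    refine Ds_le_one (fun Q => ?_) (fun _ => le_rfl) _
    unfold Fb
    split_ifs
    · exact le_rfl
    · norm_num
  have h2 : 0 ≤ S.dl k := by unfold Sys.dl; positivity
  linarith

theorem Sys.Om_nonneg (S : Sys α) {χ : ℕ → ℝ} (hχ0 : ∀ s, 0 ≤ χ s) (k : ℕ) (T : Finset α) :
    0 ≤ S.Om χ k T := by
  unfold Sys.Om
  exact Finset.sum_nonneg fun x _ => Finset.sum_nonneg fun y _ =>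
    mul_nonneg (mul_nonneg (S.a_nonneg hχ0 _ _) (S.a_nonneg hχ0 _ _)) (S.Ga_nonneg _ _ _ _)

theorem Sys.eh_nonneg (S : Sys α) {χ : ℕ → ℝ} (hχ0 : ∀ s, 0 ≤ χ s) (P : Finset α) :
    0 ≤ S.eh χ P := by
  unfold Sys.eh Sys.Rg Rh
  rw [← sub_div, ← Finset.sum_sub_distrib]
  apply div_nonneg _ (by positivity)
  exact Finset.sum_nonneg fun x _ => sub_nonneg.2 (S.a_le_rho hχ0 x _)

theorem Sys.Rg_nonneg (S : Sys α) {χ : ℕ → ℝ} (hχ0 : ∀ s, 0 ≤ χ s) (P : Finset α) :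
    0 ≤ S.Rg χ P := by
  unfold Sys.Rg
  exact div_nonneg (Finset.sum_nonneg fun x _ => S.a_nonneg hχ0 x _) (by positivity)

theorem Sys.y_nonneg (S : Sys α) (j : ℕ) : 0 ≤ S.y j := by
  unfold Sys.y
  positivity

/-! ## part s2 -/

theorem Sys.f_sq (S : Sys α) : ∑ p ∈ range (2 * S.m + 1), Ev p (fun P => S.f P ^ 2)
    = S.T - S.cost := by
  unfold Sys.T Sys.cost
  rw [← Finset.sum_sub_distrib]
  refine Finset.sum_congr rfl fun p _ => ?_
  have h1 : Ev p (fun P => S.f P ^ 2) = Ev p (fun P => wt S.m p * S.f P) := by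
    refine Ev_congr fun P hP => ?_
    unfold Sys.f
    by_cases h : P ∈ S.F
    · rw [if_pos h, hP]; ring
    · rw [if_neg h]; ring
  rw [h1, Ev_const_mul]
  unfold Sys.ph
  ring

theorem Sys.T_eq (S : Sys α) : S.T = 1 - S.nu + S.G := by
  have h := T_identity S.f
  rw [S.hcard] at h
  unfold Sys.T Sys.nu Sys.G Sys.ph Sys.H
  linarith

theorem Sys.G_eq_up (S : Sys α) :
    S.G = ∑ p ∈ range (2 * S.m + 1), Ev p (fun P => S.f P * Up S.u P) := by
  have h := UF.G_eq_up S.f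
  rw [S.hcard] at h
  exact h

theorem Sys.Ev_nu (S : Sys α) {t : ℕ} (ht : t ≤ 2 * S.m) :
    Ev t (fun P => (1 - Dn S.H P) * (1 - S.u P)) = S.nu := by
  have h := nu_identity S.f (t := t) (by rw [S.hcard]; exact ht)
  exact h

theorem Sys.G_nonneg (S : Sys α) : 0 ≤ S.G := by
  unfold Sys.G
  exact Finset.sum_nonneg fun p _ => Ev_nonneg fun P _ =>
    mul_nonneg (S.f_nonneg P) (S.Dn_H_nonneg P)

theorem Sys.cost_nonneg (S : Sys α) : 0 ≤ S.cost := by
  unfold Sys.cost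
  exact Finset.sum_nonneg fun s _ =>
    mul_nonneg (by have := wt_le_one S.m s; linarith) (S.ph_nonneg s)

/-! ## part s3 -/

theorem Sys.sqrt_facts (S : Sys α) (hR : S.Reg) :
    (10000 : ℝ) ≤ Real.sqrt S.m ∧ Real.sqrt S.m * Real.sqrt S.m = S.m := by
  have hm : (100000000 : ℝ) ≤ S.m := by exact_mod_cast hR.1
  refine ⟨?_, Real.mul_self_sqrt (by positivity)⟩
  rw [show (10000 : ℝ) = Real.sqrt (10000 ^ 2) by rw [Real.sqrt_sq (by norm_num)]]
  exact Real.sqrt_le_sqrt (by norm_num; exact_mod_cast hR.1)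

theorem Sys.r_bounds (S : Sys α) (hR : S.Reg) :
    Real.sqrt S.m ≤ S.r ∧ (S.r : ℝ) ≤ 1.001 * Real.sqrt S.m ∧ (S.r : ℝ) ≤ S.m / 5000 := by
  obtain ⟨h1, h2⟩ := S.sqrt_facts hR
  have h3 : (S.r : ℝ) = (Nat.sqrt S.m : ℝ) + 1 := by
    unfold Sys.r; push_cast; ring
  have h4 : Real.sqrt S.m ≤ (Nat.sqrt S.m : ℝ) + 1 := by
    rw [Real.sqrt_le_left (by positivity)]
    have := Nat.lt_succ_sqrt S.m
    have h5 : (S.m : ℝ) < ((Nat.sqrt S.m).succ * (Nat.sqrt S.m).succ : ℕ) := by exact_mod_cast this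
    push_cast at h5
    nlinarith
  have h5 : (Nat.sqrt S.m : ℝ) ≤ Real.sqrt S.m := by
    apply Real.le_sqrt_of_sq_le
    have := Nat.sqrt_le' S.m
    exact_mod_cast this
  have h6 : (S.r : ℝ) ≤ 1.001 * Real.sqrt S.m := by
    rw [h3]; linarith
  refine ⟨by rw [h3]; exact h4, h6, ?_⟩
  refine h6.trans ?_
  rw [le_div_iff₀ (by norm_num)]
  nlinarith [mul_le_mul_of_nonneg_right h1 (Real.sqrt_nonneg (S.m : ℝ))]

theorem Sys.k_bounds (S : Sys α) (hR : S.Reg) {k : ℕ} (hk : k < S.M) :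
    k * S.r ≤ S.h ∧ (k + 1) * S.r ≤ S.m ∧ ((S.bk k : ℕ) : ℝ) = S.m - ((k : ℝ) + 1) * S.r
      ∧ 1 ≤ S.bk k ∧ ((k : ℝ) + 1) * S.r ≤ S.m / 2500 := by
  obtain ⟨-, -, hr⟩ := S.r_bounds hR
  have h1 : k * S.r ≤ S.h := by
    have h2 : k ≤ S.h / S.r := by
      unfold Sys.M at hk; omega
    exact (Nat.mul_le_mul_right _ h2).trans (Nat.div_mul_le_self _ _)
  have h1' : (k : ℝ) * S.r ≤ S.h := by exact_mod_cast h1
  have hh : 5000 * (S.h : ℝ) ≤ S.m := by exact_mod_cast hR.2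
  have hm : (100000000 : ℝ) ≤ S.m := by exact_mod_cast hR.1
  have h3 : ((k : ℝ) + 1) * S.r ≤ S.m / 2500 := by
    have : ((k : ℝ) + 1) * S.r = k * S.r + S.r := by ring
    rw [this]; linarith
  have h4 : (k + 1) * S.r ≤ S.m := by
    have : ((k : ℝ) + 1) * S.r ≤ S.m := by linarith
    exact_mod_cast this
  have h5 : ((S.bk k : ℕ) : ℝ) = S.m - ((k : ℝ) + 1) * S.r := by
    unfold Sys.bk
    rw [Nat.cast_sub h4]
    push_cast; ring
  refine ⟨h1, h4, h5, ?_, h3⟩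
  have : (1 : ℝ) ≤ ((S.bk k : ℕ) : ℝ) := by rw [h5]; linarith
  exact_mod_cast this

theorem Sys.card_bounds (S : Sys α) (hR : S.Reg) {C : Finset α} (hC : C ∈ S.F) :
    (S.m : ℝ) * (4999 / 5000) ≤ C.card ∧ (C.card : ℝ) ≤ S.m * (5001 / 5000) := by
  have h1 : (S.m : ℝ) ≤ C.card + S.h := by exact_mod_cast S.hlo C hC
  have h2 : (C.card : ℝ) ≤ S.m + S.h := by exact_mod_cast S.hhi C hC
  have hh : 5000 * (S.h : ℝ) ≤ S.m := by exact_mod_cast hR.2
  constructor <;> linarith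

/-! ## part s4 -/

theorem Sys.DHb_small (S : Sys α) (hR : S.Reg) {k : ℕ} (hk : k < S.M) {C : Finset α}
    (hC : C ∈ S.F) :
    11 / 10 * Dn (Hb S.F (S.bk k)) C ≤ 1 / 10 ∧
    Dn (Hb S.F (S.bk k)) C
      ≤ 6 * (((k : ℝ) + 1) / Real.sqrt S.m + max ((C.card : ℝ) - S.m) 0 / S.m) := by
  obtain ⟨hr1, hr2, hr3⟩ := S.r_bounds hR
  obtain ⟨hk1, hk2, hk3, hk4, hk5⟩ := S.k_bounds hR hk
  obtain ⟨hc1, hc2⟩ := S.card_bounds hR hC
  have hM : (100000000 : ℝ) ≤ S.m := by exact_mod_cast hR.1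
  have hM0 : (0 : ℝ) < S.m := by linarith
  have hsq0 : 0 < Real.sqrt S.m := Real.sqrt_pos.2 hM0
  have hsq : Real.sqrt S.m * Real.sqrt S.m = S.m := Real.mul_self_sqrt hM0.le
  have hK : (1 : ℝ) ≤ (k : ℝ) + 1 := by
    have : (0 : ℝ) ≤ k := Nat.cast_nonneg k
    linarith
  have hRHS : 0 ≤ ((k : ℝ) + 1) / Real.sqrt S.m + max ((C.card : ℝ) - S.m) 0 / S.m := by positivity
  rcases le_or_gt C.card (S.bk k) with hle | hlt
  · have h0 : Dn (Hb S.F (S.bk k)) C ≤ 0 := by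
      apply Dn_le_of_le le_rfl
      intro y hy
      rw [Hb_of_card_lt]
      rw [Finset.card_erase_of_mem hy]
      have : 0 < C.card := Finset.card_pos.2 ⟨y, hy⟩
      omega
    constructor <;> linarith
  · have hs1 : (0 : ℝ) < (C.card : ℝ) - 1 := by linarith
    have hs1' : (9997 / 10000 : ℝ) * S.m ≤ (C.card : ℝ) - 1 := by linarith
    have hD0 : (0 : ℝ) < (C.card : ℝ) - (S.bk k : ℕ) := by
      have : ((S.bk k : ℕ) : ℝ) < C.card := by exact_mod_cast hlt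
      linarith
    set D : ℝ := (C.card : ℝ) - (S.bk k : ℕ) with hD
    have hD1 : D ≤ 3 / 5000 * S.m := by rw [hD, hk3]; linarith
    set X : ℝ := D / ((C.card : ℝ) - 1) with hX
    have hX0 : 0 ≤ X := by rw [hX]; positivity
    have hX1 : X ≤ 61 / 100000 := by
      rw [hX, div_le_iff₀ hs1]
      nlinarith
    have hb := DHb_bound S.F C (S.hz C hC) hk4 hlt (q := 4 * X) (by linarith) (by linarith)
      (by rw [hX]; field_simp; rw [hD])
    have hDs : D / C.card ≤ X := by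
      rw [hX]
      apply div_le_div_of_nonneg_left hD0.le hs1
      linarith
    set E : ℝ := ((k : ℝ) + 1) / Real.sqrt S.m + max ((C.card : ℝ) - S.m) 0 / S.m with hE
    have hME : S.m * E = ((k : ℝ) + 1) * Real.sqrt S.m + max ((C.card : ℝ) - S.m) 0 := by
      rw [hE, mul_add]
      congr 1
      · nth_rewrite 1 [← hsq]
        field_simp
      · field_simp
    have hDE : D ≤ 1001 / 1000 * (S.m * E) := by
      rw [hME, hD, hk3]
      have h1 : (C.card : ℝ) - S.m ≤ max ((C.card : ℝ) - S.m) 0 := le_max_left _ _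
      have h2 : 0 ≤ max ((C.card : ℝ) - S.m) 0 := le_max_right _ _
      have h3 : ((k : ℝ) + 1) * S.r ≤ ((k : ℝ) + 1) * (1.001 * Real.sqrt S.m) :=
        mul_le_mul_of_nonneg_left hr2 (by linarith)
      norm_num at h3 ⊢
      linarith
    have hXE : X ≤ 1002 / 1000 * E := by
      rw [hX, div_le_iff₀ hs1]
      have h4 : 0 ≤ E := hRHS
      have h5 : E * ((9997 / 10000 : ℝ) * S.m) ≤ E * ((C.card : ℝ) - 1) :=
        mul_le_mul_of_nonneg_left hs1' h4
      have h6 : 0 ≤ S.m * E := by positivity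
      nlinarith
    have hfin : Dn (Hb S.F (S.bk k)) C ≤ 55 / 10 * X := by
      refine hb.trans ?_
      have h7 : X * X ≤ 61 / 100000 * X := mul_le_mul_of_nonneg_right hX1 hX0
      nlinarith
    constructor
    · linarith
    · have : 0 ≤ E := hRHS
      linarith

/-! ## part s5 -/

theorem Sys.f_le_shell (S : Sys α) (hR : S.Reg) (Q : Finset α) :
    S.f Q ≤ ∑ k ∈ range S.M, omk k * Fb S.F (S.bk k) Q := by
  have hterm : ∀ k, 0 ≤ omk k * Fb S.F (S.bk k) Q := fun k =>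
    mul_nonneg (Real.exp_pos _).le (Fb_nonneg _ _ _)
  by_cases hQ : Q ∈ S.F
  · have hf : S.f Q = wt S.m Q.card := by unfold Sys.f; rw [if_pos hQ]
    have key : ∀ k, k < S.M → S.bk k ≤ Q.card → wt S.m Q.card ≤ omk k →
        S.f Q ≤ ∑ k ∈ range S.M, omk k * Fb S.F (S.bk k) Q := by
      intro k hk hb hw
      have h1 : Fb S.F (S.bk k) Q = 1 := by unfold Fb; rw [if_pos ⟨hQ, hb⟩]
      have h2 : omk k * Fb S.F (S.bk k) Q ≤ ∑ k ∈ range S.M, omk k * Fb S.F (S.bk k) Q :=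
        Finset.single_le_sum (f := fun k => omk k * Fb S.F (S.bk k) Q)
          (fun i _ => hterm i) (mem_range.2 hk)
      rw [h1, mul_one] at h2
      rw [hf]; exact hw.trans h2
    by_cases hc : S.m ≤ Q.card
    · refine key 0 ?_ ?_ ?_
      · unfold Sys.M; exact Nat.succ_pos _
      · unfold Sys.bk; omega
      · have : omk 0 = 1 := by simp [omk]
        rw [this]; exact wt_le_one _ _
    · rw [not_le] at hc
      have hlo := S.hlo Q hQ
      have hr : 0 < S.r := by unfold Sys.r; omega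
      set a := S.m - Q.card with ha
      have hah : a ≤ S.h := by omega
      have hk1 : a / S.r * S.r ≤ a := Nat.div_mul_le_self a S.r
      have hk2 : a < (a / S.r + 1) * S.r := by
        rw [add_mul, one_mul]
        exact Nat.lt_div_mul_add hr
      refine key (a / S.r) ?_ ?_ ?_
      · unfold Sys.M
        have := Nat.div_le_div_right (c := S.r) hah
        omega
      · unfold Sys.bk; omega
      · have hm : 1 ≤ S.m := by have := hR.1; omega
        refine (wt_le_exp hm _).trans ?_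
        unfold omk
        apply Real.exp_le_exp.2
        have hmR : (0:ℝ) < S.m := by exact_mod_cast hm
        have haR : (a : ℝ) = S.m - Q.card := by
          rw [ha, Nat.cast_sub hc.le]
        have hsq : Real.sqrt S.m ≤ S.r := (S.r_bounds hR).1
        have h1 : ((a / S.r : ℕ) : ℝ) * Real.sqrt S.m ≤ a := by
          calc ((a / S.r : ℕ) : ℝ) * Real.sqrt S.m ≤ ((a / S.r : ℕ) : ℝ) * S.r :=
                mul_le_mul_of_nonneg_left hsq (by positivity)
            _ ≤ a := by exact_mod_cast hk1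
        have h2 : ((a / S.r : ℕ) : ℝ) ^ 2 * S.m ≤ (a : ℝ) ^ 2 := by
          have h3 : (((a / S.r : ℕ) : ℝ) * Real.sqrt S.m) ^ 2 ≤ (a : ℝ) ^ 2 :=
            pow_le_pow_left₀ (by positivity) h1 2
          rw [mul_pow, Real.sq_sqrt hmR.le] at h3
          exact h3
        have h4 : ((Q.card : ℝ) - S.m) ^ 2 = (a : ℝ) ^ 2 := by rw [haR]; ring
        rw [h4, neg_div, neg_div, neg_le_neg_iff, div_le_div_iff₀ (by norm_num) (by positivity)]
        nlinarith
  · have hf : S.f Q = 0 := by unfold Sys.f; rw [if_neg hQ]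
    rw [hf]
    exact Finset.sum_nonneg fun k _ => hterm k

theorem Sys.H_le_shell (S : Sys α) (hR : S.Reg) (Q : Finset α) :
    S.H Q ≤ 11 / 10 * ∑ k ∈ range S.M, omk k * Hb S.F (S.bk k) Q := by
  have h1 : S.H Q ≤ Ds (fun _ => 0) S.f Q := H_le_K S.f_nonneg S.f_le_one Q
  have h2 : Ds (fun _ => 0) S.f Q ≤
      Ds (fun _ => 0) (fun Q => ∑ k ∈ range S.M, omk k * Fb S.F (S.bk k) Q) Q :=
    Ds_mono (fun _ => zero_le_one) (S.f_le_shell hR) Q
  have h3 : Ds (fun _ => 0) (fun Q => ∑ k ∈ range S.M, omk k * Fb S.F (S.bk k) Q) Q ≤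
      ∑ k ∈ range S.M, omk k * Ds (fun _ => 0) (Fb S.F (S.bk k)) Q := by
    refine Ds_le (X := fun Q => ∑ k ∈ range S.M, omk k * Ds (fun _ => 0) (Fb S.F (S.bk k)) Q)
      (fun _ => zero_le_one) fun P _ => ?_
    have hD : Dn (fun Q => ∑ k ∈ range S.M, omk k * Ds (fun _ => 0) (Fb S.F (S.bk k)) Q) P =
        ∑ k ∈ range S.M, omk k * Dn (Ds (fun _ => 0) (Fb S.F (S.bk k))) P := by
      rw [Dn_sum (range S.M) (fun k Q => omk k * Ds (fun _ => 0) (Fb S.F (S.bk k)) Q) P]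
      refine Finset.sum_congr rfl fun k _ => ?_
      rw [Dn_const_mul]
    have hE : ∑ k ∈ range S.M, omk k * Ds (fun _ => 0) (Fb S.F (S.bk k)) P =
        ∑ k ∈ range S.M, omk k * Fb S.F (S.bk k) P +
        ∑ k ∈ range S.M, omk k * Dn (Ds (fun _ => 0) (Fb S.F (S.bk k))) P := by
      rw [← Finset.sum_add_distrib]
      refine Finset.sum_congr rfl fun k _ => ?_
      rw [Ds_eq (fun _ => 0) (Fb S.F (S.bk k)) P]
      ring
    beta_reduce
    rw [hD, hE, sub_zero, one_mul]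
  refine (h1.trans (h2.trans h3)).trans ?_
  rw [Finset.mul_sum]
  refine Finset.sum_le_sum fun k hk => ?_
  have h4 : Ds (fun _ => 0) (Fb S.F (S.bk k)) Q ≤ (1 + 1 / 10) * Ds (Fb S.F (S.bk k)) (Fb S.F (S.bk k)) Q := by
    refine K_le_H (Fb_nonneg _ _) (Fb_le_one _ _) (by norm_num) ?_ Q
    intro C hC
    have hCF : C ∈ S.F := by
      by_contra h
      apply hC
      unfold Fb
      rw [if_neg (fun hh => h hh.1)]
    have := (S.DHb_small hR (mem_range.1 hk) hCF).1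
    have e : (1 + 1 / 10 : ℝ) = 11 / 10 := by norm_num
    rw [e]
    exact this
  have h5 : (0:ℝ) ≤ omk k := (Real.exp_pos _).le
  calc omk k * Ds (fun _ => 0) (Fb S.F (S.bk k)) Q
      ≤ omk k * ((1 + 1 / 10) * Ds (Fb S.F (S.bk k)) (Fb S.F (S.bk k)) Q) :=
        mul_le_mul_of_nonneg_left h4 h5
    _ = 11 / 10 * (omk k * Hb S.F (S.bk k) Q) := by
        unfold Hb; ring

/-! ## part s6 -/

theorem Sys.DH_small (S : Sys α) (hR : S.Reg) {C : Finset α} (hC : C ∈ S.F) :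
    Dn S.H C ≤ 7 * Cw * (1 / Real.sqrt S.m + max ((C.card : ℝ) - S.m) 0 / S.m) := by
  set X : ℝ := max ((C.card : ℝ) - S.m) 0 with hX
  have hX0 : 0 ≤ X := le_max_right _ _
  set Y : ℝ := 1 / Real.sqrt S.m + X / S.m with hY
  have hY0 : 0 ≤ Y := by rw [hY]; positivity
  have h1 : Dn S.H C ≤ Dn (fun Q => 11 / 10 * ∑ k ∈ range S.M, omk k * Hb S.F (S.bk k) Q) C :=
    Dn_mono fun y _ => S.H_le_shell hR _
  have h2 : Dn (fun Q => 11 / 10 * ∑ k ∈ range S.M, omk k * Hb S.F (S.bk k) Q) C =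
      11 / 10 * ∑ k ∈ range S.M, omk k * Dn (Hb S.F (S.bk k)) C := by
    rw [Dn_const_mul (11 / 10) (fun Q => ∑ k ∈ range S.M, omk k * Hb S.F (S.bk k) Q) C,
      Dn_sum (range S.M) (fun k Q => omk k * Hb S.F (S.bk k) Q) C]
    congr 1
    refine Finset.sum_congr rfl fun k _ => ?_
    exact Dn_const_mul _ _ _
  have h3 : ∑ k ∈ range S.M, omk k * Dn (Hb S.F (S.bk k)) C ≤
      ∑ k ∈ range S.M, 6 * Y * (Real.exp (-((k : ℝ) ^ 2) / 2) * ((k : ℝ) + 2) ^ 10) := by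
    refine Finset.sum_le_sum fun k hk => ?_
    have h4 := (S.DHb_small hR (Finset.mem_range.1 hk) hC).2
    rw [← hX] at h4
    have hk0 : (0:ℝ) ≤ k := Nat.cast_nonneg k
    have h5 : ((k : ℝ) + 1) / Real.sqrt S.m + X / S.m ≤ ((k : ℝ) + 1) * Y := by
      have e : ((k : ℝ) + 1) * Y = ((k : ℝ) + 1) / Real.sqrt S.m + X / S.m + k * (X / S.m) := by
        rw [hY]; ring
      rw [e]
      have : 0 ≤ k * (X / S.m) := by positivity
      linarith
    have h6 : (k : ℝ) + 1 ≤ ((k : ℝ) + 2) ^ 10 := by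
      have : (k : ℝ) + 2 ≤ ((k : ℝ) + 2) ^ 10 := le_self_pow₀ (by linarith) (by norm_num)
      linarith
    have h7 : 6 * (((k : ℝ) + 1) / Real.sqrt S.m + X / S.m) ≤ 6 * Y * ((k : ℝ) + 2) ^ 10 := by
      have : ((k : ℝ) + 1) * Y ≤ ((k : ℝ) + 2) ^ 10 * Y := mul_le_mul_of_nonneg_right h6 hY0
      nlinarith
    have h8 : omk k * Dn (Hb S.F (S.bk k)) C ≤ omk k * (6 * Y * ((k : ℝ) + 2) ^ 10) :=
      mul_le_mul_of_nonneg_left (h4.trans h7) (Real.exp_pos _).le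
    refine h8.trans (le_of_eq ?_)
    unfold omk
    ring
  rw [← Finset.mul_sum] at h3
  have h9 := mul_le_mul_of_nonneg_left (shell_sum_le S.M) (show (0:ℝ) ≤ 6 * Y by positivity)
  have hC0 : (0:ℝ) ≤ Cw := le_trans zero_le_one one_le_Cw
  have h10 : 0 ≤ Cw * Y := mul_nonneg hC0 hY0
  calc Dn S.H C ≤ 11 / 10 * ∑ k ∈ range S.M, omk k * Dn (Hb S.F (S.bk k)) C := h1.trans h2.le
    _ ≤ 11 / 10 * (6 * Y * Cw) := by linarith
    _ ≤ 7 * Cw * Y := by nlinarith

/-! ## part s7 -/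

theorem Sys.DH_tenth (S : Sys α) (hR : S.Reg) {C : Finset α} (hC : C ∈ S.F) :
    11 / 10 * Dn S.H C ≤ 1 / 10 := by
  obtain ⟨hm, hh⟩ := hR
  have hmr : (100000000 : ℝ) ≤ S.m := by exact_mod_cast hm
  have hhr : 5000 * (S.h : ℝ) ≤ S.m := by exact_mod_cast hh
  obtain ⟨b, hb⟩ : ∃ b : ℕ, S.m = b + S.h := ⟨S.m - S.h, by omega⟩
  have hbr : (S.m : ℝ) = b + S.h := by exact_mod_cast hb
  have hfFb : ∀ Q, S.f Q ≤ Fb S.F b Q := by
    intro Q
    unfold Sys.f Fb
    by_cases hQ : Q ∈ S.F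
    · have h1 := S.hlo Q hQ
      rw [if_pos hQ, if_pos ⟨hQ, by omega⟩]
      exact wt_le_one _ _
    · rw [if_neg hQ]
      split_ifs <;> norm_num
  have hHHb : ∀ Q, S.H Q ≤ Hb S.F b Q := by
    intro Q
    unfold Sys.H
    apply Ds_le (fun Q => S.f_le_one Q)
    intro Q' _
    have e : Hb S.F b Q' = Fb S.F b Q' + (1 - Fb S.F b Q') * Dn (Hb S.F b) Q' := by
      unfold Hb
      exact Ds_eq _ _ _
    rw [e]
    have h1 := hfFb Q'
    have h2 : Dn (Hb S.F b) Q' ≤ 1 := (Dn_Hb_le S.F b Q').trans (Hb_le_one S.F b Q')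
    nlinarith
  have hDn : Dn S.H C ≤ Dn (Hb S.F b) C := Dn_mono fun y _ => hHHb _
  have hlo := S.hlo C hC
  have hhi := S.hhi C hC
  have hhir : (C.card : ℝ) ≤ S.m + S.h := by exact_mod_cast hhi
  have hlor : (S.m : ℝ) ≤ C.card + S.h := by exact_mod_cast hlo
  have hkey : Dn (Hb S.F b) C ≤ 1 / 100 := by
    rcases Nat.lt_or_ge b C.card with hbc | hbc
    · have hbcr : (b : ℝ) < C.card := by exact_mod_cast hbc
      have h1 := DHb_bound S.F C (S.hz C hC) (b := b) (by omega) hbc (q := 1 / 600) (by norm_num)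
        (by norm_num) (by linarith)
      refine h1.trans ?_
      have hcpos : (0 : ℝ) < C.card := by linarith
      have h2 : ((C.card : ℝ) - b) / C.card ≤ 1 / 1000 := by
        rw [div_le_div_iff₀ hcpos (by norm_num)]
        linarith
      have h3 : (9 : ℝ) / 5 * (256 * (1 / 600) ^ 2) ≤ 1 / 500 := by norm_num
      linarith
    · refine (Dn_le_of_le (c := 0) le_rfl ?_).trans (by norm_num)
      intro y hy
      have h1 := Finset.card_erase_lt_of_mem hy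
      exact (Hb_of_card_lt S.F b _ (by omega)).le
  linarith

/-! ## part s8 -/

theorem Sys.second (S : Sys α) (hR : S.Reg) :
    S.T ^ 2 ≤ S.T - S.cost + 11 / 5 * S.G := by
  have h1 := second_moment (f := S.f) S.f_nonneg
  rw [S.hcard] at h1
  have h2 : ∑ p ∈ range (2 * S.m + 1), Ev p (fun P => S.f P * Dn (Ds (fun _ => 0) S.f) P)
      ≤ 11 / 10 * S.G := by
    unfold Sys.G
    rw [Finset.mul_sum]
    refine Finset.sum_le_sum fun p _ => ?_
    rw [← Ev_const_mul]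
    refine Ev_mono fun P _ => ?_
    have h3 : Dn (Ds (fun _ => 0) S.f) P ≤ 11 / 10 * Dn S.H P := by
      rw [← Dn_const_mul]
      refine Dn_mono fun y _ => ?_
      have h5 := K_le_H S.f_nonneg S.f_le_one (κ := 1 / 10) (by norm_num) (fun C hC => by
        have h6 := S.DH_tenth hR (S.mem_of_f hC)
        have h7 : Dn (Ds S.f S.f) C = Dn S.H C := rfl
        rw [h7]; linarith) (P.erase y)
      have h8 : Ds S.f S.f (P.erase y) = S.H (P.erase y) := rfl
      rw [h8] at h5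
      linarith
    have h9 := mul_le_mul_of_nonneg_left h3 (S.f_nonneg P)
    linarith
  have h4 := S.f_sq
  have h5 : S.T = ∑ p ∈ range (2 * S.m + 1), Ev p S.f := rfl
  rw [h4] at h1
  rw [← h5] at h1
  linarith

/-! ## part s9 -/

theorem nc_iter {g : Finset α → ℝ} (hg : ∀ Q, 0 ≤ g Q) (N : ℕ) (Q : Finset α) :
    ∑ i ∈ range N, (Dn^[i] g) Q ≤ Ds (fun _ => 0) g Q := by
  induction N generalizing Q with
  | zero =>
    rw [Finset.range_zero, Finset.sum_empty]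
    exact Ds_nonneg (fun _ => zero_le_one) hg Q
  | succ N ih =>
    rw [Finset.sum_range_succ', Ds_eq]
    have h1 : ∑ i ∈ range N, (Dn^[i + 1] g) Q = Dn (fun P => ∑ i ∈ range N, (Dn^[i] g) P) Q := by
      rw [Dn_sum]
      refine Finset.sum_congr rfl (fun i _ => ?_)
      rw [Function.iterate_succ_apply']
    have h2 : Dn (fun P => ∑ i ∈ range N, (Dn^[i] g) P) Q ≤ Dn (Ds (fun _ => 0) g) Q :=
      Dn_mono (fun y _ => ih _)
    rw [h1]
    simp only [Function.iterate_zero, id_eq, sub_zero, one_mul]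
    linarith

theorem nc_iter' {g : Finset α → ℝ} (hg : ∀ Q, 0 ≤ g Q) (N : ℕ) (Q : Finset α) :
    ∑ i ∈ range N, (Dn^[i] (Dn g)) Q ≤ Dn (Ds (fun _ => 0) g) Q := by
  have h1 : ∑ i ∈ range N, (Dn^[i] (Dn g)) Q = Dn (fun P => ∑ i ∈ range N, (Dn^[i] g) P) Q := by
    rw [Dn_sum]
    refine Finset.sum_congr rfl (fun i _ => ?_)
    rw [← Function.iterate_succ_apply, Function.iterate_succ_apply']
  rw [h1]
  exact Dn_mono (fun y _ => nc_iter hg N _)

theorem nc_shell (S : Sys α) (hR : S.Reg) (z : α) (Q : Finset α) :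
    Ds (fun _ => 0) (fun A => if z ∈ A then S.f A else 0) Q ≤
      ∑ k ∈ range S.M, omk k *
        Ds (fun _ => 0) (fun A => if z ∈ A then Fb S.F (S.bk k) A else 0) Q := by
  refine Ds_le (X := fun Q => ∑ k ∈ range S.M, omk k *
        Ds (fun _ => 0) (fun A => if z ∈ A then Fb S.F (S.bk k) A else 0) Q)
    (fun _ => zero_le_one) (fun P _ => ?_)
  have h1 : Dn (fun Q => ∑ k ∈ range S.M, omk k *
        Ds (fun _ => 0) (fun A => if z ∈ A then Fb S.F (S.bk k) A else 0) Q) P =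
      ∑ k ∈ range S.M, omk k *
        Dn (Ds (fun _ => 0) (fun A => if z ∈ A then Fb S.F (S.bk k) A else 0)) P := by
    rw [Dn_sum]
    refine Finset.sum_congr rfl (fun k _ => ?_)
    rw [Dn_const_mul]
  have h2 : (if z ∈ P then S.f P else 0) ≤
      ∑ k ∈ range S.M, omk k * (if z ∈ P then Fb S.F (S.bk k) P else 0) := by
    by_cases hz : z ∈ P
    · simp only [if_pos hz]
      exact S.f_le_shell hR P
    · simp only [if_neg hz, mul_zero, Finset.sum_const_zero, le_refl]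
  have h3 : ∑ k ∈ range S.M, omk k *
        Ds (fun _ => 0) (fun A => if z ∈ A then Fb S.F (S.bk k) A else 0) P =
      ∑ k ∈ range S.M, omk k * (if z ∈ P then Fb S.F (S.bk k) P else 0) +
      ∑ k ∈ range S.M, omk k *
        Dn (Ds (fun _ => 0) (fun A => if z ∈ A then Fb S.F (S.bk k) A else 0)) P := by
    rw [← Finset.sum_add_distrib]
    refine Finset.sum_congr rfl (fun k _ => ?_)
    rw [Ds_eq]
    ring
  show (if z ∈ P then S.f P else 0) + (1 - 0) * Dn (fun Q => ∑ k ∈ range S.M, omk k *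
        Ds (fun _ => 0) (fun A => if z ∈ A then Fb S.F (S.bk k) A else 0) Q) P ≤
      ∑ k ∈ range S.M, omk k *
        Ds (fun _ => 0) (fun A => if z ∈ A then Fb S.F (S.bk k) A else 0) P
  rw [h1, h3]
  linarith

theorem nc_zero (F : Finset (Finset α)) (z : α) (b : ℕ) (Q : Finset α) (hQ : Q.card < b) :
    Ds (fun _ => 0) (fun A => if z ∈ A then Fb F b A else 0) Q ≤ 0 := by
  refine Ds_le (X := fun _ => 0) (fun _ => zero_le_one) (fun P hP => ?_)
  have h1 : P.card < b := lt_of_le_of_lt (card_le_card hP) hQ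
  have h2 : Fb F b P = 0 := by
    unfold Fb
    rw [if_neg]
    intro h
    omega
  have h3 : Dn (fun _ : Finset α => (0 : ℝ)) P = 0 := by
    unfold Dn
    simp
  show (if z ∈ P then Fb F b P else 0) + (1 - 0) * Dn (fun _ : Finset α => (0 : ℝ)) P ≤ 0
  rw [h2, h3]
  simp

/-- the pure arithmetic of one shell -/
theorem nc_arith {m s b r k : ℝ} (hm : 100000000 ≤ m) (hr0 : 0 ≤ r) (hk : 0 ≤ k)
    (hr : r ^ 2 ≤ 1003 / 1000 * m) (hb : b = m - (k + 1) * r) (hkr : (k + 1) * r ≤ m / 2500)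
    (hs1 : m * (4999 / 5000) ≤ s) (hs2 : s ≤ m * (5001 / 5000)) (hbs : b < s) :
    0 ≤ 4 * (s - b) / (s - 1) ∧ 4 * (s - b) / (s - 1) ≤ 1 ∧
    4 * (s - b) ≤ (4 * (s - b) / (s - 1)) * (s - 1) ∧
    (1 + 1 / 10) * (s / b) * (9 / 5 * (256 * (4 * (s - b) / (s - 1)) ^ 2)) ≤
      16400 * ((s - m) ^ 2 / m ^ 2 + (k + 1) ^ 2 / m) := by
  have hs10 : 0 < s - 1 := by linarith
  have hb0 : 0 < b := by rw [hb]; linarith
  have hm0 : 0 < m := by linarith
  refine ⟨div_nonneg (by linarith) hs10.le, ?_, ?_, ?_⟩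
  · rw [div_le_one hs10]
    rw [hb]
    linarith
  · rw [div_mul_cancel₀ _ hs10.ne']
  · have h1 : s / b ≤ 1001 / 1000 := by
      rw [div_le_iff₀ hb0, hb]
      linarith
    have h2 : (s - b) ^ 2 ≤ 2 * (s - m) ^ 2 + 2 * (k + 1) ^ 2 * (1003 / 1000 * m) := by
      have e1 : s - b = (s - m) + (k + 1) * r := by rw [hb]; ring
      rw [e1]
      have e2 : (k + 1) ^ 2 * r ^ 2 ≤ (k + 1) ^ 2 * (1003 / 1000 * m) := by gcongr
      nlinarith [sq_nonneg ((s - m) - (k + 1) * r)]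
    have h3 : 9997 / 10000 * m ≤ s - 1 := by linarith
    have h4 : (9997 / 10000 * m) ^ 2 ≤ (s - 1) ^ 2 := by gcongr
    have h5 : (4 * (s - b) / (s - 1)) ^ 2 ≤
        16 * (2 * (s - m) ^ 2 + 2 * (k + 1) ^ 2 * (1003 / 1000 * m)) / (9997 / 10000 * m) ^ 2 := by
      rw [div_pow, mul_pow]
      have e3 : (4 : ℝ) ^ 2 = 16 := by norm_num
      rw [e3]
      gcongr
    calc (1 + 1 / 10) * (s / b) * (9 / 5 * (256 * (4 * (s - b) / (s - 1)) ^ 2))
        ≤ (1 + 1 / 10) * (1001 / 1000) * (9 / 5 * (256 *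
          (16 * (2 * (s - m) ^ 2 + 2 * (k + 1) ^ 2 * (1003 / 1000 * m)) /
            (9997 / 10000 * m) ^ 2))) := by gcongr
      _ ≤ 16400 * ((s - m) ^ 2 / m ^ 2 + (k + 1) ^ 2 / m) := by
          have e4 : (1 + 1 / 10) * (1001 / 1000) * (9 / 5 * (256 *
            (16 * (2 * (s - m) ^ 2 + 2 * (k + 1) ^ 2 * (1003 / 1000 * m)) /
              (9997 / 10000 * m) ^ 2))) =
            ((1 + 1 / 10) * (1001 / 1000) * (9 / 5 * (256 * 32)) / (9997 / 10000) ^ 2) *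
              ((s - m) ^ 2 / m ^ 2) +
            ((1 + 1 / 10) * (1001 / 1000) * (9 / 5 * (256 * 32)) * (1003 / 1000) /
              (9997 / 10000) ^ 2) * ((k + 1) ^ 2 / m) := by
            field_simp
            ring
          rw [e4, mul_add]
          have e5 : 0 ≤ (s - m) ^ 2 / m ^ 2 := by positivity
          have e6 : 0 ≤ (k + 1) ^ 2 / m := by positivity
          refine add_le_add (mul_le_mul_of_nonneg_right ?_ e5) (mul_le_mul_of_nonneg_right ?_ e6)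
          · norm_num
          · norm_num

theorem nc_one (S : Sys α) (hR : S.Reg) {C : Finset α} (hC : C ∈ S.F) {k : ℕ}
    (hk : k < S.M) :
    Dn (Ds (fun _ => 0) (fun A => if S.z C ∈ A then Fb S.F (S.bk k) A else 0)) C ≤
      16400 * (((C.card : ℝ) - S.m) ^ 2 / (S.m : ℝ) ^ 2 + ((k : ℝ) + 1) ^ 2 / S.m) := by
  have hm8 : (100000000 : ℝ) ≤ S.m := by exact_mod_cast hR.1
  have hRHS : 0 ≤ 16400 * (((C.card : ℝ) - S.m) ^ 2 / (S.m : ℝ) ^ 2 + ((k : ℝ) + 1) ^ 2 / S.m) := by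
    positivity
  by_cases hb : S.bk k < C.card
  · obtain ⟨hr1, hr2, hr3⟩ := S.r_bounds hR
    obtain ⟨hk1, hk2, hk3, hk4, hk5⟩ := S.k_bounds hR hk
    obtain ⟨hs1, hs2⟩ := S.card_bounds hR hC
    have hrr : (S.r : ℝ) ^ 2 ≤ 1003 / 1000 * S.m := by
      have h1 : (S.r : ℝ) ^ 2 ≤ (1.001 * Real.sqrt S.m) ^ 2 := by gcongr
      rw [mul_pow, Real.sq_sqrt (by positivity)] at h1
      have h2 : (1.001 : ℝ) ^ 2 * S.m ≤ 1003 / 1000 * S.m := by
        have : (1.001 : ℝ) ^ 2 ≤ 1003 / 1000 := by norm_num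
        gcongr
      exact h1.trans h2
    have hbs : ((S.bk k : ℕ) : ℝ) < C.card := by exact_mod_cast hb
    obtain ⟨h0, h1, h2, h3⟩ := nc_arith (m := S.m) (s := C.card) (b := (S.bk k : ℕ)) (r := S.r)
      (k := k) hm8 (by positivity) (by positivity) hrr hk3 hk5 hs1 hs2 hbs
    have h4 := Nz_bound S.F C (S.hz C hC) hk4 hb (κ := 1 / 10) (by norm_num)
      (fun A hA _ => by
        have := (S.DHb_small hR hk hA).1
        linarith) h0 h1 h2
    exact h4.trans h3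
  · rw [not_lt] at hb
    refine le_trans ?_ hRHS
    have h1 : Dn (Ds (fun _ => 0) (fun A => if S.z C ∈ A then Fb S.F (S.bk k) A else 0)) C ≤
        Dn (fun _ => (0 : ℝ)) C := by
      refine Dn_mono (fun y hy => ?_)
      apply nc_zero
      rw [Finset.card_erase_of_mem hy]
      have := Finset.card_pos.2 ⟨y, hy⟩
      omega
    refine h1.trans (le_of_eq ?_)
    unfold Dn
    simp

theorem nc_all (S : Sys α) (hR : S.Reg) {C : Finset α} (hC : C ∈ S.F) :
    Dn (Ds (fun _ => 0) (fun A => if S.z C ∈ A then S.f A else 0)) C ≤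
      20000 * Cw * (1 / S.m + ((C.card : ℝ) - S.m) ^ 2 / (S.m : ℝ) ^ 2) := by
  have hm8 : (100000000 : ℝ) ≤ S.m := by exact_mod_cast hR.1
  set X : ℝ := ((C.card : ℝ) - S.m) ^ 2 / (S.m : ℝ) ^ 2 with hX
  have hX0 : 0 ≤ X := by positivity
  have hCw := one_le_Cw
  have h1 : Dn (Ds (fun _ => 0) (fun A => if S.z C ∈ A then S.f A else 0)) C ≤
      ∑ k ∈ range S.M, omk k *
        Dn (Ds (fun _ => 0) (fun A => if S.z C ∈ A then Fb S.F (S.bk k) A else 0)) C := by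
    refine (Dn_mono (h := fun Q => ∑ k ∈ range S.M, omk k *
        Ds (fun _ => 0) (fun A => if S.z C ∈ A then Fb S.F (S.bk k) A else 0) Q)
        (fun y _ => nc_shell S hR (S.z C) (C.erase y))).trans (le_of_eq ?_)
    rw [Dn_sum]
    refine Finset.sum_congr rfl (fun k _ => ?_)
    rw [Dn_const_mul]
  refine h1.trans ?_
  have h2 : ∀ k ∈ range S.M, omk k *
        Dn (Ds (fun _ => 0) (fun A => if S.z C ∈ A then Fb S.F (S.bk k) A else 0)) C ≤
      (16400 * (X + 1 / S.m)) * (Real.exp (-((k : ℝ) ^ 2) / 2) * ((k : ℝ) + 2) ^ 10) := by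
    intro k hk
    have h3 := nc_one S hR hC (Finset.mem_range.1 hk)
    have hom : 0 < omk k := Real.exp_pos _
    have hk0 : (0 : ℝ) ≤ k := Nat.cast_nonneg k
    have h4 : (1 : ℝ) ≤ ((k : ℝ) + 2) ^ 10 := one_le_pow₀ (by linarith)
    have h5 : ((k : ℝ) + 1) ^ 2 ≤ ((k : ℝ) + 2) ^ 10 := by
      calc ((k : ℝ) + 1) ^ 2 ≤ ((k : ℝ) + 2) ^ 2 := by gcongr; norm_num
        _ ≤ ((k : ℝ) + 2) ^ 10 := pow_le_pow_right₀ (by linarith) (by norm_num)
    calc omk k * Dn (Ds (fun _ => 0) (fun A => if S.z C ∈ A then Fb S.F (S.bk k) A else 0)) C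
        ≤ omk k * (16400 * (X + ((k : ℝ) + 1) ^ 2 / S.m)) := by gcongr
      _ ≤ omk k * (16400 * (X * ((k : ℝ) + 2) ^ 10 + ((k : ℝ) + 2) ^ 10 / S.m)) := by
          gcongr
          exact le_mul_of_one_le_right hX0 h4
      _ = _ := by
          unfold omk
          ring
  refine (Finset.sum_le_sum h2).trans ?_
  rw [← Finset.mul_sum]
  have h3 := shell_sum_le S.M
  have h4 : 0 ≤ X + 1 / (S.m : ℝ) := by positivity
  calc (16400 * (X + 1 / S.m)) * ∑ k ∈ range S.M, Real.exp (-((k : ℝ) ^ 2) / 2) * ((k : ℝ) + 2) ^ 10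
      ≤ (16400 * (X + 1 / S.m)) * Cw := by gcongr
    _ ≤ (20000 * (X + 1 / S.m)) * Cw := by gcongr; norm_num
    _ = 20000 * Cw * (1 / S.m + X) := by ring

theorem Sys.NC_bound (S : Sys α) (hR : S.Reg) {χ : ℕ → ℝ} (hχ0 : ∀ s, 0 ≤ χ s)
    (hχ1 : ∀ s, χ s ≤ 1) :
    ∑ p ∈ range (2 * S.m), Ev p (fun Q => S.f Q * ∑ x ∈ Q, Up (rho S.f S.z χ x) Q)
      ≤ 20000 * Cw * ∑ s ∈ range (2 * S.m + 1),
          χ s * S.ph s * (1 / S.m + ((s : ℝ) - S.m) ^ 2 / (S.m : ℝ) ^ 2) := by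
  have hcard : Fintype.card α = 2 * S.m := S.hcard
  set g0 : α → Finset α → ℝ := fun x Q => if x ∈ Q then S.f Q else 0 with hg0
  have hg00 : ∀ x Q, 0 ≤ g0 x Q := by
    intro x Q
    simp only [hg0]
    split_ifs
    · exact S.f_nonneg Q
    · exact le_refl _
  set Φ : ℕ → ℕ → ℝ := fun p s => Ev s (fun C => S.f C * χ C.card *
    (Dn^[s - (p + 1)] (Dn (g0 (S.z C)))) C) with hΦ
  have hstep1 : ∀ p ∈ range (2 * S.m), Ev p (fun Q => S.f Q * ∑ x ∈ Q, Up (rho S.f S.z χ x) Q) ≤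
      ∑ s ∈ Icc (p + 1) (2 * S.m), Φ p s := by
    intro p hp
    rw [Finset.mem_range] at hp
    have hp' : p < Fintype.card α := by rw [hcard]; exact hp
    have e1 : Ev p (fun Q => S.f Q * ∑ x ∈ Q, Up (rho S.f S.z χ x) Q) =
        Ev p (fun Q => ∑ x, g0 x Q * Up (rho S.f S.z χ x) Q) := by
      refine Ev_congr (fun Q _ => ?_)
      simp only [hg0, ite_mul, zero_mul]
      rw [Finset.sum_ite_mem, Finset.univ_inter, Finset.mul_sum]
    have e2 : Ev p (fun Q => ∑ x, g0 x Q * Up (rho S.f S.z χ x) Q) =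
        Ev (p + 1) (fun T => ∑ x, Dn (g0 x) T * rho S.f S.z χ x T) := by
      rw [Ev_sum, Ev_sum]
      refine Finset.sum_congr rfl (fun x _ => ?_)
      exact Ev_Up_mul hp' (g0 x) (rho S.f S.z χ x)
    rw [e1, e2]
    have h3 := rho_dual S.f_nonneg S.f_le_one S.z hχ0 (fun x => Dn (g0 x))
      (fun x Q => Dn_nonneg (fun y _ => hg00 x _)) (t := p + 1) (by omega)
    rw [hcard] at h3
    exact h3
  refine (Finset.sum_le_sum hstep1).trans ?_
  have hswap : ∑ p ∈ range (2 * S.m), ∑ s ∈ Icc (p + 1) (2 * S.m), Φ p s =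
      ∑ s ∈ range (2 * S.m + 1), ∑ p ∈ range s, Φ p s := by
    refine Finset.sum_comm' (fun p s => ?_)
    simp only [Finset.mem_range, Finset.mem_Icc]
    omega
  rw [hswap, Finset.mul_sum]
  refine Finset.sum_le_sum (fun s _ => ?_)
  have e3 : ∑ p ∈ range s, Φ p s = Ev s (fun C => S.f C * χ C.card *
      ∑ i ∈ range s, (Dn^[i] (Dn (g0 (S.z C)))) C) := by
    simp only [hΦ]
    rw [← Ev_sum]
    refine Ev_congr (fun C _ => ?_)
    rw [← Finset.mul_sum]
    congr 1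
    rw [← Finset.sum_range_reflect]
    refine Finset.sum_congr rfl (fun p hp => ?_)
    rw [Finset.mem_range] at hp
    have : s - (s - 1 - p + 1) = p := by omega
    rw [this]
  rw [e3]
  have e4 : Ev s (fun C => S.f C * χ C.card * ∑ i ∈ range s, (Dn^[i] (Dn (g0 (S.z C)))) C) ≤
      Ev s (fun C => (χ s * (20000 * Cw * (1 / S.m + ((s : ℝ) - S.m) ^ 2 / (S.m : ℝ) ^ 2))) *
        S.f C) := by
    refine Ev_mono (fun C hC => ?_)
    by_cases hf : S.f C = 0
    · rw [hf]; simp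
    · have hCF := S.mem_of_f hf
      have h1 := nc_iter' (hg00 (S.z C)) s C
      have h2 := nc_all S hR hCF
      rw [hC] at h2 ⊢
      have h3 := S.f_nonneg C
      have h4 := hχ0 s
      have h5 : ∑ i ∈ range s, (Dn^[i] (Dn (g0 (S.z C)))) C ≤
        20000 * Cw * (1 / S.m + ((s : ℝ) - S.m) ^ 2 / (S.m : ℝ) ^ 2) := h1.trans h2
      calc S.f C * χ s * ∑ i ∈ range s, (Dn^[i] (Dn (g0 (S.z C)))) C
          ≤ S.f C * χ s * (20000 * Cw * (1 / S.m + ((s : ℝ) - S.m) ^ 2 / (S.m : ℝ) ^ 2)) := by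
            gcongr
        _ = _ := by ring
  refine e4.trans (le_of_eq ?_)
  rw [Ev_const_mul]
  unfold Sys.ph
  ring

/-! ## part s10 -/

theorem Sys.y_step (S : Sys α) (hm : 1 ≤ S.m) (a : ℕ) :
    S.y (a + 1) ≤ 1 / 64 * (1 / (1 + (a : ℝ) ^ 2 / S.m) - 1 / (1 + ((a : ℝ) + 1) ^ 2 / S.m)) := by
  have hm0 : (0 : ℝ) < S.m := by exact_mod_cast hm
  have ha : (0 : ℝ) ≤ a := Nat.cast_nonneg a
  unfold Sys.y
  push_cast
  set A : ℝ := (a : ℝ) ^ 2 / S.m with hA
  set B : ℝ := ((a : ℝ) + 1) ^ 2 / S.m with hB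
  have hA0 : 0 ≤ A := by positivity
  have hB0 : 0 ≤ B := by positivity
  have hAB : A ≤ B := by
    rw [hA, hB]
    apply div_le_div_of_nonneg_right _ hm0.le
    nlinarith
  have hd : ((a : ℝ) + 1) / S.m ≤ B - A := by
    rw [hA, hB, ← sub_div]
    apply div_le_div_of_nonneg_right _ hm0.le
    nlinarith
  have h1 : 1 / (1 + A) - 1 / (1 + B) = (B - A) / ((1 + A) * (1 + B)) := by
    field_simp
    ring
  have h2 : (((a : ℝ) + 1) / S.m) / (1 + B) ^ 2 ≤ (B - A) / ((1 + A) * (1 + B)) := by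
    have hc0 : 0 ≤ ((a : ℝ) + 1) / S.m := by positivity
    apply div_le_div₀ (by linarith) hd (by positivity)
    nlinarith
  rw [h1]
  calc 1 / 64 * (((a : ℝ) + 1) / S.m) / (1 + B) ^ 2
      = 1 / 64 * ((((a : ℝ) + 1) / S.m) / (1 + B) ^ 2) := by ring
    _ ≤ _ := by
      apply mul_le_mul_of_nonneg_left h2 (by norm_num)

theorem Sys.y_sum (S : Sys α) (hm : 1 ≤ S.m) (a : ℕ) :
    ∑ j ∈ range a, S.y (j + 1) ≤ 1 / 64 * (1 - 1 / (1 + (a : ℝ) ^ 2 / S.m)) := by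
  induction a with
  | zero => simp
  | succ a ih =>
    rw [Finset.sum_range_succ]
    have := S.y_step hm a
    push_cast
    linarith

theorem Sys.y_sum_le (S : Sys α) (hm : 1 ≤ S.m) {p : ℕ} (hp : p < S.m) :
    ∑ q ∈ Ico p S.m, S.y (S.m - q) ≤ 1 / 16 * (1 - wt S.m p) := by
  have hm0 : (0 : ℝ) < S.m := by exact_mod_cast hm
  have h1 : ∑ q ∈ Ico p S.m, S.y (S.m - q) = ∑ j ∈ range (S.m - p), S.y (j + 1) := by
    rw [Finset.sum_Ico_eq_sum_range, ← Finset.sum_range_reflect]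
    apply Finset.sum_congr rfl
    intro j hj
    rw [Finset.mem_range] at hj
    congr 1
    omega
  rw [h1]
  refine (S.y_sum hm _).trans ?_
  have hw := one_sub_wt_ge hm p
  have hcast : ((S.m - p : ℕ) : ℝ) = (S.m : ℝ) - p := by
    rw [Nat.cast_sub hp.le]
  rw [hcast]
  have hsq : ((S.m : ℝ) - p) ^ 2 = ((p : ℝ) - S.m) ^ 2 := by ring
  rw [hsq]
  set x : ℝ := ((p : ℝ) - S.m) ^ 2 / S.m with hx
  have hx0 : 0 ≤ x := by positivity
  have h2 : 1 - 1 / (1 + x) ≤ min 1 x := by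
    apply le_min
    · have : 0 ≤ 1 / (1 + x) := by positivity
      linarith
    · have h3 : 1 - x ≤ 1 / (1 + x) := by
        rw [le_div_iff₀ (by positivity)]
        nlinarith
      linarith
  linarith

theorem Sys.Ev_H_le (S : Sys α) {q : ℕ} (hq : q ≤ 2 * S.m) :
    Ev q S.H ≤ ∑ p ∈ range (q + 1), S.ph p := by
  have h1 : Ev q S.H ≤ Ev q (Ds (fun _ => 0) S.f) :=
    Ev_mono (fun P _ => H_le_K S.f_nonneg S.f_le_one P)
  refine h1.trans (le_of_eq ?_)
  rw [Ev_K S.f (by rw [S.hcard]; exact hq)]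
  rfl

theorem Sys.charge_bound (S : Sys α) (hm : 1 ≤ S.m) :
    ∑ q ∈ range S.m, S.y (S.m - q) * Ev q S.H ≤ 1 / 16 * S.cost := by
  have h1 : ∑ q ∈ range S.m, S.y (S.m - q) * Ev q S.H ≤
      ∑ q ∈ range S.m, ∑ p ∈ range (q + 1), S.y (S.m - q) * S.ph p := by
    apply Finset.sum_le_sum
    intro q hq
    rw [Finset.mem_range] at hq
    rw [← Finset.mul_sum]
    exact mul_le_mul_of_nonneg_left (S.Ev_H_le (by omega)) (S.y_nonneg _)
  have h2 : ∑ q ∈ range S.m, ∑ p ∈ range (q + 1), S.y (S.m - q) * S.ph p =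
      ∑ p ∈ range S.m, ∑ q ∈ Ico p S.m, S.y (S.m - q) * S.ph p := by
    apply Finset.sum_comm'
    intro q p
    simp only [Finset.mem_range, Finset.mem_Ico]
    omega
  have h3 : ∑ p ∈ range S.m, ∑ q ∈ Ico p S.m, S.y (S.m - q) * S.ph p ≤
      ∑ p ∈ range S.m, 1 / 16 * ((1 - wt S.m p) * S.ph p) := by
    apply Finset.sum_le_sum
    intro p hp
    rw [Finset.mem_range] at hp
    rw [← Finset.sum_mul, ← mul_assoc]
    exact mul_le_mul_of_nonneg_right (S.y_sum_le hm hp) (S.ph_nonneg p)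
  have h4 : ∑ p ∈ range S.m, 1 / 16 * ((1 - wt S.m p) * S.ph p) ≤
      ∑ p ∈ range (2 * S.m + 1), 1 / 16 * ((1 - wt S.m p) * S.ph p) := by
    apply Finset.sum_le_sum_of_subset_of_nonneg
    · intro p hp
      rw [Finset.mem_range] at hp ⊢
      omega
    · intro p _ _
      have := wt_le_one S.m p
      have h0 := S.ph_nonneg p
      have : 0 ≤ 1 - wt S.m p := by linarith
      positivity
  have h5 : ∑ p ∈ range (2 * S.m + 1), 1 / 16 * ((1 - wt S.m p) * S.ph p) = 1 / 16 * S.cost := by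
    unfold Sys.cost
    rw [Finset.mul_sum]
  linarith

/-! ## part s11 -/

theorem Sys.Ev_Rh_bound (S : Sys α) (hR : S.Reg) {χ : ℕ → ℝ} (hχ0 : ∀ s, 0 ≤ χ s)
    {t : ℕ} (ht : t < 2 * S.m) :
    Ev t (Rh S.f S.z χ) ≤ 2 / S.m * ∑ s ∈ range (2 * S.m + 1), χ s * S.ph s := by
  have hm : 0 < S.m := by have := hR.1; omega
  have hm' : (0:ℝ) < S.m := by exact_mod_cast hm
  have h1 := Ev_Rh_le S.f_nonneg S.f_le_one S.z (fun C hC => S.z_mem hC) hχ0 (q := t)
    (by rw [S.hcard]; exact ht)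
  refine h1.trans ?_
  rw [S.hcard, Finset.mul_sum]
  calc ∑ s ∈ Icc (t + 1) (2 * S.m), 1 / (s : ℝ) * χ s * Ev s S.f
      ≤ ∑ s ∈ Icc (t + 1) (2 * S.m), 2 / S.m * (χ s * S.ph s) := by
        refine Finset.sum_le_sum fun s hs => ?_
        have hp0 := S.ph_nonneg s
        have hs1 : 1 ≤ s := by
          have := (Finset.mem_Icc.1 hs).1
          omega
        have hs' : (0:ℝ) < s := by exact_mod_cast hs1
        by_cases h : s + S.h < S.m
        · have h5 := S.ph_eq_zero (Or.inl h)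
          have h6 : Ev s S.f = 0 := h5
          rw [h5, h6]; simp
        · have h2 : 5000 * S.h ≤ S.m := hR.2
          have h3 : S.m ≤ 2 * s := by omega
          have h3' : (S.m : ℝ) ≤ 2 * s := by exact_mod_cast h3
          have h4 : 1 / (s:ℝ) ≤ 2 / S.m := by
            rw [div_le_div_iff₀ hs' hm']
            linarith
          have h7 : 0 ≤ χ s * S.ph s := mul_nonneg (hχ0 s) hp0
          have h8 := mul_le_mul_of_nonneg_right h4 h7
          have h9 : 1 / (s : ℝ) * χ s * Ev s S.f = 1 / (s : ℝ) * (χ s * S.ph s) := by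
            unfold Sys.ph
            ring
          rw [h9]
          exact h8
    _ ≤ ∑ s ∈ range (2 * S.m + 1), 2 / S.m * (χ s * S.ph s) := by
        refine Finset.sum_le_sum_of_subset_of_nonneg ?_ ?_
        · intro s hs
          rw [Finset.mem_Icc] at hs
          rw [Finset.mem_range]
          omega
        · intro s _ _
          exact mul_nonneg (by positivity) (mul_nonneg (hχ0 s) (S.ph_nonneg s))

theorem Sys.upper_half (S : Sys α) {χ : ℕ → ℝ} (hχ0 : ∀ s, 0 ≤ χ s) :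
    ∑ q ∈ Ico S.m (2 * S.m), Ev q (fun P => S.H P * Rh S.f S.z χ P)
      ≤ ∑ s ∈ range (2 * S.m + 1), max ((s : ℝ) - S.m) 0 / S.m * (χ s * S.ph s) := by
  have h1 : ∀ q ∈ Ico S.m (2 * S.m), Ev q (fun P => S.H P * Rh S.f S.z χ P) ≤
      ∑ s ∈ range (2 * S.m + 1), if q < s then 1 / (s : ℝ) * (χ s * S.ph s) else 0 := by
    intro q hq
    have hq' := Finset.mem_Ico.1 hq
    have h2 : Ev q (fun P => S.H P * Rh S.f S.z χ P) ≤ Ev q (Rh S.f S.z χ) := by
      refine Ev_mono fun P _ => ?_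
      have h3 := Rh_nonneg S.f_nonneg S.f_le_one S.z hχ0 P
      exact mul_le_of_le_one_left h3 (S.H_le_one P)
    have h4 := Ev_Rh_le S.f_nonneg S.f_le_one S.z (fun C hC => S.z_mem hC) hχ0 (q := q)
      (by rw [S.hcard]; exact hq'.2)
    refine (h2.trans h4).trans (le_of_eq ?_)
    rw [S.hcard, ← Finset.sum_filter]
    have h5 : (range (2 * S.m + 1)).filter (fun s => q < s) = Icc (q + 1) (2 * S.m) := by
      ext s
      simp only [Finset.mem_filter, Finset.mem_range, Finset.mem_Icc]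
      omega
    rw [h5]
    refine Finset.sum_congr rfl fun s _ => ?_
    unfold Sys.ph
    ring
  refine (Finset.sum_le_sum h1).trans ?_
  rw [Finset.sum_comm]
  refine Finset.sum_le_sum fun s hs => ?_
  rw [← Finset.sum_filter, Finset.sum_const, nsmul_eq_mul]
  have hs' : s < 2 * S.m + 1 := Finset.mem_range.1 hs
  have h6 : (Ico S.m (2 * S.m)).filter (fun q => q < s) = Ico S.m s := by
    ext q
    simp only [Finset.mem_filter, Finset.mem_Ico]
    omega
  rw [h6, Nat.card_Ico]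
  have h7 : 0 ≤ χ s * S.ph s := mul_nonneg (hχ0 s) (S.ph_nonneg s)
  rcases Nat.lt_or_ge S.m s with h | h
  · have hm : 0 < S.m := by omega
    have hm' : (0:ℝ) < S.m := by exact_mod_cast hm
    have h8 : (S.m : ℝ) < s := by exact_mod_cast h
    have hs0 : (0:ℝ) < s := by linarith
    rw [Nat.cast_sub h.le, max_eq_left (by linarith), ← mul_assoc]
    refine mul_le_mul_of_nonneg_right ?_ h7
    rw [mul_one_div, div_le_div_iff₀ hs0 hm']
    nlinarith
  · have h9 : s - S.m = 0 := by omega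
    rw [h9]
    simp only [Nat.cast_zero, zero_mul]
    exact mul_nonneg (div_nonneg (le_max_right _ _) (Nat.cast_nonneg _)) h7

end UF
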