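import Pool.Agent.UFree.Base
import Pool.Agent.UFree.Member
import Pool.Agent.UFree.Ops
import Pool.Agent.UFree.SysA

set_option autoImplicit false
set_option linter.unusedSectionVars false
set_option linter.unusedVariables false
set_option linter.unusedSimpArgs false
open Finset

namespace UF
variable {α : Type*} [Fintype α] [DecidableEq α]

/-! ## part s12 -/

theorem Sys.dl_nonneg' (S : Sys α) (k : ℕ) : 0 ≤ S.dl k := by
  unfold Sys.dl
  positivity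

theorem Sys.Rg_le_Rh' (S : Sys α) {χ : ℕ → ℝ} (hχ0 : ∀ s, 0 ≤ χ s) (P : Finset α) :
    S.Rg χ P ≤ Rh S.f S.z χ P := by
  unfold Sys.Rg Rh
  apply div_le_div_of_nonneg_right _ (by positivity)
  exact Finset.sum_le_sum fun x _ => S.a_le_rho hχ0 x _

theorem sq_sum_erase' (A : Finset α) (a : α → ℝ) :
    (∑ x ∈ A, a x) ^ 2 = ∑ x ∈ A, a x ^ 2 + ∑ x ∈ A, ∑ y ∈ A.erase x, a x * a y := by
  rw [sq, Finset.sum_mul_sum, ← Finset.sum_add_distrib]
  refine Finset.sum_congr rfl fun x hx => ?_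
  rw [← Finset.add_sum_erase A (fun y => a x * a y) hx]
  ring

theorem Sys.second_pairs (S : Sys α) {χ : ℕ → ℝ} (hχ0 : ∀ s, 0 ≤ χ s) (hχ1 : ∀ s, χ s ≤ 1)
    (k : ℕ) {t : ℕ} (ht : t + 2 ≤ 2 * S.m) :
    Ev t (fun P => max (Hb S.F (S.bk k) P - S.dl k) 0 * S.Rg χ P ^ 2)
      ≤ 1 / (2 * (S.m : ℝ) - t) * Ev t (Rh S.f S.z χ)
        + 1 / (((t : ℝ) + 1) * ((t : ℝ) + 2)) * Ev (t + 2) (S.Om χ k) := by
  have hcard := S.hcard
  have hN2 : (2:ℝ) ≤ 2 * (S.m : ℝ) - t := by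
    have : ((t + 2 : ℕ) : ℝ) ≤ ((2 * S.m : ℕ) : ℝ) := by exact_mod_cast ht
    push_cast at this
    linarith
  set N : ℝ := 2 * (S.m : ℝ) - t with hN
  set W : Finset α → ℝ := fun P => max (Hb S.F (S.bk k) P - S.dl k) 0 with hW
  have hW0 : ∀ P, 0 ≤ W P := fun P => le_max_right _ _
  have hW1 : ∀ P, W P ≤ 1 := by
    intro P
    apply max_le
    · linarith [Hb_le_one S.F (S.bk k) P, S.dl_nonneg' k]
    · norm_num
  set Φ : Finset α → α → α → ℝ := fun P x y =>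
    S.a χ x (insert x P) * S.a χ y (insert y P) * W P with hΦ
  have hpt : ∀ P : Finset α, P.card = t → W P * S.Rg χ P ^ 2 ≤
      1 / N * Rh S.f S.z χ P + 1 / (N * (N - 1)) * (∑ x ∈ Pᶜ, ∑ y ∈ Pᶜ.erase x, Φ P x y) := by
    intro P hP
    have hPc : (Pᶜ.card : ℝ) = N := by
      rw [Finset.card_compl, hcard, hP, Nat.cast_sub (by omega)]
      push_cast
      rfl
    set A : ℝ := ∑ x ∈ Pᶜ, S.a χ x (insert x P) with hA
    have hRg : S.Rg χ P = A / N := by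
      unfold Sys.Rg
      rw [hPc]
    have hN0 : 0 < N := by linarith
    have h1 : A ^ 2 = ∑ x ∈ Pᶜ, S.a χ x (insert x P) ^ 2 +
        ∑ x ∈ Pᶜ, ∑ y ∈ Pᶜ.erase x, S.a χ x (insert x P) * S.a χ y (insert y P) :=
      sq_sum_erase' _ _
    have h2 : ∑ x ∈ Pᶜ, S.a χ x (insert x P) ^ 2 ≤ A := by
      rw [hA]
      refine Finset.sum_le_sum fun x _ => ?_
      have e1 := S.a_nonneg hχ0 x (insert x P)
      have e2 : S.a χ x (insert x P) ≤ 1 :=
        (S.a_le_rho hχ0 x _).trans (S.rho_le_one hχ0 hχ1 x _)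
      nlinarith
    set Z : ℝ := ∑ x ∈ Pᶜ, ∑ y ∈ Pᶜ.erase x, S.a χ x (insert x P) * S.a χ y (insert y P) with hZ
    have hZ0 : 0 ≤ Z := Finset.sum_nonneg fun x _ => Finset.sum_nonneg fun y _ =>
      mul_nonneg (S.a_nonneg hχ0 x _) (S.a_nonneg hχ0 y _)
    have hZΦ : ∑ x ∈ Pᶜ, ∑ y ∈ Pᶜ.erase x, Φ P x y = Z * W P := by
      rw [hZ, Finset.sum_mul]
      refine Finset.sum_congr rfl fun x _ => ?_
      rw [Finset.sum_mul]
    have hA0 : 0 ≤ A := Finset.sum_nonneg fun x _ => S.a_nonneg hχ0 x _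
    have hRR : A / N ≤ Rh S.f S.z χ P := by
      rw [← hRg]
      exact S.Rg_le_Rh' hχ0 P
    rw [hRg, hZΦ]
    have h3 : W P * (A / N) ^ 2 ≤ 1 / N * (A / N) + 1 / N ^ 2 * (Z * W P) := by
      have e1 : (A / N) ^ 2 = A ^ 2 / N ^ 2 := div_pow _ _ _
      rw [e1, h1]
      have e2 : W P * ((∑ x ∈ Pᶜ, S.a χ x (insert x P) ^ 2 + Z) / N ^ 2) =
          (W P * ∑ x ∈ Pᶜ, S.a χ x (insert x P) ^ 2) / N ^ 2 + 1 / N ^ 2 * (Z * W P) := by ring
      rw [e2]
      have e3 : 1 / N * (A / N) = A / N ^ 2 := by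
        field_simp
      rw [e3]
      have e4 : W P * ∑ x ∈ Pᶜ, S.a χ x (insert x P) ^ 2 ≤ A := by
        have e5 : 0 ≤ ∑ x ∈ Pᶜ, S.a χ x (insert x P) ^ 2 := Finset.sum_nonneg fun x _ => sq_nonneg _
        calc W P * ∑ x ∈ Pᶜ, S.a χ x (insert x P) ^ 2 ≤ 1 * ∑ x ∈ Pᶜ, S.a χ x (insert x P) ^ 2 :=
              mul_le_mul_of_nonneg_right (hW1 P) e5
          _ ≤ A := by rw [one_mul]; exact h2
      have e6 := div_le_div_of_nonneg_right e4 (show (0:ℝ) ≤ N ^ 2 by positivity)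
      linarith
    have h4 : 1 / N ^ 2 * (Z * W P) ≤ 1 / (N * (N - 1)) * (Z * W P) := by
      apply mul_le_mul_of_nonneg_right _ (mul_nonneg hZ0 (hW0 P))
      apply one_div_le_one_div_of_le
      · nlinarith
      · nlinarith
    have h5 : 1 / N * (A / N) ≤ 1 / N * Rh S.f S.z χ P :=
      mul_le_mul_of_nonneg_left hRR (by positivity)
    linarith
  have hp2 : t + 2 ≤ Fintype.card α := by rw [hcard]; exact ht
  have hD := Ev_double2 hp2 Φ
  have hcR : (Fintype.card α : ℝ) = 2 * (S.m : ℝ) := by rw [hcard]; push_cast; ring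
  rw [hcR] at hD
  have hOm : Ev (t + 2) (fun T => ∑ x ∈ T, ∑ y ∈ T.erase x, Φ ((T.erase x).erase y) x y) =
      Ev (t + 2) (S.Om χ k) := by
    refine Ev_congr fun T _ => ?_
    unfold Sys.Om
    refine Finset.sum_congr rfl fun x hx => Finset.sum_congr rfl fun y hy => ?_
    rw [Finset.mem_erase] at hy
    have e1 : insert x ((T.erase x).erase y) = T.erase y := by
      rw [Finset.erase_right_comm, Finset.insert_erase]
      exact Finset.mem_erase.2 ⟨fun h => hy.1 h.symm, hx⟩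
    have e2 : insert y ((T.erase x).erase y) = T.erase x := by
      rw [Finset.insert_erase]
      exact Finset.mem_erase.2 hy
    simp only [hΦ]
    rw [e1, e2]
    rfl
  rw [hOm] at hD
  calc Ev t (fun P => W P * S.Rg χ P ^ 2) ≤ Ev t (fun P => 1 / N * Rh S.f S.z χ P +
        1 / (N * (N - 1)) * (∑ x ∈ Pᶜ, ∑ y ∈ Pᶜ.erase x, Φ P x y)) := Ev_mono hpt
    _ = 1 / N * Ev t (Rh S.f S.z χ) + 1 / (N * (N - 1)) * Ev t (fun P => ∑ x ∈ Pᶜ, ∑ y ∈ Pᶜ.erase x, Φ P x y) := by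
        rw [Ev_add, Ev_const_mul, Ev_const_mul]
    _ = 1 / N * Ev t (Rh S.f S.z χ) + 1 / (((t : ℝ) + 1) * ((t : ℝ) + 2)) * Ev (t + 2) (S.Om χ k) := by
        rw [one_div_mul_eq_div (N * (N - 1)), hD, mul_comm ((t : ℝ) + 1), one_div_mul_eq_div (((t : ℝ) + 2) * _)]

/-! ## part s13 -/

theorem Sys.far_k_pt (S : Sys α) {χ : ℕ → ℝ} (hχ0 : ∀ s, 0 ≤ χ s)
    (k J : ℕ) {a : ℝ} (ha : 0 < a) (hdl : 0 ≤ S.dl k) (P : Finset α) :
    Hb S.F (S.bk k) P * ∑ j ∈ Icc 1 J, max (Rh S.f S.z χ P - a * j) 0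
      ≤ (J : ℝ) * (S.dl k * Rh S.f S.z χ P + S.eh χ P)
        + 1 / (2 * a) * (max (Hb S.F (S.bk k) P - S.dl k) 0 * S.Rg χ P ^ 2) := by
  have hR0 : 0 ≤ Rh S.f S.z χ P := Rh_nonneg S.f_nonneg S.f_le_one S.z hχ0 P
  have hg0 := S.Rg_nonneg hχ0 P
  have he0 := S.eh_nonneg hχ0 P
  have hb0 := Hb_nonneg S.F (S.bk k) P
  have hb1 := Hb_le_one S.F (S.bk k) P
  have heq : Rh S.f S.z χ P = S.Rg χ P + S.eh χ P := by
    unfold Sys.eh; ring
  set A := ∑ j ∈ Icc 1 J, max (Rh S.f S.z χ P - a * j) 0 with hA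
  have hA0 : 0 ≤ A := Finset.sum_nonneg fun j _ => le_max_right _ _
  have hA1 : A ≤ J * Rh S.f S.z χ P := by
    calc A ≤ ∑ j ∈ Icc 1 J, Rh S.f S.z χ P := by
          refine Finset.sum_le_sum fun j _ => ?_
          apply max_le _ hR0
          have : 0 ≤ a * (j : ℝ) := by positivity
          linarith
      _ = J * Rh S.f S.z χ P := by
          rw [Finset.sum_const, Nat.card_Icc, nsmul_eq_mul]; simp
  have hA2 : A ≤ S.Rg χ P ^ 2 / (2 * a) + J * S.eh χ P := by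
    calc A ≤ ∑ j ∈ Icc 1 J, (max (S.Rg χ P - a * j) 0 + S.eh χ P) := by
          refine Finset.sum_le_sum fun j _ => ?_
          apply max_le
          · have := le_max_left (S.Rg χ P - a * (j : ℝ)) 0
            rw [heq]; linarith
          · have := le_max_right (S.Rg χ P - a * (j : ℝ)) 0
            linarith
      _ = ∑ j ∈ Icc 1 J, max (S.Rg χ P - a * j) 0 + J * S.eh χ P := by
          rw [Finset.sum_add_distrib, Finset.sum_const, Nat.card_Icc, nsmul_eq_mul]; simp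
      _ ≤ S.Rg χ P ^ 2 / (2 * a) + J * S.eh χ P := by
          have := sum_pos_part hg0 ha J
          linarith
  set M := max (Hb S.F (S.bk k) P - S.dl k) 0 with hM
  have hM0 : 0 ≤ M := le_max_right _ _
  have hM1 : M ≤ 1 := max_le (by linarith) zero_le_one
  have hHM : Hb S.F (S.bk k) P ≤ S.dl k + M := by
    have := le_max_left (Hb S.F (S.bk k) P - S.dl k) 0
    linarith
  have hJ0 : (0 : ℝ) ≤ J := Nat.cast_nonneg J
  have h1 : Hb S.F (S.bk k) P * A ≤ (S.dl k + M) * A := mul_le_mul_of_nonneg_right hHM hA0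
  have h2 : S.dl k * A ≤ S.dl k * (J * Rh S.f S.z χ P) := mul_le_mul_of_nonneg_left hA1 hdl
  have h3 : M * A ≤ M * (S.Rg χ P ^ 2 / (2 * a) + J * S.eh χ P) :=
    mul_le_mul_of_nonneg_left hA2 hM0
  have h4 : M * (J * S.eh χ P) ≤ 1 * (J * S.eh χ P) :=
    mul_le_mul_of_nonneg_right hM1 (mul_nonneg hJ0 he0)
  have h5 : M * (S.Rg χ P ^ 2 / (2 * a)) = 1 / (2 * a) * (M * S.Rg χ P ^ 2) := by ring
  rw [mul_add] at h3
  rw [add_mul] at h1
  rw [← h5]
  linarith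

theorem Sys.far_k (S : Sys α) (hR : S.Reg) {χ : ℕ → ℝ} (hχ0 : ∀ s, 0 ≤ χ s)
    (hχ1 : ∀ s, χ s ≤ 1) {c : ℝ} (hc : 0 < c) {t₁ w k : ℕ} (hk : k < S.M)
    (htw : t₁ + w ≤ S.m) (hχ : ∀ s, s ≤ t₁ + w → χ s = 0) :
    (w : ℝ) * ∑ q ∈ range t₁, Ev q (fun P =>
        Hb S.F (S.bk k) P * max (Rh S.f S.z χ P - c * S.y (S.m - q)) 0)
      ≤ ∑ t ∈ Ico t₁ (t₁ + w),
        (((k : ℝ) + 1) * S.r * (S.dl k * Ev t (Rh S.f S.z χ) + Ev t (S.eh χ))
          + 800 * ((k : ℝ) + 1) ^ 4 * S.m / c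
            * (1 / (2 * (S.m : ℝ) - t) * Ev t (Rh S.f S.z χ)
              + 1 / (((t : ℝ) + 1) * ((t : ℝ) + 2)) * Ev (t + 2) (S.Om χ k))) := by
  obtain ⟨hr1, hr2, hr3⟩ := S.r_bounds hR
  obtain ⟨hk1, hk2, hk3, hk4, hk5⟩ := S.k_bounds hR hk
  have hm0 : (100000000 : ℝ) ≤ S.m := by exact_mod_cast hR.1
  have hmpos : (0 : ℝ) < S.m := by linarith
  have hkp : (0 : ℝ) ≤ (k : ℝ) := Nat.cast_nonneg k
  set J : ℕ := (k + 1) * S.r with hJ
  have hJc : (J : ℝ) = ((k : ℝ) + 1) * S.r := by rw [hJ]; push_cast; ring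
  have hbk : S.bk k = S.m - J := rfl
  set a : ℝ := c / (1600 * ((k : ℝ) + 1) ^ 4 * S.m) with ha
  have hapos : 0 < a := by rw [ha]; positivity
  have h2a : 1 / (2 * a) = 800 * ((k : ℝ) + 1) ^ 4 * S.m / c := by
    rw [ha]; field_simp; norm_num
  have hdl : 0 ≤ S.dl k := by unfold Sys.dl; positivity
  -- comparison of charges
  have hcy : ∀ j : ℕ, j ≤ J → a * (j : ℝ) ≤ c * S.y j := by
    intro j hj
    have hj0 : (0 : ℝ) ≤ j := Nat.cast_nonneg j
    have hjJ : (j : ℝ) ≤ ((k : ℝ) + 1) * S.r := by rw [← hJc]; exact_mod_cast hj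
    have hs : Real.sqrt S.m ^ 2 = S.m := Real.sq_sqrt hmpos.le
    have hs0 := Real.sqrt_nonneg (S.m : ℝ)
    have hr0 : (0 : ℝ) ≤ S.r := Nat.cast_nonneg _
    have hr2' : (S.r : ℝ) ^ 2 ≤ 4 * S.m := by
      have : (S.r : ℝ) ^ 2 ≤ (1.001 * Real.sqrt S.m) ^ 2 := by
        apply pow_le_pow_left₀ hr0 hr2
      rw [mul_pow, hs] at this
      nlinarith
    have hj2 : (j : ℝ) ^ 2 ≤ 4 * ((k : ℝ) + 1) ^ 2 * S.m := by
      calc (j : ℝ) ^ 2 ≤ (((k : ℝ) + 1) * S.r) ^ 2 := pow_le_pow_left₀ hj0 hjJ 2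
        _ = ((k : ℝ) + 1) ^ 2 * (S.r : ℝ) ^ 2 := by ring
        _ ≤ ((k : ℝ) + 1) ^ 2 * (4 * S.m) := by gcongr
        _ = _ := by ring
    have hx : 1 + (j : ℝ) ^ 2 / S.m ≤ 5 * ((k : ℝ) + 1) ^ 2 := by
      have h1 : (j : ℝ) ^ 2 / S.m ≤ 4 * ((k : ℝ) + 1) ^ 2 := by
        rw [div_le_iff₀ hmpos]; exact hj2
      nlinarith
    have hx0 : 0 < 1 + (j : ℝ) ^ 2 / S.m := by positivity
    have hx2 : (1 + (j : ℝ) ^ 2 / S.m) ^ 2 ≤ 25 * ((k : ℝ) + 1) ^ 4 := by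
      calc (1 + (j : ℝ) ^ 2 / S.m) ^ 2 ≤ (5 * ((k : ℝ) + 1) ^ 2) ^ 2 :=
            pow_le_pow_left₀ hx0.le hx 2
        _ = _ := by ring
    unfold Sys.y
    have h25 : (0 : ℝ) < 25 * ((k : ℝ) + 1) ^ 4 := by positivity
    have e1 : a * (j : ℝ) = c * (1 / 64 * ((j : ℝ) / S.m) / (25 * ((k : ℝ) + 1) ^ 4)) := by
      rw [ha]; field_simp; ring
    rw [e1]
    gcongr
  -- each level t
  have key : ∀ t ∈ Ico t₁ (t₁ + w),
      ∑ q ∈ range t₁, Ev q (fun P =>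
        Hb S.F (S.bk k) P * max (Rh S.f S.z χ P - c * S.y (S.m - q)) 0)
      ≤ (((k : ℝ) + 1) * S.r * (S.dl k * Ev t (Rh S.f S.z χ) + Ev t (S.eh χ))
          + 800 * ((k : ℝ) + 1) ^ 4 * S.m / c
            * (1 / (2 * (S.m : ℝ) - t) * Ev t (Rh S.f S.z χ)
              + 1 / (((t : ℝ) + 1) * ((t : ℝ) + 2)) * Ev (t + 2) (S.Om χ k))) := by
    intro t ht
    rw [Finset.mem_Ico] at ht
    have hmN : 100000000 ≤ S.m := hR.1
    have htm : t < S.m := by omega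
    have hg0 : ∀ j : ℕ, 0 ≤ Ev t (fun P =>
        Hb S.F (S.bk k) P * max (Rh S.f S.z χ P - a * (j : ℝ)) 0) := by
      intro j
      refine Ev_nonneg fun P _ => mul_nonneg (Hb_nonneg _ _ _) (le_max_right _ _)
    -- step 1
    have s1 : ∑ q ∈ range t₁, Ev q (fun P =>
        Hb S.F (S.bk k) P * max (Rh S.f S.z χ P - c * S.y (S.m - q)) 0)
        ≤ ∑ q ∈ (range t₁).filter (fun q => S.bk k ≤ q), Ev t (fun P =>
          Hb S.F (S.bk k) P * max (Rh S.f S.z χ P - a * ((S.m - q : ℕ) : ℝ)) 0) := by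
      rw [Finset.sum_filter]
      refine Finset.sum_le_sum fun q hq => ?_
      rw [Finset.mem_range] at hq
      by_cases hbq : S.bk k ≤ q
      · rw [if_pos hbq]
        have hjJ : S.m - q ≤ J := by rw [hbk] at hbq; omega
        calc Ev q (fun P =>
              Hb S.F (S.bk k) P * max (Rh S.f S.z χ P - c * S.y (S.m - q)) 0)
            ≤ Ev q (fun P =>
              Hb S.F (S.bk k) P * max (Rh S.f S.z χ P - a * ((S.m - q : ℕ) : ℝ)) 0) := by
              refine Ev_mono fun P _ => ?_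
              apply mul_le_mul_of_nonneg_left _ (Hb_nonneg _ _ _)
              apply max_le_max _ le_rfl
              have := hcy (S.m - q) hjJ
              linarith
          _ ≤ _ := by
              refine domination S.f_nonneg S.f_le_one S.z hχ0 (by omega)
                (by rw [S.hcard]; omega) ?_ _ (Hb_nonneg _ _) (Dn_Hb_le _ _) _
              intro s _ hs
              exact hχ s (by omega)
      · rw [if_neg hbq]
        apply le_of_eq
        have : Ev q (fun P =>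
              Hb S.F (S.bk k) P * max (Rh S.f S.z χ P - c * S.y (S.m - q)) 0)
            = Ev (α := α) q (fun _ => (0 : ℝ)) := by
          refine Ev_congr fun P hP => ?_
          rw [Hb_of_card_lt S.F (S.bk k) P (by omega), zero_mul]
        rw [this]
        exact Ev_const (by rw [S.hcard]; omega) 0
    -- step 2
    have s2 : ∑ q ∈ (range t₁).filter (fun q => S.bk k ≤ q), Ev t (fun P =>
          Hb S.F (S.bk k) P * max (Rh S.f S.z χ P - a * ((S.m - q : ℕ) : ℝ)) 0)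
        ≤ ∑ j ∈ Icc 1 J, Ev t (fun P =>
          Hb S.F (S.bk k) P * max (Rh S.f S.z χ P - a * (j : ℝ)) 0) := by
      have himg : ∑ q ∈ (range t₁).filter (fun q => S.bk k ≤ q), Ev t (fun P =>
          Hb S.F (S.bk k) P * max (Rh S.f S.z χ P - a * ((S.m - q : ℕ) : ℝ)) 0)
          = ∑ j ∈ ((range t₁).filter (fun q => S.bk k ≤ q)).image (fun q => S.m - q),
            Ev t (fun P =>
              Hb S.F (S.bk k) P * max (Rh S.f S.z χ P - a * (j : ℝ)) 0) := by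
        rw [Finset.sum_image]
        intro x hx y hy hxy
        simp only [Finset.coe_filter, Finset.mem_range, Set.mem_setOf_eq] at hx hy
        simp only at hxy
        omega
      rw [himg]
      refine Finset.sum_le_sum_of_subset_of_nonneg ?_ fun j _ _ => hg0 j
      intro j hj
      rw [Finset.mem_image] at hj
      obtain ⟨q, hq, rfl⟩ := hj
      rw [Finset.mem_filter, Finset.mem_range] at hq
      rw [Finset.mem_Icc]
      have := hq.2
      rw [hbk] at this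
      omega
    -- step 3
    have s3 : ∑ j ∈ Icc 1 J, Ev t (fun P =>
          Hb S.F (S.bk k) P * max (Rh S.f S.z χ P - a * (j : ℝ)) 0)
        = Ev t (fun P => Hb S.F (S.bk k) P *
            ∑ j ∈ Icc 1 J, max (Rh S.f S.z χ P - a * (j : ℝ)) 0) := by
      rw [← Ev_sum]
      refine Ev_congr fun P _ => ?_
      rw [Finset.mul_sum]
    have s4 : Ev t (fun P => Hb S.F (S.bk k) P *
            ∑ j ∈ Icc 1 J, max (Rh S.f S.z χ P - a * (j : ℝ)) 0)
        ≤ (J : ℝ) * (S.dl k * Ev t (Rh S.f S.z χ) + Ev t (S.eh χ))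
          + 1 / (2 * a) * Ev t (fun P =>
            max (Hb S.F (S.bk k) P - S.dl k) 0 * S.Rg χ P ^ 2) := by
      calc _ ≤ Ev t (fun P => (J : ℝ) * (S.dl k * Rh S.f S.z χ P + S.eh χ P)
            + 1 / (2 * a) * (max (Hb S.F (S.bk k) P - S.dl k) 0 * S.Rg χ P ^ 2)) :=
            Ev_mono fun P _ => S.far_k_pt hχ0 k J hapos hdl P
        _ = _ := by
            rw [Ev_add t (fun P => (J : ℝ) * (S.dl k * Rh S.f S.z χ P + S.eh χ P))
              (fun P => 1 / (2 * a) * (max (Hb S.F (S.bk k) P - S.dl k) 0 * S.Rg χ P ^ 2)),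
              Ev_const_mul t (J : ℝ) (fun P => S.dl k * Rh S.f S.z χ P + S.eh χ P),
              Ev_const_mul t (1 / (2 * a))
                (fun P => max (Hb S.F (S.bk k) P - S.dl k) 0 * S.Rg χ P ^ 2),
              Ev_add t (fun P => S.dl k * Rh S.f S.z χ P) (fun P => S.eh χ P),
              Ev_const_mul t (S.dl k) (fun P => Rh S.f S.z χ P)]
    have s5 := S.second_pairs hχ0 hχ1 k (t := t) (by omega)
    have h2a0 : 0 ≤ 1 / (2 * a) := by positivity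
    have s6 := mul_le_mul_of_nonneg_left s5 h2a0
    rw [h2a] at s6
    rw [h2a] at s4
    rw [hJc] at s4
    rw [s3] at s2
    linarith
  have hfin := Finset.sum_le_sum key
  rw [Finset.sum_const, Nat.card_Ico, nsmul_eq_mul] at hfin
  have hw : t₁ + w - t₁ = w := by omega
  rw [hw] at hfin
  exact hfin

/-! ## part s14 -/

theorem Sys.far_bound (S : Sys α) (hR : S.Reg) {χ : ℕ → ℝ} (hχ0 : ∀ s, 0 ≤ χ s)
    (hχ1 : ∀ s, χ s ≤ 1) {c : ℝ} (hc : 0 < c) {t₁ w : ℕ}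
    (htw : t₁ + w ≤ S.m) (hχ : ∀ s, s ≤ t₁ + w → χ s = 0) :
    (w : ℝ) * S.Far χ c t₁
      ≤ 11 / 10 * ∑ k ∈ range S.M, omk k * ∑ t ∈ Ico t₁ (t₁ + w),
        (((k : ℝ) + 1) * S.r * (S.dl k * Ev t (Rh S.f S.z χ) + Ev t (S.eh χ))
          + 800 * ((k : ℝ) + 1) ^ 4 * S.m / c
            * (1 / (2 * (S.m : ℝ) - t) * Ev t (Rh S.f S.z χ)
              + 1 / (((t : ℝ) + 1) * ((t : ℝ) + 2)) * Ev (t + 2) (S.Om χ k))) := by
  have hom : ∀ k, 0 ≤ omk k := fun k => (Real.exp_pos _).le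
  have h1 : S.Far χ c t₁ ≤ 11 / 10 * ∑ k ∈ range S.M, omk k * ∑ q ∈ range t₁, Ev q (fun P =>
      Hb S.F (S.bk k) P * max (Rh S.f S.z χ P - c * S.y (S.m - q)) 0) := by
    unfold Sys.Far
    have h2 : ∀ q ∈ range t₁, Ev q (fun P => S.H P * max (Rh S.f S.z χ P - c * S.y (S.m - q)) 0) ≤
        11 / 10 * ∑ k ∈ range S.M, omk k * Ev q (fun P =>
          Hb S.F (S.bk k) P * max (Rh S.f S.z χ P - c * S.y (S.m - q)) 0) := by
      intro q _
      have h3 : Ev q (fun P => S.H P * max (Rh S.f S.z χ P - c * S.y (S.m - q)) 0) ≤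
          Ev q (fun P => 11 / 10 * ∑ k ∈ range S.M, omk k *
            (Hb S.F (S.bk k) P * max (Rh S.f S.z χ P - c * S.y (S.m - q)) 0)) := by
        apply Ev_mono
        intro P _
        have h4 : 11 / 10 * ∑ k ∈ range S.M, omk k *
            (Hb S.F (S.bk k) P * max (Rh S.f S.z χ P - c * S.y (S.m - q)) 0) =
            (11 / 10 * ∑ k ∈ range S.M, omk k * Hb S.F (S.bk k) P) *
              max (Rh S.f S.z χ P - c * S.y (S.m - q)) 0 := by
          rw [mul_assoc, Finset.sum_mul]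
          congr 1
          apply Finset.sum_congr rfl
          intro k _
          ring
        rw [h4]
        exact mul_le_mul_of_nonneg_right (S.H_le_shell hR P) (le_max_right _ _)
      refine le_trans h3 (le_of_eq ?_)
      rw [Ev_const_mul, Ev_sum]
      congr 1
      apply Finset.sum_congr rfl
      intro k _
      rw [Ev_const_mul]
    refine le_trans (Finset.sum_le_sum h2) (le_of_eq ?_)
    rw [← Finset.mul_sum, Finset.sum_comm]
    congr 1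
    apply Finset.sum_congr rfl
    intro k _
    rw [Finset.mul_sum]
  have hw : (0 : ℝ) ≤ w := Nat.cast_nonneg w
  refine le_trans (mul_le_mul_of_nonneg_left h1 hw) ?_
  have h5 : (w : ℝ) * (11 / 10 * ∑ k ∈ range S.M, omk k * ∑ q ∈ range t₁, Ev q (fun P =>
      Hb S.F (S.bk k) P * max (Rh S.f S.z χ P - c * S.y (S.m - q)) 0)) =
      11 / 10 * ∑ k ∈ range S.M, omk k * ((w : ℝ) * ∑ q ∈ range t₁, Ev q (fun P =>
      Hb S.F (S.bk k) P * max (Rh S.f S.z χ P - c * S.y (S.m - q)) 0)) := by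
    rw [mul_left_comm, Finset.mul_sum]
    congr 1
    apply Finset.sum_congr rfl
    intro k _
    ring
  rw [h5]
  refine mul_le_mul_of_nonneg_left (Finset.sum_le_sum fun k hk => ?_) (by norm_num)
  exact mul_le_mul_of_nonneg_left (S.far_k hR hχ0 hχ1 hc (Finset.mem_range.1 hk) htw hχ) (hom k)

/-! ## part s15 -/

theorem Sys.Ev_b_bound (S : Sys α) {t : ℕ} (ht : t ≤ 2 * S.m) :
    Ev t (fun Q => (1 - Dn S.H Q) * S.b Q)
      ≤ S.nu + ∑ s ∈ Icc t (2 * S.m), ((s : ℝ) - t) / s * S.ph s := by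
  have hb : ∀ Q, S.b Q = (1 - S.u Q) + Uout S.f S.z (fun _ => 1) Q := by
    intro Q
    have h1 := psi_add_Uout S.f S.z (fun _ => 1) Q
    simp only [mul_one] at h1
    have h2 : Us S.f (fun Q => S.f Q) Q = S.u Q := rfl
    rw [h2] at h1
    have h3 : S.b Q = 1 - psi S.f S.z (fun _ => 1) Q := rfl
    rw [h3]; linarith
  have hU0 : ∀ Q, 0 ≤ Uout S.f S.z (fun _ => 1) Q := fun Q =>
    Finset.sum_nonneg fun x _ => S.rho_nonneg (fun _ => zero_le_one) x Q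
  have h1 : Ev t (fun Q => (1 - Dn S.H Q) * S.b Q) ≤
      Ev t (fun Q => (1 - Dn S.H Q) * (1 - S.u Q) + Uout S.f S.z (fun _ => 1) Q) := by
    refine Ev_mono fun Q _ => ?_
    rw [hb]
    have h2 := mul_nonneg (S.Dn_H_nonneg Q) (hU0 Q)
    nlinarith
  refine h1.trans ?_
  rw [Ev_add, S.Ev_nu ht]
  have h2 := Ev_Uout_le (f := S.f) S.f_nonneg S.f_le_one S.z (fun C hC => S.z_mem hC)
    (χ := fun _ => 1) (fun _ => zero_le_one) (t := t) (by rw [S.hcard]; exact ht)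
  rw [S.hcard] at h2
  simp only [mul_one] at h2
  have h3 : Ev t (Uout S.f S.z (fun _ => 1)) = Ev t (fun Q => Uout S.f S.z (fun _ => 1) Q) := rfl
  rw [h3] at h2
  have h4 : ∀ s, S.ph s = Ev s S.f := fun _ => rfl
  simp only [h4]
  linarith

/-! ## part s16 -/

theorem UF16_Cw_nonneg : 0 ≤ Cw := by
  unfold Cw
  exact tsum_nonneg fun k => by positivity

/-- iterated averages of `Dn H` -/
theorem Sys.Dn_iter_DnH (S : Sys α) (i : ℕ) (C : Finset α) (hi : i ≤ C.card) :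
    (Dn^[i] (Dn S.H)) C ≤ Dn S.H C := by
  induction i with
  | zero => simp
  | succ i ih =>
    rw [Function.iterate_succ_apply]
    refine le_trans (Dn_iter_mono (h := Dn S.H) ?_ (by omega)) (ih (by omega))
    intro P _ _
    exact Dn_mono fun y _ => Dn_H_le_H S.f_nonneg S.f_le_one (P.erase y)

open Classical in
theorem Sys.Ev_eh_eq (S : Sys α) (χ : ℕ → ℝ) {t : ℕ} (ht : t < Fintype.card α) :
    Ev t (S.eh χ) = 1 / ((t : ℝ) + 1) *
      Ev (t + 1) (fun Q => if S.Good Q then 0 else psi S.f S.z χ Q) := by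
  have h1 := Ev_double ht (fun P w => rho S.f S.z χ w (insert w P) - S.a χ w (insert w P))
  have h2 : Ev t (S.eh χ) = Ev t (fun P => (∑ w ∈ Pᶜ, (rho S.f S.z χ w (insert w P) -
      S.a χ w (insert w P))) / (Pᶜ.card : ℝ)) := by
    refine Ev_congr fun P _ => ?_
    unfold Sys.eh Rh Sys.Rg
    rw [Finset.sum_sub_distrib, sub_div]
  rw [h2, h1, ← Ev_const_mul]
  refine Ev_congr fun Q hQ => ?_
  have h3 : ∑ y ∈ Q, (rho S.f S.z χ y (insert y (Q.erase y)) - S.a χ y (insert y (Q.erase y))) =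
      if S.Good Q then 0 else psi S.f S.z χ Q := by
    have h4 : ∑ y ∈ Q, (rho S.f S.z χ y (insert y (Q.erase y)) -
        S.a χ y (insert y (Q.erase y))) = ∑ y ∈ Q, (rho S.f S.z χ y Q - S.a χ y Q) := by
      refine Finset.sum_congr rfl fun y hy => ?_
      rw [Finset.insert_erase hy]
    rw [h4]
    split_ifs with hg
    · refine Finset.sum_eq_zero fun y _ => ?_
      unfold Sys.a
      rw [if_pos hg, sub_self]
    · unfold psi
      refine Finset.sum_congr rfl fun y _ => ?_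
      unfold Sys.a
      rw [if_neg hg, sub_zero]
  show (∑ y ∈ Q, (rho S.f S.z χ y (insert y (Q.erase y)) - S.a χ y (insert y (Q.erase y)))) /
    (Q.card : ℝ) = _
  rw [h3, hQ]
  push_cast
  ring

theorem Sys.psi_le_one (S : Sys α) {χ : ℕ → ℝ} (hχ0 : ∀ s, 0 ≤ χ s)
    (hχ1 : ∀ s, χ s ≤ 1) (Q : Finset α) : psi S.f S.z χ Q ≤ 1 :=
  sum_rho_le_one S.f_nonneg S.f_le_one S.z hχ0 hχ1 Q Q

open Classical in
theorem Sys.bad_ptwise (S : Sys α) {χ : ℕ → ℝ} (hχ0 : ∀ s, 0 ≤ χ s)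
    (hχ1 : ∀ s, χ s ≤ 1) (Q : Finset α) :
    (if S.Good Q then 0 else psi S.f S.z χ Q) ≤
      (∑ x ∈ Q, (if Q ∈ S.F then (1 : ℝ) else 0) * rho S.f S.z χ x Q) +
      10 * (∑ x ∈ Q, Dn S.H Q * rho S.f S.z χ x Q) + 28 * ((1 - Dn S.H Q) * S.b Q) := by
  have hp0 := psi_nonneg S.f_nonneg S.f_le_one S.z hχ0 Q
  have hp1 := S.psi_le_one hχ0 hχ1 Q
  have hd0 := S.Dn_H_nonneg Q
  have hd1 := S.Dn_H_le_one Q
  have hb0 := S.b_nonneg Q
  rw [← Finset.mul_sum, ← Finset.mul_sum]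
  have hpsi : ∑ x ∈ Q, rho S.f S.z χ x Q = psi S.f S.z χ Q := rfl
  rw [hpsi]
  have hA : 0 ≤ (if Q ∈ S.F then (1 : ℝ) else 0) * psi S.f S.z χ Q := by
    split_ifs <;> simp [hp0]
  have hB : 0 ≤ 10 * (Dn S.H Q * psi S.f S.z χ Q) := by positivity
  have hC : 0 ≤ 28 * ((1 - Dn S.H Q) * S.b Q) := by
    have : 0 ≤ 1 - Dn S.H Q := by linarith
    positivity
  split_ifs with hg hF hF
  · rw [if_pos hF] at hA; linarith
  · rw [if_neg hF] at hA; linarith
  · linarith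
  · unfold Sys.Good at hg
    by_cases hd : Dn S.H Q ≤ 1 / 10
    · have hb : 1 / 25 < S.b Q := by
        by_contra hc
        exact hg ⟨hF, hd, not_lt.1 hc⟩
      nlinarith
    · have hd' : 1 / 10 < Dn S.H Q := not_le.1 hd
      nlinarith

theorem Sys.dual_aux (S : Sys α) {χ : ℕ → ℝ} (hχ0 : ∀ s, 0 ≤ χ s)
    (g : α → Finset α → ℝ) (hg : ∀ x Q, 0 ≤ g x Q) {t : ℕ} (ht : t ≤ 2 * S.m)
    (B : ℕ → ℝ) (hB : ∀ s, 0 ≤ B s)
    (H : ∀ C, C ∈ S.F → t ≤ C.card → χ C.card ≠ 0 →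
      (Dn^[C.card - t] (fun T => if S.z C ∈ T then g (S.z C) T else 0)) C ≤ B C.card) :
    Ev t (fun T => ∑ x ∈ T, g x T * rho S.f S.z χ x T) ≤
      ∑ s ∈ range (2 * S.m + 1), χ s * S.ph s * B s := by
  have h1 := rho_dual_mem S.f_nonneg S.f_le_one S.z hχ0 g hg (t := t) (by rw [S.hcard]; exact ht)
  refine h1.trans ?_
  have h2 : ∀ s ∈ Icc t (Fintype.card α), Ev s (fun C => S.f C * χ C.card *
            (Dn^[s - t] (fun T => if S.z C ∈ T then g (S.z C) T else 0)) C) ≤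
            χ s * S.ph s * B s := by
    intro s hs
    rw [Finset.mem_Icc] at hs
    have h3 : χ s * S.ph s * B s = Ev s (fun C => (χ s * B s) * S.f C) := by
      rw [Ev_const_mul]
      unfold Sys.ph
      ring
    rw [h3]
    refine Ev_mono fun C hC => ?_
    by_cases hf : S.f C = 0
    · rw [hf]; simp
    · by_cases hχ : χ s = 0
      · rw [hC, hχ]; simp
      · have h4 := H C (S.mem_of_f hf) (by omega) (by rw [hC]; exact hχ)
        rw [hC] at h4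
        rw [hC]
        have h5 := S.f_nonneg C
        have h6 := hχ0 s
        have h7 : 0 ≤ S.f C * χ s := mul_nonneg h5 h6
        calc S.f C * χ s * (Dn^[s - t] (fun T => if S.z C ∈ T then g (S.z C) T else 0)) C
            ≤ S.f C * χ s * B s := mul_le_mul_of_nonneg_left h4 h7
          _ = χ s * B s * S.f C := by ring
  refine (Finset.sum_le_sum h2).trans ?_
  refine Finset.sum_le_sum_of_subset_of_nonneg ?_ ?_
  · intro s hs
    rw [Finset.mem_Icc, S.hcard] at hs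
    rw [Finset.mem_range]
    omega
  · intro s _ _
    exact mul_nonneg (mul_nonneg (hχ0 s) (S.ph_nonneg s)) (hB s)

open Classical in
theorem Sys.bad_F (S : Sys α) (hR : S.Reg) {χ : ℕ → ℝ} (hχ0 : ∀ s, 0 ≤ χ s)
    {t : ℕ} (ht9 : 9 * S.m ≤ 10 * t) (htm : t + 1 ≤ S.m)
    (hχ : ∀ s, s ≤ t + 1 → χ s = 0) :
    Ev (t + 1) (fun Q => ∑ x ∈ Q, (if Q ∈ S.F then (1 : ℝ) else 0) * rho S.f S.z χ x Q) ≤
      ∑ s ∈ range (2 * S.m + 1), χ s * S.ph s *
          (10000 * ((s : ℝ) - t) ^ 2 / (S.m : ℝ) ^ 2) := by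
  refine S.dual_aux hχ0 (fun _ Q => if Q ∈ S.F then (1 : ℝ) else 0)
    (fun _ Q => by split_ifs <;> norm_num) (t := t + 1) (by omega)
    (fun s => 10000 * ((s : ℝ) - t) ^ 2 / (S.m : ℝ) ^ 2) (fun s => by positivity) ?_
  intro C hC hCt hχC
  have hs : t + 2 ≤ C.card := by
    by_contra hc
    exact hχC (hχ _ (by omega))
  obtain ⟨hb1, hb2⟩ := S.card_bounds hR hC
  have hm1 : (100000000 : ℝ) ≤ S.m := by exact_mod_cast hR.1
  have ht9' : 9 * (S.m : ℝ) ≤ 10 * t := by exact_mod_cast ht9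
  set s := C.card with hsdef
  have hs' : (t : ℝ) + 2 ≤ s := by exact_mod_cast hs
  have hcast : ((s - (t + 1) : ℕ) : ℝ) = (s : ℝ) - t - 1 := by
    rw [Nat.cast_sub (by omega)]
    push_cast
    ring
  have hs1 : 0 < (s : ℝ) - 1 := by linarith
  set q : ℝ := 4 * ((s : ℝ) - t - 1) / ((s : ℝ) - 1) with hq
  have hq0 : 0 ≤ q := by
    rw [hq]
    apply div_nonneg _ hs1.le
    linarith
  have hq1 : q ≤ 1 := by
    rw [hq, div_le_one hs1]
    nlinarith
  have h1 := Dn_iter_member_le S.F C (S.hz C hC) (i := s - (t + 1)) (by omega) (by omega) hq0 hq1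
    (by
      rw [hcast, hq, ← hsdef]
      rw [div_mul_cancel₀ _ hs1.ne'])
  refine h1.trans ?_
  have h2 : q ≤ 4 * 1.001 * ((s : ℝ) - t) / S.m := by
    rw [hq, div_le_div_iff₀ hs1 (by linarith)]
    have h3 : (S.m : ℝ) ≤ 1.001 * ((s : ℝ) - 1) := by nlinarith
    have h4 : 0 ≤ (s : ℝ) - t - 1 := by linarith
    nlinarith
  have h5 : q ^ 2 ≤ (4 * 1.001 * ((s : ℝ) - t) / S.m) ^ 2 := by gcongr
  calc 9 / 5 * (256 * q ^ 2) ≤ 9 / 5 * (256 * (4 * 1.001 * ((s : ℝ) - t) / S.m) ^ 2) := by gcongr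
    _ = (9 / 5 * 256 * 16 * 1.001 ^ 2) * (((s : ℝ) - t) ^ 2 / (S.m : ℝ) ^ 2) := by ring
    _ ≤ 10000 * (((s : ℝ) - t) ^ 2 / (S.m : ℝ) ^ 2) := by
        have : 0 ≤ ((s : ℝ) - t) ^ 2 / (S.m : ℝ) ^ 2 := by positivity
        nlinarith
    _ = 10000 * ((s : ℝ) - t) ^ 2 / (S.m : ℝ) ^ 2 := by ring

theorem Sys.bad_H (S : Sys α) (hR : S.Reg) {χ : ℕ → ℝ} (hχ0 : ∀ s, 0 ≤ χ s)
    {t : ℕ} (htm : t + 1 ≤ S.m) :
    Ev (t + 1) (fun Q => ∑ x ∈ Q, Dn S.H Q * rho S.f S.z χ x Q) ≤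
      ∑ s ∈ range (2 * S.m + 1), χ s * S.ph s *
          (7 * Cw * (1 / Real.sqrt S.m + max ((s : ℝ) - S.m) 0 / S.m)) := by
  refine S.dual_aux hχ0 (fun _ Q => Dn S.H Q)
    (fun _ Q => S.Dn_H_nonneg Q) (t := t + 1) (by omega)
    (fun s => 7 * Cw * (1 / Real.sqrt S.m + max ((s : ℝ) - S.m) 0 / S.m)) (fun s => ?_) ?_
  · have := UF16_Cw_nonneg
    positivity
  · intro C hC hCt hχC
    refine le_trans ?_ (S.DH_small hR hC)
    refine le_trans ?_ (S.Dn_iter_DnH (C.card - (t + 1)) C (by omega))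
    refine Dn_iter_mono ?_ (by omega)
    intro P _ _
    split_ifs
    · exact le_rfl
    · exact S.Dn_H_nonneg P

theorem Sys.Ev_eh_le (S : Sys α) (hR : S.Reg) {χ : ℕ → ℝ} (hχ0 : ∀ s, 0 ≤ χ s)
    (hχ1 : ∀ s, χ s ≤ 1) {t : ℕ} (ht9 : 9 * S.m ≤ 10 * t) (htm : t + 1 ≤ S.m)
    (hχ : ∀ s, s ≤ t + 1 → χ s = 0) :
    Ev t (S.eh χ) ≤ 2 / S.m *
      (∑ s ∈ range (2 * S.m + 1), χ s * S.ph s *
          (10000 * ((s : ℝ) - t) ^ 2 / (S.m : ℝ) ^ 2
            + 100 * Cw * (1 / Real.sqrt S.m + max ((s : ℝ) - S.m) 0 / S.m))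
        + 28 * Ev (t + 1) (fun Q => (1 - Dn S.H Q) * S.b Q)) := by
  classical
  have hm1 : (100000000 : ℝ) ≤ S.m := by exact_mod_cast hR.1
  have ht9' : 9 * (S.m : ℝ) ≤ 10 * t := by exact_mod_cast ht9
  rw [S.Ev_eh_eq χ (t := t) (by rw [S.hcard]; omega)]
  have h1 : Ev (t + 1) (fun Q => if S.Good Q then 0 else psi S.f S.z χ Q) ≤
      ∑ s ∈ range (2 * S.m + 1), χ s * S.ph s *
          (10000 * ((s : ℝ) - t) ^ 2 / (S.m : ℝ) ^ 2
            + 100 * Cw * (1 / Real.sqrt S.m + max ((s : ℝ) - S.m) 0 / S.m))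
        + 28 * Ev (t + 1) (fun Q => (1 - Dn S.H Q) * S.b Q) := by
    have h2 : Ev (t + 1) (fun Q => if S.Good Q then 0 else psi S.f S.z χ Q) ≤
        Ev (t + 1) (fun Q => (∑ x ∈ Q, (if Q ∈ S.F then (1 : ℝ) else 0) * rho S.f S.z χ x Q) +
      10 * (∑ x ∈ Q, Dn S.H Q * rho S.f S.z χ x Q) + 28 * ((1 - Dn S.H Q) * S.b Q)) :=
      Ev_mono fun Q _ => S.bad_ptwise hχ0 hχ1 Q
    refine h2.trans ?_
    rw [Ev_add, Ev_add, Ev_const_mul, Ev_const_mul]
    have h3 := S.bad_F hR hχ0 ht9 htm hχ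
    have h4 := S.bad_H hR hχ0 (χ := χ) htm
    have h5 : ∑ s ∈ range (2 * S.m + 1), χ s * S.ph s *
          (10000 * ((s : ℝ) - t) ^ 2 / (S.m : ℝ) ^ 2) + 10 * ∑ s ∈ range (2 * S.m + 1), χ s * S.ph s *
          (7 * Cw * (1 / Real.sqrt S.m + max ((s : ℝ) - S.m) 0 / S.m)) ≤
          ∑ s ∈ range (2 * S.m + 1), χ s * S.ph s *
          (10000 * ((s : ℝ) - t) ^ 2 / (S.m : ℝ) ^ 2
            + 100 * Cw * (1 / Real.sqrt S.m + max ((s : ℝ) - S.m) 0 / S.m)) := by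
      rw [Finset.mul_sum, ← Finset.sum_add_distrib]
      refine Finset.sum_le_sum fun s _ => ?_
      have h6 : 0 ≤ χ s * S.ph s := mul_nonneg (hχ0 s) (S.ph_nonneg s)
      have h7 : 0 ≤ Cw * (1 / Real.sqrt S.m + max ((s : ℝ) - S.m) 0 / S.m) := by
        have := UF16_Cw_nonneg
        positivity
      have h8 : 0 ≤ χ s * S.ph s * (Cw * (1 / Real.sqrt S.m + max ((s : ℝ) - S.m) 0 / S.m)) :=
        mul_nonneg h6 h7
      nlinarith
    linarith
  have h9 : 0 ≤ Ev (t + 1) (fun Q => if S.Good Q then 0 else psi S.f S.z χ Q) := by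
    refine Ev_nonneg fun Q _ => ?_
    split_ifs
    · exact le_rfl
    · exact psi_nonneg S.f_nonneg S.f_le_one S.z hχ0 Q
  have h10 : 1 / ((t : ℝ) + 1) ≤ 2 / S.m := by
    rw [div_le_div_iff₀ (by positivity) (by linarith)]
    linarith
  exact mul_le_mul h10 h1 h9 (by positivity)

/-! ## part s17 -/

/-- splitting the pair sum at `z` -/
theorem pair_split_aux {T : Finset α} {z : α} (hz : z ∈ T) (w : α → α → ℝ) (G : α → α → ℝ)
    (hw : ∀ x y, 0 ≤ w x y) (hG0 : ∀ x y, 0 ≤ G x y) (hG1 : ∀ x y, G x y ≤ 1)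
    (hrow : ∀ x ∈ T, ∑ y ∈ T, w x y ≤ 1) (hcol : ∀ y ∈ T, ∑ x ∈ T, w x y ≤ 1) :
    ∑ x ∈ T, ∑ y ∈ T.erase x, w x y * G x y ≤
      2 + ∑ x ∈ T.erase z, ∑ y ∈ (T.erase z).erase x, w x y * G x y := by
  have h1 : ∑ x ∈ T, ∑ y ∈ T.erase x, w x y * G x y =
      ∑ y ∈ T.erase z, w z y * G z y + ∑ x ∈ T.erase z, ∑ y ∈ T.erase x, w x y * G x y := by
    rw [← Finset.add_sum_erase T _ hz]
  have h2 : ∀ x ∈ T.erase z, ∑ y ∈ T.erase x, w x y * G x y =
      w x z * G x z + ∑ y ∈ (T.erase z).erase x, w x y * G x y := by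
    intro x hx
    have hzx : z ∈ T.erase x := Finset.mem_erase.2 ⟨fun h => (Finset.mem_erase.1 hx).1 h.symm, hz⟩
    rw [← Finset.add_sum_erase (T.erase x) _ hzx, Finset.erase_right_comm]
  rw [h1, Finset.sum_congr rfl h2, Finset.sum_add_distrib]
  have hle : ∀ x y, w x y * G x y ≤ w x y := fun x y =>
    mul_le_of_le_one_right (hw x y) (hG1 x y)
  have h3 : ∑ y ∈ T.erase z, w z y * G z y ≤ 1 :=
    (Finset.sum_le_sum fun y _ => hle z y).trans
      ((Finset.sum_le_sum_of_subset_of_nonneg (Finset.erase_subset z T)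
        (fun y _ _ => hw z y)).trans (hrow z hz))
  have h4 : ∑ x ∈ T.erase z, w x z * G x z ≤ 1 :=
    (Finset.sum_le_sum fun x _ => hle x z).trans
      ((Finset.sum_le_sum_of_subset_of_nonneg (Finset.erase_subset z T)
        (fun x _ _ => hw x z)).trans (hcol z hz))
  linarith

/-- the numerical part of the averaged pairs lemma -/
theorem num_aux {m X Y q : ℝ} (hm : 0 < m) (hX : 0 ≤ X) (hY : 1 ≤ Y)
    (hq : q = 4.1 * X / m) :
    6636 * (2 * m) * (q + Real.sqrt (1 / (2 * m)) + 4.5 * Y / Real.sqrt m) ^ 2 ≤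
      540000 * ((Y + 1) ^ 2 + X ^ 2 / m) := by
  have hs : 0 < Real.sqrt m := Real.sqrt_pos.2 hm
  have hss : Real.sqrt m ^ 2 = m := Real.sq_sqrt hm.le
  have h1 : Real.sqrt (1 / (2 * m)) ≤ 4.5 / Real.sqrt m := by
    rw [Real.sqrt_le_left (by positivity), div_pow, hss, div_le_div_iff₀ (by positivity) hm]
    nlinarith
  have h2 : q = 4.1 * (X / Real.sqrt m) / Real.sqrt m := by
    rw [hq, mul_div_assoc, mul_div_assoc, div_div, ← pow_two, hss]
  have h3 : q + Real.sqrt (1 / (2 * m)) + 4.5 * Y / Real.sqrt m ≤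
      (4.1 * (X / Real.sqrt m) + 4.5 * (Y + 1)) / Real.sqrt m := by
    rw [h2, add_div, mul_add, add_div (4.5 * Y), mul_one]
    linarith
  have h0 : 0 ≤ q + Real.sqrt (1 / (2 * m)) + 4.5 * Y / Real.sqrt m := by
    rw [hq]; positivity
  have h4 : (q + Real.sqrt (1 / (2 * m)) + 4.5 * Y / Real.sqrt m) ^ 2 ≤
      ((4.1 * (X / Real.sqrt m) + 4.5 * (Y + 1)) / Real.sqrt m) ^ 2 :=
    pow_le_pow_left₀ h0 h3 2
  have h5 : ((4.1 * (X / Real.sqrt m) + 4.5 * (Y + 1)) / Real.sqrt m) ^ 2 =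
      (4.1 * (X / Real.sqrt m) + 4.5 * (Y + 1)) ^ 2 / m := by
    rw [div_pow, hss]
  have h6 : (4.1 * (X / Real.sqrt m) + 4.5 * (Y + 1)) ^ 2 ≤
      37.06 * ((Y + 1) ^ 2 + (X / Real.sqrt m) ^ 2) := by
    nlinarith [sq_nonneg (4.5 * (X / Real.sqrt m) - 4.1 * (Y + 1))]
  have h7 : (X / Real.sqrt m) ^ 2 = X ^ 2 / m := by rw [div_pow, hss]
  rw [h7] at h6
  have hpos : 0 ≤ (Y + 1) ^ 2 + X ^ 2 / m := by positivity
  calc 6636 * (2 * m) * (q + Real.sqrt (1 / (2 * m)) + 4.5 * Y / Real.sqrt m) ^ 2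
      ≤ 6636 * (2 * m) * ((4.1 * (X / Real.sqrt m) + 4.5 * (Y + 1)) ^ 2 / m) := by
        rw [← h5]
        exact mul_le_mul_of_nonneg_left h4 (by positivity)
    _ = 13272 * (4.1 * (X / Real.sqrt m) + 4.5 * (Y + 1)) ^ 2 := by
        field_simp
        ring
    _ ≤ 13272 * (37.06 * ((Y + 1) ^ 2 + X ^ 2 / m)) :=
        mul_le_mul_of_nonneg_left h6 (by norm_num)
    _ ≤ 540000 * ((Y + 1) ^ 2 + X ^ 2 / m) := by
        nlinarith

/-- averaged pairs lemma: centre inside `T`, pairs avoiding the centre -/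
theorem Sys.pairs_level (S : Sys α) (hR : S.Reg) {k : ℕ} (hk : k < S.M)
    (ω : Finset α → α → α → ℝ) (hω0 : ∀ T x y, 0 ≤ ω T x y)
    (hrow : ∀ T, ∀ x ∈ T, ∑ y ∈ T, ω T x y ≤ 1) (hcol : ∀ T, ∀ y ∈ T, ∑ x ∈ T, ω T x y ≤ 1)
    {χ : ℕ → ℝ} (hχ0 : ∀ s, 0 ≤ χ s) (hχ1 : ∀ s, χ s ≤ 1)
    {t : ℕ} (ht9 : 9 * S.m ≤ 10 * t) (htm : t ≤ S.m) :
    Ev t (fun T => psi S.f S.z χ T * ∑ x ∈ T, ∑ y ∈ T.erase x, ω T x y * S.Ga k T x y)
      ≤ 2 * Ev t (psi S.f S.z χ) + ∑ s ∈ Icc t (2 * S.m), χ s * S.ph s *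
            (540000 * (((k : ℝ) + 2) ^ 2 + ((s : ℝ) - t) ^ 2 / S.m)) := by
  have hm : (100000000 : ℝ) ≤ S.m := by exact_mod_cast hR.1
  have hm0 : (0 : ℝ) < S.m := by linarith
  obtain ⟨hr1, hr2, hr3⟩ := S.r_bounds hR
  obtain ⟨hk1, hk2, hk3, hk4, hk5⟩ := S.k_bounds hR hk
  have hsq : 0 < Real.sqrt S.m := Real.sqrt_pos.2 hm0
  have hss : Real.sqrt S.m * Real.sqrt S.m = S.m := Real.mul_self_sqrt hm0.le
  have hk0 : (0 : ℝ) ≤ k := Nat.cast_nonneg k
  have ht9' : 9 * (S.m : ℝ) ≤ 10 * t := by exact_mod_cast ht9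
  have htm' : (t : ℝ) ≤ S.m := by exact_mod_cast htm
  have hkr : ((k : ℝ) + 1) * Real.sqrt S.m ≤ S.m / 2500 :=
    (mul_le_mul_of_nonneg_left hr1 (by linarith)).trans hk5
  have hkr2 : ((k : ℝ) + 1) * S.r ≤ 1.001 * (((k : ℝ) + 1) * Real.sqrt S.m) := by
    have := mul_le_mul_of_nonneg_left hr2 (show (0 : ℝ) ≤ (k : ℝ) + 1 by linarith)
    linarith
  have hks : 2500 * ((k : ℝ) + 1) ≤ Real.sqrt S.m := by
    have h1 : 2500 * ((k : ℝ) + 1) * Real.sqrt S.m ≤ Real.sqrt S.m * Real.sqrt S.m := by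
      rw [hss]; linarith
    exact le_of_mul_le_mul_right h1 hsq
  -- first step
  have hstep : Ev t (fun T => psi S.f S.z χ T * ∑ x ∈ T, ∑ y ∈ T.erase x, ω T x y * S.Ga k T x y)
      ≤ 2 * Ev t (psi S.f S.z χ) + Ev t (fun T => ∑ x ∈ T,
        (fun (z : α) (T : Finset α) => ∑ x ∈ T.erase z, ∑ y ∈ (T.erase z).erase x,
          ω T x y * S.Ga k T x y) x T * rho S.f S.z χ x T) := by
    rw [← Ev_const_mul, ← Ev_add]
    apply Ev_mono
    intro T _
    have h1 : psi S.f S.z χ T * ∑ x ∈ T, ∑ y ∈ T.erase x, ω T x y * S.Ga k T x y =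
        ∑ z ∈ T, rho S.f S.z χ z T * ∑ x ∈ T, ∑ y ∈ T.erase x, ω T x y * S.Ga k T x y := by
      rw [psi, Finset.sum_mul]
    have h2 : 2 * psi S.f S.z χ T + ∑ z ∈ T,
        (∑ x ∈ T.erase z, ∑ y ∈ (T.erase z).erase x,
          ω T x y * S.Ga k T x y) * rho S.f S.z χ z T =
        ∑ z ∈ T, rho S.f S.z χ z T * (2 + ∑ x ∈ T.erase z, ∑ y ∈ (T.erase z).erase x,
          ω T x y * S.Ga k T x y) := by
      rw [psi, Finset.mul_sum, ← Finset.sum_add_distrib]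
      exact Finset.sum_congr rfl fun z _ => by ring
    rw [h1]
    refine le_trans ?_ (le_of_eq h2.symm)
    apply Finset.sum_le_sum
    intro z hz
    exact mul_le_mul_of_nonneg_left (pair_split_aux hz (ω T) (S.Ga k T) (hω0 T)
      (S.Ga_nonneg k T) (S.Ga_le_one k T) (hrow T) (hcol T)) (S.rho_nonneg hχ0 z T)
  refine hstep.trans (add_le_add le_rfl ?_)
  have htc : t ≤ Fintype.card α := by rw [S.hcard]; omega
  refine (rho_dual_mem S.f_nonneg S.f_le_one S.z hχ0 _ ?_ htc).trans ?_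
  · intro x Q
    exact Finset.sum_nonneg fun x _ => Finset.sum_nonneg fun y _ =>
      mul_nonneg (hω0 _ _ _) (S.Ga_nonneg _ _ _ _)
  rw [S.hcard]
  apply Finset.sum_le_sum
  intro s hs
  rw [Finset.mem_Icc] at hs
  rw [Sys.ph, mul_right_comm, ← Ev_const_mul]
  apply Ev_mono
  intro C hC
  by_cases hf : S.f C = 0
  · rw [hf]; simp
  have hCF := S.mem_of_f hf
  obtain ⟨hc1, hc2⟩ := S.card_bounds hR hCF
  have hts : (t : ℝ) ≤ C.card := by rw [hC]; exact_mod_cast hs.1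
  subst hC
  have hX : 0 ≤ (C.card : ℝ) - t := by linarith
  have hb : (t : ℝ) - 2 - S.bk k ≤ 1.001 * (((k : ℝ) + 1) * Real.sqrt S.m) := by
    rw [hk3]; linarith
  have hks0 : 0 ≤ ((k : ℝ) + 1) * Real.sqrt S.m := by positivity
  have hmain := pairs_C S.F C (S.hz C hCF) (b := S.bk k) (t := t) hk4 (by
      have : (4 : ℝ) ≤ t := by linarith
      exact_mod_cast this) hs.1 (N := 2 * S.m) (by linarith) (by linarith)
    (q₀ := 4.1 * ((C.card : ℝ) - t) / S.m) (q₂ := 4.5 * ((k : ℝ) + 1) / Real.sqrt S.m)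
    (δ := S.dl k) (by positivity) (by
      rw [div_le_one hm0]; linarith) (by positivity) (by
      rw [div_le_one hsq]; linarith) (by
      unfold Sys.dl; positivity) (by
      unfold Sys.dl
      rw [div_le_div_iff₀ (by linarith) hsq]
      have e1 : ((t : ℝ) - 2 - S.bk k) * Real.sqrt S.m ≤
          1.001 * (((k : ℝ) + 1) * Real.sqrt S.m) * Real.sqrt S.m :=
        mul_le_mul_of_nonneg_right hb hsq.le
      have e2 : 1.001 * (((k : ℝ) + 1) * Real.sqrt S.m) * Real.sqrt S.m =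
          1.001 * ((k : ℝ) + 1) * S.m := by
        rw [mul_assoc, mul_assoc, hss]; ring
      have e3 : 1.001 * ((k : ℝ) + 1) * S.m ≤ 2 * ((k : ℝ) + 1) * ((t : ℝ) - 2) := by
        have : 1.001 * (S.m : ℝ) ≤ 2 * ((t : ℝ) - 2) := by linarith
        have := mul_le_mul_of_nonneg_left this (show (0 : ℝ) ≤ (k : ℝ) + 1 by linarith)
        linarith
      linarith) (by
      have e1 : 4 ≤ 4.1 / S.m * ((C.card : ℝ) - 1) := by
        rw [div_mul_eq_mul_div, le_div_iff₀ hm0]; linarith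
      calc 4 * ((C.card : ℝ) - t) ≤ 4.1 / S.m * ((C.card : ℝ) - 1) * ((C.card : ℝ) - t) :=
            mul_le_mul_of_nonneg_right e1 hX
        _ = _ := by ring) (by
      have e1 : 4.5 * ((k : ℝ) + 1) / Real.sqrt S.m * ((t : ℝ) - 3) =
          4.5 * ((k : ℝ) + 1) * ((t : ℝ) - 3) / Real.sqrt S.m := by ring
      rw [e1, le_div_iff₀ hsq]
      have e2 : ((t : ℝ) - 2 - S.bk k) * Real.sqrt S.m ≤
          1.001 * (((k : ℝ) + 1) * Real.sqrt S.m) * Real.sqrt S.m :=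
        mul_le_mul_of_nonneg_right hb hsq.le
      have e3 : 1.001 * (((k : ℝ) + 1) * Real.sqrt S.m) * Real.sqrt S.m =
          1.001 * ((k : ℝ) + 1) * S.m := by
        rw [mul_assoc, mul_assoc, hss]; ring
      have e4 : 4 * (1.001 * (S.m : ℝ)) ≤ 4.5 * ((t : ℝ) - 3) := by linarith
      have e5 := mul_le_mul_of_nonneg_left e4 (show (0 : ℝ) ≤ (k : ℝ) + 1 by linarith)
      linarith) ω hω0 hrow hcol
  have hnum := num_aux (m := S.m) (X := (C.card : ℝ) - t) (Y := (k : ℝ) + 1)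
    (q := 4.1 * ((C.card : ℝ) - t) / S.m) hm0 hX (by linarith) rfl
  have hD := hmain.trans hnum
  have e6 : (k : ℝ) + 1 + 1 = k + 2 := by ring
  rw [e6] at hD
  have h8 : 0 ≤ χ C.card * S.f C := mul_nonneg (hχ0 _) (S.f_nonneg _)
  have h9 := mul_le_mul_of_nonneg_left hD h8
  refine (le_of_eq ?_).trans (h9.trans (le_of_eq ?_))
  · rw [mul_comm (S.f C) (χ C.card)]
    rfl
  · ring

/-! ## part s18 -/

open Classical in
/-- indicator of the good sets -/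
noncomputable def S18_h (S : Sys α) (Q : Finset α) : ℝ := if S.Good Q then 1 else 0

open Classical in
/-- indicator of `1/2 ≤ b` -/
noncomputable def S18_g (S : Sys α) (Q : Finset α) : ℝ := if 10 * (1 / 20 : ℝ) ≤ S.b Q then 1 else 0

theorem S18_h_nonneg (S : Sys α) (Q : Finset α) : 0 ≤ S18_h S Q := by
  unfold S18_h; split_ifs <;> norm_num

theorem S18_g_nonneg (S : Sys α) (Q : Finset α) : 0 ≤ S18_g S Q := by
  unfold S18_g; split_ifs <;> norm_num

/-- pointwise bound by the number of good facets -/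
theorem S18_point (S : Sys α) (k : ℕ)
    (ω : Finset α → α → α → ℝ) (hω0 : ∀ T x y, 0 ≤ ω T x y)
    (hcol : ∀ T, ∀ y ∈ T, ∑ x ∈ T, ω T x y ≤ 1)
    (hsupp : ∀ T x y, ω T x y ≠ 0 → S.Good (T.erase y)) (T : Finset α) :
    ∑ x ∈ T, ∑ y ∈ T.erase x, ω T x y * S.Ga k T x y ≤ ∑ y ∈ T, S18_h S (T.erase y) := by
  classical
  have h1 : ∀ x y, ω T x y * S.Ga k T x y ≤ ω T x y * S18_h S (T.erase y) := by
    intro x y
    by_cases h : ω T x y = 0
    · rw [h, zero_mul, zero_mul]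
    · apply mul_le_mul_of_nonneg_left _ (hω0 T x y)
      unfold S18_h
      rw [if_pos (hsupp T x y h)]
      exact S.Ga_le_one k T x y
  calc ∑ x ∈ T, ∑ y ∈ T.erase x, ω T x y * S.Ga k T x y
      ≤ ∑ x ∈ T, ∑ y ∈ T, ω T x y * S18_h S (T.erase y) := by
        refine Finset.sum_le_sum fun x _ => ?_
        calc ∑ y ∈ T.erase x, ω T x y * S.Ga k T x y
            ≤ ∑ y ∈ T.erase x, ω T x y * S18_h S (T.erase y) :=
              Finset.sum_le_sum fun y _ => h1 x y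
          _ ≤ ∑ y ∈ T, ω T x y * S18_h S (T.erase y) :=
              Finset.sum_le_sum_of_subset_of_nonneg (Finset.erase_subset _ _)
                fun y _ _ => mul_nonneg (hω0 T x y) (S18_h_nonneg S _)
    _ = ∑ y ∈ T, (∑ x ∈ T, ω T x y) * S18_h S (T.erase y) := by
        rw [Finset.sum_comm]
        exact Finset.sum_congr rfl fun y _ => by rw [Finset.sum_mul]
    _ ≤ ∑ y ∈ T, S18_h S (T.erase y) := by
        refine Finset.sum_le_sum fun y hy => ?_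
        calc (∑ x ∈ T, ω T x y) * S18_h S (T.erase y) ≤ 1 * S18_h S (T.erase y) :=
              mul_le_mul_of_nonneg_right (hcol T y hy) (S18_h_nonneg S _)
          _ = _ := one_mul _

/-- the step from good sets -/
theorem S18_step (S : Sys α) (P : Finset α) :
    S18_h S P * Up (S18_g S) P ≤ 10 / 9 * (if Up S.b P ≤ 1 / 20 then
        (1 - Ds S.f S.f P) * Up (fun R => if 10 * (1 / 20 : ℝ) ≤ S.b R then (1 : ℝ) else 0) P
        else 0) := by
  classical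
  have hUp : Up (S18_g S) P = Up (fun R => if 10 * (1 / 20 : ℝ) ≤ S.b R then (1 : ℝ) else 0) P := by
    apply Up_congr
    intro w _
    unfold S18_g
    split_ifs <;> rfl
  have hUp0 : 0 ≤ Up (fun R => if 10 * (1 / 20 : ℝ) ≤ S.b R then (1 : ℝ) else 0) P := by
    rw [← hUp]
    exact Up_nonneg fun w _ => S18_g_nonneg S _
  have hH1 : Ds S.f S.f P ≤ 1 := S.H_le_one P
  by_cases hG : S.Good P
  · obtain ⟨hPF, hD, hb⟩ := hG
    have hf : S.f P = 0 := by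
      unfold Sys.f
      rw [if_neg hPF]
    have h1 := S.b_ge P
    rw [hf, sub_zero, one_mul] at h1
    have h2 : Ds S.f S.f P ≤ 1 / 10 := by
      rw [Ds_eq, hf, zero_add, sub_zero, one_mul]
      exact hD
    rw [if_pos (by linarith : Up S.b P ≤ 1 / 20), hUp]
    unfold S18_h
    rw [if_pos ⟨hPF, hD, hb⟩, one_mul]
    nlinarith
  · unfold S18_h
    rw [if_neg hG, zero_mul]
    have : 0 ≤ (if Up S.b P ≤ 1 / 20 then
        (1 - Ds S.f S.f P) * Up (fun R => if 10 * (1 / 20 : ℝ) ≤ S.b R then (1 : ℝ) else 0) P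
        else 0) := by
      split_ifs
      · exact mul_nonneg (by linarith) hUp0
      · exact le_rfl
    linarith

/-- window bound for fractional matchings supported on good pairs -/
theorem Sys.window_bound (S : Sys α) (hR : S.Reg) {k : ℕ} (hk : k < S.M)
    (ω : Finset α → α → α → ℝ) (hω0 : ∀ T x y, 0 ≤ ω T x y)
    (hrow : ∀ T, ∀ x ∈ T, ∑ y ∈ T, ω T x y ≤ 1) (hcol : ∀ T, ∀ y ∈ T, ∑ x ∈ T, ω T x y ≤ 1)
    (hsupp : ∀ T x y, ω T x y ≠ 0 → S.Good (T.erase y))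
    {τ w : ℕ} (hτ9 : 9 * S.m ≤ 10 * τ) (hτw : τ + w ≤ S.m + 1) :
    ∑ t ∈ Ico τ (τ + w), Ev t (fun T => ∑ x ∈ T, ∑ y ∈ T.erase x, ω T x y * S.Ga k T x y)
      ≤ ∑ t ∈ Ico τ (τ + w), (4 + 2 * ∑ s ∈ Icc t (2 * S.m), S.ph s *
            (540000 * (((k : ℝ) + 2) ^ 2 + ((s : ℝ) - t) ^ 2 / S.m)))
        + 5 * S.m * Ev (τ - 1) (fun Q => (1 - Dn S.H Q) * S.b Q) := by
  classical
  have hm : 100000000 ≤ S.m := hR.1
  have hcard := S.hcard
  have hτ1 : 1 ≤ τ := by omega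
  set Q0 : Finset α → ℝ := fun P => if Up S.b P ≤ 1 / 20 then
        (1 - Ds S.f S.f P) * Up (fun R => if 10 * (1 / 20 : ℝ) ≤ S.b R then (1 : ℝ) else 0) P
        else 0 with hQ0
  have hQ0nn : ∀ P, 0 ≤ Q0 P := by
    intro P
    have hUp0 : 0 ≤ Up (fun R => if 10 * (1 / 20 : ℝ) ≤ S.b R then (1 : ℝ) else 0) P :=
      Up_nonneg fun w _ => by split_ifs <;> norm_num
    have hH1 : Ds S.f S.f P ≤ 1 := S.H_le_one P
    simp only [hQ0]
    split_ifs
    · exact mul_nonneg (by linarith) hUp0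
    · exact le_rfl
  have key : ∀ t ∈ Ico τ (τ + w),
      Ev t (fun T => ∑ x ∈ T, ∑ y ∈ T.erase x, ω T x y * S.Ga k T x y) ≤
      (4 + 2 * ∑ s ∈ Icc t (2 * S.m), S.ph s *
            (540000 * (((k : ℝ) + 2) ^ 2 + ((s : ℝ) - t) ^ 2 / S.m))) +
      10 / 9 * S.m * Ev (t - 1) Q0 := by
    intro t ht
    rw [Finset.mem_Ico] at ht
    have htm : t ≤ S.m := by omega
    have ht1 : 1 ≤ t := by omega
    have ht9 : 9 * S.m ≤ 10 * t := by omega
    have hpl := S.pairs_level hR hk ω hω0 hrow hcol (χ := fun _ => 1) (fun _ => zero_le_one)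
      (fun _ => le_rfl) ht9 htm
    have hpsi : Ev t (psi S.f S.z (fun _ => 1)) ≤ 1 := by
      calc Ev t (psi S.f S.z (fun _ => 1)) ≤ Ev (α := α) t (fun _ => (1 : ℝ)) := by
            apply Ev_mono
            intro P _
            exact sum_rho_le_one S.f_nonneg S.f_le_one S.z (fun _ => zero_le_one)
              (fun _ => le_rfl) P P
        _ = 1 := Ev_const (by omega) 1
    have hOm0 : ∀ T : Finset α, 0 ≤ ∑ x ∈ T, ∑ y ∈ T.erase x, ω T x y * S.Ga k T x y := by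
      intro T
      exact Finset.sum_nonneg fun x _ => Finset.sum_nonneg fun y _ =>
        mul_nonneg (hω0 T x y) (S.Ga_nonneg k T x y)
    have hpt : ∀ T : Finset α, T.card = t →
        ∑ x ∈ T, ∑ y ∈ T.erase x, ω T x y * S.Ga k T x y ≤
        2 * (psi S.f S.z (fun _ => 1) T * ∑ x ∈ T, ∑ y ∈ T.erase x, ω T x y * S.Ga k T x y) +
        t * (Dn (S18_h S) T * S18_g S T) := by
      intro T hT
      have hb : S.b T = 1 - psi S.f S.z (fun _ => 1) T := rfl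
      have hDn0 : 0 ≤ Dn (S18_h S) T := Dn_nonneg fun y _ => S18_h_nonneg S _
      have hg0 := S18_g_nonneg S T
      have hψ0 := psi_nonneg S.f_nonneg S.f_le_one S.z (χ := fun _ => 1)
        (fun _ => zero_le_one) T
      by_cases h : 10 * (1 / 20 : ℝ) ≤ S.b T
      · have h1 := S18_point S k ω hω0 hcol hsupp T
        have h2 : (t : ℝ) * (Dn (S18_h S) T * S18_g S T) = ∑ y ∈ T, S18_h S (T.erase y) := by
          unfold S18_g Dn
          rw [if_pos h, mul_one, hT]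
          have : (t : ℝ) ≠ 0 := by positivity
          field_simp
        rw [h2]
        have := mul_nonneg hψ0 (hOm0 T)
        linarith
      · have h1 : 1 / 2 ≤ psi S.f S.z (fun _ => 1) T := by
          rw [hb] at h
          linarith
        have h2 : 0 ≤ (t : ℝ) * (Dn (S18_h S) T * S18_g S T) := by positivity
        nlinarith [hOm0 T, mul_le_mul_of_nonneg_right h1 (hOm0 T)]
    have hev : Ev t (fun T => ∑ x ∈ T, ∑ y ∈ T.erase x, ω T x y * S.Ga k T x y) ≤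
        2 * Ev t (fun T => psi S.f S.z (fun _ => 1) T *
          ∑ x ∈ T, ∑ y ∈ T.erase x, ω T x y * S.Ga k T x y) +
        t * Ev t (fun T => Dn (S18_h S) T * S18_g S T) := by
      rw [← Ev_const_mul, ← Ev_const_mul, ← Ev_add]
      exact Ev_mono hpt
    have hB : Ev t (fun T => Dn (S18_h S) T * S18_g S T) ≤ 10 / 9 * Ev (t - 1) Q0 := by
      obtain ⟨q, rfl⟩ : ∃ q, t = q + 1 := ⟨t - 1, by omega⟩
      rw [Nat.add_sub_cancel, ← Ev_Up_mul (by omega), ← Ev_const_mul]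
      exact Ev_mono fun P _ => S18_step S P
    have hE0 : 0 ≤ Ev (t - 1) Q0 := Ev_nonneg fun P _ => hQ0nn P
    have htm' : (t : ℝ) ≤ S.m := by exact_mod_cast htm
    have hBt : (t : ℝ) * Ev t (fun T => Dn (S18_h S) T * S18_g S T) ≤
        10 / 9 * S.m * Ev (t - 1) Q0 := by
      calc (t : ℝ) * Ev t (fun T => Dn (S18_h S) T * S18_g S T)
          ≤ (t : ℝ) * (10 / 9 * Ev (t - 1) Q0) := mul_le_mul_of_nonneg_left hB (by positivity)
        _ ≤ S.m * (10 / 9 * Ev (t - 1) Q0) := mul_le_mul_of_nonneg_right htm' (by positivity)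
        _ = _ := by ring
    simp only [one_mul] at hpl
    linarith
  have hdrop := drop_lemma S.f_nonneg S.f_le_one S.b S.b_nonneg S.b_le_one S.b_ge
    (θ := 1 / 20) (by norm_num) (t₁ := τ - 1) (w := w) (by omega)
  have hre : ∑ t ∈ Ico τ (τ + w), Ev (t - 1) Q0 = ∑ t ∈ Ico (τ - 1) (τ - 1 + w), Ev t Q0 := by
    obtain ⟨q, rfl⟩ : ∃ q, τ = q + 1 := ⟨τ - 1, by omega⟩
    rw [Nat.add_sub_cancel, show q + 1 + w = (q + w) + 1 by omega]
    rw [← Finset.sum_Ico_add' (fun t => Ev (t - 1) Q0) q (q + w) 1]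
    rfl
  have hE : 0 ≤ Ev (τ - 1) (fun Q => (1 - Dn S.H Q) * S.b Q) :=
    Ev_nonneg fun P _ => mul_nonneg (by linarith [S.Dn_H_le_one P]) (S.b_nonneg P)
  have hsum : ∑ t ∈ Ico τ (τ + w), Ev (t - 1) Q0 ≤
      20 / 9 * Ev (τ - 1) (fun Q => (1 - Dn S.H Q) * S.b Q) := by
    rw [hre]
    refine hdrop.trans (le_of_eq ?_)
    norm_num
    rfl
  calc ∑ t ∈ Ico τ (τ + w), Ev t (fun T => ∑ x ∈ T, ∑ y ∈ T.erase x, ω T x y * S.Ga k T x y)
      ≤ ∑ t ∈ Ico τ (τ + w), ((4 + 2 * ∑ s ∈ Icc t (2 * S.m), S.ph s *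
            (540000 * (((k : ℝ) + 2) ^ 2 + ((s : ℝ) - t) ^ 2 / S.m))) +
          10 / 9 * S.m * Ev (t - 1) Q0) := Finset.sum_le_sum key
    _ = ∑ t ∈ Ico τ (τ + w), (4 + 2 * ∑ s ∈ Icc t (2 * S.m), S.ph s *
            (540000 * (((k : ℝ) + 2) ^ 2 + ((s : ℝ) - t) ^ 2 / S.m))) +
          10 / 9 * S.m * ∑ t ∈ Ico τ (τ + w), Ev (t - 1) Q0 := by
        rw [Finset.sum_add_distrib, Finset.mul_sum]
    _ ≤ ∑ t ∈ Ico τ (τ + w), (4 + 2 * ∑ s ∈ Icc t (2 * S.m), S.ph s *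
            (540000 * (((k : ℝ) + 2) ^ 2 + ((s : ℝ) - t) ^ 2 / S.m))) +
          5 * S.m * Ev (τ - 1) (fun Q => (1 - Dn S.H Q) * S.b Q) := by
        apply add_le_add le_rfl
        calc 10 / 9 * (S.m : ℝ) * ∑ t ∈ Ico τ (τ + w), Ev (t - 1) Q0
            ≤ 10 / 9 * (S.m : ℝ) * (20 / 9 * Ev (τ - 1) (fun Q => (1 - Dn S.H Q) * S.b Q)) :=
              mul_le_mul_of_nonneg_left hsum (by positivity)
          _ = 200 / 81 * ((S.m : ℝ) * Ev (τ - 1) (fun Q => (1 - Dn S.H Q) * S.b Q)) := by ring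
          _ ≤ 5 * ((S.m : ℝ) * Ev (τ - 1) (fun Q => (1 - Dn S.H Q) * S.b Q)) :=
              mul_le_mul_of_nonneg_right (by norm_num) (by positivity)
          _ = 5 * S.m * Ev (τ - 1) (fun Q => (1 - Dn S.H Q) * S.b Q) := by rw [mul_assoc]

end UF
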