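import Pool.Agent.UFree.Base
import Pool.Agent.UFree.Ops
import Pool.Agent.UFree.SysA
import Pool.Agent.UFree.SysB

set_option autoImplicit false
set_option linter.unusedSectionVars false
set_option linter.unusedVariables false
set_option linter.unusedSimpArgs false
open Finset

namespace UF
variable {α : Type*} [Fintype α] [DecidableEq α]

/-! ## part t1 -/

theorem Sys.a_le_one' (S : Sys α) {χ : ℕ → ℝ} (hχ0 : ∀ s, 0 ≤ χ s) (hχ1 : ∀ s, χ s ≤ 1)
    (x : α) (Q : Finset α) : S.a χ x Q ≤ 1 := by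
  have h := S.sum_a_le_one hχ0 hχ1 {x} Q
  rwa [Finset.sum_singleton] at h

theorem Sys.ka_nonneg (S : Sys α) {χ : ℕ → ℝ} (hχ0 : ∀ s, 0 ≤ χ s) (Q : Finset α) :
    0 ≤ S.ka χ Q := by
  unfold Sys.ka
  exact Finset.sum_nonneg fun y _ => S.a_nonneg hχ0 y Q

theorem Sys.ka_le_one (S : Sys α) {χ : ℕ → ℝ} (hχ0 : ∀ s, 0 ≤ χ s) (hχ1 : ∀ s, χ s ≤ 1)
    (Q : Finset α) : S.ka χ Q ≤ 1 := by
  exact S.sum_a_le_one hχ0 hχ1 Q Q

theorem Sys.ka_le_psi (S : Sys α) {χ : ℕ → ℝ} (hχ0 : ∀ s, 0 ≤ χ s) (Q : Finset α) :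
    S.ka χ Q ≤ psi S.f S.z χ Q := by
  unfold Sys.ka psi
  exact Finset.sum_le_sum fun y _ => S.a_le_rho hχ0 y Q

theorem Sys.rr_nonneg (S : Sys α) {χ : ℕ → ℝ} (hχ0 : ∀ s, 0 ≤ χ s) (y : α) (Q : Finset α) :
    0 ≤ S.rr χ y Q := by
  unfold Sys.rr
  exact div_nonneg (S.a_nonneg hχ0 y Q) (S.ka_nonneg hχ0 Q)

theorem Sys.sum_rr_le_one (S : Sys α) {χ : ℕ → ℝ} (hχ0 : ∀ s, 0 ≤ χ s) (Q : Finset α) :
    ∑ y ∈ Q, S.rr χ y Q ≤ 1 := by
  unfold Sys.rr
  rw [← Finset.sum_div]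
  exact div_self_le_one _

theorem Sys.rr_ne_zero (S : Sys α) {χ : ℕ → ℝ} {y : α} {Q : Finset α} (h : S.rr χ y Q ≠ 0) :
    S.Good Q := by
  by_contra hG
  apply h
  unfold Sys.rr Sys.a
  rw [if_neg hG, zero_div]

theorem Sys.om2_nonneg (S : Sys α) {χ : ℕ → ℝ} (hχ0 : ∀ s, 0 ≤ χ s) (T : Finset α) (x y : α) :
    0 ≤ S.om2 χ T x y := by
  unfold Sys.om2
  split_ifs
  · exact mul_nonneg (S.a_nonneg hχ0 _ _) (S.rr_nonneg hχ0 _ _)
  · exact le_rfl

theorem Sys.om2_row (S : Sys α) {χ : ℕ → ℝ} (hχ0 : ∀ s, 0 ≤ χ s) (hχ1 : ∀ s, χ s ≤ 1)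
    (T : Finset α) : ∀ x ∈ T, ∑ y ∈ T, S.om2 χ T x y ≤ 1 := by
  intro x hx
  have h0 : S.om2 χ T x x = 0 := by
    unfold Sys.om2
    rw [if_neg (fun h => h.2.2 rfl)]
  rw [← Finset.sum_erase T h0]
  refine le_trans (Finset.sum_le_sum fun y hy => ?_) (S.sum_rr_le_one hχ0 (T.erase x))
  rw [Finset.mem_erase] at hy
  unfold Sys.om2
  rw [if_pos ⟨hx, hy.2, fun h => hy.1 h.symm⟩]
  exact mul_le_of_le_one_left (S.rr_nonneg hχ0 _ _) (S.a_le_one' hχ0 hχ1 _ _)

theorem Sys.om2_col (S : Sys α) {χ : ℕ → ℝ} (hχ0 : ∀ s, 0 ≤ χ s) (hχ1 : ∀ s, χ s ≤ 1)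
    (T : Finset α) : ∀ y ∈ T, ∑ x ∈ T, S.om2 χ T x y ≤ 1 := by
  intro y hy
  have h0 : S.om2 χ T y y = 0 := by
    unfold Sys.om2
    rw [if_neg (fun h => h.2.2 rfl)]
  rw [← Finset.sum_erase T (f := fun x => S.om2 χ T x y) h0]
  refine le_trans (Finset.sum_le_sum fun x hx => ?_)
    (S.sum_a_le_one hχ0 hχ1 (T.erase y) (T.erase y))
  rw [Finset.mem_erase] at hx
  unfold Sys.om2
  rw [if_pos ⟨hx.2, hy, hx.1⟩]
  refine mul_le_of_le_one_right (S.a_nonneg hχ0 _ _) ?_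
  have hmem : y ∈ T.erase x := Finset.mem_erase.2 ⟨hx.1.symm, hy⟩
  exact (Finset.single_le_sum (f := fun y => S.rr χ y (T.erase x))
    (fun z _ => S.rr_nonneg hχ0 z _) hmem).trans (S.sum_rr_le_one hχ0 (T.erase x))

theorem Sys.om2_supp (S : Sys α) {χ : ℕ → ℝ} (T : Finset α) (x y : α)
    (h : S.om2 χ T x y ≠ 0) : S.Good (T.erase y) ∧ S.Good (T.erase x) := by
  unfold Sys.om2 at h
  by_cases hc : x ∈ T ∧ y ∈ T ∧ x ≠ y
  · rw [if_pos hc] at h
    refine ⟨?_, S.rr_ne_zero (right_ne_zero_of_mul h)⟩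
    by_contra hG
    apply left_ne_zero_of_mul h
    unfold Sys.a
    rw [if_neg hG]
  · rw [if_neg hc] at h
    exact absurd rfl h

theorem Sys.g2_nonneg (S : Sys α) {χ : ℕ → ℝ} (hχ0 : ∀ s, 0 ≤ χ s) (k : ℕ)
    (T : Finset α) (x : α) : 0 ≤ S.g2 χ k T x := by
  unfold Sys.g2
  exact Finset.sum_nonneg fun y _ => mul_nonneg (S.om2_nonneg hχ0 T x y) (S.Ga_nonneg k T x y)

theorem Sys.g2_le_one (S : Sys α) {χ : ℕ → ℝ} (hχ0 : ∀ s, 0 ≤ χ s) (hχ1 : ∀ s, χ s ≤ 1)
    (k : ℕ) (T : Finset α) (x : α) : S.g2 χ k T x ≤ 1 := by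
  unfold Sys.g2
  by_cases hx : x ∈ T
  · refine le_trans (Finset.sum_le_sum fun y _ => ?_)
      ((Finset.sum_le_sum_of_subset_of_nonneg (Finset.erase_subset x T)
        (fun y _ _ => S.om2_nonneg hχ0 T x y)).trans (S.om2_row hχ0 hχ1 T x hx))
    exact mul_le_of_le_one_right (S.om2_nonneg hχ0 T x y) (S.Ga_le_one k T x y)
  · refine le_trans (le_of_eq ?_) zero_le_one
    refine Finset.sum_eq_zero fun y _ => ?_
    unfold Sys.om2
    rw [if_neg (fun h => hx h.1), zero_mul]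

theorem Sys.g2_supp (S : Sys α) {χ : ℕ → ℝ} (k : ℕ) (T : Finset α) (x : α)
    (h : S.g2 χ k T x ≠ 0) : S.Good (T.erase x) := by
  unfold Sys.g2 at h
  obtain ⟨y, _, hy⟩ := Finset.exists_ne_zero_of_sum_ne_zero h
  exact (S.om2_supp T x y (left_ne_zero_of_mul hy)).2

theorem Sys.Om_eq (S : Sys α) {χ : ℕ → ℝ} (hχ0 : ∀ s, 0 ≤ χ s) (k : ℕ) (T : Finset α) :
    S.Om χ k T = ∑ x ∈ T, S.ka χ (T.erase x) * S.g2 χ k T x := by
  unfold Sys.Om Sys.g2
  refine Finset.sum_congr rfl fun x hx => ?_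
  rw [Finset.mul_sum]
  refine Finset.sum_congr rfl fun y hy => ?_
  have hy' := Finset.mem_erase.1 hy
  unfold Sys.om2
  rw [if_pos ⟨hx, hy'.2, fun h => hy'.1 h.symm⟩]
  have key : S.ka χ (T.erase x) * S.rr χ y (T.erase x) = S.a χ y (T.erase x) := by
    unfold Sys.rr
    by_cases hk : S.ka χ (T.erase x) = 0
    · have h1 : S.a χ y (T.erase x) = 0 := by
        have h2 := (Finset.sum_eq_zero_iff_of_nonneg (s := T.erase x)
          (f := fun y => S.a χ y (T.erase x)) (fun z _ => S.a_nonneg hχ0 z _)).1 hk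
        exact h2 y hy
      rw [hk, h1]; simp
    · rw [mul_div_cancel₀ _ hk]
  rw [← key]
  ring

theorem Sys.Om2_eq (S : Sys α) (χ : ℕ → ℝ) (k : ℕ) (T : Finset α) :
    S.Om2 χ k T = ∑ x ∈ T, S.g2 χ k T x := by
  rfl

/-! ## part t2 -/

/-- trichotomy -/
theorem Sys.Om_split (S : Sys α) {χ : ℕ → ℝ} (hχ0 : ∀ s, 0 ≤ χ s) (hχ1 : ∀ s, χ s ≤ 1)
    (k : ℕ) {θ : ℝ} (hθ : 0 < θ) (T : Finset α) (E : ℕ) (hE : T.card + E ≤ 2 * S.m) :
    S.Om χ k T ≤ θ * S.Om2 χ k T
      + 4 * (Us S.f (fun Q => S.f Q * chiLt (T.card + E) Q.card) T * S.Om2 χ k T)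
      + S.L2 χ k θ T + S.L3 χ k θ E T := by
  classical
  have hq : 0 ≤ Us S.f (fun Q => S.f Q * chiLt (T.card + E) Q.card) T := by
    refine Us_nonneg S.f_le_one (fun Q => mul_nonneg (S.f_nonneg Q) ?_) T
    unfold chiLt
    split_ifs <;> norm_num
  have hit : (Up^[E] (fun R => 1 - S.u R)) T ≤
      (1 - S.u T) + Us S.f (fun Q => S.f Q * chiLt (T.card + E) Q.card) T :=
    Up_iter_v_le S.f_nonneg S.f_le_one T E (by rw [S.hcard]; exact hE)
  obtain ⟨q, hqdef⟩ : ∃ q : ℝ, Us S.f (fun Q => S.f Q * chiLt (T.card + E) Q.card) T = q :=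
    ⟨_, rfl⟩
  rw [hqdef] at hq hit ⊢
  rw [S.Om_eq hχ0, S.Om2_eq]
  unfold Sys.L2 Sys.L3
  rw [Finset.mul_sum, Finset.mul_sum, Finset.mul_sum, ← Finset.sum_add_distrib,
    ← Finset.sum_add_distrib, ← Finset.sum_add_distrib]
  refine Finset.sum_le_sum (fun x hx => ?_)
  have hκ0 := S.ka_nonneg hχ0 (T.erase x)
  have hκ1 := S.ka_le_one hχ0 hχ1 (T.erase x)
  have hg := S.g2_nonneg hχ0 k T x
  generalize S.ka χ (T.erase x) = κ at *
  generalize S.g2 χ k T x = g at *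
  have hqg : 0 ≤ q * g := mul_nonneg hq hg
  have hκg : 0 ≤ κ * g := mul_nonneg hκ0 hg
  have hθg : 0 ≤ θ * g := mul_nonneg hθ.le hg
  have i1 : (0 : ℝ) ≤ if θ < κ ∧ κ / 4 ≤ 1 - S.u T then g else 0 := by
    split_ifs
    · exact hg
    · exact le_refl _
  have i2 : (0 : ℝ) ≤ if θ < κ ∧ (Up^[E] (fun R => 1 - S.u R)) T ≤ κ / 2 then κ * g else 0 := by
    split_ifs
    · exact hκg
    · exact le_refl _
  by_cases c1 : κ ≤ θ
  · have := mul_le_mul_of_nonneg_right c1 hg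
    linarith
  push Not at c1
  by_cases c2 : κ / 4 ≤ 1 - S.u T
  · rw [if_pos ⟨c1, c2⟩] at i1 ⊢
    have := mul_le_mul_of_nonneg_right hκ1 hg
    linarith
  push Not at c2
  by_cases c3 : κ / 4 ≤ q
  · have := mul_le_mul_of_nonneg_right c3 hg
    linarith
  push Not at c3
  have c4 : (Up^[E] (fun R => 1 - S.u R)) T ≤ κ / 2 := by linarith
  have e : (if θ < κ ∧ (Up^[E] (fun R => 1 - S.u R)) T ≤ κ / 2 then κ * g else 0) = κ * g :=
    if_pos ⟨c1, c4⟩
  rw [e]
  linarith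

/-! ## part t3 -/

theorem Sys.lb1 (S : Sys α) (hR : S.Reg) {χ : ℕ → ℝ} (hχ0 : ∀ s, 0 ≤ χ s)
    (hχ1 : ∀ s, χ s ≤ 1) {k : ℕ} (hk : k < S.M) {β t e : ℕ} (hβ : (β : ℝ) ^ 2 ≤ S.m)
    (ht : S.m ≤ t + 4 * β) (htm : t ≤ S.m) (ht9 : 9 * S.m ≤ 10 * t) (he : e ≤ S.m) :
    Ev t (fun T => Us S.f (fun Q => S.f Q * chiLt e Q.card) T * S.Om2 χ k T)
      ≤ (5 * (β : ℝ) + 3000000 * ((k : ℝ) + 2) ^ 2) * ∑ s ∈ range e, S.ph s := by
  have hm8 : 100000000 ≤ S.m := hR.1
  have hcard := S.hcard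
  have htc : t ≤ Fintype.card α := by omega
  have htpos : 0 < t := by omega
  have hmpos : (0 : ℝ) < S.m := by
    have : 0 < S.m := by omega
    exact_mod_cast this
  have hc0 : ∀ s, 0 ≤ chiLt e s := by
    intro s; unfold chiLt; split_ifs <;> norm_num
  have hc1 : ∀ s, chiLt e s ≤ 1 := by
    intro s; unfold chiLt; split_ifs <;> norm_num
  have key : ∀ (w : ℕ → ℝ) (c : ℝ), 0 ≤ c → (∀ s, t ≤ s → s < e → w s ≤ c) →
      ∑ s ∈ Icc t (2 * S.m), chiLt e s * S.ph s * w s ≤ c * ∑ s ∈ range e, S.ph s := by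
    intro w c hc hw
    calc ∑ s ∈ Icc t (2 * S.m), chiLt e s * S.ph s * w s
        ≤ ∑ s ∈ Icc t (2 * S.m), (if s < e then c * S.ph s else 0) := by
          apply Finset.sum_le_sum
          intro s hs
          unfold chiLt
          split_ifs with h
          · rw [one_mul, mul_comm]
            exact mul_le_mul_of_nonneg_right (hw s (Finset.mem_Icc.1 hs).1 h) (S.ph_nonneg s)
          · simp
      _ = ∑ s ∈ (Icc t (2 * S.m)).filter (fun s => s < e), c * S.ph s := by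
          rw [Finset.sum_filter]
      _ ≤ ∑ s ∈ range e, c * S.ph s := by
          apply Finset.sum_le_sum_of_subset_of_nonneg
          · intro s hs
            exact Finset.mem_range.2 (Finset.mem_filter.1 hs).2
          · intro s _ _
            exact mul_nonneg hc (S.ph_nonneg s)
      _ = c * ∑ s ∈ range e, S.ph s := by rw [Finset.mul_sum]
  have hψ0 : ∀ T : Finset α, 0 ≤ psi S.f S.z (chiLt e) T := fun T =>
    psi_nonneg S.f_nonneg S.f_le_one S.z hc0 T
  have hU0 : ∀ T : Finset α, 0 ≤ Uout S.f S.z (chiLt e) T := by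
    intro T
    unfold Uout
    exact Finset.sum_nonneg fun x _ => S.rho_nonneg hc0 x T
  have hOm0 : ∀ T : Finset α, 0 ≤ S.Om2 χ k T := by
    intro T
    rw [S.Om2_eq]
    exact Finset.sum_nonneg fun x _ => S.g2_nonneg hχ0 k T x
  have hOm1 : ∀ T : Finset α, S.Om2 χ k T ≤ T.card := by
    intro T
    rw [S.Om2_eq]
    calc ∑ x ∈ T, S.g2 χ k T x ≤ ∑ x ∈ T, (1 : ℝ) :=
          Finset.sum_le_sum fun x _ => S.g2_le_one hχ0 hχ1 k T x
      _ = T.card := by simp
  have hsplit : Ev t (fun T => Us S.f (fun Q => S.f Q * chiLt e Q.card) T * S.Om2 χ k T) =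
      Ev t (fun T => psi S.f S.z (chiLt e) T * S.Om2 χ k T) +
        Ev t (fun T => Uout S.f S.z (chiLt e) T * S.Om2 χ k T) := by
    rw [← Ev_add]
    apply Ev_congr
    intro T _
    rw [← psi_add_Uout S.f S.z (chiLt e) T, add_mul]
  have hpairs := S.pairs_level hR hk (S.om2 χ) (fun T x y => S.om2_nonneg hχ0 T x y)
    (fun T => S.om2_row hχ0 hχ1 T) (fun T => S.om2_col hχ0 hχ1 T) hc0 hc1 ht9 htm
  have hpsi : Ev t (psi S.f S.z (chiLt e)) ≤ 1 * ∑ s ∈ range e, S.ph s := by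
    refine (Ev_psi_le S.f_nonneg S.f_le_one S.z (fun C h => S.z_mem h) hc0 htc).trans ?_
    rw [hcard]
    refine le_trans (le_of_eq ?_) (key (fun s => (t : ℝ) / s) 1 zero_le_one ?_)
    · apply Finset.sum_congr rfl
      intro s _
      show (t : ℝ) / s * chiLt e s * S.ph s = chiLt e s * S.ph s * ((t : ℝ) / s)
      ring
    · intro s hs _
      apply div_le_one_of_le₀
      · exact_mod_cast hs
      · exact Nat.cast_nonneg s
  have hsecond : ∑ s ∈ Icc t (2 * S.m), chiLt e s * S.ph s *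
      (540000 * (((k : ℝ) + 2) ^ 2 + ((s : ℝ) - t) ^ 2 / S.m)) ≤
      (540000 * (((k : ℝ) + 2) ^ 2 + 16)) * ∑ s ∈ range e, S.ph s := by
    apply key
    · positivity
    · intro s hs hse
      have h1 : (s : ℝ) - t ≤ 4 * β := by
        have : s ≤ t + 4 * β := by omega
        have : (s : ℝ) ≤ t + 4 * β := by exact_mod_cast this
        linarith
      have h0 : (0 : ℝ) ≤ (s : ℝ) - t := by
        have : (t : ℝ) ≤ s := by exact_mod_cast hs
        linarith
      have h2 : ((s : ℝ) - t) ^ 2 / S.m ≤ 16 := by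
        rw [div_le_iff₀ hmpos]
        have h3 : ((s : ℝ) - t) ^ 2 ≤ (4 * (β : ℝ)) ^ 2 := pow_le_pow_left₀ h0 h1 2
        nlinarith
      linarith
  have hUbound : Ev t (fun T => Uout S.f S.z (chiLt e) T * S.Om2 χ k T) ≤
      (4 * (β : ℝ)) * ∑ s ∈ range e, S.ph s := by
    calc Ev t (fun T => Uout S.f S.z (chiLt e) T * S.Om2 χ k T)
        ≤ Ev t (fun T => (t : ℝ) * Uout S.f S.z (chiLt e) T) := by
          apply Ev_mono
          intro T hT
          rw [mul_comm]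
          apply mul_le_mul_of_nonneg_right _ (hU0 T)
          rw [← hT]
          exact hOm1 T
      _ = (t : ℝ) * Ev t (Uout S.f S.z (chiLt e)) := by rw [Ev_const_mul]
      _ ≤ (t : ℝ) * ∑ s ∈ Icc t (Fintype.card α),
            ((s : ℝ) - t) / s * chiLt e s * Ev s S.f := by
          apply mul_le_mul_of_nonneg_left _ (Nat.cast_nonneg t)
          exact Ev_Uout_le S.f_nonneg S.f_le_one S.z (fun C h => S.z_mem h) hc0 htc
      _ = ∑ s ∈ Icc t (2 * S.m), chiLt e s * S.ph s * ((t : ℝ) * (((s : ℝ) - t) / s)) := by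
          rw [hcard, Finset.mul_sum]
          apply Finset.sum_congr rfl
          intro s _
          show (t : ℝ) * (((s : ℝ) - t) / s * chiLt e s * S.ph s) = _
          ring
      _ ≤ (4 * (β : ℝ)) * ∑ s ∈ range e, S.ph s := by
          apply key
          · positivity
          · intro s hs hse
            have h1 : (s : ℝ) - t ≤ 4 * β := by
              have : s ≤ t + 4 * β := by omega
              have : (s : ℝ) ≤ t + 4 * β := by exact_mod_cast this
              linarith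
            have h0 : (0 : ℝ) ≤ (s : ℝ) - t := by
              have : (t : ℝ) ≤ s := by exact_mod_cast hs
              linarith
            have h2 : (t : ℝ) / s ≤ 1 := by
              apply div_le_one_of_le₀
              · exact_mod_cast hs
              · exact Nat.cast_nonneg s
            calc (t : ℝ) * (((s : ℝ) - t) / s) = (t : ℝ) / s * ((s : ℝ) - t) := by ring
              _ ≤ 1 * ((s : ℝ) - t) := mul_le_mul_of_nonneg_right h2 h0
              _ ≤ 4 * β := by linarith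
  have hpairs' : Ev t (fun T => psi S.f S.z (chiLt e) T * S.Om2 χ k T) ≤
      2 * Ev t (psi S.f S.z (chiLt e)) + ∑ s ∈ Icc t (2 * S.m), chiLt e s * S.ph s *
            (540000 * (((k : ℝ) + 2) ^ 2 + ((s : ℝ) - t) ^ 2 / S.m)) := hpairs
  have hS0 : 0 ≤ ∑ s ∈ range e, S.ph s := Finset.sum_nonneg fun s _ => S.ph_nonneg s
  rw [hsplit]
  have hk4 : (4 : ℝ) ≤ ((k : ℝ) + 2) ^ 2 := by
    have : (0 : ℝ) ≤ k := Nat.cast_nonneg k
    nlinarith
  have hβ0 : (0 : ℝ) ≤ β := Nat.cast_nonneg β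
  have hfin : (2 + 540000 * (((k : ℝ) + 2) ^ 2 + 16) + 4 * (β : ℝ)) *
      ∑ s ∈ range e, S.ph s ≤ (5 * (β : ℝ) + 3000000 * ((k : ℝ) + 2) ^ 2) *
      ∑ s ∈ range e, S.ph s := by
    apply mul_le_mul_of_nonneg_right _ hS0
    nlinarith
  linarith

/-! ## part t4 -/

/-- exchangeability bound for the normalised matching -/
theorem Sys.g2_sum (S : Sys α) {χ : ℕ → ℝ} (hχ0 : ∀ s, 0 ≤ χ s) (hχ1 : ∀ s, χ s ≤ 1)
    (k : ℕ) {s₀ : ℕ} (hs₀ : ∀ s, s < s₀ → χ s = 0) (hs₀m : s₀ ≤ 2 * S.m) (Q : Finset α)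
    (hQ : Q.card < s₀) (hQ1 : 1 ≤ Q.card) :
    ∑ x ∈ Qᶜ, S.g2 χ k (insert x Q) x
      ≤ (2 * (S.m : ℝ) - Q.card + 1) / ((s₀ : ℝ) - Q.card + 1) := by
  have hcQ : (Q.card : ℝ) < s₀ := by exact_mod_cast hQ
  have hs2 : (s₀ : ℝ) ≤ 2 * (S.m : ℝ) := by exact_mod_cast hs₀m
  have hB0 : 0 ≤ (2 * (S.m : ℝ) - Q.card + 1) / ((s₀ : ℝ) - Q.card + 1) :=
    div_nonneg (by linarith) (by linarith)
  have h1 : ∀ x ∈ Qᶜ, S.g2 χ k (insert x Q) x ≤
      ∑ y ∈ Q, S.rr χ y Q * rho S.f S.z χ x (insert x (Q.erase y)) := by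
    intro x hx
    have hxQ : x ∉ Q := Finset.mem_compl.1 hx
    unfold Sys.g2
    rw [Finset.erase_insert hxQ]
    refine Finset.sum_le_sum (fun y hy => ?_)
    have hxy : x ≠ y := fun h => hxQ (h ▸ hy)
    unfold Sys.om2
    rw [if_pos ⟨Finset.mem_insert_self x Q, Finset.mem_insert_of_mem hy, hxy⟩,
      Finset.erase_insert hxQ, Finset.erase_insert_of_ne hxy]
    have hr := S.rr_nonneg hχ0 y Q
    have ha := S.a_nonneg hχ0 x (insert x (Q.erase y))
    calc S.a χ x (insert x (Q.erase y)) * S.rr χ y Q * S.Ga k (insert x Q) x y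
        ≤ S.a χ x (insert x (Q.erase y)) * S.rr χ y Q * 1 :=
          mul_le_mul_of_nonneg_left (S.Ga_le_one k _ x y) (mul_nonneg ha hr)
      _ = S.rr χ y Q * S.a χ x (insert x (Q.erase y)) := by ring
      _ ≤ _ := mul_le_mul_of_nonneg_left (S.a_le_rho hχ0 x _) hr
  refine (Finset.sum_le_sum h1).trans ?_
  rw [Finset.sum_comm]
  have h2 : ∀ y ∈ Q, ∑ x ∈ Qᶜ, S.rr χ y Q * rho S.f S.z χ x (insert x (Q.erase y)) ≤
      S.rr χ y Q * ((2 * (S.m : ℝ) - Q.card + 1) / ((s₀ : ℝ) - Q.card + 1)) := by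
    intro y hy
    rw [← Finset.mul_sum]
    refine mul_le_mul_of_nonneg_left ?_ (S.rr_nonneg hχ0 y Q)
    have hcard : (Q.erase y).card = Q.card - 1 := Finset.card_erase_of_mem hy
    have hb := Rbar_bound (S.f_nonneg) (S.f_le_one) S.z hχ0 hχ1 hs₀ (by rw [S.hcard]; exact hs₀m)
      (Q.erase y) (by rw [hcard]; omega)
    have hsub : ∑ x ∈ Qᶜ, rho S.f S.z χ x (insert x (Q.erase y)) ≤
        ∑ x ∈ (Q.erase y)ᶜ, rho S.f S.z χ x (insert x (Q.erase y)) := by
      refine Finset.sum_le_sum_of_subset_of_nonneg ?_ (fun x _ _ => S.rho_nonneg hχ0 x _)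
      intro x hx
      rw [Finset.mem_compl] at hx ⊢
      exact fun h => hx (Finset.mem_of_mem_erase h)
    refine hsub.trans (hb.trans (le_of_eq ?_))
    rw [hcard, S.hcard, Nat.cast_sub hQ1]
    push_cast
    congr 1 <;> ring
  refine (Finset.sum_le_sum h2).trans ?_
  rw [← Finset.sum_mul]
  exact mul_le_of_le_one_left hB0 (S.sum_rr_le_one hχ0 Q)

/-! ## part t5 -/

theorem Ev_sum_erase {p : ℕ} (hp : p < Fintype.card α) (Φ : Finset α → α → ℝ) :
    Ev (p + 1) (fun T => ∑ x ∈ T, Φ (T.erase x) x)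
      = ((p : ℝ) + 1) * Ev p (fun Q => (∑ w ∈ Qᶜ, Φ Q w) / (Qᶜ.card : ℝ)) := by
  rw [Ev_double hp Φ, ← Ev_const_mul]
  refine Ev_congr fun T hT => ?_
  rw [hT]
  have : ((p : ℝ) + 1) ≠ 0 := by positivity
  push_cast
  field_simp

theorem Sys.lb2_ge (S : Sys α) (Q : Finset α) :
    (1 - S.f Q) * Up (fun R => 1 - S.u R) Q ≤ 1 - S.u Q := by
  by_cases hQ : Q = univ
  · subst hQ
    rw [Up_univ, mul_zero]
    have := S.u_le_one univ
    linarith
  · rw [Up_one_sub hQ]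
    have h1 : S.u Q = S.f Q + (1 - S.f Q) * Up S.u Q := Us_eq S.f S.f Q
    rw [h1]
    apply le_of_eq
    ring

theorem Sys.lb2_good (S : Sys α) {Q : Finset α} (hQ : Q ≠ univ) (hG : S.Good Q) :
    Up (fun R => 1 - S.u R) Q = 1 - S.u Q ∧ 9 / 10 ≤ 1 - S.H Q ∧ 9 / 10 ≤ 1 - Dn S.H Q := by
  have hf : S.f Q = 0 := by
    unfold Sys.f
    rw [if_neg hG.1]
  have h1 : S.u Q = S.f Q + (1 - S.f Q) * Up S.u Q := Us_eq S.f S.f Q
  have h2 : S.H Q = S.f Q + (1 - S.f Q) * Dn S.H Q := Ds_eq S.f S.f Q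
  rw [hf] at h1 h2
  have h3 := hG.2.1
  refine ⟨?_, ?_, ?_⟩
  · rw [Up_one_sub hQ, h1]; ring
  · rw [h2]; linarith
  · linarith

open Classical in
theorem Sys.lb2_term (S : Sys α) {χ : ℕ → ℝ} (hχ0 : ∀ s, 0 ≤ χ s)
    (hχ1 : ∀ s, χ s ≤ 1) {k : ℕ} {θ : ℝ} (hθ : 0 < θ) (T : Finset α) :
    S.L2 χ k θ T ≤ ∑ x ∈ T, ((fun (Q : Finset α) (x : α) =>
      40 / θ * (1 - S.u Q) * S.g2 χ k (insert x Q) x +
       (if S.Good Q ∧ 1 - S.u Q ≤ θ / 40 then
          (if 10 * (θ / 40) ≤ 1 - S.u (insert x Q) then (1 : ℝ) else 0) else 0)) (T.erase x) x) := by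
  unfold Sys.L2
  refine Finset.sum_le_sum fun x hx => ?_
  have hins : insert x (T.erase x) = T := Finset.insert_erase hx
  simp only [hins]
  have hg0 := S.g2_nonneg hχ0 k T x
  have hg1 := S.g2_le_one hχ0 hχ1 k T x
  have hu := S.u_le_one (T.erase x)
  have hA : 0 ≤ 40 / θ * (1 - S.u (T.erase x)) * S.g2 χ k T x := by
    apply mul_nonneg _ hg0
    apply mul_nonneg (by positivity)
    linarith
  have hB : (0 : ℝ) ≤ (if S.Good (T.erase x) ∧ 1 - S.u (T.erase x) ≤ θ / 40 then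
          (if 10 * (θ / 40) ≤ 1 - S.u T then (1 : ℝ) else 0) else 0) := by
    split_ifs <;> norm_num
  split_ifs at hB ⊢ with h1 h2 h3 h4 h5
  · linarith
  · exfalso
    apply h3
    have := h1.1
    have := h1.2
    linarith
  · rw [add_zero]
    by_cases hg : S.g2 χ k T x = 0
    · rw [hg]; simp
    · have hG := S.g2_supp k T x hg
      have h4 : θ / 40 < 1 - S.u (T.erase x) := by
        by_contra hcon
        exact h2 ⟨hG, not_lt.1 hcon⟩
      have h5 : 1 ≤ 40 / θ * (1 - S.u (T.erase x)) := by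
        rw [div_mul_eq_mul_div, le_div_iff₀ hθ]
        linarith
      nlinarith
  · linarith
  · linarith
  · linarith

open Classical in
theorem Sys.lb2_pt (S : Sys α) (hR : S.Reg) {χ : ℕ → ℝ} (hχ0 : ∀ s, 0 ≤ χ s)
    (hχ1 : ∀ s, χ s ≤ 1) {k : ℕ} {θ : ℝ} (hθ : 0 < θ)
    {s₀ β : ℕ} (hβ : 1 ≤ β) (hs₀ : ∀ s, s < s₀ → χ s = 0) (hs₀m : s₀ ≤ 2 * S.m)
    {Q : Finset α} (hQ1 : 1 ≤ Q.card) (hQm : Q.card + 1 ≤ S.m) (hQs : Q.card + β ≤ s₀) :
    (∑ w ∈ Qᶜ, (fun (Q : Finset α) (x : α) =>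
      40 / θ * (1 - S.u Q) * S.g2 χ k (insert x Q) x +
       (if S.Good Q ∧ 1 - S.u Q ≤ θ / 40 then
          (if 10 * (θ / 40) ≤ 1 - S.u (insert x Q) then (1 : ℝ) else 0) else 0)) Q w) /
        (Qᶜ.card : ℝ)
      ≤ 80 / (θ * β) * ((1 - Dn S.H Q) * (1 - S.u Q)) +
        10 / 9 * (if Up (fun R => 1 - S.u R) Q ≤ θ / 40 then
          (1 - Ds S.f S.f Q) *
            Up (fun R => if 10 * (θ / 40) ≤ 1 - S.u R then (1 : ℝ) else 0) Q else 0) := by
  have hm : (100000000 : ℝ) ≤ S.m := by exact_mod_cast hR.1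
  have hβ' : (1 : ℝ) ≤ β := by exact_mod_cast hβ
  have hQu : Q ≠ univ := by
    rintro rfl
    rw [Finset.card_univ, S.hcard] at hQm
    have := hR.1
    omega
  have hcc : Qᶜ.card = 2 * S.m - Q.card := by rw [Finset.card_compl, S.hcard]
  have hccR : (Qᶜ.card : ℝ) = 2 * (S.m : ℝ) - Q.card := by
    rw [hcc, Nat.cast_sub (by omega)]
    push_cast
    ring
  have hQmR : (Q.card : ℝ) + 1 ≤ S.m := by exact_mod_cast hQm
  have hQsR : (Q.card : ℝ) + β ≤ s₀ := by exact_mod_cast hQs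
  have hccpos : (0 : ℝ) < Qᶜ.card := by rw [hccR]; linarith
  have hv0 : 0 ≤ 1 - S.u Q := by have := S.u_le_one Q; linarith
  have hD1 : 0 ≤ 1 - Dn S.H Q := by have := S.Dn_H_le_one Q; linarith
  have hH1 : 0 ≤ 1 - Ds S.f S.f Q := by
    have : Ds S.f S.f Q ≤ 1 := S.H_le_one Q
    linarith
  rw [Finset.sum_add_distrib, add_div]
  apply add_le_add
  · by_cases hG : S.Good Q
    · obtain ⟨-, -, hD⟩ := S.lb2_good hQu hG
      have hsum := S.g2_sum hχ0 hχ1 k hs₀ hs₀m Q (by omega) hQ1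
      rw [← Finset.mul_sum]
      have h1 : (2 * (S.m : ℝ) - Q.card + 1) / ((s₀ : ℝ) - Q.card + 1) ≤
          (11 / 10 * (Qᶜ.card : ℝ)) / β := by
        rw [hccR]
        apply div_le_div₀ _ _ _ _
        · have : (0 : ℝ) ≤ 2 * (S.m : ℝ) - Q.card := by linarith
          positivity
        · linarith
        · linarith
        · linarith
      have h2 : (∑ i ∈ Qᶜ, S.g2 χ k (insert i Q) i) / (Qᶜ.card : ℝ) ≤ 11 / 10 / β := by
        rw [div_le_iff₀ hccpos]
        calc (∑ i ∈ Qᶜ, S.g2 χ k (insert i Q) i)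
            ≤ (11 / 10 * (Qᶜ.card : ℝ)) / β := hsum.trans h1
          _ = 11 / 10 / β * (Qᶜ.card : ℝ) := by ring
      calc (40 / θ * (1 - S.u Q) * ∑ i ∈ Qᶜ, S.g2 χ k (insert i Q) i) / (Qᶜ.card : ℝ)
          = 40 / θ * (1 - S.u Q) * ((∑ i ∈ Qᶜ, S.g2 χ k (insert i Q) i) / (Qᶜ.card : ℝ)) := by
            rw [mul_div_assoc]
        _ ≤ 40 / θ * (1 - S.u Q) * (11 / 10 / β) := by
            apply mul_le_mul_of_nonneg_left h2
            positivity
        _ = 44 / (θ * β) * (1 - S.u Q) := by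
            field_simp
            ring
        _ ≤ 80 / (θ * β) * (9 / 10 * (1 - S.u Q)) := by
            have h5 : 0 ≤ 1 / (θ * β) * (1 - S.u Q) := by positivity
            have e1 : 44 / (θ * β) * (1 - S.u Q) = 44 * (1 / (θ * β) * (1 - S.u Q)) := by ring
            have e2 : 80 / (θ * β) * (9 / 10 * (1 - S.u Q)) =
              72 * (1 / (θ * β) * (1 - S.u Q)) := by ring
            rw [e1, e2]
            linarith
        _ ≤ 80 / (θ * β) * ((1 - Dn S.H Q) * (1 - S.u Q)) := by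
            apply mul_le_mul_of_nonneg_left _ (by positivity)
            exact mul_le_mul_of_nonneg_right hD hv0
    · have h0 : ∀ w ∈ Qᶜ, 40 / θ * (1 - S.u Q) * S.g2 χ k (insert w Q) w = 0 := by
        intro w hw
        have hwQ : w ∉ Q := by simpa using hw
        have : S.g2 χ k (insert w Q) w = 0 := by
          by_contra hne
          have := S.g2_supp k _ _ hne
          rw [Finset.erase_insert hwQ] at this
          exact hG this
        rw [this, mul_zero]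
      rw [Finset.sum_eq_zero h0, zero_div]
      positivity
  · have hUp0 : 0 ≤ Up (fun R => if 10 * (θ / 40) ≤ 1 - S.u R then (1 : ℝ) else 0) Q := by
      apply Up_nonneg
      intro w _
      split_ifs <;> norm_num
    by_cases hG : S.Good Q ∧ 1 - S.u Q ≤ θ / 40
    · obtain ⟨hU, hH, -⟩ := S.lb2_good hQu hG.1
      simp only [if_pos hG]
      rw [if_pos (by rw [hU]; exact hG.2)]
      have hH' : 9 / 10 ≤ 1 - Ds S.f S.f Q := hH
      have e1 : (∑ x ∈ Qᶜ, if 10 * (θ / 40) ≤ 1 - S.u (insert x Q) then (1 : ℝ) else 0) /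
          (Qᶜ.card : ℝ) = Up (fun R => if 10 * (θ / 40) ≤ 1 - S.u R then (1 : ℝ) else 0) Q := rfl
      rw [e1]
      nlinarith
    · simp only [if_neg hG, Finset.sum_const_zero, zero_div]
      split_ifs
      · positivity
      · simp

theorem Sys.lb2 (S : Sys α) (hR : S.Reg) {χ : ℕ → ℝ} (hχ0 : ∀ s, 0 ≤ χ s)
    (hχ1 : ∀ s, χ s ≤ 1) {k : ℕ} (hk : k < S.M) {θ : ℝ} (hθ : 0 < θ)
    {s₀ β τ w : ℕ} (hβ : 1 ≤ β) (hs₀ : ∀ s, s < s₀ → χ s = 0) (hs₀m : s₀ ≤ 2 * S.m)
    (hτ9 : 9 * S.m ≤ 10 * τ) (hτw : τ + w ≤ S.m + 1) (hτs : τ + w + β ≤ s₀ + 1) :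
    ∑ t ∈ Ico τ (τ + w), Ev t (S.L2 χ k θ)
      ≤ (80 * (w : ℝ) / β + 5) * (S.m / θ) * S.nu := by
  classical
  have hm : (100000000 : ℝ) ≤ S.m := by exact_mod_cast hR.1
  have hm' := hR.1
  have hβ' : (1 : ℝ) ≤ β := by exact_mod_cast hβ
  have hnu := S.nu_nonneg
  obtain ⟨τ', rfl⟩ : ∃ τ', τ = τ' + 1 := ⟨τ - 1, by omega⟩
  have hsum : ∑ t ∈ Ico (τ' + 1) (τ' + 1 + w), Ev t (S.L2 χ k θ)
      = ∑ p ∈ Ico τ' (τ' + w), Ev (p + 1) (S.L2 χ k θ) := by
    rw [Finset.sum_Ico_add' (fun t => Ev t (S.L2 χ k θ)) τ' (τ' + w) 1]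
    congr 2
    omega
  rw [hsum]
  have hdrop := drop_lemma (f := S.f) S.f_nonneg S.f_le_one (fun R => 1 - S.u R)
    (fun Q => by have := S.u_le_one Q; linarith) (fun Q => by have := S.u_nonneg Q; linarith)
    S.lb2_ge (θ := θ / 40) (by positivity) (t₁ := τ') (w := w) (by rw [S.hcard]; omega)
  have hev : Ev τ' (fun P => (1 - Dn (Ds S.f S.f) P) * (1 - S.u P)) = S.nu :=
    S.Ev_nu (by omega)
  rw [hev] at hdrop
  set B : ℕ → ℝ := fun t => Ev t (fun P => if Up (fun R => 1 - S.u R) P ≤ θ / 40 then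
        (1 - Ds S.f S.f P) *
          Up (fun R => if 10 * (θ / 40) ≤ 1 - S.u R then (1 : ℝ) else 0) P else 0) with hB
  have hB0 : ∀ t, 0 ≤ B t := by
    intro t
    apply Ev_nonneg
    intro P _
    have hH1 : 0 ≤ 1 - Ds S.f S.f P := by
      have : Ds S.f S.f P ≤ 1 := S.H_le_one P
      linarith
    have hUp0 : 0 ≤ Up (fun R => if 10 * (θ / 40) ≤ 1 - S.u R then (1 : ℝ) else 0) P := by
      apply Up_nonneg
      intro w _
      split_ifs <;> norm_num
    split_ifs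
    · positivity
    · exact le_refl 0
  have hterm : ∀ p ∈ Ico τ' (τ' + w), Ev (p + 1) (S.L2 χ k θ) ≤
      S.m * (80 / (θ * β) * S.nu + 10 / 9 * B p) := by
    intro p hp
    rw [Finset.mem_Ico] at hp
    have hpm : p + 1 ≤ S.m := by omega
    have hpc : p < Fintype.card α := by rw [S.hcard]; omega
    have hpmR : (p : ℝ) + 1 ≤ S.m := by exact_mod_cast hpm
    have hA0 : 0 ≤ 80 / (θ * β) * S.nu + 10 / 9 * B p := by
      have := hB0 p
      positivity
    calc Ev (p + 1) (S.L2 χ k θ)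
        ≤ Ev (p + 1) (fun T => ∑ x ∈ T, ((fun (Q : Finset α) (x : α) =>
            40 / θ * (1 - S.u Q) * S.g2 χ k (insert x Q) x +
            (if S.Good Q ∧ 1 - S.u Q ≤ θ / 40 then
              (if 10 * (θ / 40) ≤ 1 - S.u (insert x Q) then (1 : ℝ) else 0) else 0))
              (T.erase x) x)) :=
          Ev_mono fun T _ => S.lb2_term hχ0 hχ1 hθ T
      _ = ((p : ℝ) + 1) * Ev p (fun Q => (∑ w ∈ Qᶜ, (fun (Q : Finset α) (x : α) =>
            40 / θ * (1 - S.u Q) * S.g2 χ k (insert x Q) x +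
            (if S.Good Q ∧ 1 - S.u Q ≤ θ / 40 then
              (if 10 * (θ / 40) ≤ 1 - S.u (insert x Q) then (1 : ℝ) else 0) else 0)) Q w) /
              (Qᶜ.card : ℝ)) :=
          Ev_sum_erase hpc (fun (Q : Finset α) (x : α) =>
            40 / θ * (1 - S.u Q) * S.g2 χ k (insert x Q) x +
            (if S.Good Q ∧ 1 - S.u Q ≤ θ / 40 then
              (if 10 * (θ / 40) ≤ 1 - S.u (insert x Q) then (1 : ℝ) else 0) else 0))
      _ ≤ ((p : ℝ) + 1) * Ev p (fun Q => 80 / (θ * β) * ((1 - Dn S.H Q) * (1 - S.u Q)) +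
          10 / 9 * (if Up (fun R => 1 - S.u R) Q ≤ θ / 40 then
          (1 - Ds S.f S.f Q) *
            Up (fun R => if 10 * (θ / 40) ≤ 1 - S.u R then (1 : ℝ) else 0) Q else 0)) := by
          apply mul_le_mul_of_nonneg_left _ (by positivity)
          refine Ev_mono fun Q hQ => ?_
          exact S.lb2_pt hR hχ0 hχ1 hθ hβ hs₀ hs₀m (by omega) (by omega) (by omega)
      _ = ((p : ℝ) + 1) * (80 / (θ * β) * S.nu + 10 / 9 * B p) := by
          rw [Ev_add, Ev_const_mul, Ev_const_mul, S.Ev_nu (by omega)]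
      _ ≤ S.m * (80 / (θ * β) * S.nu + 10 / 9 * B p) :=
          mul_le_mul_of_nonneg_right hpmR hA0
  calc ∑ p ∈ Ico τ' (τ' + w), Ev (p + 1) (S.L2 χ k θ)
      ≤ ∑ p ∈ Ico τ' (τ' + w), S.m * (80 / (θ * β) * S.nu + 10 / 9 * B p) :=
        Finset.sum_le_sum hterm
    _ = S.m * (w * (80 / (θ * β) * S.nu) + 10 / 9 * ∑ p ∈ Ico τ' (τ' + w), B p) := by
        rw [← Finset.mul_sum, Finset.sum_add_distrib, Finset.sum_const,
          Nat.card_Ico, nsmul_eq_mul, Nat.add_sub_cancel_left, Finset.mul_sum (Ico τ' (τ' + w)) B]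
    _ ≤ S.m * (w * (80 / (θ * β) * S.nu) + 10 / 9 * (1 / (9 * (θ / 40)) * S.nu)) := by
        apply mul_le_mul_of_nonneg_left _ (by positivity)
        have := hdrop
        linarith
    _ = (80 * (w : ℝ) / β + 400 / 81) * (S.m / θ) * S.nu := by
        field_simp
        ring
    _ ≤ (80 * (w : ℝ) / β + 5) * (S.m / θ) * S.nu := by
        apply mul_le_mul_of_nonneg_right _ hnu
        apply mul_le_mul_of_nonneg_right _ (by positivity)
        linarith

/-! ## part t6 -/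

theorem Up_iter_const {i : ℕ} {P : Finset α} (hi : P.card + i ≤ Fintype.card α) (c : ℝ) :
    (Up^[i] (fun _ => c)) P = c := by
  induction i generalizing P with
  | zero => rfl
  | succ i ih =>
    rw [Function.iterate_succ_apply']
    have hP : P ≠ univ := by
      rintro rfl
      rw [card_univ] at hi
      omega
    rw [← Up_const hP c]
    apply Up_congr
    intro w hw
    rw [Up_const hP c]
    apply ih
    rw [card_insert_of_notMem hw]
    omega

theorem Up_iter_mono {g h : Finset α → ℝ} {i : ℕ} {P : Finset α}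
    (H : ∀ Q, P ⊆ Q → Q.card = P.card + i → g Q ≤ h Q) :
    (Up^[i] g) P ≤ (Up^[i] h) P := by
  induction i generalizing P with
  | zero => exact H P (Subset.refl _) rfl
  | succ i ih =>
    rw [Function.iterate_succ_apply', Function.iterate_succ_apply']
    apply Up_mono
    intro w hw
    apply ih
    intro Q hQ hc
    apply H Q ((subset_insert w P).trans hQ)
    rw [hc, card_insert_of_notMem hw]
    omega

theorem Up_iter_add (g h : Finset α → ℝ) (i : ℕ) (P : Finset α) :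
    (Up^[i] (fun Q => g Q + h Q)) P = (Up^[i] g) P + (Up^[i] h) P := by
  induction i generalizing P with
  | zero => rfl
  | succ i ih =>
    rw [Function.iterate_succ_apply', Function.iterate_succ_apply', Function.iterate_succ_apply',
      ← Up_add]
    exact Up_congr fun w _ => ih _

theorem Up_iter_const_mul (c : ℝ) (g : Finset α → ℝ) (i : ℕ) (P : Finset α) :
    (Up^[i] (fun Q => c * g Q)) P = c * (Up^[i] g) P := by
  induction i generalizing P with
  | zero => rfl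
  | succ i ih =>
    rw [Function.iterate_succ_apply', Function.iterate_succ_apply', ← Up_const_mul]
    exact Up_congr fun w _ => ih _

theorem Up_iter_sum {ι : Type*} (s : Finset ι) (g : ι → Finset α → ℝ) (i : ℕ)
    (P : Finset α) :
    (Up^[i] (fun Q => ∑ j ∈ s, g j Q)) P = ∑ j ∈ s, (Up^[i] (g j)) P := by
  induction i generalizing P with
  | zero => rfl
  | succ i ih =>
    rw [Function.iterate_succ_apply']
    rw [Finset.sum_congr rfl (fun j _ => congrFun (Function.iterate_succ_apply' Up i (g j)) P)]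
    rw [← Up_sum]
    exact Up_congr fun w _ => ih _

theorem Up_iter_zero_of_mem (g : Finset α → ℝ) {x : α} (i : ℕ) {T : Finset α} (hx : x ∈ T) :
    (Up^[i] (fun A => if x ∈ A then 0 else g (insert x A))) T = 0 := by
  induction i generalizing T with
  | zero => simp [hx]
  | succ i ih =>
    rw [Function.iterate_succ_apply', Up, Finset.sum_eq_zero, zero_div]
    intro w _
    exact ih (mem_insert_of_mem hx)

/-- prescribing that `x` is not among the first `i` added elements and is added next -/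
theorem Up_iter_avoid (g : Finset α → ℝ) {x : α} {T : Finset α} (hx : x ∉ T) (i : ℕ)
    (hi : T.card + i + 1 ≤ Fintype.card α) :
    (Up^[i] (fun A => if x ∈ A then 0 else g (insert x A))) T
      = ((Fintype.card α : ℝ) - T.card - i) / ((Fintype.card α : ℝ) - T.card)
        * (Up^[i] g) (insert x T) := by
  induction i generalizing T with
  | zero =>
    have h1 : (T.card : ℝ) + 1 ≤ Fintype.card α := by exact_mod_cast hi
    have h2 : (Fintype.card α : ℝ) - T.card ≠ 0 := by linarith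
    simp only [Function.iterate_zero, id_eq, hx, if_false, Nat.cast_zero, sub_zero]
    rw [div_self h2, one_mul]
  | succ i ih =>
    have hcompl : Tᶜ = insert x (insert x T)ᶜ := by
      ext a
      simp only [mem_compl, mem_insert, not_or]
      by_cases ha : a = x
      · subst ha; simp [hx]
      · simp [ha]
    have hxn : x ∉ (insert x T)ᶜ := by simp
    have hc1 : ((Tᶜ.card : ℕ) : ℝ) = (Fintype.card α : ℝ) - T.card := by
      rw [card_compl, Nat.cast_sub (card_le_univ T)]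
    have hc2 : (((insert x T)ᶜ.card : ℕ) : ℝ) = (Fintype.card α : ℝ) - (T.card + 1) := by
      rw [card_compl, Nat.cast_sub (card_le_univ _), card_insert_of_notMem hx]
      push_cast
      rfl
    rw [Function.iterate_succ_apply', Function.iterate_succ_apply', Up, Up, hc1, hc2]
    rw [hcompl, Finset.sum_insert hxn, Up_iter_zero_of_mem g i (mem_insert_self x T), zero_add]
    have hs : ∑ w ∈ (insert x T)ᶜ, (Up^[i] (fun A => if x ∈ A then 0 else g (insert x A))) (insert w T)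
        = ∑ w ∈ (insert x T)ᶜ, ((Fintype.card α : ℝ) - (T.card + 1) - i) /
          ((Fintype.card α : ℝ) - (T.card + 1)) * (Up^[i] g) (insert w (insert x T)) := by
      apply Finset.sum_congr rfl
      intro w hw
      have hw' : w ≠ x ∧ w ∉ T := by simpa [not_or] using hw
      have hxw : x ∉ insert w T := by
        simp only [mem_insert, not_or]
        exact ⟨fun h => hw'.1 h.symm, hx⟩
      rw [ih hxw (by rw [card_insert_of_notMem hw'.2]; omega), card_insert_of_notMem hw'.2,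
        Finset.insert_comm x w T]
      push_cast
      rfl
    rw [hs, ← Finset.mul_sum]
    push_cast
    ring

/-! ## part t7 -/

theorem Up_iter_nonneg {h : Finset α → ℝ} (hh : ∀ Q, 0 ≤ h Q) (n : ℕ) : ∀ Q, 0 ≤ (Up^[n] h) Q := by
  induction n with
  | zero => exact hh
  | succ n ih =>
    intro Q
    rw [Function.iterate_succ_apply']
    exact Up_nonneg fun w _ => ih _

/-- dropping the killing up to level `s₁` -/
theorem Us_le_iter {f : Finset α → ℝ} (hf0 : ∀ Q, 0 ≤ f Q) (hf1 : ∀ Q, f Q ≤ 1)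
    {χ : ℕ → ℝ} (hχ0 : ∀ s, 0 ≤ χ s) (hχ1 : ∀ s, χ s ≤ 1) {s₁ : ℕ}
    (hχs : ∀ s, s₁ < s → χ s = 0) (hs₁ : s₁ ≤ Fintype.card α)
    (h : Finset α → ℝ) (hh : ∀ Q, 0 ≤ h Q) {Q : Finset α} (hQ : Q.card ≤ s₁) :
    Us f (fun C => f C * χ C.card * (Up^[s₁ - C.card] h) C) Q ≤ (Up^[s₁ - Q.card] h) Q := by
  classical
  set X : Finset α → ℝ := fun P => if P.card ≤ s₁ then (Up^[s₁ - P.card] h) P else 0 with hX
  have hXQ : X Q = (Up^[s₁ - Q.card] h) Q := by
    rw [hX]; exact if_pos hQ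
  rw [← hXQ]
  refine Us_le hf1 ?_
  intro P hQP
  rcases lt_trichotomy P.card s₁ with hlt | heq | hgt
  · have hA : (Up^[s₁ - P.card] h) P = Up (Up^[s₁ - (P.card + 1)] h) P := by
      have : s₁ - P.card = (s₁ - (P.card + 1)) + 1 := by omega
      rw [this, Function.iterate_succ_apply']
    have hUp : Up X P = (Up^[s₁ - P.card] h) P := by
      rw [hA]
      refine Up_congr fun w hw => ?_
      have hc : (insert w P).card = P.card + 1 := Finset.card_insert_of_notMem hw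
      rw [hX]
      simp only
      rw [hc, if_pos (by omega)]
    have hXP : X P = (Up^[s₁ - P.card] h) P := by
      rw [hX]; exact if_pos hlt.le
    rw [hUp, hXP]
    have hA0 := Up_iter_nonneg hh (s₁ - P.card) P
    have h1 : f P * χ P.card * (Up^[s₁ - P.card] h) P ≤ f P * (Up^[s₁ - P.card] h) P := by
      refine mul_le_mul_of_nonneg_right ?_ hA0
      calc f P * χ P.card ≤ f P * 1 := mul_le_mul_of_nonneg_left (hχ1 _) (hf0 P)
        _ = f P := mul_one _
    show f P * χ P.card * (Up^[s₁ - P.card] h) P + (1 - f P) * (Up^[s₁ - P.card] h) P ≤ (Up^[s₁ - P.card] h) P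
    linarith
  · have hUp : Up X P = 0 := by
      have : Up X P = Up (fun Q => (0 : ℝ) * X Q) P := by
        refine Up_congr fun w hw => ?_
        have hc : (insert w P).card = P.card + 1 := Finset.card_insert_of_notMem hw
        rw [hX]
        simp only
        rw [hc, if_neg (by omega), mul_zero]
      rw [this, Up_const_mul, zero_mul]
    have hXP : X P = h P := by
      rw [hX]
      simp only
      rw [if_pos heq.le, heq, Nat.sub_self]
      rfl
    rw [hUp, hXP, mul_zero, add_zero]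
    show f P * χ P.card * (Up^[s₁ - P.card] h) P ≤ h P
    rw [heq, Nat.sub_self]
    show f P * χ s₁ * h P ≤ h P
    have h1 : f P * χ s₁ ≤ 1 := by
      calc f P * χ s₁ ≤ 1 * 1 := mul_le_mul (hf1 P) (hχ1 _) (hχ0 _) zero_le_one
        _ = 1 := mul_one _
    calc f P * χ s₁ * h P ≤ 1 * h P := mul_le_mul_of_nonneg_right h1 (hh P)
      _ = h P := one_mul _
  · have hUp : Up X P = 0 := by
      have : Up X P = Up (fun Q => (0 : ℝ) * X Q) P := by
        refine Up_congr fun w hw => ?_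
        have hc : (insert w P).card = P.card + 1 := Finset.card_insert_of_notMem hw
        rw [hX]
        simp only
        rw [hc, if_neg (by omega), mul_zero]
      rw [this, Up_const_mul, zero_mul]
    have hXP : X P = 0 := by
      rw [hX]; exact if_neg (by omega)
    rw [hUp, hXP, mul_zero, add_zero]
    show f P * χ P.card * (Up^[s₁ - P.card] h) P ≤ 0
    rw [hχs _ hgt, mul_zero, zero_mul]

/-! ## part t8 -/

noncomputable def Wf (S : Sys α) (χ : ℕ → ℝ) (s₁ : ℕ) (Q : Finset α) (h : Finset α → ℝ) : ℝ :=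
  Us S.f (fun C => S.f C * χ C.card * (Up^[s₁ - C.card] h) C) Q

theorem Wf_mono (S : Sys α) {χ : ℕ → ℝ} (hχ0 : ∀ s, 0 ≤ χ s) {s₁ : ℕ}
    (hχs : ∀ s, s₁ < s → χ s = 0) (Q : Finset α) {h h' : Finset α → ℝ}
    (H : ∀ A, A.card = s₁ → h A ≤ h' A) : Wf S χ s₁ Q h ≤ Wf S χ s₁ Q h' := by
  unfold Wf
  apply Us_mono S.f_le_one
  intro C
  by_cases hC : s₁ < C.card
  · rw [hχs _ hC]; simp
  · apply mul_le_mul_of_nonneg_left _ (mul_nonneg (S.f_nonneg C) (hχ0 _))
    apply Up_iter_mono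
    intro A _ hA
    apply H; omega

theorem Wf_add (S : Sys α) (χ : ℕ → ℝ) (s₁ : ℕ) (Q : Finset α) (h h' : Finset α → ℝ) :
    Wf S χ s₁ Q (fun A => h A + h' A) = Wf S χ s₁ Q h + Wf S χ s₁ Q h' := by
  unfold Wf
  rw [← Us_add]
  congr 1
  funext C
  rw [Up_iter_add, mul_add]

theorem Wf_const_mul (S : Sys α) (χ : ℕ → ℝ) (s₁ : ℕ) (Q : Finset α) (c : ℝ) (h : Finset α → ℝ) :
    Wf S χ s₁ Q (fun A => c * h A) = c * Wf S χ s₁ Q h := by
  unfold Wf
  rw [← Us_const_mul]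
  congr 1
  funext C
  rw [Up_iter_const_mul]; ring

theorem Wf_sum {ι : Type*} (S : Sys α) (χ : ℕ → ℝ) (s₁ : ℕ) (Q : Finset α) (t : Finset ι)
    (h : ι → Finset α → ℝ) :
    Wf S χ s₁ Q (fun A => ∑ i ∈ t, h i A) = ∑ i ∈ t, Wf S χ s₁ Q (h i) := by
  unfold Wf
  rw [← Us_sum]
  congr 1
  funext C
  rw [Up_iter_sum, Finset.mul_sum]

theorem Wf_le (S : Sys α) {χ : ℕ → ℝ} (hχ0 : ∀ s, 0 ≤ χ s) (hχ1 : ∀ s, χ s ≤ 1) {s₁ : ℕ}
    (hχs : ∀ s, s₁ < s → χ s = 0) (hs₁ : s₁ ≤ Fintype.card α) {Q : Finset α} (hQ : Q.card ≤ s₁)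
    (h : Finset α → ℝ) (hh : ∀ Q, 0 ≤ h Q) : Wf S χ s₁ Q h ≤ (Up^[s₁ - Q.card] h) Q :=
  Us_le_iter S.f_nonneg S.f_le_one hχ0 hχ1 hχs hs₁ h hh hQ

theorem Up_iter_nonneg_t8 {h : Finset α → ℝ} (hh : ∀ Q, 0 ≤ h Q) (i : ℕ) (P : Finset α) :
    0 ≤ (Up^[i] h) P := by
  induction i generalizing P with
  | zero => exact hh P
  | succ i ih =>
    rw [Function.iterate_succ_apply']
    exact Up_nonneg fun w _ => ih _

theorem iter_ind (S : Sys α) {x : α} {A : Finset α} (hx : x ∉ A) {j : ℕ}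
    (hj : A.card + j ≤ 2 * S.m) :
    (Up^[j] (fun B => if x ∈ B then (1 : ℝ) else 0)) A = (j : ℝ) / (2 * (S.m : ℝ) - A.card) := by
  cases j with
  | zero => simp [hx]
  | succ j =>
    have hn : (Fintype.card α : ℝ) = 2 * (S.m : ℝ) := by rw [S.hcard]; push_cast; ring
    have h1 := Up_iter_insert (fun _ => (1 : ℝ)) hx j (by rw [S.hcard]; omega)
    rw [Up_iter_const (by rw [S.hcard, Finset.card_insert_of_notMem hx]; omega)] at h1
    rw [h1, hn]; push_cast; ring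

theorem iter_ind2 (S : Sys α) {x x' : α} {A : Finset α} (hx : x ∉ A) (hx' : x' ∉ A) (hne : x ≠ x')
    {j : ℕ} (hj0 : 1 ≤ j) (hj : A.card + j ≤ 2 * S.m) :
    (Up^[j] (fun B => if x ∈ B then (if x' ∈ B then (1 : ℝ) else 0) else 0)) A
      ≤ ((j : ℝ) / (2 * (S.m : ℝ) - A.card)) ^ 2 := by
  obtain ⟨i, rfl⟩ : ∃ i, j = i + 1 := ⟨j - 1, by omega⟩
  have hn : (Fintype.card α : ℝ) = 2 * (S.m : ℝ) := by rw [S.hcard]; push_cast; ring
  have h1 := Up_iter_insert (fun B => if x' ∈ B then (1 : ℝ) else 0) hx i (by rw [S.hcard]; omega)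
  have hx'' : x' ∉ insert x A := by
    rw [Finset.mem_insert]; push Not; exact ⟨hne.symm, hx'⟩
  have hc : (insert x A).card = A.card + 1 := Finset.card_insert_of_notMem hx
  have h2 := iter_ind S hx'' (j := i) (by rw [hc]; omega)
  rw [h1, h2, hn, hc, sq]
  have h3 : (A.card : ℝ) + (i + 1) ≤ 2 * (S.m : ℝ) := by exact_mod_cast hj
  have hi : (0 : ℝ) ≤ i := Nat.cast_nonneg i
  have h4 : (0 : ℝ) < 2 * (S.m : ℝ) - A.card := by linarith
  push_cast
  apply mul_le_mul_of_nonneg_left _ (by positivity)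
  rcases Nat.eq_zero_or_pos i with h0 | h0
  · subst h0; simp; linarith
  · have hi' : (1 : ℝ) ≤ i := by exact_mod_cast h0
    rw [div_le_div_iff₀ (by linarith) h4]
    nlinarith

theorem point_bound (S : Sys α) {s₁ j : ℕ} (hj : 1 ≤ j) (hsj : s₁ + j ≤ 2 * S.m)
    {κ : ℝ} (hκ0 : 0 < κ) (X : Finset α)
    (g : α → ℝ) (hg0 : ∀ x, 0 ≤ g x) (hg1 : ∀ x, g x ≤ 1)
    (hsum : (∑ x ∈ X, g x) * ((j : ℝ) / (2 * (S.m : ℝ) - s₁)) ≤ 1) (A : Finset α)
    (hA : A.card = s₁) :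
    ∑ x ∈ X, g x * (if x ∈ A then (0 : ℝ) else
      (Up^[j] (fun B => if x ∈ B then S.u B else 0)) A)
      ≤ (κ / 8 * ((∑ x ∈ X, g x) * ((j : ℝ) / (2 * (S.m : ℝ) - s₁)))) * 1
        + 4 / κ * (Up^[j] S.u) A := by
  set Y := X.filter (fun x => x ∉ A) with hY
  have hYA : ∀ x ∈ Y, x ∉ A := fun x hx => (Finset.mem_filter.mp hx).2
  set lam : ℝ := (j : ℝ) / (2 * (S.m : ℝ) - s₁) with hlam
  have h3 : (s₁ : ℝ) + j ≤ 2 * (S.m : ℝ) := by exact_mod_cast hsj
  have hj' : (1 : ℝ) ≤ j := by exact_mod_cast hj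
  have hlam0 : 0 ≤ lam := div_nonneg (by linarith) (by linarith)
  set Gs := ∑ x ∈ X, g x with hGs
  have e1 : ∑ x ∈ X, g x * (if x ∈ A then (0 : ℝ) else
      (Up^[j] (fun B => if x ∈ B then S.u B else 0)) A) =
      ∑ x ∈ Y, g x * (Up^[j] (fun B => if x ∈ B then S.u B else 0)) A := by
    rw [hY, Finset.sum_filter]
    refine Finset.sum_congr rfl fun x _ => ?_
    by_cases hx : x ∈ A <;> simp [hx]
  have e2 : ∑ x ∈ Y, g x * (Up^[j] (fun B => if x ∈ B then S.u B else 0)) A =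
      (Up^[j] (fun B => ∑ x ∈ Y, g x * (if x ∈ B then S.u B else 0))) A := by
    rw [Up_iter_sum Y (fun x B => g x * (if x ∈ B then S.u B else 0))]
    refine Finset.sum_congr rfl fun x _ => ?_
    rw [Up_iter_const_mul]
  rw [e1, e2]
  have e3 : (Up^[j] (fun B => ∑ x ∈ Y, g x * (if x ∈ B then S.u B else 0))) A ≤
      (Up^[j] (fun B => κ / 16 * (∑ x ∈ Y, ∑ x' ∈ Y, g x * g x' *
        (if x ∈ B then (if x' ∈ B then (1 : ℝ) else 0) else 0)) + 4 / κ * S.u B)) A := by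
    apply Up_iter_mono
    intro B _ _
    set N : ℝ := ∑ x ∈ Y, g x * (if x ∈ B then (1 : ℝ) else 0) with hN
    have f1 : ∑ x ∈ Y, g x * (if x ∈ B then S.u B else 0) = N * S.u B := by
      rw [hN, Finset.sum_mul]
      refine Finset.sum_congr rfl fun x _ => ?_
      by_cases hx : x ∈ B <;> simp [hx]
    have f2 : ∑ x ∈ Y, ∑ x' ∈ Y, g x * g x' *
        (if x ∈ B then (if x' ∈ B then (1 : ℝ) else 0) else 0) = N * N := by
      rw [hN, Finset.sum_mul_sum]
      refine Finset.sum_congr rfl fun x _ => Finset.sum_congr rfl fun x' _ => ?_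
      by_cases hx : x ∈ B <;> by_cases hx' : x' ∈ B <;> simp [hx, hx']
    rw [f1, f2]
    have u0 := S.u_nonneg B
    have u1 := S.u_le_one B
    have f3 : N * S.u B ≤ κ / 16 * (N * N) + 4 / κ * (S.u B * S.u B) := by
      have : 0 ≤ (κ * N - 8 * S.u B) ^ 2 / (16 * κ) := by positivity
      have h5 : (κ * N - 8 * S.u B) ^ 2 / (16 * κ) =
          κ / 16 * (N * N) + 4 / κ * (S.u B * S.u B) - N * S.u B := by
        field_simp; ring
      linarith
    have f4 : 4 / κ * (S.u B * S.u B) ≤ 4 / κ * S.u B := by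
      apply mul_le_mul_of_nonneg_left _ (by positivity)
      nlinarith
    linarith
  refine e3.trans ?_
  rw [Up_iter_add (fun B => κ / 16 * (∑ x ∈ Y, ∑ x' ∈ Y, g x * g x' *
        (if x ∈ B then (if x' ∈ B then (1 : ℝ) else 0) else 0))) (fun B => 4 / κ * S.u B),
      Up_iter_const_mul, Up_iter_const_mul,
      Up_iter_sum Y (fun x B => ∑ x' ∈ Y, g x * g x' *
        (if x ∈ B then (if x' ∈ B then (1 : ℝ) else 0) else 0))]
  have e4 : ∑ x ∈ Y, (Up^[j] (fun B => ∑ x' ∈ Y, g x * g x' *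
        (if x ∈ B then (if x' ∈ B then (1 : ℝ) else 0) else 0))) A ≤ 2 * (Gs * lam) := by
    have e5 : ∀ x ∈ Y, (Up^[j] (fun B => ∑ x' ∈ Y, g x * g x' *
        (if x ∈ B then (if x' ∈ B then (1 : ℝ) else 0) else 0))) A ≤
        g x * lam + g x * (∑ x' ∈ Y, g x') * lam ^ 2 := by
      intro x hx
      rw [Up_iter_sum Y (fun x' B => g x * g x' *
        (if x ∈ B then (if x' ∈ B then (1 : ℝ) else 0) else 0))]
      have e6 : ∀ x' ∈ Y, (Up^[j] (fun B => g x * g x' *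
          (if x ∈ B then (if x' ∈ B then (1 : ℝ) else 0) else 0))) A ≤
          (if x' = x then g x * lam else 0) + g x * g x' * lam ^ 2 := by
        intro x' hx'
        rw [Up_iter_const_mul]
        by_cases hxx : x' = x
        · subst hxx
          rw [if_pos rfl]
          have h7 : (fun B : Finset α => if x' ∈ B then (if x' ∈ B then (1 : ℝ) else 0) else 0) =
              fun B => if x' ∈ B then (1 : ℝ) else 0 := by
            funext B; by_cases h : x' ∈ B <;> simp [h]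
          rw [h7, iter_ind S (hYA x' hx') (by rw [hA]; exact hsj), hA, ← hlam]
          have g0 := hg0 x'
          have g1 := hg1 x'
          have : g x' * g x' * lam ≤ g x' * lam := by
            apply mul_le_mul_of_nonneg_right _ hlam0
            nlinarith
          have : 0 ≤ g x' * g x' * lam ^ 2 := by positivity
          linarith
        · rw [if_neg hxx, zero_add]
          apply mul_le_mul_of_nonneg_left _ (mul_nonneg (hg0 x) (hg0 x'))
          have := iter_ind2 S (hYA x hx) (hYA x' hx') (Ne.symm hxx) hj (by rw [hA]; exact hsj)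
          rw [hA] at this
          exact this
      refine (Finset.sum_le_sum e6).trans ?_
      rw [Finset.sum_add_distrib, Finset.sum_ite_eq' Y x, if_pos hx, Finset.mul_sum, Finset.sum_mul]
    refine (Finset.sum_le_sum e5).trans ?_
    rw [Finset.sum_add_distrib, ← Finset.sum_mul, ← Finset.sum_mul, ← Finset.sum_mul]
    have hYG : ∑ x ∈ Y, g x ≤ Gs :=
      Finset.sum_le_sum_of_subset_of_nonneg (Finset.filter_subset _ _) fun i _ _ => hg0 i
    have hY0 : 0 ≤ ∑ x ∈ Y, g x := Finset.sum_nonneg fun i _ => hg0 i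
    set YS := ∑ x ∈ Y, g x with hYS
    have k1 : YS * lam ≤ Gs * lam := mul_le_mul_of_nonneg_right hYG hlam0
    have k2 : 0 ≤ YS * lam := mul_nonneg hY0 hlam0
    have k3 : YS * YS * lam ^ 2 = (YS * lam) * (YS * lam) := by ring
    rw [k3]
    nlinarith
  have hκ' : 0 ≤ κ / 16 := by positivity
  have := mul_le_mul_of_nonneg_left e4 hκ'
  linarith

theorem Sys.lb3_key (S : Sys α) {χ : ℕ → ℝ} (hχ0 : ∀ s, 0 ≤ χ s) (hχ1 : ∀ s, χ s ≤ 1)
    {s₁ j : ℕ} (hχs : ∀ s, s₁ < s → χ s = 0) (hj : 1 ≤ j) (hsj : s₁ + j ≤ 2 * S.m)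
    {Q : Finset α} (hQ : Q.card ≤ s₁) {κ : ℝ} (hκ0 : 0 < κ)
    (hκ : κ ≤ psi S.f S.z χ Q)
    (hsmall : ((s₁ : ℝ) - Q.card) / (2 * (S.m : ℝ) - Q.card) ≤ κ / 4)
    (X : Finset α) (hXQ : ∀ x ∈ X, x ∉ Q)
    (hX : ∀ x ∈ X, (Up^[s₁ - Q.card + j - 1] (fun R => 1 - S.u R)) (insert x Q) ≤ κ / 2)
    (g : α → ℝ) (hg0 : ∀ x, 0 ≤ g x) (hg1 : ∀ x, g x ≤ 1)
    (hsum : (∑ x ∈ X, g x) * ((j : ℝ) / (2 * (S.m : ℝ) - s₁)) ≤ 1) :
    (∑ x ∈ X, g x) * ((j : ℝ) / (2 * (S.m : ℝ) - s₁)) * κ ^ 2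
      ≤ 32 * Us S.f (fun C => S.f C * χ C.card * Up S.u C) Q := by
  have hn : (Fintype.card α : ℝ) = 2 * (S.m : ℝ) := by rw [S.hcard]; push_cast; ring
  have hs₁ : s₁ ≤ Fintype.card α := by rw [S.hcard]; omega
  have h3 : (s₁ : ℝ) + j ≤ 2 * (S.m : ℝ) := by exact_mod_cast hsj
  have hj' : (1 : ℝ) ≤ j := by exact_mod_cast hj
  have hQ' : (Q.card : ℝ) ≤ s₁ := by exact_mod_cast hQ
  set lam : ℝ := (j : ℝ) / (2 * (S.m : ℝ) - s₁) with hlam
  have hlam0 : 0 ≤ lam := div_nonneg (by linarith) (by linarith)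
  set Gs := ∑ x ∈ X, g x with hGs
  -- value at the constant function
  have w1 : κ ≤ Wf S χ s₁ Q (fun _ => 1) := by
    have e1 : Wf S χ s₁ Q (fun _ => 1) = Us S.f (fun Q => S.f Q * χ Q.card) Q := by
      unfold Wf
      congr 1
      funext C
      by_cases hC : s₁ < C.card
      · rw [hχs _ hC]; simp
      · rw [Up_iter_const (by omega), mul_one]
    rw [e1, ← psi_add_Uout S.f S.z χ Q]
    have : 0 ≤ Uout S.f S.z χ Q := Finset.sum_nonneg fun x _ => S.rho_nonneg hχ0 x Q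
    linarith
  have w1' : Wf S χ s₁ Q (fun _ => 1) ≤ 1 := by
    refine (Wf_le S hχ0 hχ1 hχs hs₁ hQ _ (fun _ => zero_le_one)).trans (le_of_eq ?_)
    exact Up_iter_const (by omega) 1
  -- lower bound
  have low : ∀ x ∈ X, lam * κ / 4 ≤ Wf S χ s₁ Q (fun A => if x ∈ A then (0 : ℝ) else
      (Up^[j] (fun B => if x ∈ B then S.u B else 0)) A) := by
    intro x hx
    have l1 : Wf S χ s₁ Q (fun A => if x ∈ A then (1 : ℝ) else 0) ≤ κ / 4 := by
      refine (Wf_le S hχ0 hχ1 hχs hs₁ hQ _ (fun A => ?_)).trans ?_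
      · split_ifs <;> norm_num
      · rw [iter_ind S (hXQ x hx) (by omega)]
        rw [Nat.cast_sub hQ]
        exact hsmall
    have v0 : ∀ R, 0 ≤ 1 - S.u R := fun R => by linarith [S.u_le_one R]
    have l2 : Wf S χ s₁ Q (fun A => if x ∈ A then (0 : ℝ) else
        (Up^[j - 1] (fun R => 1 - S.u R)) (insert x A)) ≤ κ / 2 := by
      refine (Wf_le S hχ0 hχ1 hχs hs₁ hQ _ (fun A => ?_)).trans ?_
      · split_ifs
        · exact le_rfl
        · exact Up_iter_nonneg_t8 v0 _ _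
      · rw [Up_iter_avoid _ (hXQ x hx) _ (by rw [S.hcard]; omega), ← Function.iterate_add_apply, hn]
        have h5 : s₁ - Q.card + (j - 1) = s₁ - Q.card + j - 1 := by omega
        rw [h5]
        have h6 := hX x hx
        have h7 : 0 ≤ (Up^[s₁ - Q.card + j - 1] (fun R => 1 - S.u R)) (insert x Q) :=
          Up_iter_nonneg_t8 v0 _ _
        have h8 : (2 * (S.m : ℝ) - Q.card - ((s₁ - Q.card : ℕ) : ℝ)) / (2 * (S.m : ℝ) - Q.card) ≤ 1 := by
          rw [Nat.cast_sub hQ, div_le_one (by linarith)]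
          linarith
        nlinarith
    have l3 : Wf S χ s₁ Q (fun _ => lam * 1) ≤ Wf S χ s₁ Q (fun A => (if x ∈ A then (0 : ℝ) else
        (Up^[j] (fun B => if x ∈ B then S.u B else 0)) A) +
        (lam * (if x ∈ A then (1 : ℝ) else 0) + lam * (if x ∈ A then (0 : ℝ) else
        (Up^[j - 1] (fun R => 1 - S.u R)) (insert x A)))) := by
      apply Wf_mono S hχ0 hχs
      intro A hA
      by_cases hxA : x ∈ A
      · simp [hxA]
      · simp only [hxA, if_false, mul_zero, zero_add]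
        obtain ⟨i, rfl⟩ : ∃ i, j = i + 1 := ⟨j - 1, by omega⟩
        have hcard : (insert x A).card = s₁ + 1 := by rw [Finset.card_insert_of_notMem hxA, hA]
        rw [Up_iter_insert _ hxA i (by rw [S.hcard]; omega), hn, hA, Nat.add_sub_cancel]
        have h9 : (Up^[i] S.u) (insert x A) + (Up^[i] (fun R => 1 - S.u R)) (insert x A) = 1 := by
          rw [← Up_iter_add]
          have : (fun Q => S.u Q + (1 - S.u Q)) = fun _ => (1 : ℝ) := by funext R; ring
          rw [this, Up_iter_const (by rw [hcard, S.hcard]; omega)]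
        have h10 : ((i : ℝ) + 1) / (2 * (S.m : ℝ) - s₁) = lam := by
          rw [hlam]; push_cast; ring
        rw [h10, ← mul_add]
        have h11 : (Up^[i] (fun Y => S.u Y)) (insert x A) = (Up^[i] S.u) (insert x A) := rfl
        rw [h11, h9]
    rw [Wf_const_mul S χ s₁ Q lam (fun _ => 1),
      Wf_add S χ s₁ Q (fun A => (if x ∈ A then (0 : ℝ) else
        (Up^[j] (fun B => if x ∈ B then S.u B else 0)) A)) (fun A =>
        (lam * (if x ∈ A then (1 : ℝ) else 0) + lam * (if x ∈ A then (0 : ℝ) else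
        (Up^[j - 1] (fun R => 1 - S.u R)) (insert x A)))),
      Wf_add S χ s₁ Q (fun A => lam * (if x ∈ A then (1 : ℝ) else 0))
        (fun A => lam * (if x ∈ A then (0 : ℝ) else
        (Up^[j - 1] (fun R => 1 - S.u R)) (insert x A))),
      Wf_const_mul, Wf_const_mul] at l3
    have m1 := mul_le_mul_of_nonneg_left w1 hlam0
    have m2 := mul_le_mul_of_nonneg_left l1 hlam0
    have m3 := mul_le_mul_of_nonneg_left l2 hlam0
    linarith
  -- upper bound
  have up : ∑ x ∈ X, g x * Wf S χ s₁ Q (fun A => if x ∈ A then (0 : ℝ) else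
      (Up^[j] (fun B => if x ∈ B then S.u B else 0)) A) ≤
      κ / 8 * (Gs * lam) + 4 / κ * Wf S χ s₁ Q (fun A => (Up^[j] S.u) A) := by
    have u1 : ∑ x ∈ X, g x * Wf S χ s₁ Q (fun A => if x ∈ A then (0 : ℝ) else
        (Up^[j] (fun B => if x ∈ B then S.u B else 0)) A) =
        Wf S χ s₁ Q (fun A => ∑ x ∈ X, g x * (if x ∈ A then (0 : ℝ) else
          (Up^[j] (fun B => if x ∈ B then S.u B else 0)) A)) := by
      rw [Wf_sum S χ s₁ Q X (fun x A => g x * (if x ∈ A then (0 : ℝ) else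
          (Up^[j] (fun B => if x ∈ B then S.u B else 0)) A))]
      refine Finset.sum_congr rfl fun x _ => ?_
      rw [Wf_const_mul]
    rw [u1]
    refine (Wf_mono S hχ0 hχs Q (fun A hA => point_bound S hj hsj hκ0 X g hg0 hg1 hsum A hA)).trans ?_
    rw [Wf_add S χ s₁ Q (fun A => (κ / 8 * ((∑ x ∈ X, g x) * ((j : ℝ) / (2 * (S.m : ℝ) - s₁)))) * 1)
      (fun A => 4 / κ * (Up^[j] S.u) A), Wf_const_mul S χ s₁ Q _ (fun _ => 1), Wf_const_mul]
    rw [← hGs, ← hlam]
    have hG0 : 0 ≤ Gs := Finset.sum_nonneg fun x _ => hg0 x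
    have : κ / 8 * (Gs * lam) * Wf S χ s₁ Q (fun _ => 1) ≤ κ / 8 * (Gs * lam) * 1 :=
      mul_le_mul_of_nonneg_left w1' (by positivity)
    linarith
  -- L u
  have hu : ∀ C, Up S.u C ≤ S.u C := by
    intro C
    have h5 : S.u C = S.f C + (1 - S.f C) * Up S.u C := Us_eq S.f S.f C
    have h6 : Up S.u C ≤ 1 := Up_le_of_le zero_le_one fun w _ => S.u_le_one _
    have h7 := S.f_nonneg C
    nlinarith
  have hui : ∀ i C, (Up^[i] S.u) C ≤ S.u C := by
    intro i
    induction i with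
    | zero => intro C; exact le_rfl
    | succ i ih =>
      intro C
      rw [Function.iterate_succ_apply']
      exact (Up_mono fun w _ => ih _).trans (hu C)
  have hui' : ∀ i C, 1 ≤ i → (Up^[i] S.u) C ≤ Up S.u C := by
    intro i C hi
    obtain ⟨i, rfl⟩ : ∃ i', i = i' + 1 := ⟨i - 1, by omega⟩
    rw [Function.iterate_succ_apply']
    exact Up_mono fun w _ => hui i _
  have lu : Wf S χ s₁ Q (fun A => (Up^[j] S.u) A) ≤
      Us S.f (fun C => S.f C * χ C.card * Up S.u C) Q := by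
    unfold Wf
    apply Us_mono S.f_le_one
    intro C
    apply mul_le_mul_of_nonneg_left _ (mul_nonneg (S.f_nonneg C) (hχ0 _))
    have : (Up^[s₁ - C.card] (fun A => (Up^[j] S.u) A)) C = (Up^[s₁ - C.card + j] S.u) C := by
      rw [Function.iterate_add_apply]
    rw [this]
    exact hui' _ _ (by omega)
  have low' : Gs * (lam * κ / 4) ≤ ∑ x ∈ X, g x * Wf S χ s₁ Q (fun A => if x ∈ A then (0 : ℝ) else
      (Up^[j] (fun B => if x ∈ B then S.u B else 0)) A) := by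
    rw [hGs, Finset.sum_mul]
    exact Finset.sum_le_sum fun x hx => mul_le_mul_of_nonneg_left (low x hx) (hg0 x)
  set WU := Wf S χ s₁ Q (fun A => (Up^[j] S.u) A) with hWU
  have fin1 : Gs * lam * κ / 8 ≤ 4 / κ * WU := by linarith
  have fin2 : Gs * lam * κ / 8 * κ ≤ 4 / κ * WU * κ := mul_le_mul_of_nonneg_right fin1 hκ0.le
  have fin3 : 4 / κ * WU * κ = 4 * WU := by field_simp
  rw [fin3] at fin2
  nlinarith

/-! ## part t9 -/

theorem Ev_Up_iterate' (t i : ℕ) (hti : t + i ≤ Fintype.card α) (g : Finset α → ℝ) :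
    Ev t (Up^[i] g) = Ev (t + i) g := by
  induction i generalizing g with
  | zero => rfl
  | succ i ih =>
    rw [Function.iterate_succ_apply, ih (by omega), Ev_Up (by omega)]
    rfl

theorem Sys.Ev_s_le_G (S : Sys α) {χ : ℕ → ℝ} (hχ0 : ∀ s, 0 ≤ χ s) (hχ1 : ∀ s, χ s ≤ 1)
    {t : ℕ} (ht : t ≤ 2 * S.m) :
    Ev t (Us S.f (fun C => S.f C * χ C.card * Up S.u C)) ≤ S.G := by
  set s : Finset α → ℝ := fun C => S.f C * χ C.card * Up S.u C with hs
  have hUp : ∀ C, 0 ≤ Up S.u C := fun C => Up_nonneg (fun w _ => S.u_nonneg _)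
  have hs0 : ∀ C, 0 ≤ s C := fun C => mul_nonneg (mul_nonneg (S.f_nonneg C) (hχ0 _)) (hUp C)
  have hcard := S.hcard
  have h1 : Ev t (Us S.f s) ≤ Ev t (fun P => ∑ i ∈ range (2 * S.m - t + 1), (Up^[i] s) P) := by
    apply Ev_mono
    intro P hP
    have := Us_le_sum (f := S.f) (s := s) S.f_nonneg S.f_le_one hs0 P
    rw [hcard, hP] at this
    exact this
  have h2 : Ev t (fun P => ∑ i ∈ range (2 * S.m - t + 1), (Up^[i] s) P)
      = ∑ i ∈ range (2 * S.m - t + 1), Ev (t + i) s := by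
    rw [Ev_sum]
    refine Finset.sum_congr rfl (fun i hi => ?_)
    rw [Finset.mem_range] at hi
    exact Ev_Up_iterate' t i (by omega) s
  have h3 : ∑ i ∈ range (2 * S.m - t + 1), Ev (t + i) s = ∑ p ∈ Finset.Ico t (2 * S.m + 1), Ev p s := by
    rw [Finset.sum_Ico_eq_sum_range]
    rw [show 2 * S.m + 1 - t = 2 * S.m - t + 1 by omega]
  have h4 : ∑ p ∈ Finset.Ico t (2 * S.m + 1), Ev p s ≤ ∑ p ∈ range (2 * S.m + 1), Ev p s := by
    apply Finset.sum_le_sum_of_subset_of_nonneg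
    · intro p hp
      rw [Finset.mem_Ico] at hp
      rw [Finset.mem_range]
      exact hp.2
    · intro p _ _
      exact Ev_nonneg (fun P _ => hs0 P)
  have h5 : ∑ p ∈ range (2 * S.m + 1), Ev p s ≤ S.G := by
    rw [S.G_eq_up]
    refine Finset.sum_le_sum (fun p _ => Ev_mono (fun P _ => ?_))
    simp only [hs]
    apply mul_le_mul_of_nonneg_right _ (hUp P)
    calc S.f P * χ P.card ≤ S.f P * 1 := mul_le_mul_of_nonneg_left (hχ1 _) (S.f_nonneg P)
      _ = S.f P := mul_one _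
  calc Ev t (Us S.f s) ≤ _ := h1
    _ = _ := h2
    _ = _ := h3
    _ ≤ _ := h4
    _ ≤ S.G := h5

end UF
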