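import Pool.Agent.UFree.Base
import Pool.Agent.UFree.LowA
import Pool.Agent.UFree.Member
import Pool.Agent.UFree.SysA
import Pool.Agent.UFree.SysB

set_option autoImplicit false
set_option linter.unusedSectionVars false
set_option linter.unusedVariables false
set_option linter.unusedSimpArgs false
open Finset

namespace UF
variable {α : Type*} [Fintype α] [DecidableEq α]

/-! ## part t10 -/

theorem lb3_Us_nonneg {k s : Finset α → ℝ} (hk : ∀ Q, k Q ≤ 1) (hs : ∀ Q, 0 ≤ s Q) :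
    ∀ (N : ℕ) (P : Finset α), Pᶜ.card = N → 0 ≤ Us k s P := by
  intro N
  induction N with
  | zero =>
    intro P hP
    rw [Us_eq]
    have : P = univ := by
      rw [Finset.card_eq_zero] at hP
      simpa using hP
    subst this
    rw [Up_univ, mul_zero, add_zero]
    exact hs _
  | succ N ih =>
    intro P hP
    rw [Us_eq]
    have h1 : 0 ≤ Up (Us k s) P := by
      apply Up_nonneg
      intro w hw
      apply ih
      have h2 : (insert w P)ᶜ = Pᶜ.erase w := by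
        ext a; simp
      rw [h2, Finset.card_erase_of_mem (by simpa using hw), hP]
      rfl
    have h2 := hk P
    have h3 := hs P
    have h4 : 0 ≤ (1 - k P) * Up (Us k s) P := mul_nonneg (by linarith) h1
    linarith

set_option maxHeartbeats 4000000 in
theorem Sys.lb3 (S : Sys α) (hR : S.Reg) {k : ℕ} (hk : k < S.M) {β t : ℕ} (hβ4 : 4 ≤ β)
    (hβ : (β : ℝ) ^ 2 ≤ S.m) (ht1 : S.m + 2 ≤ t + 4 * β) (ht2 : t + 3 * β ≤ S.m + 1) :
    Ev t (S.L3 (chiB S.m β) k (1 / Real.sqrt β) (S.m - β / 2 - t))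
      ≤ 70 * S.m / Real.sqrt β * S.G := by
  classical
  have hm8 : 100000000 ≤ S.m := hR.1
  have hm8' : (100000000 : ℝ) ≤ S.m := by exact_mod_cast hm8
  have hβ4' : (4 : ℝ) ≤ β := by exact_mod_cast hβ4
  have hm0 : (0 : ℝ) < S.m := by linarith only [hm8']
  -- β is small
  have hβm : (β : ℝ) * 10000 ≤ S.m := by
    by_contra hcon
    push Not at hcon
    by_cases h1 : (β : ℝ) ≤ 10000
    · linarith only [hcon, h1, hm8']
    · push Not at h1
      have h2 : (10000 : ℝ) * β ≤ β * β := mul_le_mul_of_nonneg_right h1.le (by linarith only [hβ4'])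
      have h3 : (β : ℝ) ^ 2 = β * β := sq _
      linarith only [hcon, h2, h3, hβ]
  have hβmN : β * 10000 ≤ S.m := by exact_mod_cast hβm
  have hs0 : 0 < Real.sqrt β := Real.sqrt_pos.2 (by linarith only [hβ4'])
  have hss : Real.sqrt β * Real.sqrt β = β := Real.mul_self_sqrt (by linarith only [hβ4'])
  set sq : ℝ := Real.sqrt β with hsq
  set θ : ℝ := 1 / sq with hθ
  have hθ0 : 0 < θ := by rw [hθ]; positivity
  set χ : ℕ → ℝ := chiB S.m β with hχdef
  have hχ0 : ∀ s, 0 ≤ χ s := by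
    intro s; simp only [hχdef, chiB]; split_ifs <;> norm_num
  have hχ1 : ∀ s, χ s ≤ 1 := by
    intro s; simp only [hχdef, chiB]; split_ifs <;> norm_num
  have hχhi : ∀ s, S.m - β < s → χ s = 0 := by
    intro s hs
    simp only [hχdef, chiB]
    rw [if_neg]
    omega
  have hχlo : ∀ s, s < S.m - 2 * β + 1 → χ s = 0 := by
    intro s hs
    simp only [hχdef, chiB]
    rw [if_neg]
    omega
  set sg : Finset α → ℝ := Us S.f (fun C => S.f C * χ C.card * Up S.u C) with hsg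
  have hsg0 : ∀ Q, 0 ≤ sg Q := by
    intro Q
    apply lb3_Us_nonneg S.f_le_one _ _ Q rfl
    intro C
    have h1 := S.f_nonneg C
    have h2 := hχ0 C.card
    have h3 : 0 ≤ Up S.u C := Up_nonneg fun w _ => S.u_nonneg _
    positivity
  obtain ⟨p, rfl⟩ : ∃ p, t = p + 1 := ⟨t - 1, by omega⟩
  set E : ℕ := S.m - β / 2 - (p + 1) with hE
  set Φ : Finset α → α → ℝ := fun P w =>
    if θ < S.ka χ P ∧ (Up^[E] (fun R => 1 - S.u R)) (insert w P) ≤ S.ka χ P / 2
    then S.ka χ P * S.g2 χ k (insert w P) w else 0 with hΦ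
  have hp2m : p + 1 ≤ 2 * S.m := by omega
  have hpc : p < Fintype.card α := by rw [S.hcard]; omega
  have hstep1 : Ev (p + 1) (S.L3 χ k θ E) =
      ((p : ℝ) + 1) * Ev p (fun P => (∑ w ∈ Pᶜ, Φ P w) / (Pᶜ.card : ℝ)) := by
    rw [Ev_double hpc Φ, ← Ev_const_mul]
    refine Ev_congr fun Q hQ => ?_
    have hQ' : (Q.card : ℝ) = (p : ℝ) + 1 := by rw [hQ]; push_cast; ring
    rw [hQ']
    have hp1 : (p : ℝ) + 1 ≠ 0 := by positivity
    rw [mul_div_cancel₀ _ hp1]
    simp only [Sys.L3, hΦ]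
    refine Finset.sum_congr rfl fun x hx => ?_
    rw [Finset.insert_erase hx]
  rw [hstep1]
  -- pointwise bound
  have hkey : ∀ Q : Finset α, Q.card = p →
      ∑ w ∈ Qᶜ, Φ Q w ≤ 64 * (S.m + β) / sq * sg Q := by
    intro Q hQ
    have hB0 : 0 ≤ 64 * (S.m + β) / sq * sg Q := by
      have := hsg0 Q
      positivity
    by_cases hκθ : θ < S.ka χ Q
    · set κ : ℝ := S.ka χ Q with hκdef
      set X : Finset α := Qᶜ.filter (fun x => (Up^[E] (fun R => 1 - S.u R)) (insert x Q) ≤ κ / 2)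
        with hX
      have hκ0 : 0 < κ := hθ0.trans hκθ
      have e1 : ∑ w ∈ Qᶜ, Φ Q w = κ * ∑ x ∈ X, S.g2 χ k (insert x Q) x := by
        rw [hX, Finset.sum_filter, Finset.mul_sum]
        refine Finset.sum_congr rfl fun x hx => ?_
        simp only [hΦ]
        rw [← hκdef]
        by_cases h1 : (Up^[E] (fun R => 1 - S.u R)) (insert x Q) ≤ κ / 2
        · rw [if_pos ⟨hκθ, h1⟩, if_pos h1]
        · rw [if_neg (fun h => h1 h.2), if_neg h1, mul_zero]
      have hsumle : ∑ x ∈ X, S.g2 χ k (insert x Q) x ≤ (S.m + 4 * β) / (β + 2) := by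
        have h1 : ∑ x ∈ X, S.g2 χ k (insert x Q) x ≤ ∑ x ∈ Qᶜ, S.g2 χ k (insert x Q) x := by
          apply Finset.sum_le_sum_of_subset_of_nonneg (Finset.filter_subset _ _)
          intro x _ _
          exact S.g2_nonneg hχ0 _ _ _
        have h2 := S.g2_sum hχ0 hχ1 k (s₀ := S.m - 2 * β + 1) hχlo (by omega) Q (by omega) (by omega)
        refine h1.trans (h2.trans ?_)
        have h3 : (((S.m - 2 * β + 1 : ℕ)) : ℝ) = S.m - 2 * β + 1 := by
          rw [Nat.cast_add, Nat.cast_sub (by omega)]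
          push_cast
          ring
        rw [h3, hQ]
        have h4 : (S.m : ℝ) + 2 ≤ (p : ℝ) + 1 + 4 * β := by exact_mod_cast ht1
        have h5 : (p : ℝ) + 1 + 3 * β ≤ S.m + 1 := by exact_mod_cast ht2
        apply div_le_div₀ (by positivity) _ (by positivity) _
        · linarith only [h4]
        · linarith only [h5]
      have hjc : ((β - β / 2 : ℕ) : ℝ) ≤ ((β : ℝ) + 1) / 2 := by
        have h1 : 2 * (β - β / 2) ≤ β + 1 := by omega
        have h2 : (2 : ℝ) * ((β - β / 2 : ℕ) : ℝ) ≤ (β : ℝ) + 1 := by exact_mod_cast h1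
        linarith only [h2]
      have hjc2 : (β : ℝ) / 2 ≤ ((β - β / 2 : ℕ) : ℝ) := by
        have h1 : β ≤ 2 * (β - β / 2) := by omega
        have h2 : (β : ℝ) ≤ (2 : ℝ) * ((β - β / 2 : ℕ) : ℝ) := by exact_mod_cast h1
        linarith only [h2]
      have hs1c : (((S.m - β : ℕ)) : ℝ) = S.m - β := by
        rw [Nat.cast_sub (by omega)]
      have hsum0 : 0 ≤ ∑ x ∈ X, S.g2 χ k (insert x Q) x :=
        Finset.sum_nonneg fun x _ => S.g2_nonneg hχ0 _ _ _
      have hk3 := S.lb3_key hχ0 hχ1 (s₁ := S.m - β) (j := β - β / 2) hχhi (by omega) (by omega)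
        (Q := Q) (by omega) hκ0 (S.ka_le_psi hχ0 Q) (by
          rw [hs1c, hQ]
          have h4 : (S.m : ℝ) + 2 ≤ (p : ℝ) + 1 + 4 * β := by exact_mod_cast ht1
          have h5 : (p : ℝ) + 1 + 3 * β ≤ S.m + 1 := by exact_mod_cast ht2
          have h6 : (12 : ℝ) * (sq * sq * sq) ≤ S.m := by
            have h7 : (sq * sq) ^ 2 ≤ S.m := by rw [hss]; exact hβ
            by_cases h8 : 12 ≤ sq
            · have h9 : 12 * (sq * sq * sq) ≤ sq * (sq * sq * sq) := by gcongr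
              calc 12 * (sq * sq * sq) ≤ sq * (sq * sq * sq) := h9
                _ = (sq * sq) ^ 2 := by ring
                _ ≤ _ := h7
            · push Not at h8
              have h9 : sq * sq * sq ≤ 12 * 12 * 12 := by gcongr
              linarith only [h9, hm8']
          have h10 : (S.m - β - (p : ℝ)) / (2 * S.m - p) ≤ 3 * β / S.m := by
            rw [div_le_div_iff₀ (by linarith only [h5, hm0, hβ4']) hm0]
            have h11 : (S.m : ℝ) - β - p ≤ 3 * β := by linarith only [h4]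
            have h12 : (S.m : ℝ) ≤ 2 * S.m - p := by linarith only [h5, hm0, hβ4']
            have h13 : (0 : ℝ) ≤ 3 * β := by positivity
            calc ((S.m : ℝ) - β - p) * S.m ≤ (3 * β) * S.m := by gcongr
              _ ≤ (3 * β) * (2 * S.m - p) := by gcongr
          refine h10.trans ?_
          have h14 : 3 * (β : ℝ) / S.m ≤ θ / 4 := by
            rw [hθ, div_div, div_le_div_iff₀ hm0 (by positivity), ← hss]
            linarith only [h6]
          linarith only [h14, hκθ])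
        X (by
          intro x hx
          rw [hX, Finset.mem_filter] at hx
          simpa using hx.1)
        (by
          intro x hx
          rw [hX, Finset.mem_filter] at hx
          have h1 : S.m - β - Q.card + (β - β / 2) - 1 = E := by
            rw [hE, hQ]; omega
          rw [h1]
          exact hx.2)
        (fun x => S.g2 χ k (insert x Q) x) (fun x => S.g2_nonneg hχ0 _ _ _)
        (fun x => S.g2_le_one hχ0 hχ1 _ _ _) (by
          rw [hs1c]
          have h1 : (2 * (S.m : ℝ) - (S.m - β)) = S.m + β := by ring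
          rw [h1]
          calc (∑ x ∈ X, S.g2 χ k (insert x Q) x) * (((β - β / 2 : ℕ) : ℝ) / (S.m + β))
              ≤ ((S.m + 4 * β) / (β + 2)) * ((((β : ℝ) + 1) / 2) / (S.m + β)) := by
                gcongr
            _ ≤ 1 := by
                rw [div_div, div_mul_div_comm, div_le_one (by positivity)]
                have q1 : (0 : ℝ) ≤ S.m * β := by positivity
                linarith only [q1, hβ, hβ4', hm0])
      rw [hs1c] at hk3
      have h1 : (2 * (S.m : ℝ) - (S.m - β)) = S.m + β := by ring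
      rw [h1] at hk3
      rw [e1]
      set sgm : ℝ := ∑ x ∈ X, S.g2 χ k (insert x Q) x with hsgm
      have hmβ : (0 : ℝ) < S.m + β := by positivity
      -- sgm * (j/(m+β)) * κ² ≤ 32 s
      have h2 : sgm * ((β / 2) / (S.m + β)) * (κ * θ) ≤ 32 * sg Q := by
        refine le_trans ?_ hk3
        have h3 : κ * θ ≤ κ ^ 2 := by
          have : κ ^ 2 = κ * κ := by ring
          rw [this]
          exact mul_le_mul_of_nonneg_left hκθ.le hκ0.le
        have g1 : ((β : ℝ) / 2) / (S.m + β) ≤ ((β - β / 2 : ℕ) : ℝ) / (S.m + β) :=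
          div_le_div_of_nonneg_right hjc2 hmβ.le
        exact mul_le_mul (mul_le_mul_of_nonneg_left g1 hsum0) h3 (mul_pos hκ0 hθ0).le
          (mul_nonneg hsum0 (div_nonneg (Nat.cast_nonneg _) hmβ.le))
      have h4 : κ * sgm = (64 * (S.m + β) / sq) * (sgm * ((β / 2) / (S.m + β)) * (κ * θ) / 32) := by
        rw [hθ, ← hss]
        field_simp
        ring
      rw [h4]
      have h5 : sgm * ((β / 2) / (S.m + β)) * (κ * θ) / 32 ≤ sg Q := by
        linarith only [h2]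
      gcongr
    · have h0 : ∑ w ∈ Qᶜ, Φ Q w = 0 := by
        apply Finset.sum_eq_zero
        intro w _
        simp only [hΦ]
        rw [if_neg (fun h => hκθ h.1)]
      rw [h0]
      exact hB0
  have hstep2 : Ev p (fun P => (∑ w ∈ Pᶜ, Φ P w) / (Pᶜ.card : ℝ)) ≤
      (64 * (S.m + β) / sq) / (2 * S.m - p) * S.G := by
    have h1 := S.Ev_s_le_G hχ0 hχ1 (t := p) (by omega)
    have h2 : (0 : ℝ) < 2 * S.m - p := by
      have : (p : ℝ) + 1 ≤ 2 * S.m := by exact_mod_cast hp2m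
      linarith only [this]
    calc Ev p (fun P => (∑ w ∈ Pᶜ, Φ P w) / (Pᶜ.card : ℝ))
        ≤ Ev p (fun P => (64 * (S.m + β) / sq) / (2 * S.m - p) * sg P) := by
          refine Ev_mono fun P hP => ?_
          have h3 : (Pᶜ.card : ℝ) = 2 * S.m - p := by
            rw [Finset.card_compl, S.hcard, hP, Nat.cast_sub (by omega)]
            push_cast
            ring
          rw [h3, div_mul_eq_mul_div]
          gcongr
          exact hkey P hP
      _ = (64 * (S.m + β) / sq) / (2 * S.m - p) * Ev p sg := Ev_const_mul _ _ _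
      _ ≤ _ := by gcongr
  have hG := S.G_nonneg
  have h5 : (p : ℝ) + 1 + 3 * β ≤ S.m + 1 := by exact_mod_cast ht2
  have h2 : (0 : ℝ) < 2 * S.m - p := by linarith only [h5, hm0, hβ4']
  calc ((p : ℝ) + 1) * Ev p (fun P => (∑ w ∈ Pᶜ, Φ P w) / (Pᶜ.card : ℝ))
      ≤ ((p : ℝ) + 1) * ((64 * (S.m + β) / sq) / (2 * S.m - p) * S.G) := by gcongr
    _ = (((p : ℝ) + 1) / (2 * S.m - p)) * (64 * (S.m + β)) * (S.G / sq) := by
        field_simp
    _ ≤ 1 * (70 * S.m) * (S.G / sq) := by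
        have h6 : ((p : ℝ) + 1) / (2 * S.m - p) ≤ 1 := by
          rw [div_le_one h2]
          linarith only [h5, hm0, hβ4']
        have h7 : 64 * ((S.m : ℝ) + β) ≤ 70 * S.m := by linarith only [hβm, hm0]
        have h8 : 0 ≤ S.G / sq := div_nonneg hG hs0.le
        exact mul_le_mul_of_nonneg_right (mul_le_mul h6 h7 (by positivity) zero_le_one) h8
    _ = _ := by ring

/-! ## part t11 -/

theorem Sys.m_pos' (S : Sys α) (hR : S.Reg) : 1 ≤ S.m := le_trans (by norm_num) hR.1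

theorem Sys.m_posR (S : Sys α) (hR : S.Reg) : (0:ℝ) < S.m := by
  exact_mod_cast S.m_pos' hR

theorem Sys.abs_le_h (S : Sys α) {s : ℕ} (hs : S.ph s ≠ 0) : |(s : ℝ) - S.m| ≤ S.h := by
  by_contra hcon
  apply hs
  apply S.ph_eq_zero
  by_contra h2
  push Not at h2
  apply hcon
  have h3 : (S.m : ℝ) ≤ s + S.h := by exact_mod_cast h2.1
  have h4 : (s : ℝ) ≤ S.m + S.h := by exact_mod_cast h2.2
  rw [abs_le]
  constructor <;> linarith

theorem Sys.cost_bound (S : Sys α) (hR : S.Reg) (s : ℕ) :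
    min 1 (((s : ℝ) - S.m) ^ 2 / S.m) ≤ 4 * (1 - wt S.m s) := by
  have := one_sub_wt_ge (S.m_pos' hR) s
  linarith

/-- moment bounds for the mass distribution -/
theorem Sys.mom1 (S : Sys α) (hR : S.Reg) {L : ℝ} (hL : 1 ≤ L) :
    ∑ s ∈ range (2 * S.m + 1), |(s : ℝ) - S.m| / S.m * S.ph s
      ≤ L / S.m * S.T + 4 * (1 / L + (S.h : ℝ) / S.m) * S.cost := by
  have hm := S.m_posR hR
  have hL0 : (0:ℝ) < L := by linarith
  rw [Sys.T, Sys.cost, Finset.mul_sum, Finset.mul_sum, ← Finset.sum_add_distrib]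
  refine Finset.sum_le_sum fun s _ => ?_
  by_cases hph : S.ph s = 0
  · rw [hph]; simp
  have hp := S.ph_nonneg s
  have hj := S.abs_le_h hph
  have hc := S.cost_bound hR s
  have hw : 0 ≤ 1 - wt S.m s := by have := wt_le_one S.m s; linarith
  have hh : (0:ℝ) ≤ S.h := Nat.cast_nonneg _
  set j : ℝ := (s : ℝ) - S.m with hjdef
  have key : |j| / S.m ≤ L / S.m + 4 * (1 / L + (S.h : ℝ) / S.m) * (1 - wt S.m s) := by
    have t1 : 0 ≤ 4 * (1 / L) * (1 - wt S.m s) := by positivity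
    have t2 : 0 ≤ 4 * ((S.h : ℝ) / S.m) * (1 - wt S.m s) := by positivity
    have t3 : 0 ≤ L / S.m := by positivity
    rcases le_or_gt |j| L with h1 | h1
    · have : |j| / S.m ≤ L / S.m := div_le_div_of_nonneg_right h1 hm.le
      linarith
    rcases le_or_gt (j ^ 2) S.m with h2 | h2
    · have h3 : j ^ 2 / S.m ≤ 1 := by rw [div_le_one hm]; exact h2
      rw [min_eq_right h3] at hc
      have h4 : |j| / S.m ≤ (1 / L) * (j ^ 2 / S.m) := by
        rw [div_mul_div_comm, one_mul, div_le_div_iff₀ hm (by positivity)]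
        have h5 : |j| * L ≤ j ^ 2 := by
          rw [← sq_abs j, sq]
          exact mul_le_mul_of_nonneg_left h1.le (abs_nonneg _)
        nlinarith
      have h6 : (1 / L) * (j ^ 2 / S.m) ≤ (1 / L) * (4 * (1 - wt S.m s)) :=
        mul_le_mul_of_nonneg_left hc (by positivity)
      linarith
    · have h3 : 1 ≤ j ^ 2 / S.m := by rw [one_le_div hm]; exact h2.le
      rw [min_eq_left h3] at hc
      have h4 : |j| / S.m ≤ S.h / S.m := div_le_div_of_nonneg_right hj hm.le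
      have h5 : (S.h : ℝ) / S.m * 1 ≤ (S.h : ℝ) / S.m * (4 * (1 - wt S.m s)) :=
        mul_le_mul_of_nonneg_left hc (by positivity)
      linarith
  have := mul_le_mul_of_nonneg_right key hp
  calc |j| / S.m * S.ph s ≤ _ := this
    _ = _ := by ring

theorem Sys.mom1' (S : Sys α) (hR : S.Reg) :
    ∑ s ∈ range (2 * S.m + 1), |(s : ℝ) - S.m| / S.m * S.ph s ≤ 4 * S.cost := by
  have hm := S.m_posR hR
  rw [Sys.cost, Finset.mul_sum]
  refine Finset.sum_le_sum fun s hs => ?_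
  have hp := S.ph_nonneg s
  have hc := S.cost_bound hR s
  have hs' : s ≤ 2 * S.m := by
    have := Finset.mem_range.1 hs
    omega
  have hsR : (s : ℝ) ≤ 2 * S.m := by exact_mod_cast hs'
  have hs0 : (0:ℝ) ≤ s := Nat.cast_nonneg _
  set j : ℝ := (s : ℝ) - S.m with hjdef
  have h1 : |j| ≤ S.m := by
    rw [abs_le]; constructor <;> linarith
  have h2 : |j| ≤ j ^ 2 := by
    have hz : |((s : ℤ) - (S.m : ℤ))| ≤ ((s : ℤ) - (S.m : ℤ)) ^ 2 := by
      rw [← sq_abs]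
      rcases eq_or_ne |((s : ℤ) - (S.m : ℤ))| 0 with h0 | h0
      · rw [h0]; norm_num
      · have : 1 ≤ |((s : ℤ) - (S.m : ℤ))| := Int.one_le_abs (by simpa using h0)
        nlinarith
    have := (Int.cast_le (R := ℝ)).2 hz
    push_cast at this
    exact this
  have h3 : |j| / S.m ≤ min 1 (j ^ 2 / S.m) := by
    apply le_min
    · rw [div_le_one hm]; exact h1
    · exact div_le_div_of_nonneg_right h2 hm.le
  have := mul_le_mul_of_nonneg_right (h3.trans hc) hp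
  linarith

theorem Sys.mom2 (S : Sys α) (hR : S.Reg) :
    ∑ s ∈ range (2 * S.m + 1), ((s : ℝ) - S.m) ^ 2 / S.m * S.ph s
      ≤ S.T + 4 * ((S.h : ℝ) ^ 2 / S.m) * S.cost := by
  have hm := S.m_posR hR
  rw [Sys.T, Sys.cost, Finset.mul_sum, ← Finset.sum_add_distrib]
  refine Finset.sum_le_sum fun s _ => ?_
  by_cases hph : S.ph s = 0
  · rw [hph]; simp
  have hp := S.ph_nonneg s
  have hj := S.abs_le_h hph
  have hc := S.cost_bound hR s
  have hw : 0 ≤ 1 - wt S.m s := by have := wt_le_one S.m s; linarith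
  have hh : (0:ℝ) ≤ S.h := Nat.cast_nonneg _
  set j : ℝ := (s : ℝ) - S.m with hjdef
  have key : j ^ 2 / S.m ≤ 1 + 4 * ((S.h : ℝ) ^ 2 / S.m) * (1 - wt S.m s) := by
    have t2 : 0 ≤ 4 * ((S.h : ℝ) ^ 2 / S.m) * (1 - wt S.m s) := by positivity
    rcases le_or_gt (j ^ 2) S.m with h2 | h2
    · have h3 : j ^ 2 / S.m ≤ 1 := by rw [div_le_one hm]; exact h2
      linarith
    · have h3 : 1 ≤ j ^ 2 / S.m := by rw [one_le_div hm]; exact h2.le
      rw [min_eq_left h3] at hc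
      have h6 : j ^ 2 ≤ (S.h : ℝ) ^ 2 := by
        rw [← sq_abs j]
        exact pow_le_pow_left₀ (abs_nonneg _) hj 2
      have h4 : j ^ 2 / S.m ≤ (S.h : ℝ) ^ 2 / S.m := div_le_div_of_nonneg_right h6 hm.le
      have h5 : (S.h : ℝ) ^ 2 / S.m * 1 ≤ (S.h : ℝ) ^ 2 / S.m * (4 * (1 - wt S.m s)) :=
        mul_le_mul_of_nonneg_left hc (by positivity)
      linarith
  have := mul_le_mul_of_nonneg_right key hp
  calc j ^ 2 / S.m * S.ph s ≤ _ := this
    _ = _ := by ring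

theorem Sys.mass_low (S : Sys α) (hR : S.Reg) {D : ℕ} (hD : 1 ≤ D)
    (hDm : (D : ℝ) ^ 2 ≤ 4 * S.m) :
    ∑ s ∈ range (S.m - D / 2), S.ph s ≤ 16 * S.m / (D : ℝ) ^ 2 * S.cost := by
  have hm := S.m_posR hR
  have hD0 : (0:ℝ) < D := by exact_mod_cast hD
  have hsub : range (S.m - D / 2) ⊆ range (2 * S.m + 1) := by
    intro s hs
    rw [Finset.mem_range] at hs ⊢
    omega
  rw [Sys.cost, Finset.mul_sum]
  have hnn : ∀ s, 0 ≤ 16 * S.m / (D : ℝ) ^ 2 * ((1 - wt S.m s) * S.ph s) := by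
    intro s
    have hw : 0 ≤ 1 - wt S.m s := by have := wt_le_one S.m s; linarith
    have hp := S.ph_nonneg s
    positivity
  refine le_trans (Finset.sum_le_sum fun s hs => ?_)
    (Finset.sum_le_sum_of_subset_of_nonneg hsub fun s _ _ => hnn s)
  have hp := S.ph_nonneg s
  have hc := S.cost_bound hR s
  have hs' := Finset.mem_range.1 hs
  have h1 : D < 2 * (S.m - s) := by omega
  have hsm : s ≤ S.m := by omega
  have h1R : (D : ℝ) < 2 * ((S.m : ℝ) - s) := by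
    have := (Nat.cast_lt (α := ℝ)).2 h1
    rw [Nat.cast_mul, Nat.cast_sub hsm] at this
    exact_mod_cast this
  have h2 : (D : ℝ) ^ 2 / 4 ≤ ((s : ℝ) - S.m) ^ 2 := by nlinarith
  have h3 : (D : ℝ) ^ 2 / (4 * S.m) ≤ min 1 (((s : ℝ) - S.m) ^ 2 / S.m) := by
    apply le_min
    · rw [div_le_one (by positivity)]; exact hDm
    · rw [div_le_div_iff₀ (by positivity) hm]
      nlinarith
  have h4 : (D : ℝ) ^ 2 / (4 * S.m) ≤ 4 * (1 - wt S.m s) := h3.trans hc
  have h5 : 1 ≤ 16 * S.m / (D : ℝ) ^ 2 * (1 - wt S.m s) := by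
    rw [div_le_iff₀ (by positivity)] at h4
    rw [div_mul_eq_mul_div, le_div_iff₀ (by positivity)]
    linarith
  have := mul_le_mul_of_nonneg_right h5 hp
  calc S.ph s = 1 * S.ph s := by ring
    _ ≤ _ := this
    _ = _ := by ring

theorem Sys.T_nonneg (S : Sys α) : 0 ≤ S.T := by
  rw [Sys.T]
  exact Finset.sum_nonneg fun s _ => S.ph_nonneg s

/-! ## part t12 -/

theorem beta_small {m β : ℕ} (hm : 100000000 ≤ m) (hβ : (β : ℝ) ^ 2 ≤ m) : 10000 * β ≤ m := by
  have h : β ^ 2 ≤ m := by exact_mod_cast hβ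
  by_contra hcon
  push Not at hcon
  have h1 : β * β < 10000 * β := by nlinarith
  have h2 : β < 10000 := by
    by_contra h3
    push Not at h3
    have := Nat.mul_le_mul_right β h3
    omega
  omega

theorem chiB_nonneg (m β s : ℕ) : 0 ≤ chiB m β s := by
  unfold chiB; split_ifs <;> norm_num

theorem chiB_le_one (m β s : ℕ) : chiB m β s ≤ 1 := by
  unfold chiB; split_ifs <;> norm_num

theorem Sys.low_one (S : Sys α) {k : ℕ} {β t : ℕ} (hβ4 : 4 ≤ β)
    (hβm : 10000 * β ≤ S.m) (ht : t ≤ S.m - 3 * β + 1) :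
    Ev t (S.Om (chiB S.m β) k) ≤ (1 / Real.sqrt β) * Ev t (S.Om2 (chiB S.m β) k) +
      4 * Ev t (fun T => Us S.f (fun Q => S.f Q * chiLt (S.m - β / 2) Q.card) T *
        S.Om2 (chiB S.m β) k T) +
      Ev t (S.L2 (chiB S.m β) k (1 / Real.sqrt β)) +
      Ev t (S.L3 (chiB S.m β) k (1 / Real.sqrt β) (S.m - β / 2 - t)) := by
  have hsq : 0 < Real.sqrt β := Real.sqrt_pos.2 (by exact_mod_cast (by omega : 0 < β))
  rw [← Ev_const_mul, ← Ev_const_mul, ← Ev_add, ← Ev_add, ← Ev_add]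
  apply Ev_mono
  intro P hP
  have hE : P.card + (S.m - β / 2 - t) = S.m - β / 2 := by omega
  have h1 := S.Om_split (χ := chiB S.m β) (chiB_nonneg S.m β) (chiB_le_one S.m β) k
    (θ := 1 / Real.sqrt β) (by positivity) P (S.m - β / 2 - t) (by omega)
  rw [hE] at h1
  exact h1

theorem Sys.low_inner (S : Sys α) (hR : S.Reg) (k : ℕ) {β t : ℕ}
    (hβ : (β : ℝ) ^ 2 ≤ S.m) (ht1 : S.m ≤ t + 4 * β) (ht2 : t ≤ S.m) :
    ∑ s ∈ Icc t (2 * S.m), S.ph s *
      (540000 * (((k : ℝ) + 2) ^ 2 + ((s : ℝ) - t) ^ 2 / S.m)) ≤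
    540000 * ((((k : ℝ) + 2) ^ 2 + 34) * S.T + 8 * ((S.h : ℝ) ^ 2 / S.m) * S.cost) := by
  have hm : (0 : ℝ) < S.m := by
    have : 0 < S.m := by have := hR.1; omega
    exact_mod_cast this
  have h1 : (S.m : ℝ) ≤ t + 4 * β := by exact_mod_cast ht1
  have h2 : (t : ℝ) ≤ S.m := by exact_mod_cast ht2
  calc ∑ s ∈ Icc t (2 * S.m), S.ph s *
      (540000 * (((k : ℝ) + 2) ^ 2 + ((s : ℝ) - t) ^ 2 / S.m))
      ≤ ∑ s ∈ Icc t (2 * S.m), 540000 * ((((k : ℝ) + 2) ^ 2 + 32) * S.ph s +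
        2 * (((s : ℝ) - S.m) ^ 2 / S.m * S.ph s)) := by
        apply sum_le_sum
        intro s _
        have hp := S.ph_nonneg s
        have h3 : ((s : ℝ) - t) ^ 2 / S.m ≤ 2 * (((s : ℝ) - S.m) ^ 2 / S.m) + 32 := by
          rw [div_le_iff₀ hm, add_mul, mul_assoc, div_mul_cancel₀ _ hm.ne']
          nlinarith [sq_nonneg (((s : ℝ) - S.m) - (S.m - t)), mul_nonneg
            (by linarith : 0 ≤ (S.m : ℝ) - t) (by linarith : 0 ≤ (t : ℝ) + 4 * β - S.m)]
        have h4 := mul_le_mul_of_nonneg_left h3 hp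
        nlinarith
    _ ≤ ∑ s ∈ range (2 * S.m + 1), 540000 * ((((k : ℝ) + 2) ^ 2 + 32) * S.ph s +
        2 * (((s : ℝ) - S.m) ^ 2 / S.m * S.ph s)) := by
        apply sum_le_sum_of_subset_of_nonneg
        · intro s hs
          rw [mem_Icc] at hs
          rw [mem_range]
          omega
        · intro s _ _
          have hp := S.ph_nonneg s
          positivity
    _ = 540000 * ((((k : ℝ) + 2) ^ 2 + 32) * S.T +
        2 * ∑ s ∈ range (2 * S.m + 1), ((s : ℝ) - S.m) ^ 2 / S.m * S.ph s) := by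
        rw [← mul_sum, sum_add_distrib, ← mul_sum, ← mul_sum]
        rfl
    _ ≤ _ := by
        have := S.mom2 hR
        nlinarith

theorem Sys.low_tail (S : Sys α) (hR : S.Reg) {β t : ℕ} (ht1 : S.m ≤ t + 4 * β) (ht2 : t ≤ S.m) :
    ∑ s ∈ Icc t (2 * S.m), ((s : ℝ) - t) / s * S.ph s ≤
      1.001 * (4 * S.cost + 4 * β * S.T / S.m) := by
  have hm : (0 : ℝ) < S.m := by
    have : 0 < S.m := by have := hR.1; omega
    exact_mod_cast this
  have h1 : (S.m : ℝ) ≤ t + 4 * β := by exact_mod_cast ht1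
  have h2 : (t : ℝ) ≤ S.m := by exact_mod_cast ht2
  have hh : 5000 * (S.h : ℝ) ≤ S.m := by exact_mod_cast hR.2
  calc ∑ s ∈ Icc t (2 * S.m), ((s : ℝ) - t) / s * S.ph s
      ≤ ∑ s ∈ Icc t (2 * S.m), 1.001 * (|(s : ℝ) - S.m| / S.m * S.ph s +
        4 * β / S.m * S.ph s) := by
        apply sum_le_sum
        intro s hs
        rw [mem_Icc] at hs
        have hp := S.ph_nonneg s
        rcases lt_or_ge (s + S.h) S.m with hlt | hge
        · rw [S.ph_eq_zero (Or.inl hlt)]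
          simp
        · have h3 : (S.m : ℝ) ≤ s + S.h := by exact_mod_cast hge
          have hs0 : (0 : ℝ) < s := by nlinarith
          have hts : (t : ℝ) ≤ s := by exact_mod_cast hs.1
          have h4 : ((s : ℝ) - t) / s ≤ 1.001 * ((|(s : ℝ) - S.m| + 4 * β) / S.m) := by
            rw [← mul_div_assoc, div_le_div_iff₀ hs0 hm]
            have h5 : (s : ℝ) - t ≤ |(s : ℝ) - S.m| + 4 * β := by
              have := le_abs_self ((s : ℝ) - S.m)
              linarith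
            have h6 : (S.m : ℝ) ≤ 1.001 * s := by nlinarith
            have h7 : 0 ≤ (s : ℝ) - t := by linarith
            have h8 : 0 ≤ |(s : ℝ) - S.m| + 4 * (β : ℝ) := by positivity
            calc ((s : ℝ) - t) * S.m ≤ (|(s : ℝ) - S.m| + 4 * β) * (1.001 * s) :=
                  mul_le_mul h5 h6 hm.le h8
              _ = _ := by ring
          have h5 := mul_le_mul_of_nonneg_right h4 hp
          refine h5.trans (le_of_eq ?_)
          ring
    _ ≤ ∑ s ∈ range (2 * S.m + 1), 1.001 * (|(s : ℝ) - S.m| / S.m * S.ph s +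
        4 * β / S.m * S.ph s) := by
        apply sum_le_sum_of_subset_of_nonneg
        · intro s hs
          rw [mem_Icc] at hs
          rw [mem_range]
          omega
        · intro s _ _
          have hp := S.ph_nonneg s
          positivity
    _ = 1.001 * (∑ s ∈ range (2 * S.m + 1), |(s : ℝ) - S.m| / S.m * S.ph s +
        4 * β / S.m * S.T) := by
        rw [← mul_sum, sum_add_distrib, ← mul_sum]
        rfl
    _ ≤ _ := by
        have := S.mom1' hR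
        have e : 4 * (β : ℝ) * S.T / S.m = 4 * β / S.m * S.T := by ring
        rw [e]
        nlinarith

theorem Sys.low_i (S : Sys α) (hR : S.Reg) {k : ℕ} (hk : k < S.M) {β : ℕ} (hβ4 : 4 ≤ β)
    (hβ : (β : ℝ) ^ 2 ≤ S.m) :
    ∑ t ∈ Ico (S.m - 4 * β + 2) (S.m - 4 * β + 2 + β), Ev t (S.Om2 (chiB S.m β) k)
      ≤ β * (4 + 10260000 * ((k : ℝ) + 2) ^ 2 * S.T + 2 * (S.m * S.cost)) +
        (5 * (S.m * S.nu) + 21 * (S.m * S.cost) + 21 * (β * S.T)) := by
  have hβm := beta_small hR.1 hβ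
  have hm : (0 : ℝ) < S.m := by
    have : 0 < S.m := by have := hR.1; omega
    exact_mod_cast this
  have hh : 5000 * (S.h : ℝ) ≤ S.m := by exact_mod_cast hR.2
  have hT := S.T_nonneg
  have hc := S.cost_nonneg
  have hK : 4 ≤ ((k : ℝ) + 2) ^ 2 := by
    have : (0 : ℝ) ≤ k := by positivity
    nlinarith
  have h1 := S.window_bound hR hk (S.om2 (chiB S.m β)) (S.om2_nonneg (chiB_nonneg S.m β))
    (S.om2_row (chiB_nonneg S.m β) (chiB_le_one S.m β))
    (S.om2_col (chiB_nonneg S.m β) (chiB_le_one S.m β))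
    (fun T x y h => (S.om2_supp T x y h).1)
    (τ := S.m - 4 * β + 2) (w := β) (by omega) (by omega)
  have h2 : ∑ t ∈ Ico (S.m - 4 * β + 2) (S.m - 4 * β + 2 + β),
      (4 + 2 * ∑ s ∈ Icc t (2 * S.m), S.ph s *
        (540000 * (((k : ℝ) + 2) ^ 2 + ((s : ℝ) - t) ^ 2 / S.m))) ≤
      β * (4 + 10260000 * ((k : ℝ) + 2) ^ 2 * S.T + 2 * (S.m * S.cost)) := by
    have h3 : ∀ t ∈ Ico (S.m - 4 * β + 2) (S.m - 4 * β + 2 + β),
        (4 + 2 * ∑ s ∈ Icc t (2 * S.m), S.ph s *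
          (540000 * (((k : ℝ) + 2) ^ 2 + ((s : ℝ) - t) ^ 2 / S.m))) ≤
        4 + 10260000 * ((k : ℝ) + 2) ^ 2 * S.T + 2 * (S.m * S.cost) := by
      intro t ht
      rw [mem_Ico] at ht
      have h4 := S.low_inner hR k (t := t) hβ (by omega) (by omega)
      have h5 : (S.h : ℝ) ^ 2 / S.m ≤ S.m / 25000000 := by
        rw [div_le_div_iff₀ hm (by norm_num)]
        have h0 : (0 : ℝ) ≤ S.h := by positivity
        nlinarith
      have h6 : (S.h : ℝ) ^ 2 / S.m * S.cost ≤ S.m / 25000000 * S.cost :=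
        mul_le_mul_of_nonneg_right h5 hc
      have h7 : 34 * S.T ≤ 8.5 * ((k : ℝ) + 2) ^ 2 * S.T :=
        mul_le_mul_of_nonneg_right (by linarith) hT
      have h8 : 0 ≤ S.m * S.cost := by positivity
      have h9 : 0 ≤ (S.h : ℝ) ^ 2 / S.m * S.cost := by positivity
      have h10 : 540000 * ((((k : ℝ) + 2) ^ 2 + 34) * S.T + 8 * ((S.h : ℝ) ^ 2 / S.m) * S.cost) =
          540000 * (((k : ℝ) + 2) ^ 2 * S.T) + 540000 * (34 * S.T) +
            4320000 * ((S.h : ℝ) ^ 2 / S.m * S.cost) := by ring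
      rw [h10] at h4
      have h11 : S.m / 25000000 * S.cost = (S.m * S.cost) / 25000000 := by ring
      rw [h11] at h6
      linarith
    refine (sum_le_sum h3).trans ?_
    rw [sum_const, Nat.card_Ico, nsmul_eq_mul]
    have : S.m - 4 * β + 2 + β - (S.m - 4 * β + 2) = β := by omega
    rw [this]
  have h4 : 5 * S.m * Ev (S.m - 4 * β + 2 - 1) (fun Q => (1 - Dn S.H Q) * S.b Q) ≤
      5 * (S.m * S.nu) + 21 * (S.m * S.cost) + 21 * (β * S.T) := by
    have h5 := S.Ev_b_bound (t := S.m - 4 * β + 2 - 1) (by omega)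
    have h6 := S.low_tail hR (β := β) (t := S.m - 4 * β + 2 - 1) (by omega) (by omega)
    have h7 := h5.trans (add_le_add le_rfl h6)
    have h8 := mul_le_mul_of_nonneg_left h7 (by positivity : 0 ≤ 5 * (S.m : ℝ))
    have e : 5 * (S.m : ℝ) * (S.nu + 1.001 * (4 * S.cost + 4 * β * S.T / S.m)) =
        5 * (S.m * S.nu) + 20.02 * (S.m * S.cost) + 20.02 * (β * S.T) := by
      field_simp
      ring
    rw [e] at h8
    have h9 : 0 ≤ S.m * S.cost := by positivity
    have h10 : 0 ≤ (β : ℝ) * S.T := by positivity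
    linarith
  exact h1.trans (add_le_add h2 h4)

theorem Sys.low_ii (S : Sys α) (hR : S.Reg) {k : ℕ} (hk : k < S.M) {β : ℕ} (hβ4 : 4 ≤ β)
    (hβ : (β : ℝ) ^ 2 ≤ S.m) :
    ∑ t ∈ Ico (S.m - 4 * β + 2) (S.m - 4 * β + 2 + β), Ev t (fun T =>
      Us S.f (fun Q => S.f Q * chiLt (S.m - β / 2) Q.card) T * S.Om2 (chiB S.m β) k T)
      ≤ 12000020 * ((k : ℝ) + 2) ^ 2 * (S.m * S.cost) := by
  have hβm := beta_small hR.1 hβ
  have hm : (0 : ℝ) < S.m := by
    have : 0 < S.m := by have := hR.1; omega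
    exact_mod_cast this
  have hβ0 : (4 : ℝ) ≤ β := by exact_mod_cast hβ4
  have hc := S.cost_nonneg
  have hK : 4 ≤ ((k : ℝ) + 2) ^ 2 := by
    have : (0 : ℝ) ≤ k := by positivity
    nlinarith
  have hml := S.mass_low hR (D := β) (by omega) (by linarith)
  have h3 : ∀ t ∈ Ico (S.m - 4 * β + 2) (S.m - 4 * β + 2 + β), Ev t (fun T =>
      Us S.f (fun Q => S.f Q * chiLt (S.m - β / 2) Q.card) T * S.Om2 (chiB S.m β) k T) ≤
      (5 * (β : ℝ) + 3000000 * ((k : ℝ) + 2) ^ 2) * (16 * S.m / (β : ℝ) ^ 2 * S.cost) := by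
    intro t ht
    rw [mem_Ico] at ht
    have h4 := S.lb1 hR (χ := chiB S.m β) (chiB_nonneg S.m β) (chiB_le_one S.m β) hk (β := β)
      (t := t) (e := S.m - β / 2) hβ (by omega) (by omega) (by omega) (by omega)
    refine h4.trans ?_
    exact mul_le_mul_of_nonneg_left hml (by positivity)
  refine (sum_le_sum h3).trans ?_
  rw [sum_const, Nat.card_Ico, nsmul_eq_mul]
  have e1 : S.m - 4 * β + 2 + β - (S.m - 4 * β + 2) = β := by omega
  rw [e1]
  have e2 : (β : ℝ) * ((5 * (β : ℝ) + 3000000 * ((k : ℝ) + 2) ^ 2) *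
      (16 * S.m / (β : ℝ) ^ 2 * S.cost)) =
      (80 + 48000000 * ((k : ℝ) + 2) ^ 2 / β) * (S.m * S.cost) := by
    field_simp
    ring
  rw [e2]
  apply mul_le_mul_of_nonneg_right _ (by positivity)
  have h5 : 48000000 * ((k : ℝ) + 2) ^ 2 / β ≤ 12000000 * ((k : ℝ) + 2) ^ 2 := by
    rw [div_le_iff₀ (by linarith)]
    nlinarith
  linarith

theorem Sys.low_iii (S : Sys α) (hR : S.Reg) {k : ℕ} (hk : k < S.M) {β : ℕ} (hβ4 : 4 ≤ β)
    (hβ : (β : ℝ) ^ 2 ≤ S.m) :
    ∑ t ∈ Ico (S.m - 4 * β + 2) (S.m - 4 * β + 2 + β),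
      Ev t (S.L2 (chiB S.m β) k (1 / Real.sqrt β)) ≤ 85 * Real.sqrt β * (S.m * S.nu) := by
  have hβm := beta_small hR.1 hβ
  have hβ0 : (4 : ℝ) ≤ β := by exact_mod_cast hβ4
  have hsq : 0 < Real.sqrt β := Real.sqrt_pos.2 (by linarith)
  have h1 := S.lb2 hR (χ := chiB S.m β) (chiB_nonneg S.m β) (chiB_le_one S.m β) hk
    (θ := 1 / Real.sqrt β) (by positivity) (s₀ := S.m - 2 * β + 1) (β := β)
    (τ := S.m - 4 * β + 2) (w := β) (by omega) (by
      intro s hs
      unfold chiB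
      rw [if_neg]
      omega) (by omega) (by omega) (by omega) (by omega)
  refine h1.trans (le_of_eq ?_)
  have h2 : (80 * (β : ℝ) / β + 5) = 85 := by
    rw [mul_div_assoc, div_self (by linarith)]
    norm_num
  rw [h2]
  field_simp

theorem Sys.low_iv (S : Sys α) (hR : S.Reg) {k : ℕ} (hk : k < S.M) {β : ℕ} (hβ4 : 4 ≤ β)
    (hβ : (β : ℝ) ^ 2 ≤ S.m) :
    ∑ t ∈ Ico (S.m - 4 * β + 2) (S.m - 4 * β + 2 + β),
      Ev t (S.L3 (chiB S.m β) k (1 / Real.sqrt β) (S.m - β / 2 - t)) ≤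
      70 * Real.sqrt β * (S.m * S.G) := by
  have hβm := beta_small hR.1 hβ
  have hβ0 : (4 : ℝ) ≤ β := by exact_mod_cast hβ4
  have hsq : 0 < Real.sqrt β := Real.sqrt_pos.2 (by linarith)
  have h3 : ∀ t ∈ Ico (S.m - 4 * β + 2) (S.m - 4 * β + 2 + β),
      Ev t (S.L3 (chiB S.m β) k (1 / Real.sqrt β) (S.m - β / 2 - t)) ≤
      70 * S.m / Real.sqrt β * S.G := by
    intro t ht
    rw [mem_Ico] at ht
    exact S.lb3 hR hk hβ4 hβ (by omega) (by omega)
  refine (sum_le_sum h3).trans ?_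
  rw [sum_const, Nat.card_Ico, nsmul_eq_mul]
  have e1 : S.m - 4 * β + 2 + β - (S.m - 4 * β + 2) = β := by omega
  rw [e1]
  apply le_of_eq
  have h4 : (β : ℝ) = Real.sqrt β * Real.sqrt β := (Real.mul_self_sqrt (by linarith)).symm
  calc (β : ℝ) * (70 * S.m / Real.sqrt β * S.G) =
        (Real.sqrt β * Real.sqrt β) * (70 * S.m / Real.sqrt β * S.G) := by rw [← h4]
    _ = _ := by field_simp

theorem Sys.Om_low (S : Sys α) (hR : S.Reg) {k : ℕ} (hk : k < S.M) {β : ℕ} (hβ4 : 4 ≤ β)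
    (hβ : (β : ℝ) ^ 2 ≤ S.m) :
    ∑ t ∈ Ico (S.m - 4 * β + 2) (S.m - 4 * β + 2 + β), Ev t (S.Om (chiB S.m β) k)
      ≤ 1000000000 * ((k : ℝ) + 2) ^ 2 * Real.sqrt β
        * (1 + S.T + S.m * (S.cost + S.nu + S.G)) := by
  have hβm := beta_small hR.1 hβ
  have hβ0 : (4 : ℝ) ≤ β := by exact_mod_cast hβ4
  have hm : (0 : ℝ) < S.m := by
    have : 0 < S.m := by have := hR.1; omega
    exact_mod_cast this
  have hsq1 : 1 ≤ Real.sqrt β := by
    rw [Real.one_le_sqrt]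
    linarith
  have hsq : 0 < Real.sqrt β := by linarith
  have hss : (β : ℝ) = Real.sqrt β * Real.sqrt β := (Real.mul_self_sqrt (by linarith)).symm
  have hK : 4 ≤ ((k : ℝ) + 2) ^ 2 := by
    have : (0 : ℝ) ≤ k := by positivity
    nlinarith
  have hsum : ∑ t ∈ Ico (S.m - 4 * β + 2) (S.m - 4 * β + 2 + β), Ev t (S.Om (chiB S.m β) k) ≤
      (1 / Real.sqrt β) * ∑ t ∈ Ico (S.m - 4 * β + 2) (S.m - 4 * β + 2 + β),
        Ev t (S.Om2 (chiB S.m β) k) +
      4 * ∑ t ∈ Ico (S.m - 4 * β + 2) (S.m - 4 * β + 2 + β), Ev t (fun T =>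
        Us S.f (fun Q => S.f Q * chiLt (S.m - β / 2) Q.card) T * S.Om2 (chiB S.m β) k T) +
      ∑ t ∈ Ico (S.m - 4 * β + 2) (S.m - 4 * β + 2 + β),
        Ev t (S.L2 (chiB S.m β) k (1 / Real.sqrt β)) +
      ∑ t ∈ Ico (S.m - 4 * β + 2) (S.m - 4 * β + 2 + β),
        Ev t (S.L3 (chiB S.m β) k (1 / Real.sqrt β) (S.m - β / 2 - t)) := by
    rw [mul_sum, mul_sum, ← sum_add_distrib, ← sum_add_distrib, ← sum_add_distrib]
    apply sum_le_sum
    intro t ht
    rw [mem_Ico] at ht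
    exact S.low_one hβ4 hβm (by omega)
  have i1 := S.low_i hR hk hβ4 hβ
  have i2 := S.low_ii hR hk hβ4 hβ
  have i3 := S.low_iii hR hk hβ4 hβ
  have i4 := S.low_iv hR hk hβ4 hβ
  have hT := S.T_nonneg
  have hc := S.cost_nonneg
  have hn := S.nu_nonneg
  have hG := S.G_nonneg
  obtain ⟨A, hA⟩ : ∃ A : ℝ, A = S.m * S.cost := ⟨_, rfl⟩
  obtain ⟨N, hN⟩ : ∃ N : ℝ, N = S.m * S.nu := ⟨_, rfl⟩
  obtain ⟨G', hG'⟩ : ∃ G' : ℝ, G' = S.m * S.G := ⟨_, rfl⟩
  obtain ⟨q, hq⟩ : ∃ q : ℝ, q = Real.sqrt β := ⟨_, rfl⟩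
  obtain ⟨κ, hκ⟩ : ∃ κ : ℝ, κ = ((k : ℝ) + 2) ^ 2 := ⟨_, rfl⟩
  have hA0 : 0 ≤ A := by rw [hA]; positivity
  have hN0 : 0 ≤ N := by rw [hN]; positivity
  have hG0 : 0 ≤ G' := by rw [hG']; positivity
  rw [← hA, ← hN, ← hκ] at i1
  rw [← hA, ← hκ] at i2
  rw [← hN, ← hq] at i3
  rw [← hG', ← hq] at i4
  rw [← hq] at hsq1 hsq hss hsum ⊢
  rw [← hκ] at hK ⊢
  have i1' : (1 / q) * ∑ t ∈ Ico (S.m - 4 * β + 2) (S.m - 4 * β + 2 + β),
        Ev t (S.Om2 (chiB S.m β) k) ≤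
      q * (4 + 10260000 * κ * S.T + 2 * A) + (5 * N + 21 * A) + 21 * (q * S.T) := by
    have h1 := mul_le_mul_of_nonneg_left i1 (by positivity : 0 ≤ 1 / q)
    have e : 1 / q * (β * (4 + 10260000 * κ * S.T + 2 * A) + (5 * N + 21 * A + 21 * (β * S.T))) =
        q * (4 + 10260000 * κ * S.T + 2 * A) + 1 / q * (5 * N + 21 * A) + 21 * (q * S.T) := by
      rw [hss]
      field_simp
      ring
    rw [e] at h1
    have h2 : 1 / q * (5 * N + 21 * A) ≤ 5 * N + 21 * A := by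
      apply mul_le_of_le_one_left (by positivity)
      rw [div_le_one hsq]
      exact hsq1
    linarith
  have hfin : (S.m : ℝ) * (S.cost + S.nu + S.G) = A + N + G' := by
    rw [hA, hN, hG']; ring
  rw [hfin]
  have hqκ : 4 * q ≤ κ * q := mul_le_mul_of_nonneg_right hK hsq.le
  have b1 : 4 ≤ κ * q := by nlinarith
  have b2 : 4 * A ≤ κ * q * A := mul_le_mul_of_nonneg_right b1 hA0
  have b3 : 4 * N ≤ κ * q * N := mul_le_mul_of_nonneg_right b1 hN0
  have b4 : 4 * q * A ≤ κ * q * A := mul_le_mul_of_nonneg_right hqκ hA0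
  have b5 : 4 * q * N ≤ κ * q * N := mul_le_mul_of_nonneg_right hqκ hN0
  have b6 : 4 * q * G' ≤ κ * q * G' := mul_le_mul_of_nonneg_right hqκ hG0
  have b7 : 4 * q * S.T ≤ κ * q * S.T := mul_le_mul_of_nonneg_right hqκ hT
  have b8 : κ * A ≤ κ * q * A := by
    have : κ * 1 ≤ κ * q := mul_le_mul_of_nonneg_left hsq1 (by linarith)
    have := mul_le_mul_of_nonneg_right this hA0
    linarith
  have c1 : 0 ≤ κ * q * S.T := by positivity
  have c2 : 0 ≤ κ * q * A := by positivity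
  have c3 : 0 ≤ κ * q * N := by positivity
  have c4 : 0 ≤ κ * q * G' := by positivity
  have e5 : 1000000000 * κ * q * (1 + S.T + (A + N + G')) = 1000000000 * (κ * q) +
      1000000000 * (κ * q * S.T) + 1000000000 * (κ * q * A) + 1000000000 * (κ * q * N) +
      1000000000 * (κ * q * G') := by ring
  rw [e5]
  have e6 : q * (4 + 10260000 * κ * S.T + 2 * A) = 4 * q + 10260000 * (κ * q * S.T) +
      2 * (q * A) := by ring
  rw [e6] at i1'
  have e7 : 12000020 * κ * A = 12000020 * (κ * A) := by ring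
  rw [e7] at i2
  have e8 : 85 * q * N = 85 * (q * N) := by ring
  rw [e8] at i3
  have e9 : 70 * q * G' = 70 * (q * G') := by ring
  rw [e9] at i4
  have e10 : 4 * q * A = 4 * (q * A) := by ring
  have e11 : 4 * q * N = 4 * (q * N) := by ring
  have e12 : 4 * q * G' = 4 * (q * G') := by ring
  have e13 : 4 * q * S.T = 4 * (q * S.T) := by ring
  rw [e10] at b4
  rw [e11] at b5
  rw [e12] at b6
  rw [e13] at b7
  linarith

/-! ## part t13 -/

theorem Sys.top_a_le_one (S : Sys α) {χ : ℕ → ℝ} (hχ0 : ∀ s, 0 ≤ χ s) (hχ1 : ∀ s, χ s ≤ 1)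
    (x : α) (Q : Finset α) : S.a χ x Q ≤ 1 := by
  have h := S.sum_a_le_one hχ0 hχ1 {x} Q
  rwa [Finset.sum_singleton] at h

/-- the fractional matching of the top block -/
noncomputable def Sys.omT (S : Sys α) (χ : ℕ → ℝ) (T : Finset α) (x y : α) : ℝ :=
  if x ∈ T ∧ y ∈ T ∧ x ≠ y then S.a χ x (T.erase y) * S.a χ y (T.erase x) else 0

theorem Sys.omT_nonneg (S : Sys α) {χ : ℕ → ℝ} (hχ0 : ∀ s, 0 ≤ χ s) (T : Finset α) (x y : α) :
    0 ≤ S.omT χ T x y := by
  unfold Sys.omT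
  split_ifs
  · exact mul_nonneg (S.a_nonneg hχ0 _ _) (S.a_nonneg hχ0 _ _)
  · exact le_rfl

theorem Sys.omT_self (S : Sys α) (χ : ℕ → ℝ) (T : Finset α) (x : α) : S.omT χ T x x = 0 := by
  unfold Sys.omT
  rw [if_neg (fun h => h.2.2 rfl)]

theorem Sys.omT_row (S : Sys α) {χ : ℕ → ℝ} (hχ0 : ∀ s, 0 ≤ χ s) (hχ1 : ∀ s, χ s ≤ 1)
    (T : Finset α) : ∀ x ∈ T, ∑ y ∈ T, S.omT χ T x y ≤ 1 := by
  intro x hx
  rw [← Finset.sum_erase T (S.omT_self χ T x)]
  refine le_trans (Finset.sum_le_sum fun y hy => ?_) (S.sum_a_le_one hχ0 hχ1 (T.erase x) (T.erase x))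
  rw [Finset.mem_erase] at hy
  unfold Sys.omT
  rw [if_pos ⟨hx, hy.2, fun h => hy.1 h.symm⟩]
  exact mul_le_of_le_one_left (S.a_nonneg hχ0 _ _) (S.top_a_le_one hχ0 hχ1 _ _)

theorem Sys.omT_col (S : Sys α) {χ : ℕ → ℝ} (hχ0 : ∀ s, 0 ≤ χ s) (hχ1 : ∀ s, χ s ≤ 1)
    (T : Finset α) : ∀ y ∈ T, ∑ x ∈ T, S.omT χ T x y ≤ 1 := by
  intro y hy
  rw [← Finset.sum_erase T (f := fun x => S.omT χ T x y) (S.omT_self χ T y)]
  refine le_trans (Finset.sum_le_sum fun x hx => ?_)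
    (S.sum_a_le_one hχ0 hχ1 (T.erase y) (T.erase y))
  rw [Finset.mem_erase] at hx
  unfold Sys.omT
  rw [if_pos ⟨hx.2, hy, hx.1⟩]
  exact mul_le_of_le_one_right (S.a_nonneg hχ0 _ _) (S.top_a_le_one hχ0 hχ1 _ _)

theorem Sys.omT_supp (S : Sys α) {χ : ℕ → ℝ} (T : Finset α) (x y : α)
    (h : S.omT χ T x y ≠ 0) : S.Good (T.erase y) := by
  unfold Sys.omT at h
  by_cases hc : x ∈ T ∧ y ∈ T ∧ x ≠ y
  · rw [if_pos hc] at h
    by_contra hG
    apply left_ne_zero_of_mul h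
    unfold Sys.a
    rw [if_neg hG]
  · rw [if_neg hc] at h
    exact absurd rfl h

theorem Sys.Om_eq_omT (S : Sys α) (χ : ℕ → ℝ) (k : ℕ) (T : Finset α) :
    S.Om χ k T = ∑ x ∈ T, ∑ y ∈ T.erase x, S.omT χ T x y * S.Ga k T x y := by
  unfold Sys.Om
  refine Finset.sum_congr rfl fun x hx => Finset.sum_congr rfl fun y hy => ?_
  have hy' := Finset.mem_erase.1 hy
  unfold Sys.omT
  rw [if_pos ⟨hx, hy'.2, fun h => hy'.1 h.symm⟩]

/-- the inner sum of the window bound -/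
theorem Sys.top_inner (S : Sys α) (hR : S.Reg) (k : ℕ) {K : ℕ}
    (hK : 18 * (K : ℝ) ^ 2 ≤ S.m) {t : ℕ} (ht : |(S.m : ℝ) - t| ≤ 3 * K) :
    ∑ s ∈ Icc t (2 * S.m), S.ph s * (540000 * (((k : ℝ) + 2) ^ 2 + ((s : ℝ) - t) ^ 2 / S.m)) ≤
      540000 * ((((k : ℝ) + 2) ^ 2 + 3) * S.T + 8 * ((S.h : ℝ) ^ 2 / S.m * S.cost)) := by
  have hm : (0:ℝ) < S.m := by
    have : (0:ℕ) < S.m := lt_of_lt_of_le (by norm_num) hR.1
    exact_mod_cast this
  have hpt : ∀ s : ℕ, S.ph s * (540000 * (((k : ℝ) + 2) ^ 2 + ((s : ℝ) - t) ^ 2 / S.m)) ≤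
      540000 * ((((k : ℝ) + 2) ^ 2 + 1) * S.ph s + 2 * (((s : ℝ) - S.m) ^ 2 / S.m * S.ph s)) := by
    intro s
    have h1 : ((s : ℝ) - t) ^ 2 ≤ 2 * ((s : ℝ) - S.m) ^ 2 + 18 * (K : ℝ) ^ 2 := by
      have h2 : ((S.m : ℝ) - t) ^ 2 ≤ (3 * (K : ℝ)) ^ 2 := by
        rw [← sq_abs ((S.m : ℝ) - t)]
        exact pow_le_pow_left₀ (abs_nonneg _) ht 2
      nlinarith [sq_nonneg (((s : ℝ) - S.m) - ((S.m : ℝ) - t))]
    have h3 : ((s : ℝ) - t) ^ 2 / S.m ≤ 2 * (((s : ℝ) - S.m) ^ 2 / S.m) + 1 := by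
      rw [div_le_iff₀ hm]
      have : (2 * (((s : ℝ) - S.m) ^ 2 / S.m) + 1) * S.m = 2 * ((s : ℝ) - S.m) ^ 2 + S.m := by
        field_simp
      rw [this]
      linarith
    have h4 := mul_le_mul_of_nonneg_left h3 (S.ph_nonneg s)
    nlinarith [h4]
  have hmom := S.mom2 hR
  calc ∑ s ∈ Icc t (2 * S.m), S.ph s * (540000 * (((k : ℝ) + 2) ^ 2 + ((s : ℝ) - t) ^ 2 / S.m))
      ≤ ∑ s ∈ range (2 * S.m + 1),
          S.ph s * (540000 * (((k : ℝ) + 2) ^ 2 + ((s : ℝ) - t) ^ 2 / S.m)) := by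
        apply Finset.sum_le_sum_of_subset_of_nonneg
        · intro s hs
          rw [Finset.mem_Icc] at hs
          rw [Finset.mem_range]
          omega
        · intro s _ _
          have := S.ph_nonneg s
          positivity
    _ ≤ ∑ s ∈ range (2 * S.m + 1), 540000 * ((((k : ℝ) + 2) ^ 2 + 1) * S.ph s +
          2 * (((s : ℝ) - S.m) ^ 2 / S.m * S.ph s)) := Finset.sum_le_sum fun s _ => hpt s
    _ = 540000 * ((((k : ℝ) + 2) ^ 2 + 1) * S.T +
          2 * ∑ s ∈ range (2 * S.m + 1), ((s : ℝ) - S.m) ^ 2 / S.m * S.ph s) := by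
        rw [← Finset.mul_sum, Finset.sum_add_distrib, ← Finset.mul_sum, ← Finset.mul_sum]
        rfl
    _ ≤ 540000 * ((((k : ℝ) + 2) ^ 2 + 1) * S.T +
          2 * (S.T + 4 * ((S.h : ℝ) ^ 2 / S.m) * S.cost)) := by gcongr
    _ = _ := by ring

/-- the boundary term of the window bound -/
theorem Sys.top_last (S : Sys α) (hR : S.Reg) {K : ℕ} (hK4 : 4 ≤ K)
    (hK : 18 * (K : ℝ) ^ 2 ≤ S.m) :
    5 * S.m * Ev (S.m - 3 * K + 2 - 1) (fun Q => (1 - Dn S.H Q) * S.b Q) ≤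
      5 * S.m * S.nu + 40 * (S.m * S.cost) + 30 * (K * S.T) := by
  have hm : (0:ℝ) < S.m := by
    have : (0:ℕ) < S.m := lt_of_lt_of_le (by norm_num) hR.1
    exact_mod_cast this
  have hK' : 18 * K ^ 2 ≤ S.m := by exact_mod_cast hK
  have hK72 : 72 * K ≤ S.m := by nlinarith
  have h1 := S.Ev_b_bound (t := S.m - 3 * K + 2 - 1) (by omega)
  have hcast : ((S.m - 3 * K + 2 - 1 : ℕ) : ℝ) = S.m - 3 * K + 1 := by
    have : S.m - 3 * K + 2 - 1 + 3 * K = S.m + 1 := by omega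
    generalize S.m - 3 * K + 2 - 1 = n at this
    have h : (n : ℝ) + 3 * K = S.m + 1 := by exact_mod_cast this
    linarith
  have hK72r : 72 * (K : ℝ) ≤ S.m := by exact_mod_cast hK72
  have hpt : ∀ s ∈ Icc (S.m - 3 * K + 2 - 1) (2 * S.m),
      ((s : ℝ) - ((S.m - 3 * K + 2 - 1 : ℕ) : ℝ)) / s * S.ph s ≤
        2 * (|(s : ℝ) - S.m| / S.m * S.ph s) + 6 * (K / S.m) * S.ph s := by
    intro s hs
    rw [Finset.mem_Icc] at hs
    have hs2 : S.m ≤ 2 * s := by omega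
    have hs2r : (S.m : ℝ) ≤ 2 * s := by exact_mod_cast hs2
    have hs0 : (0:ℝ) < s := by linarith
    rw [hcast]
    have h2 : ((s : ℝ) - (S.m - 3 * K + 1)) / s ≤ 2 * (|(s : ℝ) - S.m| / S.m) + 6 * (K / S.m) := by
      have h3 : (s : ℝ) - (S.m - 3 * K + 1) ≤ |(s : ℝ) - S.m| + 3 * K := by
        have := le_abs_self ((s : ℝ) - S.m)
        linarith
      have h4 : 0 ≤ |(s : ℝ) - S.m| + 3 * K := by positivity
      rw [div_le_iff₀ hs0]
      have h5 : (2 * (|(s : ℝ) - S.m| / S.m) + 6 * (K / S.m)) * s =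
          (|(s : ℝ) - S.m| + 3 * K) * (2 * s / S.m) := by
        field_simp
        ring
      rw [h5]
      have h6 : 1 ≤ 2 * (s : ℝ) / S.m := by
        rw [le_div_iff₀ hm]
        linarith
      nlinarith
    have h7 := mul_le_mul_of_nonneg_right h2 (S.ph_nonneg s)
    linarith
  have h2 : ∑ s ∈ Icc (S.m - 3 * K + 2 - 1) (2 * S.m),
      ((s : ℝ) - ((S.m - 3 * K + 2 - 1 : ℕ) : ℝ)) / s * S.ph s ≤
        2 * (4 * S.cost) + 6 * (K / S.m) * S.T := by
    calc _ ≤ ∑ s ∈ Icc (S.m - 3 * K + 2 - 1) (2 * S.m),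
          (2 * (|(s : ℝ) - S.m| / S.m * S.ph s) + 6 * (K / S.m) * S.ph s) :=
          Finset.sum_le_sum hpt
      _ ≤ ∑ s ∈ range (2 * S.m + 1),
          (2 * (|(s : ℝ) - S.m| / S.m * S.ph s) + 6 * (K / S.m) * S.ph s) := by
          apply Finset.sum_le_sum_of_subset_of_nonneg
          · intro s hs
            rw [Finset.mem_Icc] at hs
            rw [Finset.mem_range]
            omega
          · intro s _ _
            have := S.ph_nonneg s
            positivity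
      _ = 2 * (∑ s ∈ range (2 * S.m + 1), |(s : ℝ) - S.m| / S.m * S.ph s) +
          6 * (K / S.m) * S.T := by
          rw [Finset.sum_add_distrib, ← Finset.mul_sum, ← Finset.mul_sum]
          rfl
      _ ≤ _ := by
          have := S.mom1' hR
          linarith
  have h3 : 5 * S.m * Ev (S.m - 3 * K + 2 - 1) (fun Q => (1 - Dn S.H Q) * S.b Q) ≤
      5 * S.m * (S.nu + (2 * (4 * S.cost) + 6 * (K / S.m) * S.T)) := by
    apply mul_le_mul_of_nonneg_left _ (by positivity)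
    linarith
  refine h3.trans (le_of_eq ?_)
  field_simp
  ring

theorem Sys.Om_top (S : Sys α) (hR : S.Reg) {k : ℕ} (hk : k < S.M) {K : ℕ} (hK4 : 4 ≤ K)
    (hK : 18 * (K : ℝ) ^ 2 ≤ S.m) :
    ∑ t ∈ Ico (S.m - 3 * K + 2) (S.m - 3 * K + 2 + K), Ev t (S.Om (chiTop S.m K) k)
      ≤ 10000000 * ((k : ℝ) + 2) ^ 2 * (K * (1 + S.T)
          + K * ((S.h : ℝ) ^ 2 / S.m) * S.cost + S.m * (S.cost + S.nu)) := by
  have hm : (0:ℝ) < S.m := by
    have : (0:ℕ) < S.m := lt_of_lt_of_le (by norm_num) hR.1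
    exact_mod_cast this
  have hχ0 : ∀ s, 0 ≤ chiTop S.m K s := by
    intro s; unfold chiTop; split_ifs <;> norm_num
  have hχ1 : ∀ s, chiTop S.m K s ≤ 1 := by
    intro s; unfold chiTop; split_ifs <;> norm_num
  have hK' : 18 * K ^ 2 ≤ S.m := by exact_mod_cast hK
  have hK72 : 72 * K ≤ S.m := by nlinarith
  have hw := S.window_bound hR hk (S.omT (chiTop S.m K)) (S.omT_nonneg hχ0)
    (S.omT_row hχ0 hχ1) (S.omT_col hχ0 hχ1) (S.omT_supp)
    (τ := S.m - 3 * K + 2) (w := K) (by omega) (by omega)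
  have e1 : ∑ t ∈ Ico (S.m - 3 * K + 2) (S.m - 3 * K + 2 + K), Ev t (S.Om (chiTop S.m K) k) =
      ∑ t ∈ Ico (S.m - 3 * K + 2) (S.m - 3 * K + 2 + K),
        Ev t (fun T => ∑ x ∈ T, ∑ y ∈ T.erase x, S.omT (chiTop S.m K) T x y * S.Ga k T x y) := by
    refine Finset.sum_congr rfl fun t _ => Ev_congr fun P _ => ?_
    exact S.Om_eq_omT _ k P
  rw [e1]
  refine hw.trans ?_
  have h1 : ∑ t ∈ Ico (S.m - 3 * K + 2) (S.m - 3 * K + 2 + K),
      (4 + 2 * ∑ s ∈ Icc t (2 * S.m), S.ph s *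
        (540000 * (((k : ℝ) + 2) ^ 2 + ((s : ℝ) - t) ^ 2 / S.m))) ≤
      K * (4 + 2 * (540000 * ((((k : ℝ) + 2) ^ 2 + 3) * S.T +
        8 * ((S.h : ℝ) ^ 2 / S.m * S.cost)))) := by
    have h2 : ∀ t ∈ Ico (S.m - 3 * K + 2) (S.m - 3 * K + 2 + K),
        (4 + 2 * ∑ s ∈ Icc t (2 * S.m), S.ph s *
        (540000 * (((k : ℝ) + 2) ^ 2 + ((s : ℝ) - t) ^ 2 / S.m))) ≤
        4 + 2 * (540000 * ((((k : ℝ) + 2) ^ 2 + 3) * S.T +
        8 * ((S.h : ℝ) ^ 2 / S.m * S.cost))) := by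
      intro t ht
      rw [Finset.mem_Ico] at ht
      have h3 : |(S.m : ℝ) - t| ≤ 3 * K := by
        rw [abs_le]
        constructor
        · have : t ≤ S.m + 3 * K := by omega
          have : (t : ℝ) ≤ S.m + 3 * K := by exact_mod_cast this
          linarith
        · have : S.m ≤ t + 3 * K := by omega
          have : (S.m : ℝ) ≤ t + 3 * K := by exact_mod_cast this
          linarith
      have h4 := S.top_inner hR k hK h3
      linarith
    refine (Finset.sum_le_sum h2).trans (le_of_eq ?_)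
    rw [Finset.sum_const, Nat.card_Ico, nsmul_eq_mul]
    congr 2
    omega
  have h5 := S.top_last hR hK4 hK
  refine (add_le_add h1 h5).trans ?_
  have hk2 : (4:ℝ) ≤ ((k : ℝ) + 2) ^ 2 := by
    have : (0:ℝ) ≤ k := Nat.cast_nonneg k
    nlinarith
  set κ := ((k : ℝ) + 2) ^ 2 with hκ
  have hT := S.T_nonneg
  have hc := S.cost_nonneg
  have hν := S.nu_nonneg
  have hK0 : (0:ℝ) ≤ K := Nat.cast_nonneg K
  set hc' := (S.h : ℝ) ^ 2 / S.m * S.cost with hhc
  have hhc0 : 0 ≤ hc' := by rw [hhc]; positivity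
  have a1 : 0 ≤ (K : ℝ) * S.T := by positivity
  have a2 : 0 ≤ (K : ℝ) * hc' := by positivity
  have a3 : 0 ≤ (S.m : ℝ) * S.cost := by positivity
  have a4 : 0 ≤ (S.m : ℝ) * S.nu := by positivity
  have b1 : 4 * ((K : ℝ) * S.T) ≤ κ * (K * S.T) := mul_le_mul_of_nonneg_right hk2 a1
  have b2 : 4 * ((K : ℝ) * hc') ≤ κ * (K * hc') := mul_le_mul_of_nonneg_right hk2 a2
  have b3 : 4 * ((S.m : ℝ) * S.cost) ≤ κ * (S.m * S.cost) := mul_le_mul_of_nonneg_right hk2 a3
  have b4 : 4 * ((S.m : ℝ) * S.nu) ≤ κ * (S.m * S.nu) := mul_le_mul_of_nonneg_right hk2 a4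
  have b5 : 4 * (K : ℝ) ≤ κ * K := mul_le_mul_of_nonneg_right hk2 hK0
  have e2 : (K : ℝ) * (4 + 2 * (540000 * ((κ + 3) * S.T + 8 * hc'))) =
      4 * K + 1080000 * (κ * (K * S.T)) + 3240000 * (K * S.T) + 8640000 * (K * hc') := by ring
  have e3 : 10000000 * κ * ((K : ℝ) * (1 + S.T) + K * ((S.h : ℝ) ^ 2 / S.m) * S.cost +
      S.m * (S.cost + S.nu)) = 10000000 * (κ * K) + 10000000 * (κ * (K * S.T)) +
        10000000 * (κ * (K * hc')) + 10000000 * (κ * (S.m * S.cost)) +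
        10000000 * (κ * (S.m * S.nu)) := by
    rw [hhc]; ring
  rw [e2, e3]
  linarith

end UF
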