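import Pool.Agent.UFree.Base
import Pool.Agent.UFree.LowB
import Pool.Agent.UFree.Member
import Pool.Agent.UFree.Ops
import Pool.Agent.UFree.SysA
import Pool.Agent.UFree.SysB

set_option autoImplicit false
set_option linter.unusedSectionVars false
set_option linter.unusedVariables false
set_option linter.unusedSimpArgs false
open Finset

namespace UF
variable {α : Type*} [Fintype α] [DecidableEq α]

/-! ## part t16 -/

/-! ### generic real inequalities (kept abstract so that they are cheap to check) -/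

theorem flA_aux {K X m q r ER φ ψ : ℝ} (hK : 0 ≤ K) (hX : K ^ 2 ≤ X) (hq : 0 < q) (hm : 0 < m)
    (hr0 : 0 ≤ r) (hr : r ≤ 1.001 * q) (hE0 : 0 ≤ ER) (hE : ER ≤ 2 / m * φ) (hφψ : φ / m ≤ ψ)
    (hψ0 : 0 ≤ ψ) : K * r * (2 * K / q * ER) ≤ X * (5 * ψ) := by
  have hX0 : 0 ≤ X := (sq_nonneg K).trans hX
  have hKq : 0 ≤ 2 * K / q := div_nonneg (by linarith) hq.le
  have h1 : K * r ≤ K * (1.001 * q) := mul_le_mul_of_nonneg_left hr hK
  have h2 : 2 * K / q * ER ≤ 2 * K / q * (2 / m * φ) := mul_le_mul_of_nonneg_left hE hKq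
  have h3 : K * r * (2 * K / q * ER) ≤ K * (1.001 * q) * (2 * K / q * (2 / m * φ)) :=
    mul_le_mul h1 h2 (mul_nonneg hKq hE0) (mul_nonneg hK (by linarith))
  have h4 : K * (1.001 * q) * (2 * K / q * (2 / m * φ)) = 4.004 * (K ^ 2 * (φ / m)) := by
    field_simp; ring
  have h5 : K ^ 2 * (φ / m) ≤ K ^ 2 * ψ := mul_le_mul_of_nonneg_left hφψ (sq_nonneg K)
  have h6 : K ^ 2 * ψ ≤ X * ψ := mul_le_mul_of_nonneg_right hX hψ0
  have h7 : 0 ≤ X * ψ := mul_nonneg hX0 hψ0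
  rw [h4] at h3
  linarith

theorem flB_aux {K X m q r EE φ ψ W nc bT b T cn : ℝ} (hK : 0 ≤ K) (hX : K ≤ X) (hq : 0 < q)
    (hm : m = q ^ 2) (hr0 : 0 ≤ r) (hr : r ≤ 1.001 * q) (hE0 : 0 ≤ EE) (hW : 0 ≤ W)
    (hb : 0 ≤ b) (hT : 0 ≤ T) (hcn : 0 ≤ cn)
    (hE : EE ≤ 2 / m * (109 * W / q * φ + 114 * cn + 114 * (b * T / m)))
    (hφψ : φ / m ≤ ψ) (hψ0 : 0 ≤ ψ) (hnc : nc = cn / q) (hbT : bT = b / q * (T / m)) :
    K * r * EE ≤ X * (219 * W * ψ + 230 * bT + 230 * nc) := by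
  have hbT0 : 0 ≤ bT := by
    rw [hbT, hm]; exact mul_nonneg (div_nonneg hb hq.le) (div_nonneg hT (sq_nonneg q))
  have hnc0 : 0 ≤ nc := by rw [hnc]; exact div_nonneg hcn hq.le
  have h1 : K * r ≤ K * (1.001 * q) := mul_le_mul_of_nonneg_left hr hK
  have h3 : K * r * EE ≤ K * (1.001 * q) * (2 / m * (109 * W / q * φ + 114 * cn
      + 114 * (b * T / m))) :=
    mul_le_mul h1 hE hE0 (mul_nonneg hK (by linarith))
  have h4 : K * (1.001 * q) * (2 / m * (109 * W / q * φ + 114 * cn + 114 * (b * T / m)))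
      = K * (2.002 * 109 * (W * (φ / m)) + 2.002 * 114 * bT + 2.002 * 114 * nc) := by
    rw [hbT, hnc, hm]
    field_simp
    ring
  rw [h4] at h3
  have h5 : W * (φ / m) ≤ W * ψ := mul_le_mul_of_nonneg_left hφψ hW
  have h5' : 0 ≤ W * ψ := mul_nonneg hW hψ0
  have h6 : 2.002 * 109 * (W * (φ / m)) + 2.002 * 114 * bT + 2.002 * 114 * nc
      ≤ 219 * W * ψ + 230 * bT + 230 * nc := by linarith
  have h7 : 0 ≤ 219 * W * ψ + 230 * bT + 230 * nc := by linarith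
  exact h3.trans ((mul_le_mul_of_nonneg_left h6 hK).trans (mul_le_mul_of_nonneg_right hX h7))

theorem flC_aux {Y X m c ER φ ψ d : ℝ} (hY : 0 ≤ Y) (hX : Y ≤ X) (hm : 0 < m) (hc : 0 < c)
    (hd0 : 0 ≤ d) (hd : d ≤ 1 / m) (hE0 : 0 ≤ ER) (hE : ER ≤ 2 / m * φ)
    (hψ : ψ = 1 / c * (1 / m) * φ) (hψ0 : 0 ≤ ψ) :
    800 * Y * m / c * (d * ER) ≤ X * (1600 * ψ) := by
  have h1 : d * ER ≤ 1 / m * (2 / m * φ) :=
    mul_le_mul hd hE hE0 (div_nonneg zero_le_one hm.le)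
  have h2 : 0 ≤ 800 * Y * m / c :=
    div_nonneg (mul_nonneg (by linarith) hm.le) hc.le
  have h3 := mul_le_mul_of_nonneg_left h1 h2
  have h4 : 800 * Y * m / c * (1 / m * (2 / m * φ)) = Y * (1600 * ψ) := by
    rw [hψ]; field_simp; ring
  rw [h4] at h3
  exact h3.trans (mul_le_mul_of_nonneg_right hX (by linarith))

theorem flD_aux {Y X m c EO t : ℝ} (hY : 0 ≤ Y) (hX : Y ≤ X) (hm : 0 < m) (hc : 0 < c)
    (ht : 999 / 1000 * m ≤ t) (hE0 : 0 ≤ EO) :
    800 * Y * m / c * (1 / ((t + 1) * (t + 2)) * EO) ≤ 1000 * X / (c * m) * EO := by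
  have h8 : (999 / 1000 * m) * (999 / 1000 * m) ≤ (t + 1) * (t + 2) :=
    mul_le_mul (by linarith) (by linarith) (by linarith) (by linarith)
  have h9 : (999 / 1000 * m) * (999 / 1000 * m) = 998001 / 1000000 * m ^ 2 := by ring
  have hm2 : 0 < m ^ 2 := pow_pos hm 2
  have h10 : 0 < (t + 1) * (t + 2) := mul_pos (by linarith) (by linarith)
  have h1 : 1 / ((t + 1) * (t + 2)) ≤ 5 / 4 / m ^ 2 := by
    rw [div_le_div_iff₀ h10 hm2]; linarith
  have h2 : 0 ≤ 800 * Y * m / c := div_nonneg (mul_nonneg (by linarith) hm.le) hc.le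
  have h3 : 800 * Y * m / c ≤ 800 * X * m / c :=
    div_le_div_of_nonneg_right (mul_le_mul_of_nonneg_right (by linarith) hm.le) hc.le
  have h4 : 1 / ((t + 1) * (t + 2)) * EO ≤ 5 / 4 / m ^ 2 * EO := mul_le_mul_of_nonneg_right h1 hE0
  have h5 : 0 ≤ 1 / ((t + 1) * (t + 2)) * EO := mul_nonneg (one_div_nonneg.2 h10.le) hE0
  have h6 := mul_le_mul h3 h4 h5 (h2.trans h3)
  have h7 : 800 * X * m / c * (5 / 4 / m ^ 2 * EO) = 1000 * X / (c * m) * EO := by
    field_simp; ring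
  rw [h7] at h6
  exact h6

theorem fl_h10_aux {x m q : ℝ} (hm : 0 < m) (hq : 0 < q) (hq4 : 10000 ≤ q) (hqq : q * q = m)
    (h9 : x ^ 2 ≤ 9 * m) : 10000 * x ^ 2 / m ^ 2 ≤ 9 / q := by
  rw [div_le_div_iff₀ (pow_pos hm 2) hq]
  have h1 : 10000 * x ^ 2 * q ≤ 10000 * (9 * m) * q :=
    mul_le_mul_of_nonneg_right (by linarith) hq.le
  have h2 : m * (10000 * q) ≤ m * (q * q) :=
    mul_le_mul_of_nonneg_left (mul_le_mul_of_nonneg_right hq4 hq.le) hm.le
  rw [hqq] at h2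
  have h3 : 9 * m ^ 2 = 9 * (m * m) := by ring
  have h4 : 10000 * (9 * m) * q = 9 * (m * (10000 * q)) := by ring
  rw [h3]
  linarith

theorem fl_hd_aux {x s m Y : ℝ} (hs : 999 / 1000 * m ≤ s) (hs0 : 0 < s) (hm : 0 < m) (hY : 0 ≤ Y)
    (hx : x ≤ Y) : x / s ≤ 101 / 100 * (Y / m) := by
  rw [div_le_iff₀ hs0]
  have h0 : 0 ≤ 101 / 100 * (Y / m) := mul_nonneg (by norm_num) (div_nonneg hY hm.le)
  have h5 := mul_le_mul_of_nonneg_left hs h0
  have h6 : 101 / 100 * (Y / m) * (999 / 1000 * m) = 101 / 100 * (999 / 1000) * Y := by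
    field_simp
  rw [h6] at h5
  linarith

theorem fl_end_aux {W a b c d : ℝ} (hW : 1 ≤ W) (ha : 0 ≤ a) (hb : 0 ≤ b) (hc : 0 ≤ c)
    (hd : 0 ≤ d) :
    11 / 10 * (W * (2000 * W * a + 230 * b + 230 * c + 1000000000000 * d))
      ≤ 10000000000000 * W ^ 2 * (a + b + c + d) := by
  have hW2 : W ≤ W ^ 2 := by
    rw [sq]; exact le_mul_of_one_le_left (by linarith) hW
  have hW0 : 0 ≤ W := by linarith
  have h1 : 11 / 10 * (W * (2000 * W * a + 230 * b + 230 * c + 1000000000000 * d))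
      = 2200 * (W ^ 2 * a) + 253 * (W * b) + 253 * (W * c) + 1100000000000 * (W * d) := by ring
  have h2 : 10000000000000 * W ^ 2 * (a + b + c + d)
      = 10000000000000 * (W ^ 2 * a) + 10000000000000 * (W ^ 2 * b)
        + 10000000000000 * (W ^ 2 * c) + 10000000000000 * (W ^ 2 * d) := by ring
  have ka := mul_nonneg (sq_nonneg W) ha
  have kb := mul_nonneg (sq_nonneg W) hb
  have kc := mul_nonneg (sq_nonneg W) hc
  have kd := mul_nonneg (sq_nonneg W) hd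
  have kb' := mul_le_mul_of_nonneg_right hW2 hb
  have kc' := mul_le_mul_of_nonneg_right hW2 hc
  have kd' := mul_le_mul_of_nonneg_right hW2 hd
  rw [h1, h2]
  linarith

theorem fl_k_aux {B m c X sb Z k P10 P4 : ℝ} (hm : 0 < m) (hc : 0 < c) (hX : 0 ≤ X)
    (hsb : 0 ≤ sb) (hP4 : P4 * (k + 2) ^ 2 ≤ P10) :
    B * (P10 * Z) + 1000 * P4 / (c * m) * (1000000000 * (k + 2) ^ 2 * sb * (m * X))
      ≤ P10 * (B * Z + 1000000000000 * sb / c * X) := by
  have h1 : 1000 * P4 / (c * m) * (1000000000 * (k + 2) ^ 2 * sb * (m * X))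
      = 1000000000000 * (P4 * (k + 2) ^ 2) * (sb / c * X) := by
    field_simp; ring
  have h2 : 0 ≤ sb / c * X := mul_nonneg (div_nonneg hsb hc.le) hX
  have h3 := mul_le_mul_of_nonneg_right hP4 h2
  have h4 : P10 * (B * Z + 1000000000000 * sb / c * X)
      = B * (P10 * Z) + 1000000000000 * (P10 * (sb / c * X)) := by ring
  rw [h1, h4]
  linarith

theorem fl_div_aux {F B sb c W Z X : ℝ} (hB : 0 < B) (hsb : sb * sb = B) (hsb0 : 0 < sb)
    (hc : 0 < c) (h : B * F ≤ 11 / 10 * (W * (B * Z + 1000000000000 * sb / c * X))) :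
    F ≤ 11 / 10 * (W * (Z + 1000000000000 * (1 / (c * sb)) * X)) := by
  have e : 11 / 10 * (W * (B * Z + 1000000000000 * sb / c * X))
      = B * (11 / 10 * (W * (Z + 1000000000000 * (1 / (c * sb)) * X))) := by
    rw [← hsb]; field_simp
  rw [e] at h
  exact le_of_mul_le_mul_left h hB

theorem chiB_nonneg_t16 (m β s : ℕ) : 0 ≤ chiB m β s := by
  unfold chiB; split_ifs <;> norm_num

theorem chiB_le_one_t16 (m β s : ℕ) : chiB m β s ≤ 1 := by
  unfold chiB; split_ifs <;> norm_num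

theorem FL_beta {m β : ℕ} (hm : 100000000 ≤ m) (hβ : (β : ℝ) ^ 2 ≤ m) : 10000 * β ≤ m := by
  have h1 : β * β ≤ m := by
    have : ((β * β : ℕ) : ℝ) ≤ (m : ℝ) := by push_cast; rw [← sq]; exact hβ
    exact_mod_cast this
  by_contra hcon
  push Not at hcon
  have h2 : β < 10000 := by
    by_contra h
    push Not at h
    have h3 : 10000 * β ≤ β * β := Nat.mul_le_mul_right β h
    omega
  omega

theorem Sys.FL_eh (S : Sys α) (hR : S.Reg) {β : ℕ} (hβ4 : 4 ≤ β)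
    (hβ : (β : ℝ) ^ 2 ≤ S.m) {t : ℕ} (ht1 : S.m - 4 * β ≤ t) (ht2 : t < S.m - 3 * β) :
    Ev t (S.eh (chiB S.m β)) ≤ 2 / S.m *
      (109 * Cw / Real.sqrt S.m * ∑ s ∈ range (2 * S.m + 1), chiB S.m β s * S.ph s
        + 114 * (S.nu + S.cost) + 114 * (β * S.T / S.m)) := by
  have hm := hR.1
  have hmβ := FL_beta hm hβ
  have hmR : (100000000 : ℝ) ≤ S.m := by exact_mod_cast hm
  have hmpos : (0 : ℝ) < S.m := by linarith
  have hsq4 : (10000 : ℝ) ≤ Real.sqrt S.m := by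
    apply Real.le_sqrt_of_sq_le
    calc (10000 : ℝ) ^ 2 = 100000000 := by norm_num
      _ ≤ S.m := hmR
  have hsqpos : (0 : ℝ) < Real.sqrt S.m := by linarith
  have hsq : Real.sqrt S.m * Real.sqrt S.m = S.m := Real.mul_self_sqrt hmpos.le
  have hCw := one_le_Cw
  have h := S.Ev_eh_le hR (χ := chiB S.m β) (chiB_nonneg_t16 S.m β) (chiB_le_one_t16 S.m β) (t := t)
    (by omega) (by omega) (by
      intro s hs
      unfold chiB
      rw [if_neg]
      omega)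
  refine h.trans ?_
  apply mul_le_mul_of_nonneg_left _ (by positivity)
  have e1 : ∑ s ∈ range (2 * S.m + 1), chiB S.m β s * S.ph s *
          (10000 * ((s : ℝ) - t) ^ 2 / (S.m : ℝ) ^ 2
            + 100 * Cw * (1 / Real.sqrt S.m + max ((s : ℝ) - S.m) 0 / S.m))
      ≤ 109 * Cw / Real.sqrt S.m * ∑ s ∈ range (2 * S.m + 1), chiB S.m β s * S.ph s := by
    rw [Finset.mul_sum]
    refine Finset.sum_le_sum fun s _ => ?_
    have hph := S.ph_nonneg s
    unfold chiB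
    split_ifs with hc
    · obtain ⟨hc1, hc2⟩ := hc
      have hs1 : (s : ℝ) - t ≤ 3 * β := by
        have : s ≤ t + 3 * β := by omega
        have : (s : ℝ) ≤ t + 3 * β := by exact_mod_cast this
        linarith
      have hs2 : 0 ≤ (s : ℝ) - t := by
        have : t ≤ s := by omega
        have : (t : ℝ) ≤ s := by exact_mod_cast this
        linarith
      have hs3 : (s : ℝ) - S.m ≤ 0 := by
        have : s ≤ S.m := by omega
        have : (s : ℝ) ≤ S.m := by exact_mod_cast this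
        linarith
      rw [max_eq_right hs3]
      have h9 : ((s : ℝ) - t) ^ 2 ≤ 9 * S.m := by
        calc ((s : ℝ) - t) ^ 2 ≤ (3 * (β : ℝ)) ^ 2 := pow_le_pow_left₀ hs2 hs1 2
          _ = 9 * (β : ℝ) ^ 2 := by ring
          _ ≤ 9 * S.m := by linarith
      have h10 : 10000 * ((s : ℝ) - t) ^ 2 / (S.m : ℝ) ^ 2 ≤ 9 / Real.sqrt S.m :=
        fl_h10_aux hmpos hsqpos hsq4 hsq h9
      have h11 : 9 / Real.sqrt S.m ≤ 9 * Cw / Real.sqrt S.m := by
        apply div_le_div_of_nonneg_right _ hsqpos.le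
        linarith
      calc 1 * S.ph s * (10000 * ((s : ℝ) - t) ^ 2 / (S.m : ℝ) ^ 2
            + 100 * Cw * (1 / Real.sqrt S.m + 0 / S.m))
          ≤ 1 * S.ph s * (9 * Cw / Real.sqrt S.m + 100 * Cw * (1 / Real.sqrt S.m + 0 / S.m)) :=
            mul_le_mul_of_nonneg_left (by linarith) (by linarith)
        _ = 109 * Cw / Real.sqrt S.m * (1 * S.ph s) := by
            field_simp; ring
    · simp
  have e2 : Ev (t + 1) (fun Q => (1 - Dn S.H Q) * S.b Q)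
      ≤ S.nu + 101 / 25 * (S.cost + β * S.T / S.m) := by
    refine (S.Ev_b_bound (t := t + 1) (by omega)).trans ?_
    have : ∑ s ∈ Icc (t + 1) (2 * S.m), ((s : ℝ) - (t + 1 : ℕ)) / s * S.ph s
        ≤ ∑ s ∈ range (2 * S.m + 1), (101 / 100 * (|(s : ℝ) - S.m| / S.m * S.ph s)
          + 101 / 25 * (β / S.m) * S.ph s) := by
      refine (Finset.sum_le_sum (g := fun s : ℕ => (101 / 100 * (|(s : ℝ) - S.m| / S.m * S.ph s)
          + 101 / 25 * (β / S.m) * S.ph s)) fun s hs => ?_).trans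
          (Finset.sum_le_sum_of_subset_of_nonneg ?_ ?_)
      · rw [Finset.mem_Icc] at hs
        have hph := S.ph_nonneg s
        have hs1 : (s : ℝ) ≥ 999 / 1000 * S.m := by
          have : 999 * S.m ≤ 1000 * s := by omega
          have : (999 : ℝ) * S.m ≤ 1000 * s := by exact_mod_cast this
          linarith
        have hs2 : (s : ℝ) - (t + 1 : ℕ) ≤ |(s : ℝ) - S.m| + 4 * β := by
          have h1 : S.m ≤ t + 1 + 4 * β := by omega
          have h2 : (S.m : ℝ) ≤ (t + 1 : ℕ) + 4 * β := by exact_mod_cast h1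
          have h3 := le_abs_self ((s : ℝ) - S.m)
          linarith
        have hpos : 0 < (s : ℝ) := by linarith
        have hd : ((s : ℝ) - (t + 1 : ℕ)) / s ≤ 101 / 100 * ((|(s : ℝ) - S.m| + 4 * β) / S.m) :=
          fl_hd_aux hs1 hpos hmpos (add_nonneg (abs_nonneg _)
            (mul_nonneg (by norm_num) (Nat.cast_nonneg β))) hs2
        calc ((s : ℝ) - (t + 1 : ℕ)) / s * S.ph s
            ≤ 101 / 100 * ((|(s : ℝ) - S.m| + 4 * β) / S.m) * S.ph s :=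
              mul_le_mul_of_nonneg_right hd hph
          _ = _ := by ring
      · intro s hs
        rw [Finset.mem_Icc] at hs
        rw [Finset.mem_range]; omega
      · intro s _ _
        have hph := S.ph_nonneg s
        positivity
    have h2 : ∑ s ∈ range (2 * S.m + 1), (101 / 100 * (|(s : ℝ) - S.m| / S.m * S.ph s)
          + 101 / 25 * (β / S.m) * S.ph s)
        = 101 / 100 * ∑ s ∈ range (2 * S.m + 1), |(s : ℝ) - S.m| / S.m * S.ph s
          + 101 / 25 * (β / S.m) * S.T := by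
      rw [Finset.sum_add_distrib, Finset.mul_sum]
      unfold Sys.T
      rw [Finset.mul_sum]
    have h3 := S.mom1' hR
    have h4 : 101 / 25 * ((β : ℝ) / S.m) * S.T = 101 / 25 * (β * S.T / S.m) := by ring
    linarith
  have hnu := S.nu_nonneg
  have hcost := S.cost_nonneg
  have hT := S.T_nonneg
  have hβT : 0 ≤ (β : ℝ) * S.T / S.m := by positivity
  linarith

set_option maxHeartbeats 2000000 in
/-- bracket bound for one `k` and one `t` -/
theorem Sys.FL_term (S : Sys α) (hR : S.Reg) {β : ℕ} (hβ4 : 4 ≤ β)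
    (hβ : (β : ℝ) ^ 2 ≤ S.m) {c : ℝ} (hc0 : 0 < c) (hc1 : c ≤ 1) (k : ℕ)
    {t : ℕ} (ht1 : S.m - 4 * β ≤ t) (ht2 : t < S.m - 3 * β) :
    (((k : ℝ) + 1) * S.r * (S.dl k * Ev t (Rh S.f S.z (chiB S.m β)) + Ev t (S.eh (chiB S.m β)))
          + 800 * ((k : ℝ) + 1) ^ 4 * S.m / c
            * (1 / (2 * (S.m : ℝ) - t) * Ev t (Rh S.f S.z (chiB S.m β))
              + 1 / (((t : ℝ) + 1) * ((t : ℝ) + 2)) * Ev (t + 2) (S.Om (chiB S.m β) k)))
      ≤ ((k : ℝ) + 2) ^ 10 * (2000 * Cw * (1 / c * (1 / S.m) *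
            ∑ s ∈ range (2 * S.m + 1), chiB S.m β s * S.ph s)
          + 230 * ((β / Real.sqrt S.m) * (S.T / S.m)) + 230 * ((S.cost + S.nu) / Real.sqrt S.m))
        + 1000 * ((k : ℝ) + 2) ^ 4 / (c * S.m) * Ev (t + 2) (S.Om (chiB S.m β) k) := by
  have hm := hR.1
  have hmβ := FL_beta hm hβ
  have hmR : (100000000 : ℝ) ≤ S.m := by exact_mod_cast hm
  have hmpos : (0 : ℝ) < S.m := by linarith
  have hsq4 : (10000 : ℝ) ≤ Real.sqrt S.m := by
    apply Real.le_sqrt_of_sq_le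
    calc (10000 : ℝ) ^ 2 = 100000000 := by norm_num
      _ ≤ S.m := hmR
  have hsqpos : (0 : ℝ) < Real.sqrt S.m := by linarith
  have hsq : Real.sqrt S.m * Real.sqrt S.m = S.m := Real.mul_self_sqrt hmpos.le
  have hCw := one_le_Cw
  obtain ⟨hr1, hr2, hr3⟩ := S.r_bounds hR
  have hrh := S.Ev_Rh_bound hR (χ := chiB S.m β) (chiB_nonneg_t16 S.m β) (t := t) (by omega)
  have heh := S.FL_eh hR hβ4 hβ ht1 ht2
  set φ := ∑ s ∈ range (2 * S.m + 1), chiB S.m β s * S.ph s with hφ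
  have hφ0 : 0 ≤ φ := Finset.sum_nonneg fun s _ => mul_nonneg (chiB_nonneg_t16 _ _ _) (S.ph_nonneg s)
  have hER0 : 0 ≤ Ev t (Rh S.f S.z (chiB S.m β)) :=
    Ev_nonneg fun P _ => Rh_nonneg S.f_nonneg S.f_le_one S.z (chiB_nonneg_t16 S.m β) P
  have hEO0 : 0 ≤ Ev (t + 2) (S.Om (chiB S.m β) k) :=
    Ev_nonneg fun P _ => S.Om_nonneg (chiB_nonneg_t16 S.m β) k P
  have hEE0 : 0 ≤ Ev t (S.eh (chiB S.m β)) :=
    Ev_nonneg fun P _ => S.eh_nonneg (chiB_nonneg_t16 S.m β) P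
  set ER := Ev t (Rh S.f S.z (chiB S.m β))
  set EO := Ev (t + 2) (S.Om (chiB S.m β) k)
  set EE := Ev t (S.eh (chiB S.m β))
  have hnu := S.nu_nonneg
  have hcost := S.cost_nonneg
  have hT := S.T_nonneg
  have hk0 : (0 : ℝ) ≤ k := Nat.cast_nonneg k
  have hk1 : (0 : ℝ) ≤ (k : ℝ) + 1 := by linarith
  have hp10 : (k : ℝ) + 2 ≤ ((k : ℝ) + 2) ^ 10 := by
    calc (k : ℝ) + 2 = ((k : ℝ) + 2) ^ 1 := (pow_one _).symm
      _ ≤ ((k : ℝ) + 2) ^ 10 := pow_le_pow_right₀ (by linarith) (by norm_num)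
  have hkk1 : (k : ℝ) + 1 ≤ ((k : ℝ) + 2) ^ 10 := by linarith
  have hkk2 : ((k : ℝ) + 1) ^ 2 ≤ ((k : ℝ) + 2) ^ 10 :=
    (pow_le_pow_left₀ hk1 (by linarith) 2).trans
      (pow_le_pow_right₀ (by linarith) (by norm_num))
  have hkk4' : ((k : ℝ) + 1) ^ 4 ≤ ((k : ℝ) + 2) ^ 4 := pow_le_pow_left₀ hk1 (by linarith) 4
  have hkk4 : ((k : ℝ) + 1) ^ 4 ≤ ((k : ℝ) + 2) ^ 10 :=
    hkk4'.trans (pow_le_pow_right₀ (by linarith) (by norm_num))
  have hk40 : 0 ≤ ((k : ℝ) + 1) ^ 4 := pow_nonneg hk1 4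
  have hcinv : 1 ≤ 1 / c := by rw [le_div_iff₀ hc0]; linarith
  have hφm : 0 ≤ φ / (S.m : ℝ) := div_nonneg hφ0 hmpos.le
  set ψ := 1 / c * (1 / (S.m : ℝ)) * φ with hψ
  have hψe : ψ = 1 / c * (φ / (S.m : ℝ)) := by rw [hψ]; ring
  have hψ0 : 0 ≤ ψ := by rw [hψe]; exact mul_nonneg (by linarith) hφm
  have hφψ : φ / S.m ≤ ψ := by
    rw [hψe]; exact le_mul_of_one_le_left hφm hcinv
  have hr0 : (0 : ℝ) ≤ S.r := Nat.cast_nonneg _
  have hdl : S.dl k = 2 * ((k : ℝ) + 1) / Real.sqrt S.m := rfl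
  -- (A)
  have hA : ((k : ℝ) + 1) * S.r * (S.dl k * ER) ≤ ((k : ℝ) + 2) ^ 10 * (5 * ψ) := by
    rw [hdl]
    exact flA_aux hk1 hkk2 hsqpos hmpos hr0 hr2 hER0 hrh hφψ hψ0
  -- (B)
  have hB : ((k : ℝ) + 1) * S.r * EE ≤ ((k : ℝ) + 2) ^ 10 * (219 * Cw * ψ
      + 230 * ((β / Real.sqrt S.m) * (S.T / S.m)) + 230 * ((S.cost + S.nu) / Real.sqrt S.m)) := by
    rw [add_comm S.cost S.nu]
    exact flB_aux hk1 hkk1 hsqpos (by rw [sq, hsq]) hr0 hr2 hEE0 (by linarith)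
      (Nat.cast_nonneg β) hT (add_nonneg hnu hcost) heh hφψ hψ0 rfl rfl
  -- (C)
  have htm : (t : ℝ) ≤ S.m := by
    have : t ≤ S.m := by omega
    exact_mod_cast this
  have hC : 800 * ((k : ℝ) + 1) ^ 4 * S.m / c * (1 / (2 * (S.m : ℝ) - t) * ER)
      ≤ ((k : ℝ) + 2) ^ 10 * (1600 * ψ) := by
    have h1 : 1 / (2 * (S.m : ℝ) - t) ≤ 1 / S.m :=
      one_div_le_one_div_of_le hmpos (by linarith)
    have h10 : 0 ≤ 1 / (2 * (S.m : ℝ) - t) := div_nonneg zero_le_one (by linarith)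
    exact flC_aux hk40 hkk4 hmpos hc0 h10 h1 hER0 hrh rfl hψ0
  -- (D)
  have hD : 800 * ((k : ℝ) + 1) ^ 4 * S.m / c * (1 / (((t : ℝ) + 1) * ((t : ℝ) + 2)) * EO)
      ≤ 1000 * ((k : ℝ) + 2) ^ 4 / (c * S.m) * EO := by
    have ht3 : 999 / 1000 * (S.m : ℝ) ≤ t := by
      have : 999 * S.m ≤ 1000 * t := by omega
      have : (999 : ℝ) * S.m ≤ 1000 * t := by exact_mod_cast this
      linarith
    exact flD_aux hk40 hkk4' hmpos hc0 ht3 hEO0
  have hfin : ((k : ℝ) + 2) ^ 10 * (5 * ψ) + ((k : ℝ) + 2) ^ 10 * (219 * Cw * ψ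
      + 230 * ((β / Real.sqrt S.m) * (S.T / S.m)) + 230 * ((S.cost + S.nu) / Real.sqrt S.m))
      + ((k : ℝ) + 2) ^ 10 * (1600 * ψ) ≤ ((k : ℝ) + 2) ^ 10 * (2000 * Cw * ψ
      + 230 * ((β / Real.sqrt S.m) * (S.T / S.m)) + 230 * ((S.cost + S.nu) / Real.sqrt S.m)) := by
    rw [← mul_add, ← mul_add]
    apply mul_le_mul_of_nonneg_left _ (pow_nonneg (by linarith) 10)
    have hCψ : 1 * ψ ≤ Cw * ψ := mul_le_mul_of_nonneg_right hCw hψ0
    linarith
  calc _ = ((k : ℝ) + 1) * S.r * (S.dl k * ER) + ((k : ℝ) + 1) * S.r * EE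
        + 800 * ((k : ℝ) + 1) ^ 4 * S.m / c * (1 / (2 * (S.m : ℝ) - t) * ER)
        + 800 * ((k : ℝ) + 1) ^ 4 * S.m / c * (1 / (((t : ℝ) + 1) * ((t : ℝ) + 2)) * EO) := by ring
    _ ≤ _ := by linarith

theorem Sys.Far_low (S : Sys α) (hR : S.Reg) {β : ℕ} (hβ4 : 4 ≤ β)
    (hβ : (β : ℝ) ^ 2 ≤ S.m) {c : ℝ} (hc0 : 0 < c) (hc1 : c ≤ 1) :
    S.Far (chiB S.m β) c (S.m - 4 * β)
      ≤ 10000000000000 * Cw ^ 2 *
        (1 / c * (1 / S.m) * ∑ s ∈ range (2 * S.m + 1), chiB S.m β s * S.ph s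
          + (β / Real.sqrt S.m) * (S.T / S.m) + (S.cost + S.nu) / Real.sqrt S.m
          + 1 / (c * Real.sqrt β) * ((1 + S.T) / S.m + S.cost + S.nu + S.G)) := by
  have hm := hR.1
  have hmβ := FL_beta hm hβ
  have hmR : (100000000 : ℝ) ≤ S.m := by exact_mod_cast hm
  have hmpos : (0 : ℝ) < S.m := by linarith
  have hsq4 : (10000 : ℝ) ≤ Real.sqrt S.m := by
    apply Real.le_sqrt_of_sq_le
    calc (10000 : ℝ) ^ 2 = 100000000 := by norm_num
      _ ≤ S.m := hmR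
  have hsqpos : (0 : ℝ) < Real.sqrt S.m := by linarith
  have hCw := one_le_Cw
  have hβpos : (0 : ℝ) < β := by
    have : 0 < β := by omega
    exact_mod_cast this
  have hnu := S.nu_nonneg
  have hcost := S.cost_nonneg
  have hT := S.T_nonneg
  have hG := S.G_nonneg
  have hfb := S.far_bound hR (χ := chiB S.m β) (chiB_nonneg_t16 S.m β) (chiB_le_one_t16 S.m β) hc0
    (t₁ := S.m - 4 * β) (w := β) (by omega) (by
      intro s hs
      unfold chiB
      rw [if_neg]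
      omega)
  have hφ0 : 0 ≤ ∑ s ∈ range (2 * S.m + 1), chiB S.m β s * S.ph s :=
    Finset.sum_nonneg fun s _ => mul_nonneg (chiB_nonneg_t16 _ _ _) (S.ph_nonneg s)
  set φ := ∑ s ∈ range (2 * S.m + 1), chiB S.m β s * S.ph s with hφ
  set X := (1 + S.T) / S.m + S.cost + S.nu + S.G with hX
  have hX0 : 0 ≤ X :=
    add_nonneg (add_nonneg (add_nonneg (div_nonneg (by linarith) hmpos.le) hcost) hnu) hG
  have hmX : 1 + S.T + S.m * (S.cost + S.nu + S.G) = S.m * X := by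
    have h1 : (S.m : ℝ) * ((1 + S.T) / S.m) = 1 + S.T := mul_div_cancel₀ _ hmpos.ne'
    rw [hX]
    linear_combination -h1
  set Z := 2000 * Cw * (1 / c * (1 / (S.m : ℝ)) * φ)
          + 230 * ((β / Real.sqrt S.m) * (S.T / S.m)) + 230 * ((S.cost + S.nu) / Real.sqrt S.m)
    with hZ
  have hy0 : 0 ≤ 1 / c * (1 / (S.m : ℝ)) * φ :=
    mul_nonneg (mul_nonneg (one_div_nonneg.2 hc0.le) (one_div_nonneg.2 hmpos.le)) hφ0
  have hy1 : 0 ≤ (β / Real.sqrt S.m) * (S.T / S.m) :=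
    mul_nonneg (div_nonneg hβpos.le hsqpos.le) (div_nonneg hT hmpos.le)
  have hy2 : 0 ≤ (S.cost + S.nu) / Real.sqrt S.m :=
    div_nonneg (add_nonneg hcost hnu) hsqpos.le
  have hZ0 : 0 ≤ Z := by
    have h1 : 0 ≤ 2000 * Cw * (1 / c * (1 / (S.m : ℝ)) * φ) :=
      mul_nonneg (by linarith) hy0
    rw [hZ]
    linarith
  -- sum over t
  have hk : ∀ k ∈ range S.M, omk k * ∑ t ∈ Ico (S.m - 4 * β) (S.m - 4 * β + β),
        (((k : ℝ) + 1) * S.r * (S.dl k * Ev t (Rh S.f S.z (chiB S.m β)) + Ev t (S.eh (chiB S.m β)))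
          + 800 * ((k : ℝ) + 1) ^ 4 * S.m / c
            * (1 / (2 * (S.m : ℝ) - t) * Ev t (Rh S.f S.z (chiB S.m β))
              + 1 / (((t : ℝ) + 1) * ((t : ℝ) + 2)) * Ev (t + 2) (S.Om (chiB S.m β) k)))
      ≤ Real.exp (-((k : ℝ) ^ 2) / 2) * ((k : ℝ) + 2) ^ 10 *
          (β * Z + 1000000000000 * Real.sqrt β / c * X) := by
    intro k hk
    have : omk k = Real.exp (-((k : ℝ) ^ 2) / 2) := rfl
    rw [this, mul_assoc (Real.exp _) (((k : ℝ) + 2) ^ 10)]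
    apply mul_le_mul_of_nonneg_left _ (Real.exp_pos _).le
    have hk0 : (0 : ℝ) ≤ k := Nat.cast_nonneg k
    have hOm := S.Om_low hR (Finset.mem_range.1 hk) hβ4 hβ
    have hre : ∑ t ∈ Ico (S.m - 4 * β + 2) (S.m - 4 * β + 2 + β), Ev t (S.Om (chiB S.m β) k)
        = ∑ t ∈ Ico (S.m - 4 * β) (S.m - 4 * β + β), Ev (t + 2) (S.Om (chiB S.m β) k) := by
      have e : S.m - 4 * β + 2 + β = S.m - 4 * β + β + 2 := by omega
      rw [e, Finset.sum_Ico_add' (fun t => Ev t (S.Om (chiB S.m β) k))]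
    rw [hre] at hOm
    calc _ ≤ ∑ t ∈ Ico (S.m - 4 * β) (S.m - 4 * β + β), (((k : ℝ) + 2) ^ 10 * Z
          + 1000 * ((k : ℝ) + 2) ^ 4 / (c * S.m) * Ev (t + 2) (S.Om (chiB S.m β) k)) := by
          refine Finset.sum_le_sum fun t ht => ?_
          rw [Finset.mem_Ico] at ht
          exact S.FL_term hR hβ4 hβ hc0 hc1 k ht.1 (by omega)
      _ = β * (((k : ℝ) + 2) ^ 10 * Z) + 1000 * ((k : ℝ) + 2) ^ 4 / (c * S.m) *
          ∑ t ∈ Ico (S.m - 4 * β) (S.m - 4 * β + β), Ev (t + 2) (S.Om (chiB S.m β) k) := by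
          rw [Finset.sum_add_distrib, Finset.mul_sum, Finset.sum_const, Nat.card_Ico,
            nsmul_eq_mul, Nat.add_sub_cancel_left]
      _ ≤ β * (((k : ℝ) + 2) ^ 10 * Z) + 1000 * ((k : ℝ) + 2) ^ 4 / (c * S.m) *
          (1000000000 * ((k : ℝ) + 2) ^ 2 * Real.sqrt β
            * (1 + S.T + S.m * (S.cost + S.nu + S.G))) := by
          apply add_le_add_right
          exact mul_le_mul_of_nonneg_left hOm
            (div_nonneg (mul_nonneg (by norm_num) (pow_nonneg (by linarith) 4))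
              (mul_nonneg hc0.le hmpos.le))
      _ = β * (((k : ℝ) + 2) ^ 10 * Z) + 1000 * ((k : ℝ) + 2) ^ 4 / (c * S.m) *
          (1000000000 * ((k : ℝ) + 2) ^ 2 * Real.sqrt β * (S.m * X)) := by
          rw [hmX]
      _ ≤ _ := fl_k_aux hmpos hc0 hX0 (Real.sqrt_nonneg _) (by
          rw [← pow_add]
          exact pow_le_pow_right₀ (by linarith) (by norm_num))
  have hsum := Finset.sum_le_sum hk
  rw [← Finset.sum_mul] at hsum
  have hshell := shell_sum_le S.M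
  have hsb : 0 < Real.sqrt β := Real.sqrt_pos.2 hβpos
  have hsbb : Real.sqrt β * Real.sqrt β = β := Real.mul_self_sqrt hβpos.le
  have hW0 : 0 ≤ β * Z + 1000000000000 * Real.sqrt β / c * X :=
    add_nonneg (mul_nonneg hβpos.le hZ0)
      (mul_nonneg (div_nonneg (mul_nonneg (by norm_num) hsb.le) hc0.le) hX0)
  have hmain : (β : ℝ) * S.Far (chiB S.m β) c (S.m - 4 * β)
      ≤ 11 / 10 * (Cw * (β * Z + 1000000000000 * Real.sqrt β / c * X)) := by
    refine hfb.trans ?_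
    apply mul_le_mul_of_nonneg_left _ (by norm_num)
    refine hsum.trans ?_
    exact mul_le_mul_of_nonneg_right hshell hW0
  have hdiv := fl_div_aux hβpos hsbb hsb hc0 hmain
  have hy3 : 0 ≤ 1 / (c * Real.sqrt β) * X :=
    mul_nonneg (one_div_nonneg.2 (mul_nonneg hc0.le hsb.le)) hX0
  have hend := fl_end_aux hCw hy0 hy1 hy2 hy3
  refine hdiv.trans (le_trans (le_of_eq ?_) hend)
  rw [hZ]
  ring

end UF
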