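import Pool.Agent.UFree.Base
import Pool.Agent.UFree.FarLow
import Pool.Agent.UFree.FarTop
import Pool.Agent.UFree.LowB
import Pool.Agent.UFree.Member
import Pool.Agent.UFree.SysA

set_option autoImplicit false
set_option linter.unusedSectionVars false
set_option linter.unusedVariables false
set_option linter.unusedSimpArgs false
open Finset

namespace UF
variable {α : Type*} [Fintype α] [DecidableEq α]

/-! ## part v1 -/

theorem chi_top_deep (m K s : ℕ) : chiTop m K s + chiDeep m K s = 1 := by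
  unfold chiTop chiDeep
  by_cases h : m < s + K
  · rw [if_pos h, if_neg (by omega)]; norm_num
  · rw [if_neg h, if_pos (by omega)]; norm_num

theorem chi_deep_step (m D s : ℕ) : chiDeep m D s = chiB m D s + chiDeep m (2 * D) s := by
  unfold chiB chiDeep
  by_cases h : s + D ≤ m
  · by_cases h' : m < s + 2 * D
    · rw [if_pos h, if_pos ⟨h', h⟩, if_neg (by omega)]; norm_num
    · rw [if_pos h, if_neg (fun hh => h' hh.1), if_pos (by omega)]; norm_num
  · rw [if_neg h, if_neg (fun hh => h hh.2), if_neg (by omega)]; norm_num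

theorem Sys.Gc_add (S : Sys α) (χ χ' : ℕ → ℝ) : S.Gc (fun s => χ s + χ' s) = S.Gc χ + S.Gc χ' := by
  unfold Sys.Gc
  rw [← Finset.sum_add_distrib]
  apply Finset.sum_congr rfl
  intro p _
  rw [← Ev_add]
  apply Ev_congr
  intro P _
  ring

theorem Sys.Gc_one (S : Sys α) : S.Gc (fun _ => 1) = S.G := by
  unfold Sys.Gc Sys.G
  apply Finset.sum_congr rfl
  intro p _
  apply Ev_congr
  intro P _
  ring

theorem Sys.Gc_partition (S : Sys α) {K : ℕ} (hK : 1 ≤ K) (I : ℕ) :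
    S.G = S.Gc (chiTop S.m K) + ∑ i ∈ range I, S.Gc (chiB S.m (2 ^ i * K))
      + S.Gc (chiDeep S.m (2 ^ I * K)) := by
  induction I with
  | zero =>
    rw [Finset.sum_range_zero, add_zero, pow_zero, one_mul, ← S.Gc_add, ← S.Gc_one]
    congr 1
    funext s
    exact (chi_top_deep S.m K s).symm
  | succ I ih =>
    rw [Finset.sum_range_succ, ih]
    have h1 : S.Gc (chiDeep S.m (2 ^ I * K)) = S.Gc (chiB S.m (2 ^ I * K)) + S.Gc (chiDeep S.m (2 ^ (I + 1) * K)) := by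
      rw [← S.Gc_add]
      congr 1
      funext s
      have : 2 ^ (I + 1) * K = 2 * (2 ^ I * K) := by ring
      rw [this]
      exact chi_deep_step _ _ _
    rw [h1]
    ring

/-! ## part v2 -/

/-- elementary sums over the blocks -/
theorem sum_inv_sq_le (I : ℕ) : ∑ i ∈ range I, 1 / ((i : ℝ) + 1) ^ 2 ≤ 2 := by
  have key : ∀ I : ℕ, ∑ i ∈ range (I + 1), 1 / ((i : ℝ) + 1) ^ 2 ≤ 2 - 1 / ((I : ℝ) + 1) := by
    intro I
    induction I with
    | zero => norm_num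
    | succ I ih =>
      rw [Finset.sum_range_succ]
      have h1 : 1 / (((I + 1 : ℕ) : ℝ) + 1) ^ 2 ≤ 1 / ((I : ℝ) + 1) - 1 / (((I + 1 : ℕ) : ℝ) + 1) := by
        push_cast
        rw [div_sub_div _ _ (by positivity) (by positivity), div_le_div_iff₀ (by positivity)
          (by positivity)]
        nlinarith [(Nat.cast_nonneg I : (0 : ℝ) ≤ I)]
      linarith
  cases I with
  | zero => simp
  | succ I =>
    have := key I
    have h : 0 ≤ 1 / ((I : ℝ) + 1) := by positivity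
    linarith

theorem sq_le_four_two_pow (i : ℕ) : ((i : ℝ) + 1) ^ 2 ≤ 4 * 2 ^ i := by
  have key : ∀ k : ℕ, (((k + 2 : ℕ) : ℝ) + 1) ^ 2 ≤ 4 * 2 ^ (k + 2) := by
    intro k
    induction k with
    | zero => norm_num
    | succ k ih =>
      push_cast at ih ⊢
      rw [show k + 1 + 2 = (k + 2) + 1 by ring, pow_succ (2 : ℝ) (k + 2)]
      nlinarith [(Nat.cast_nonneg k : (0 : ℝ) ≤ k)]
  rcases i with _ | _ | i
  · norm_num
  · norm_num
  · exact key i

theorem sum_sq_div_sqrt_le (I : ℕ) :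
    ∑ i ∈ range I, ((i : ℝ) + 1) ^ 2 / Real.sqrt (2 ^ i) ≤ 100 := by
  set x : ℝ := 1 / Real.sqrt 2 with hx
  have hs0 : 0 < Real.sqrt 2 := Real.sqrt_pos.2 (by norm_num)
  have hx0 : 0 < x := by positivity
  have hx1 : x ≤ 0.7072 := by
    rw [hx, div_le_iff₀ hs0]
    have : (1.41405 : ℝ) ≤ Real.sqrt 2 := by
      apply Real.le_sqrt_of_sq_le
      norm_num
    linarith
  have hsq : ∀ i : ℕ, Real.sqrt (2 ^ i) = (Real.sqrt 2) ^ i := by
    intro i
    rw [show (2 : ℝ) ^ i = ((Real.sqrt 2) ^ i) ^ 2 by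
      rw [← pow_mul, mul_comm, pow_mul, Real.sq_sqrt (by norm_num)]]
    exact Real.sqrt_sq (by positivity)
  have hterm : ∀ i : ℕ, ((i : ℝ) + 1) ^ 2 / Real.sqrt (2 ^ i) = ((i : ℝ) + 1) ^ 2 * x ^ i := by
    intro i
    rw [hsq, hx, one_div, inv_pow]
    rfl
  simp_rw [hterm]
  have key : ∀ I : ℕ, ∑ i ∈ range I, ((i : ℝ) + 1) ^ 2 * x ^ i ≤
      100 - (4 * (I : ℝ) ^ 2 + 27 * I + 90) * x ^ I := by
    intro I
    induction I with
    | zero => norm_num
    | succ I ih =>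
      rw [Finset.sum_range_succ]
      have hI : (0 : ℝ) ≤ I := Nat.cast_nonneg I
      have h1 : (0 : ℝ) < x ^ I := by positivity
      have h2 : ((I : ℝ) + 1) ^ 2 + x * (4 * ((I : ℝ) + 1) ^ 2 + 27 * (I + 1) + 90) ≤
          4 * (I : ℝ) ^ 2 + 27 * I + 90 := by
        have h3 : x * (4 * ((I : ℝ) + 1) ^ 2 + 27 * (I + 1) + 90) ≤
            0.7072 * (4 * ((I : ℝ) + 1) ^ 2 + 27 * (I + 1) + 90) :=
          mul_le_mul_of_nonneg_right hx1 (by positivity)
        nlinarith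
      have h4 := mul_le_mul_of_nonneg_right h2 h1.le
      push_cast
      rw [pow_succ x I]
      nlinarith
  refine (key I).trans ?_
  have : 0 ≤ (4 * (I : ℝ) ^ 2 + 27 * I + 90) * x ^ I := by positivity
  linarith

theorem index_small {I m K : ℕ} (hK : 1 ≤ K) (h : (2 : ℕ) ^ I * K ≤ Nat.sqrt m) (hm : 1 ≤ m) :
    (I : ℝ) / Real.sqrt m ≤ 4 / Real.sqrt (Real.sqrt m) := by
  have h1 : (2 : ℕ) ^ I ≤ Nat.sqrt m := (Nat.le_mul_of_pos_right _ hK).trans h
  have h2 : ((2 : ℝ)) ^ I ≤ Real.sqrt m := by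
    have h3 : (((2 : ℕ) ^ I : ℕ) : ℝ) ≤ (Nat.sqrt m : ℝ) := by exact_mod_cast h1
    push_cast at h3
    exact h3.trans (Real.nat_sqrt_le_real_sqrt)
  set s := Real.sqrt m with hs
  have hs1 : 1 ≤ s := (one_le_pow₀ (by norm_num : (1 : ℝ) ≤ 2)).trans h2
  have hs0 : 0 < s := by linarith
  have hr0 : 0 < Real.sqrt s := Real.sqrt_pos.2 hs0
  have hr : Real.sqrt s * Real.sqrt s = s := Real.mul_self_sqrt hs0.le
  have h4 := sq_le_four_two_pow I
  have h5 : (I : ℝ) ≤ 2 * Real.sqrt s := by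
    apply le_of_sq_le_sq _ (by positivity)
    have hI : (0 : ℝ) ≤ I := Nat.cast_nonneg I
    nlinarith
  rw [div_le_div_iff₀ hs0 hr0]
  have : (I : ℝ) * Real.sqrt s ≤ 2 * Real.sqrt s * Real.sqrt s :=
    mul_le_mul_of_nonneg_right h5 hr0.le
  nlinarith

/-! ## part v3 -/

/-! helper lemmas -/

theorem V3_part (m K I s : ℕ) :
    chiTop m K s + ∑ i ∈ range I, chiB m (2 ^ i * K) s + chiDeep m (2 ^ I * K) s = 1 := by
  induction I with
  | zero =>
    simp only [range_zero, sum_empty, pow_zero, one_mul, add_zero]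
    unfold chiTop chiDeep
    by_cases h : m < s + K
    · rw [if_pos h, if_neg (by omega)]; norm_num
    · rw [if_neg h, if_pos (by omega)]; norm_num
  | succ I ih =>
    rw [sum_range_succ]
    have h1 : chiB m (2 ^ I * K) s + chiDeep m (2 ^ (I + 1) * K) s = chiDeep m (2 ^ I * K) s := by
      unfold chiB chiDeep
      have e : 2 ^ (I + 1) * K = 2 * (2 ^ I * K) := by ring
      rw [e]
      generalize 2 ^ I * K = β
      by_cases h : s + β ≤ m
      · by_cases h' : m < s + 2 * β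
        · rw [if_pos ⟨h', h⟩, if_neg (by omega), if_pos h]; norm_num
        · rw [if_neg (by tauto), if_pos (by omega), if_pos h]; norm_num
      · rw [if_neg (by tauto), if_neg (by omega), if_neg h]; norm_num
    linarith

theorem V3_top_nonneg (m K s : ℕ) : 0 ≤ chiTop m K s := by
  unfold chiTop; split_ifs <;> norm_num

theorem V3_top_le (m K s : ℕ) : chiTop m K s ≤ 1 := by
  unfold chiTop; split_ifs <;> norm_num

theorem V3_B_nonneg (m K s : ℕ) : 0 ≤ chiB m K s := by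
  unfold chiB; split_ifs <;> norm_num

theorem V3_B_le (m K s : ℕ) : chiB m K s ≤ 1 := by
  unfold chiB; split_ifs <;> norm_num

theorem V3_deep_nonneg (m K s : ℕ) : 0 ≤ chiDeep m K s := by
  unfold chiDeep; split_ifs <;> norm_num

theorem V3_sum (m K I N : ℕ) (g : ℕ → ℝ) (hg : ∀ s, 0 ≤ g s) :
    ∑ s ∈ range N, chiTop m K s * g s + ∑ i ∈ range I, ∑ s ∈ range N, chiB m (2 ^ i * K) s * g s
      ≤ ∑ s ∈ range N, g s := by
  rw [sum_comm, ← sum_add_distrib]
  apply sum_le_sum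
  intro s _
  rw [← sum_mul, ← add_mul]
  have h1 := V3_part m K I s
  have h2 := V3_deep_nonneg m (2 ^ I * K) s
  have h3 := hg s
  have h4 : chiTop m K s + ∑ i ∈ range I, chiB m (2 ^ i * K) s ≤ 1 := by linarith
  calc _ ≤ 1 * g s := mul_le_mul_of_nonneg_right h4 h3
    _ = g s := one_mul _

theorem V3_sumB (m K I N : ℕ) (g : ℕ → ℝ) (hg : ∀ s, 0 ≤ g s) :
    ∑ i ∈ range I, ∑ s ∈ range N, chiB m (2 ^ i * K) s * g s ≤ ∑ s ∈ range N, g s := by
  have h1 := V3_sum m K I N g hg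
  have h2 : 0 ≤ ∑ s ∈ range N, chiTop m K s * g s :=
    sum_nonneg (fun s _ => mul_nonneg (V3_top_nonneg _ _ _) (hg s))
  linarith

/-- on the block of scale `β` the distance to the middle is at least `β` -/
theorem V3_block (m β s : ℕ) (hm : 0 < m) (p : ℝ) (hp : 0 ≤ p) :
    (β : ℝ) / m * (chiB m β s * p) ≤ chiB m β s * (|(s : ℝ) - m| / m * p) := by
  have hm' : (0 : ℝ) < m := by exact_mod_cast hm
  unfold chiB
  split_ifs with h
  · have h1 : (s : ℝ) + β ≤ m := by exact_mod_cast h.2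
    have h2 : (β : ℝ) ≤ |(s : ℝ) - m| := by
      rw [abs_sub_comm]
      exact le_trans (by linarith) (le_abs_self _)
    rw [one_mul, one_mul]
    apply mul_le_mul_of_nonneg_right _ hp
    exact div_le_div_of_nonneg_right h2 hm'.le
  · simp

/-- choice of the number of blocks -/
theorem V3_I (m K : ℕ) (hK4 : 4 ≤ K) (hK : 18 * K ^ 2 ≤ m) :
    ∃ I : ℕ, 2 ^ I * K ≤ Nat.sqrt m ∧ m ≤ 4 * (2 ^ I * K) ^ 2 := by
  have hKs : K ≤ Nat.sqrt m := by
    rw [Nat.le_sqrt]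
    rw [pow_two] at hK
    omega
  have hq : Nat.sqrt m / K ≠ 0 := by
    have := Nat.div_pos hKs (by omega)
    omega
  refine ⟨Nat.log 2 (Nat.sqrt m / K), ?_, ?_⟩
  · have h1 := Nat.pow_log_le_self 2 hq
    calc 2 ^ Nat.log 2 (Nat.sqrt m / K) * K ≤ Nat.sqrt m / K * K := Nat.mul_le_mul_right _ h1
      _ ≤ Nat.sqrt m := Nat.div_mul_le_self _ _
  · have h1 : Nat.sqrt m / K < 2 ^ (Nat.log 2 (Nat.sqrt m / K) + 1) :=
      Nat.lt_pow_succ_log_self (by norm_num) _
    have h2 : Nat.sqrt m < 2 ^ (Nat.log 2 (Nat.sqrt m / K) + 1) * K := by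
      rwa [Nat.div_lt_iff_lt_mul (by omega)] at h1
    have h3 : Nat.sqrt m + 1 ≤ 2 * (2 ^ Nat.log 2 (Nat.sqrt m / K) * K) := by
      rw [pow_succ] at h2
      have e : 2 ^ Nat.log 2 (Nat.sqrt m / K) * 2 * K =
          2 * (2 ^ Nat.log 2 (Nat.sqrt m / K) * K) := by
        rw [mul_comm (2 ^ Nat.log 2 (Nat.sqrt m / K)) 2, mul_assoc]
      rw [e] at h2
      exact h2
    have h4 := Nat.lt_succ_sqrt m
    rw [Nat.succ_eq_add_one] at h4
    generalize 2 ^ Nat.log 2 (Nat.sqrt m / K) * K = D at h3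
    generalize Nat.sqrt m = q at h3 h4
    calc m ≤ (q + 1) * (q + 1) := h4.le
      _ ≤ (2 * D) * (2 * D) := Nat.mul_le_mul h3 h3
      _ = 4 * D ^ 2 := by ring

/-- final numerical comparison -/
theorem V3_num (C T cost nu G m h K L sK ssm sm : ℝ) (hC : 1 ≤ C) (hT : 0 ≤ T) (hcost : 0 ≤ cost)
    (hnu : 0 ≤ nu) (hG : 0 ≤ G) (hm : 1 ≤ m) (hh : 0 ≤ h) (hhm : h ≤ m) (hK : 4 ≤ K) (hL : 1 ≤ L)
    (hsK : 2 ≤ sK) (hsK2 : sK ^ 2 = K) (hssm : 1 ≤ ssm) (hssm2 : ssm ^ 2 = sm) :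
    (G ≤ 1 / 16 * cost + 20000 * C * (2 * (T / m) + 4 * (h / m) ^ 2 * cost)
      + 9 * (L / m * T + 4 * (1 / L + h / m) * cost) + 6 * K / m * T
      + 100000000000 * C ^ 2 * ((1 + T) / m + ((h / m) ^ 2 + 1 / K + 1 / sm) * (cost + nu))
      + 10000000000000 * C ^ 2 * (64 / K * cost + T / m + 4 / ssm * (cost + nu)
          + 400 / sK * ((1 + T) / m + cost + nu + G))
      + 112 * C / sm * cost) →
    G ≤ 1 / 16 * cost
      + 10 ^ 16 * C ^ 2 * (h / m + 1 / L + 1 / sK + 1 / ssm) * (cost + nu + G)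
      + 10 ^ 16 * C ^ 2 * (K + L) * ((1 + T) / m) := by
  have hm0 : 0 < m := lt_of_lt_of_le one_pos hm
  have hK00 : 0 ≤ K := by linarith only [hK]
  have hL00 : 0 ≤ L := by linarith only [hL]
  have hC00 : 0 ≤ C := by linarith only [hC]
  have hsK0 : 0 < sK := by linarith only [hsK]
  have hssm0 : 0 < ssm := by linarith only [hssm]
  obtain ⟨A, hA⟩ : ∃ A, A = (1 + T) / m := ⟨_, rfl⟩
  obtain ⟨η, hη⟩ : ∃ η, η = h / m := ⟨_, rfl⟩
  obtain ⟨X, hX⟩ : ∃ X, X = cost + nu + G := ⟨_, rfl⟩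
  obtain ⟨P, hP⟩ : ∃ P, P = C ^ 2 := ⟨_, rfl⟩
  have hP1 : 1 ≤ P := by rw [hP]; exact one_le_pow₀ hC
  have hP0 : 0 ≤ P := zero_le_one.trans hP1
  have hCP : C ≤ P := by rw [hP]; exact le_self_pow₀ hC two_ne_zero
  have hA0 : 0 ≤ A := by rw [hA]; exact div_nonneg (add_nonneg zero_le_one hT) hm0.le
  have hTA : T / m ≤ A := by
    rw [hA]
    apply div_le_div_of_nonneg_right _ hm0.le
    linarith only
  have hTm0 : 0 ≤ T / m := div_nonneg hT hm0.le
  have hη0 : 0 ≤ η := by rw [hη]; exact div_nonneg hh hm0.le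
  have hη1 : η ≤ 1 := by rw [hη, div_le_one hm0]; exact hhm
  have hη2 : η ^ 2 ≤ η := by rw [pow_two]; exact mul_le_of_le_one_left hη0 hη1
  have hcn0 : 0 ≤ cost + nu := add_nonneg hcost hnu
  have hX0 : 0 ≤ X := by rw [hX]; exact add_nonneg hcn0 hG
  have hcX : cost ≤ X := by rw [hX]; linarith only [hnu, hG]
  have hcnX : cost + nu ≤ X := by rw [hX]; linarith only [hG]
  obtain ⟨a, ha⟩ : ∃ a, a = 1 / sK := ⟨_, rfl⟩
  obtain ⟨b, hb⟩ : ∃ b, b = 1 / ssm := ⟨_, rfl⟩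
  obtain ⟨l, hl⟩ : ∃ l, l = 1 / L := ⟨_, rfl⟩
  have ha0 : 0 ≤ a := by rw [ha]; exact div_nonneg zero_le_one hsK0.le
  have hb0 : 0 ≤ b := by rw [hb]; exact div_nonneg zero_le_one hssm0.le
  have hl0 : 0 ≤ l := by rw [hl]; exact div_nonneg zero_le_one hL00
  have ha1 : a ≤ 1 / 2 := by
    rw [ha]
    exact one_div_le_one_div_of_le (by norm_num) hsK
  have hKa : 1 / K ≤ a := by
    rw [ha, ← hsK2]
    apply one_div_le_one_div_of_le hsK0
    exact le_self_pow₀ (by linarith only [hsK]) two_ne_zero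
  have hsb : 1 / sm ≤ b := by
    rw [hb, ← hssm2]
    apply one_div_le_one_div_of_le hssm0
    exact le_self_pow₀ hssm two_ne_zero
  have hK0 : 0 ≤ 1 / K := div_nonneg zero_le_one hK00
  have hs0 : 0 ≤ 1 / sm := by rw [← hssm2]; exact div_nonneg zero_le_one (sq_nonneg ssm)
  -- bounds of the pieces
  obtain ⟨PA, hPAe⟩ : ∃ PA, PA = P * A := ⟨_, rfl⟩
  obtain ⟨PAK, hPAKe⟩ : ∃ PAK, PAK = P * A * K := ⟨_, rfl⟩
  obtain ⟨PAL, hPALe⟩ : ∃ PAL, PAL = P * A * L := ⟨_, rfl⟩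
  obtain ⟨Xη, hXηe⟩ : ∃ Xη, Xη = P * X * η := ⟨_, rfl⟩
  obtain ⟨Xl, hXle⟩ : ∃ Xl, Xl = P * X * l := ⟨_, rfl⟩
  obtain ⟨Xa, hXae⟩ : ∃ Xa, Xa = P * X * a := ⟨_, rfl⟩
  obtain ⟨Xb, hXbe⟩ : ∃ Xb, Xb = P * X * b := ⟨_, rfl⟩
  have e1 : 20000 * C * (2 * (T / m) + 4 * (h / m) ^ 2 * cost) ≤ 40000 * PA + 80000 * Xη := by
    rw [← hη]
    have t1 : C * (T / m) ≤ P * A := mul_le_mul hCP hTA hTm0 hP0
    have t2 : C * (η ^ 2 * cost) ≤ P * (η * X) :=
      mul_le_mul hCP (mul_le_mul hη2 hcX hcost hη0) (mul_nonneg (sq_nonneg η) hcost) hP0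
    calc 20000 * C * (2 * (T / m) + 4 * η ^ 2 * cost) = 40000 * (C * (T / m)) + 80000 * (C * (η ^ 2 * cost)) := by
          ring
      _ ≤ 40000 * (P * A) + 80000 * (P * (η * X)) := by linarith only [t1, t2]
      _ = 40000 * PA + 80000 * Xη := by rw [hPAe, hXηe]; ring
  have e2 : 9 * (L / m * T + 4 * (1 / L + h / m) * cost) ≤ 9 * PAL + 36 * (Xl + Xη) := by
    rw [← hη, ← hl]
    have t2 : L * (T / m) ≤ L * A := mul_le_mul_of_nonneg_left hTA hL00
    have t3 : L * A ≤ P * (L * A) := by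
      have h0 : 0 ≤ L * A := mul_nonneg hL00 hA0
      calc L * A = 1 * (L * A) := (one_mul _).symm
        _ ≤ P * (L * A) := mul_le_mul_of_nonneg_right hP1 h0
    have t4 : (l + η) * cost ≤ (l + η) * X := mul_le_mul_of_nonneg_left hcX (add_nonneg hl0 hη0)
    have t5 : (l + η) * X ≤ P * ((l + η) * X) := by
      have h0 : 0 ≤ (l + η) * X := mul_nonneg (add_nonneg hl0 hη0) hX0
      calc (l + η) * X = 1 * ((l + η) * X) := (one_mul _).symm
        _ ≤ P * ((l + η) * X) := mul_le_mul_of_nonneg_right hP1 h0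
    calc 9 * (L / m * T + 4 * (l + η) * cost) = 9 * (L * (T / m)) + 36 * ((l + η) * cost) := by ring
      _ ≤ 9 * (P * (L * A)) + 36 * (P * ((l + η) * X)) := by linarith only [t2, t3, t4, t5]
      _ = _ := by rw [hPALe, hXle, hXηe]; ring
  have e3 : 6 * K / m * T ≤ 6 * PAK := by
    have t2 : K * (T / m) ≤ K * A := mul_le_mul_of_nonneg_left hTA hK00
    have t3 : K * A ≤ P * (K * A) := by
      have h0 : 0 ≤ K * A := mul_nonneg hK00 hA0
      calc K * A = 1 * (K * A) := (one_mul _).symm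
        _ ≤ P * (K * A) := mul_le_mul_of_nonneg_right hP1 h0
    calc 6 * K / m * T = 6 * (K * (T / m)) := by ring
      _ ≤ 6 * (P * (K * A)) := by linarith only [t2, t3]
      _ = _ := by rw [hPAKe]; ring
  have e4 : 100000000000 * C ^ 2 * ((1 + T) / m + ((h / m) ^ 2 + 1 / K + 1 / sm) * (cost + nu)) ≤
      100000000000 * PA + 100000000000 * (Xη + Xa + Xb) := by
    rw [← hη, ← hA, ← hP]
    have t1 : (η ^ 2 + 1 / K + 1 / sm) * (cost + nu) ≤ (η + a + b) * X :=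
      mul_le_mul (add_le_add (add_le_add hη2 hKa) hsb) hcnX hcn0
        (add_nonneg (add_nonneg hη0 ha0) hb0)
    have t2 : P * ((η ^ 2 + 1 / K + 1 / sm) * (cost + nu)) ≤ P * ((η + a + b) * X) :=
      mul_le_mul_of_nonneg_left t1 hP0
    calc 100000000000 * P * (A + (η ^ 2 + 1 / K + 1 / sm) * (cost + nu)) =
        100000000000 * (P * A) + 100000000000 * (P * ((η ^ 2 + 1 / K + 1 / sm) * (cost + nu))) := by ring
      _ ≤ 100000000000 * (P * A) + 100000000000 * (P * ((η + a + b) * X)) := by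
          linarith only [t2]
      _ = _ := by rw [hPAe, hXηe, hXae, hXbe]; ring
  have e5 : 10000000000000 * C ^ 2 * (64 / K * cost + T / m + 4 / ssm * (cost + nu)
          + 400 / sK * ((1 + T) / m + cost + nu + G)) ≤
      2010000000000000 * PA + 10000000000000 * (464 * Xa + 4 * Xb) := by
    rw [← hA, ← hP]
    have t1 : 64 / K * cost ≤ 64 * a * X := by
      have : 64 / K = 64 * (1 / K) := by ring
      rw [this]
      exact mul_le_mul (by linarith only [hKa]) hcX hcost (by linarith only [ha0])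
    have t2 : 4 / ssm * (cost + nu) ≤ 4 * b * X := by
      have : 4 / ssm = 4 * b := by rw [hb]; ring
      rw [this]
      exact mul_le_mul_of_nonneg_left hcnX (by linarith only [hb0])
    have t3 : 400 / sK * (A + cost + nu + G) ≤ 200 * A + 400 * a * X := by
      have e : 400 / sK = 400 * a := by rw [ha]; ring
      have e' : A + cost + nu + G = A + X := by rw [hX]; ring
      rw [e, e']
      have t6 : a * A ≤ 1 / 2 * A := mul_le_mul_of_nonneg_right ha1 hA0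
      calc 400 * a * (A + X) = 400 * (a * A) + 400 * a * X := by ring
        _ ≤ 400 * (1 / 2 * A) + 400 * a * X := by linarith only [t6]
        _ = _ := by ring
    have t4 : 64 / K * cost + T / m + 4 / ssm * (cost + nu) + 400 / sK * (A + cost + nu + G) ≤
        201 * A + (464 * a + 4 * b) * X :=
      (add_le_add (add_le_add (add_le_add t1 hTA) t2) t3).trans (le_of_eq (by ring))
    calc _ ≤ 10000000000000 * P * (201 * A + (464 * a + 4 * b) * X) :=
          mul_le_mul_of_nonneg_left t4 (by linarith only [hP0])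
      _ = _ := by rw [hPAe, hXae, hXbe]; ring
  have e6 : 112 * C / sm * cost ≤ 112 * Xb := by
    have t2 : C * ((1 / sm) * cost) ≤ P * (b * X) :=
      mul_le_mul hCP (mul_le_mul hsb hcX hcost hb0) (mul_nonneg hs0 hcost) hP0
    calc 112 * C / sm * cost = 112 * (C * ((1 / sm) * cost)) := by ring
      _ ≤ 112 * (P * (b * X)) := by linarith only [t2]
      _ = _ := by rw [hXbe]; ring
  have hPA : 0 ≤ PA := by rw [hPAe]; exact mul_nonneg hP0 hA0
  have hPX : 0 ≤ P * X := mul_nonneg hP0 hX0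
  have f1 : 4 * PA ≤ PAK := by
    rw [hPAKe, ← hPAe, mul_comm PA K]
    exact mul_le_mul_of_nonneg_right hK hPA
  have f2 : PA ≤ PAL := by
    rw [hPALe, ← hPAe]
    exact le_mul_of_one_le_right hPA hL
  have f3 : 0 ≤ Xη := by rw [hXηe]; exact mul_nonneg hPX hη0
  have f4 : 0 ≤ Xl := by rw [hXle]; exact mul_nonneg hPX hl0
  have f5 : 0 ≤ Xa := by rw [hXae]; exact mul_nonneg hPX ha0
  have f6 : 0 ≤ Xb := by rw [hXbe]; exact mul_nonneg hPX hb0
  have g1 : 10 ^ 16 * C ^ 2 * (h / m + 1 / L + 1 / sK + 1 / ssm) * (cost + nu + G) =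
      10000000000000000 * (Xη + Xl + Xa + Xb) := by
    rw [← hη, ← hl, ← ha, ← hb, ← hX, ← hP, hXηe, hXle, hXae, hXbe]
    ring
  have g2 : 10 ^ 16 * C ^ 2 * (K + L) * ((1 + T) / m) = 10000000000000000 * (PAK + PAL) := by
    rw [← hA, ← hP, hPAKe, hPALe]
    ring
  rw [g1, g2]
  intro hGle
  generalize 20000 * C * (2 * (T / m) + 4 * (h / m) ^ 2 * cost) = E1 at e1 hGle
  generalize 9 * (L / m * T + 4 * (1 / L + h / m) * cost) = E2 at e2 hGle
  generalize 6 * K / m * T = E3 at e3 hGle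
  generalize 100000000000 * C ^ 2 *
    ((1 + T) / m + ((h / m) ^ 2 + 1 / K + 1 / sm) * (cost + nu)) = E4 at e4 hGle
  generalize 10000000000000 * C ^ 2 * (64 / K * cost + T / m + 4 / ssm * (cost + nu)
    + 400 / sK * ((1 + T) / m + cost + nu + G)) = E5 at e5 hGle
  generalize 112 * C / sm * cost = E6 at e6 hGle
  linarith only [e1, e2, e3, e4, e5, e6, f1, f2, f3, f4, f5, f6, hPA, hGle]

set_option maxHeartbeats 4000000 in
theorem Sys.G_ineq (S : Sys α) (hR : S.Reg) {K : ℕ} (hK4 : 4 ≤ K)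
    (hK : 18 * (K : ℝ) ^ 2 ≤ S.m) {L : ℝ} (hL : 1 ≤ L) :
    S.G ≤ 1 / 16 * S.cost
      + 10 ^ 16 * Cw ^ 2 * ((S.h : ℝ) / S.m + 1 / L + 1 / Real.sqrt K
          + 1 / Real.sqrt (Real.sqrt S.m)) * (S.cost + S.nu + S.G)
      + 10 ^ 16 * Cw ^ 2 * (K + L) * ((1 + S.T) / S.m) := by
  have hm8 : 100000000 ≤ S.m := hR.1
  have hm0 : 0 < S.m := by omega
  have hmr : (100000000 : ℝ) ≤ S.m := by exact_mod_cast hm8
  have hmpos : (0 : ℝ) < S.m := by linarith only [hmr]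
  have hKnat : 18 * K ^ 2 ≤ S.m := by exact_mod_cast hK
  have hKr : (4 : ℝ) ≤ K := by exact_mod_cast hK4
  obtain ⟨I, hI1, hI2⟩ := V3_I S.m K hK4 hKnat
  have hC := one_le_Cw
  have hT := S.T_nonneg
  have hcost := S.cost_nonneg
  have hnu := S.nu_nonneg
  have hG0 := S.G_nonneg
  have hph := S.ph_nonneg
  obtain ⟨N, hN⟩ : ∃ N, N = 2 * S.m + 1 := ⟨_, rfl⟩
  -- facts on sqrt
  have hsqm : (Nat.sqrt S.m : ℝ) ≤ Real.sqrt S.m := by
    apply Real.le_sqrt_of_sq_le
    have := Nat.sqrt_le' S.m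
    exact_mod_cast this
  have hsm1 : 1 ≤ Real.sqrt S.m := by
    rw [Real.one_le_sqrt]
    linarith only [hmr]
  have hssm1 : 1 ≤ Real.sqrt (Real.sqrt S.m) := by
    rw [Real.one_le_sqrt]
    exact hsm1
  have hsm0 : 0 < Real.sqrt S.m := lt_of_lt_of_le one_pos hsm1
  have hsK : 2 ≤ Real.sqrt K := by
    apply Real.le_sqrt_of_sq_le
    linarith only [hKr]
  have hsK0 : 0 < Real.sqrt K := lt_of_lt_of_le two_pos hsK
  have hCw0 : 0 ≤ Cw := zero_le_one.trans hC
  have hKr0 : (0 : ℝ) ≤ K := by linarith only [hKr]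
  have hTm0 : 0 ≤ S.T / S.m := div_nonneg hT hmpos.le
  have hcn0 : 0 ≤ S.cost + S.nu := add_nonneg hcost hnu
  have h13C : (0 : ℝ) ≤ 10000000000000 * Cw ^ 2 :=
    mul_nonneg (by norm_num) (sq_nonneg Cw)
  have hβ : ∀ i ∈ range I, 2 * (2 ^ i * K) ≤ Nat.sqrt S.m := by
    intro i hi
    rw [mem_range] at hi
    have h1 : 2 ^ (i + 1) ≤ 2 ^ I := Nat.pow_le_pow_right (by norm_num) hi
    calc 2 * (2 ^ i * K) = 2 ^ (i + 1) * K := by ring
      _ ≤ 2 ^ I * K := Nat.mul_le_mul_right _ h1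
      _ ≤ Nat.sqrt S.m := hI1
  have hsq4 : 4 ≤ Nat.sqrt S.m := by
    rw [Nat.le_sqrt]
    omega
  have h4sq : 4 * Nat.sqrt S.m ≤ S.m :=
    (Nat.mul_le_mul_right _ hsq4).trans (Nat.sqrt_le S.m)
  have hKs : K ≤ Nat.sqrt S.m := by
    rw [Nat.le_sqrt]
    have h0 := hKnat
    rw [pow_two] at h0
    omega
  have hβr : ∀ i ∈ range I, ((2 ^ i * K : ℕ) : ℝ) ≤ Real.sqrt S.m := by
    intro i hi
    have h1 := hβ i hi
    have h2 : 2 ^ i * K ≤ Nat.sqrt S.m := by omega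
    exact le_trans (by exact_mod_cast h2) hsqm
  -- the partition
  have hpart := S.Gc_partition (K := K) (by omega) I
  -- moments
  have hmom1 := S.mom1 hR hL
  have hmom1' := S.mom1' hR
  have hmom2 := S.mom2 hR
  rw [← hN] at hmom1 hmom1' hmom2
  obtain ⟨M1, hM1⟩ : ∃ M1, M1 = ∑ s ∈ range N, |(s : ℝ) - S.m| / S.m * S.ph s := ⟨_, rfl⟩
  rw [← hM1] at hmom1 hmom1'
  -- top block
  have htop := S.Gc_split hR (V3_top_nonneg S.m K) (V3_top_le S.m K) (c := 1 / 2) (by norm_num)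
    (t₁ := S.m - 3 * K) (by omega)
  have htm : (S.m : ℝ) - ((S.m - 3 * K : ℕ) : ℝ) = 3 * K := by
    rw [Nat.cast_sub (by omega)]
    push_cast
    ring
  rw [htm, ← hN] at htop
  have hFtop := S.Far_top hR hK4 hK
  -- low blocks
  have hlow : ∀ i ∈ range I, S.Gc (chiB S.m (2 ^ i * K)) ≤
      20000 * Cw * ∑ s ∈ range N, chiB S.m (2 ^ i * K) s *
          (S.ph s * (1 / S.m + ((s : ℝ) - S.m) ^ 2 / (S.m : ℝ) ^ 2))
      + ∑ s ∈ range N, chiB S.m (2 ^ i * K) s * (max ((s : ℝ) - S.m) 0 / S.m * S.ph s)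
      + 8 * ∑ s ∈ range N, chiB S.m (2 ^ i * K) s * (|(s : ℝ) - S.m| / S.m * S.ph s)
      + 10000000000000 * Cw ^ 2 *
        (64 / K * (1 / 4 * ∑ s ∈ range N, chiB S.m (2 ^ i * K) s * (|(s : ℝ) - S.m| / S.m * S.ph s))
          + (((2 ^ i * K : ℕ) : ℝ) / Real.sqrt S.m) * (S.T / S.m) + (S.cost + S.nu) / Real.sqrt S.m
          + 4 / Real.sqrt K * (((i : ℝ) + 1) ^ 2 / Real.sqrt (2 ^ i)) *
            ((1 + S.T) / S.m + S.cost + S.nu + S.G))
      + (1 / ((i : ℝ) + 1) ^ 2) / 64 * S.cost := by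
    intro i hi
    have hi1 : (0 : ℝ) < ((i : ℝ) + 1) ^ 2 := by positivity
    obtain ⟨c, hc⟩ : ∃ c : ℝ, c = 1 / (4 * ((i : ℝ) + 1) ^ 2) := ⟨_, rfl⟩
    have hc0 : 0 < c := by rw [hc]; positivity
    have hc1 : c ≤ 1 := by
      rw [hc, div_le_one (by positivity)]
      have h0 : (0 : ℝ) ≤ i := Nat.cast_nonneg i
      have h1 : (1 : ℝ) ≤ ((i : ℝ) + 1) ^ 2 := one_le_pow₀ (by linarith only [h0])
      linarith only [h1]
    have h1c : 1 / c = 4 * ((i : ℝ) + 1) ^ 2 := by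
      rw [hc, one_div_one_div]
    have hβi := hβ i hi
    have hβi4 : 4 ≤ 2 ^ i * K := by
      have h0 : 1 ≤ 2 ^ i := Nat.one_le_two_pow
      calc 4 ≤ 1 * K := by omega
        _ ≤ 2 ^ i * K := Nat.mul_le_mul_right _ h0
    obtain ⟨β, hβeq⟩ : ∃ β : ℕ, β = 2 ^ i * K := ⟨_, rfl⟩
    have hβrr := hβr i hi
    rw [← hβeq] at hβi hβi4 hβrr ⊢
    have hs := S.Gc_split hR (V3_B_nonneg S.m β) (V3_B_le S.m β) (c := c) hc0.le
      (t₁ := S.m - 4 * β) (by omega)
    have htm : (S.m : ℝ) - ((S.m - 4 * β : ℕ) : ℝ) = 4 * β := by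
      rw [Nat.cast_sub (by omega)]
      push_cast
      ring
    rw [htm, ← hN] at hs
    have hβsq : (β : ℝ) ^ 2 ≤ S.m := by
      have h1 : (β : ℝ) ^ 2 ≤ Real.sqrt S.m ^ 2 := pow_le_pow_left₀ (by positivity) hβrr 2
      rwa [Real.sq_sqrt hmpos.le] at h1
    have hF := S.Far_low hR hβi4 hβsq hc0 hc1
    rw [← hN] at hF
    obtain ⟨B1, hB1⟩ : ∃ B1, B1 = ∑ s ∈ range N, chiB S.m β s * (|(s : ℝ) - S.m| / S.m * S.ph s) :=
      ⟨_, rfl⟩
    obtain ⟨B0, hB0⟩ : ∃ B0, B0 = ∑ s ∈ range N, chiB S.m β s * S.ph s := ⟨_, rfl⟩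
    rw [← hB0] at hs hF
    rw [← hB1]
    have hB01 : (β : ℝ) / S.m * B0 ≤ B1 := by
      rw [hB0, hB1, mul_sum]
      apply sum_le_sum
      intro s _
      exact V3_block S.m β s hm0 (S.ph s) (hph s)
    have hB0n : 0 ≤ B0 := by
      rw [hB0]
      exact sum_nonneg (fun s _ => mul_nonneg (V3_B_nonneg _ _ _) (hph s))
    have hβK : (β : ℝ) = 2 ^ i * K := by
      rw [hβeq]
      push_cast
      ring
    have n1 : ∑ s ∈ range N, chiB S.m β s * S.ph s * (1 / S.m + ((s : ℝ) - S.m) ^ 2 / (S.m : ℝ) ^ 2) =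
        ∑ s ∈ range N, chiB S.m β s * (S.ph s * (1 / S.m + ((s : ℝ) - S.m) ^ 2 / (S.m : ℝ) ^ 2)) := by
      apply sum_congr rfl
      intro s _
      ring
    have n2 : ∑ s ∈ range N, max ((s : ℝ) - S.m) 0 / S.m * (chiB S.m β s * S.ph s) =
        ∑ s ∈ range N, chiB S.m β s * (max ((s : ℝ) - S.m) 0 / S.m * S.ph s) := by
      apply sum_congr rfl
      intro s _
      ring
    rw [n1, n2] at hs
    have n3 : 4 * (β : ℝ) * (2 / S.m) * B0 ≤ 8 * B1 := by
      have h0 : 4 * (β : ℝ) * (2 / S.m) * B0 = 8 * ((β : ℝ) / S.m * B0) := by ring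
      rw [h0]
      linarith only [hB01]
    have n4 : 1 / c * (1 / S.m) * B0 ≤ 64 / K * (1 / 4 * B1) := by
      rw [h1c]
      have h5 := sq_le_four_two_pow i
      have h6 : 4 * ((i : ℝ) + 1) ^ 2 ≤ 16 * (β / K) := by
        rw [hβK]
        have h0 : (2 : ℝ) ^ i * K / K = 2 ^ i := by field_simp
        rw [h0]
        linarith only [h5]
      calc 4 * ((i : ℝ) + 1) ^ 2 * (1 / S.m) * B0 ≤ 16 * (β / K) * (1 / S.m) * B0 := by
            exact mul_le_mul_of_nonneg_right (mul_le_mul_of_nonneg_right h6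
              (div_nonneg zero_le_one hmpos.le)) hB0n
        _ = 16 / K * ((β : ℝ) / S.m * B0) := by ring
        _ ≤ 16 / K * B1 := mul_le_mul_of_nonneg_left hB01 (div_nonneg (by norm_num) hKr0)
        _ = _ := by ring
    have n5 : 1 / (c * Real.sqrt β) = 4 / Real.sqrt K * (((i : ℝ) + 1) ^ 2 / Real.sqrt (2 ^ i)) := by
      rw [hβK, Real.sqrt_mul (by positivity), hc]
      have h6 : 0 < Real.sqrt (2 ^ i) := Real.sqrt_pos.2 (by positivity)
      have h7 : 0 < Real.sqrt K := hsK0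
      have h8 : 0 < ((i : ℝ) + 1) ^ 2 := hi1
      generalize ((i : ℝ) + 1) ^ 2 = w at h8
      generalize Real.sqrt (2 ^ i) = p at h6
      generalize Real.sqrt K = q at h7
      field_simp
    rw [n5] at hF
    have hF2 : S.Far (chiB S.m β) c (S.m - 4 * β) ≤ 10000000000000 * Cw ^ 2 *
        (64 / K * (1 / 4 * B1)
          + ((β : ℝ) / Real.sqrt S.m) * (S.T / S.m) + (S.cost + S.nu) / Real.sqrt S.m
          + 4 / Real.sqrt K * (((i : ℝ) + 1) ^ 2 / Real.sqrt (2 ^ i)) *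
            ((1 + S.T) / S.m + S.cost + S.nu + S.G)) := by
      refine hF.trans ?_
      apply mul_le_mul_of_nonneg_left _ h13C
      exact add_le_add_left (add_le_add_left (add_le_add_left n4 _) _) _
    have n6 : c / 16 * S.cost = (1 / ((i : ℝ) + 1) ^ 2) / 64 * S.cost := by
      rw [hc]
      generalize ((i : ℝ) + 1) ^ 2 = w
      ring
    rw [n6] at hs
    linarith only [hs, hF2, n3]
  -- sum up the low blocks
  have hlows := sum_le_sum hlow
  rw [sum_add_distrib, sum_add_distrib, sum_add_distrib, sum_add_distrib, ← mul_sum, ← mul_sum,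
    ← mul_sum, ← sum_mul, ← sum_div, sum_add_distrib, sum_add_distrib, sum_add_distrib, ← mul_sum,
    ← mul_sum, ← sum_mul, ← sum_div, sum_const, ← sum_mul, ← mul_sum, card_range, nsmul_eq_mul] at hlows
  obtain ⟨Q0, hQ0⟩ : ∃ Q0, Q0 = ∑ i ∈ range I, ∑ s ∈ range N, chiB S.m (2 ^ i * K) s *
      (S.ph s * (1 / S.m + ((s : ℝ) - S.m) ^ 2 / (S.m : ℝ) ^ 2)) := ⟨_, rfl⟩
  obtain ⟨Q1, hQ1⟩ : ∃ Q1, Q1 = ∑ i ∈ range I, ∑ s ∈ range N, chiB S.m (2 ^ i * K) s *
      (max ((s : ℝ) - S.m) 0 / S.m * S.ph s) := ⟨_, rfl⟩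
  obtain ⟨Q2, hQ2⟩ : ∃ Q2, Q2 = ∑ i ∈ range I, ∑ s ∈ range N, chiB S.m (2 ^ i * K) s *
      (|(s : ℝ) - S.m| / S.m * S.ph s) := ⟨_, rfl⟩
  rw [← hQ0, ← hQ1, ← hQ2] at hlows
  have n1 : ∑ s ∈ range N, chiTop S.m K s * S.ph s * (1 / S.m + ((s : ℝ) - S.m) ^ 2 / (S.m : ℝ) ^ 2) =
      ∑ s ∈ range N, chiTop S.m K s * (S.ph s * (1 / S.m + ((s : ℝ) - S.m) ^ 2 / (S.m : ℝ) ^ 2)) := by
    apply sum_congr rfl
    intro s _
    ring
  have n2 : ∑ s ∈ range N, max ((s : ℝ) - S.m) 0 / S.m * (chiTop S.m K s * S.ph s) =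
      ∑ s ∈ range N, chiTop S.m K s * (max ((s : ℝ) - S.m) 0 / S.m * S.ph s) := by
    apply sum_congr rfl
    intro s _
    ring
  rw [n1, n2] at htop
  obtain ⟨R0, hR0⟩ : ∃ R0, R0 = ∑ s ∈ range N, chiTop S.m K s *
      (S.ph s * (1 / S.m + ((s : ℝ) - S.m) ^ 2 / (S.m : ℝ) ^ 2)) := ⟨_, rfl⟩
  obtain ⟨R1, hR1⟩ : ∃ R1, R1 = ∑ s ∈ range N, chiTop S.m K s *
      (max ((s : ℝ) - S.m) 0 / S.m * S.ph s) := ⟨_, rfl⟩
  obtain ⟨R2, hR2⟩ : ∃ R2, R2 = ∑ s ∈ range N, chiTop S.m K s * S.ph s := ⟨_, rfl⟩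
  rw [← hR0, ← hR1, ← hR2] at htop
  have hTN : S.T = ∑ s ∈ range N, S.ph s := by
    rw [hN]
    rfl
  -- the NC part
  have k0 : R0 + Q0 ≤ 2 * (S.T / S.m) + 4 * ((S.h : ℝ) / S.m) ^ 2 * S.cost := by
    have h1 := V3_sum S.m K I N (fun s => S.ph s * (1 / S.m + ((s : ℝ) - S.m) ^ 2 / (S.m : ℝ) ^ 2))
      (fun s => mul_nonneg (hph s) (add_nonneg (div_nonneg zero_le_one hmpos.le)
        (div_nonneg (sq_nonneg _) (sq_nonneg _))))
    have h2 : ∑ s ∈ range N, S.ph s * (1 / S.m + ((s : ℝ) - S.m) ^ 2 / (S.m : ℝ) ^ 2) =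
        1 / S.m * S.T + 1 / S.m * ∑ s ∈ range N, ((s : ℝ) - S.m) ^ 2 / S.m * S.ph s := by
      rw [hTN, mul_sum, mul_sum, ← sum_add_distrib]
      apply sum_congr rfl
      intro s _
      ring
    have h3 : 1 / S.m * ∑ s ∈ range N, ((s : ℝ) - S.m) ^ 2 / S.m * S.ph s ≤
        1 / S.m * (S.T + 4 * ((S.h : ℝ) ^ 2 / S.m) * S.cost) :=
      mul_le_mul_of_nonneg_left hmom2 (div_nonneg zero_le_one hmpos.le)
    have h4 : 1 / S.m * (S.T + 4 * ((S.h : ℝ) ^ 2 / S.m) * S.cost) =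
        S.T / S.m + 4 * ((S.h : ℝ) / S.m) ^ 2 * S.cost := by
      ring
    have h5 : 1 / S.m * S.T = S.T / S.m := by ring
    rw [hR0, hQ0]
    refine h1.trans ?_
    rw [h2]
    linarith only [h3, h4, h5]
  -- the UP part
  have k1 : R1 + Q1 ≤ M1 := by
    have h1 := V3_sum S.m K I N (fun s => max ((s : ℝ) - S.m) 0 / S.m * S.ph s)
      (fun s => mul_nonneg (div_nonneg (le_max_right _ _) hmpos.le) (hph s))
    rw [hR1, hQ1, hM1]
    refine h1.trans ?_
    apply sum_le_sum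
    intro s _
    apply mul_le_mul_of_nonneg_right _ (hph s)
    apply div_le_div_of_nonneg_right _ hmpos.le
    exact max_le (le_abs_self _) (abs_nonneg _)
  have k2 : Q2 ≤ M1 := by
    rw [hQ2, hM1]
    exact V3_sumB S.m K I N (fun s => |(s : ℝ) - S.m| / S.m * S.ph s)
      (fun s => mul_nonneg (div_nonneg (abs_nonneg _) hmpos.le) (hph s))
  have k3 : R2 ≤ S.T := by
    rw [hR2, hTN]
    apply sum_le_sum
    intro s _
    calc _ ≤ 1 * S.ph s := mul_le_mul_of_nonneg_right (V3_top_le _ _ _) (hph s)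
      _ = _ := one_mul _
  have k4 : (∑ i ∈ range I, ((2 ^ i * K : ℕ) : ℝ)) / Real.sqrt S.m ≤ 1 := by
    rw [div_le_one hsm0]
    refine le_trans ?_ hsqm
    have h1 : ∀ J : ℕ, ∑ i ∈ range J, 2 ^ i * K + K = 2 ^ J * K := by
      intro J
      induction J with
      | zero => simp
      | succ J ih =>
        rw [sum_range_succ, pow_succ]
        have e : 2 ^ J * 2 * K = 2 ^ J * K + 2 ^ J * K := by ring
        omega
    have h2 : ∑ i ∈ range I, 2 ^ i * K ≤ Nat.sqrt S.m := by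
      have := h1 I
      omega
    exact_mod_cast h2
  have k5 : (I : ℝ) * ((S.cost + S.nu) / Real.sqrt S.m) ≤
      4 / Real.sqrt (Real.sqrt S.m) * (S.cost + S.nu) := by
    have h1 := index_small (I := I) (m := S.m) (K := K) (by omega) hI1 (by omega)
    calc (I : ℝ) * ((S.cost + S.nu) / Real.sqrt S.m) = (I : ℝ) / Real.sqrt S.m * (S.cost + S.nu) := by
          ring
      _ ≤ _ := mul_le_mul_of_nonneg_right h1 hcn0
  have k6 : 4 / Real.sqrt K * ∑ i ∈ range I, ((i : ℝ) + 1) ^ 2 / Real.sqrt (2 ^ i) ≤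
      400 / Real.sqrt K := by
    have h1 := sum_sq_div_sqrt_le I
    calc _ ≤ 4 / Real.sqrt K * 100 :=
          mul_le_mul_of_nonneg_left h1 (div_nonneg (by norm_num) hsK0.le)
      _ = _ := by ring
  have k7 := sum_inv_sq_le I
  have k8 : 0 ≤ (1 + S.T) / S.m + S.cost + S.nu + S.G :=
    add_nonneg (add_nonneg (add_nonneg (div_nonneg (add_nonneg zero_le_one hT) hmpos.le) hcost)
      hnu) hG0
  -- assemble the low part
  have l1 : 64 / (K : ℝ) * (1 / 4 * Q2) + (∑ i ∈ range I, ((2 ^ i * K : ℕ) : ℝ)) / Real.sqrt S.m *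
        (S.T / S.m) + (I : ℝ) * ((S.cost + S.nu) / Real.sqrt S.m) +
        (4 / Real.sqrt K * ∑ i ∈ range I, ((i : ℝ) + 1) ^ 2 / Real.sqrt (2 ^ i)) *
          ((1 + S.T) / S.m + S.cost + S.nu + S.G) ≤
      64 / K * S.cost + S.T / S.m + 4 / Real.sqrt (Real.sqrt S.m) * (S.cost + S.nu)
          + 400 / Real.sqrt K * ((1 + S.T) / S.m + S.cost + S.nu + S.G) := by
    have h1 : 64 / (K : ℝ) * (1 / 4 * Q2) ≤ 64 / K * S.cost := by
      apply mul_le_mul_of_nonneg_left _ (div_nonneg (by norm_num) hKr0)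
      linarith only [k2, hmom1']
    have h2 : (∑ i ∈ range I, ((2 ^ i * K : ℕ) : ℝ)) / Real.sqrt S.m * (S.T / S.m) ≤ S.T / S.m := by
      calc _ ≤ 1 * (S.T / S.m) := mul_le_mul_of_nonneg_right k4 hTm0
        _ = _ := one_mul _
    have h3 := mul_le_mul_of_nonneg_right k6 k8
    linarith only [h1, h2, h3, k5]
  have l2 := mul_le_mul_of_nonneg_left l1 h13C
  have l3 : (∑ i ∈ range I, 1 / ((i : ℝ) + 1) ^ 2) / 64 * S.cost ≤ 1 / 32 * S.cost := by
    apply mul_le_mul_of_nonneg_right _ hcost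
    linarith only [k7]
  have l4 : 3 * (K : ℝ) * (2 / S.m) * R2 ≤ 6 * K / S.m * S.T := by
    calc 3 * (K : ℝ) * (2 / S.m) * R2 = 6 * K / S.m * R2 := by ring
      _ ≤ _ := mul_le_mul_of_nonneg_left k3
          (div_nonneg (mul_nonneg (by norm_num) hKr0) hmpos.le)
  have l5 : 20000 * Cw * R0 + 20000 * Cw * Q0 ≤
      20000 * Cw * (2 * (S.T / S.m) + 4 * ((S.h : ℝ) / S.m) ^ 2 * S.cost) := by
    rw [← mul_add]
    exact mul_le_mul_of_nonneg_left k0 (mul_nonneg (by norm_num) hCw0)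
  have l6 : S.Gc (chiDeep S.m (2 ^ I * K)) ≤ 112 * Cw / Real.sqrt S.m * S.cost := by
    apply S.G_deep hR
    exact_mod_cast hI2
  refine V3_num Cw S.T S.cost S.nu S.G S.m S.h K L (Real.sqrt K) (Real.sqrt (Real.sqrt S.m))
    (Real.sqrt S.m) hC hT hcost hnu hG0 (by linarith only [hmr]) (Nat.cast_nonneg _) ?_ hKr hL hsK
    (Real.sq_sqrt hKr0) hssm1 (Real.sq_sqrt hsm0.le) ?_
  · have h1 : 5000 * S.h ≤ S.m := hR.2
    have h2 : S.h ≤ S.m := by omega
    exact_mod_cast h2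
  · rw [← hN] at *
    have hfin : S.G ≤ S.Gc (chiTop S.m K) + ∑ i ∈ range I, S.Gc (chiB S.m (2 ^ i * K))
      + S.Gc (chiDeep S.m (2 ^ I * K)) := hpart.le
    linarith only [hfin, htop, hFtop, hlows, l2, l3, l4, l5, l6, k1, k2, hmom1, hmom1']

/-! ## part v4 -/

/-- main bound for systems -/
theorem Sys.main_bound : ∃ (C : ℝ) (m₀ : ℕ) (η : ℝ), 0 < η ∧ 0 ≤ C ∧
    ∀ {α : Type} [Fintype α] [DecidableEq α] (S : Sys α),
      S.Reg → m₀ ≤ S.m → (S.h : ℝ) ≤ η * S.m → S.T ≤ 1 + C / S.m := by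
  obtain ⟨A, hA⟩ : ∃ A : ℝ, A = 10 ^ 16 * Cw ^ 2 := ⟨_, rfl⟩
  have hCw := one_le_Cw
  have hA1 : 1 ≤ A := by
    rw [hA]
    nlinarith
  have hA0 : 0 < A := by linarith
  obtain ⟨K, hK⟩ := exists_nat_ge ((80 * A) ^ 2)
  obtain ⟨L, hL⟩ : ∃ L : ℝ, L = 80 * A := ⟨_, rfl⟩
  have hL1 : 1 ≤ L := by rw [hL]; linarith
  obtain ⟨m0, hm0⟩ := exists_nat_ge (max ((80 * A) ^ 4) (max (18 * (K : ℝ) ^ 2)
    (88 / 5 * A * (K + L))))
  have hK0 : (0 : ℝ) ≤ K := Nat.cast_nonneg K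
  refine ⟨88 / 5 * A * (K + L), m0, 1 / (80 * A), by positivity, by positivity, ?_⟩
  intro α _ _ S hR hm hh
  have hmm : (m0 : ℝ) ≤ S.m := by exact_mod_cast hm
  have hm1 : (80 * A) ^ 4 ≤ (S.m : ℝ) := ((le_max_left _ _).trans hm0).trans hmm
  have hm2 : 18 * (K : ℝ) ^ 2 ≤ (S.m : ℝ) :=
    (((le_max_left _ _).trans (le_max_right _ _)).trans hm0).trans hmm
  have hm3 : 88 / 5 * A * (K + L) ≤ (S.m : ℝ) :=
    (((le_max_right _ _).trans (le_max_right _ _)).trans hm0).trans hmm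
  have hmpos : (0 : ℝ) < S.m := lt_of_lt_of_le (by positivity) hm1
  have hKL : 0 ≤ 88 / 5 * A * (K + L) / S.m := by positivity
  by_cases hT : S.T ≤ 1
  · linarith
  · have hT1 : 1 < S.T := not_le.1 hT
    have hsec := S.second hR
    have hcost := S.cost_nonneg
    have hG := S.G_nonneg
    have hTeq := S.T_eq
    have hnu := S.nu_nonneg
    have hTT : S.T ≤ S.T ^ 2 := by nlinarith
    have hcG : S.cost ≤ 11 / 5 * S.G := by linarith
    have hTG : S.T - 1 ≤ 11 / 5 * S.G := by nlinarith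
    have hnG : S.nu ≤ S.G := by linarith
    have hK4 : 4 ≤ K := by
      have h1 : (4 : ℝ) ≤ K := by nlinarith
      exact_mod_cast h1
    have hGi := S.G_ineq hR hK4 hm2 hL1
    rw [← hA] at hGi
    have h80 : 0 < 80 * A := by linarith
    have i1 : (S.h : ℝ) / S.m ≤ 1 / (80 * A) := by
      rw [div_le_iff₀ hmpos]
      exact hh
    have i2 : 1 / L ≤ 1 / (80 * A) := by rw [hL]
    have i3 : 1 / Real.sqrt K ≤ 1 / (80 * A) := by
      refine one_div_le_one_div_of_le h80 ?_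
      exact (Real.le_sqrt' h80).2 hK
    have i4 : 1 / Real.sqrt (Real.sqrt S.m) ≤ 1 / (80 * A) := by
      refine one_div_le_one_div_of_le h80 ?_
      refine (Real.le_sqrt' h80).2 ((Real.le_sqrt' (by positivity)).2 ?_)
      calc ((80 * A) ^ 2) ^ 2 = (80 * A) ^ 4 := by ring
        _ ≤ _ := hm1
    obtain ⟨E, hE⟩ : ∃ E, E = A * ((S.h : ℝ) / S.m + 1 / L + 1 / Real.sqrt K
          + 1 / Real.sqrt (Real.sqrt S.m)) := ⟨_, rfl⟩
    rw [← hE] at hGi
    have hE1 : E ≤ 1 / 20 := by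
      rw [hE]
      calc A * ((S.h : ℝ) / S.m + 1 / L + 1 / Real.sqrt K + 1 / Real.sqrt (Real.sqrt S.m))
          ≤ A * (1 / (80 * A) + 1 / (80 * A) + 1 / (80 * A) + 1 / (80 * A)) :=
            mul_le_mul_of_nonneg_left (by linarith) hA0.le
        _ = 1 / 20 := by field_simp; norm_num
    have hsum : S.cost + S.nu + S.G ≤ 21 / 5 * S.G := by linarith
    have hsum0 : 0 ≤ S.cost + S.nu + S.G := by linarith
    have j1 : E * (S.cost + S.nu + S.G) ≤ 1 / 20 * (21 / 5 * S.G) :=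
      mul_le_mul hE1 hsum hsum0 (by norm_num)
    obtain ⟨B, hB⟩ : ∃ B, B = A * (K + L) / S.m := ⟨_, rfl⟩
    have hB0 : 0 ≤ B := by rw [hB]; positivity
    have hB1 : 88 / 5 * B ≤ 1 := by
      rw [hB, ← mul_div_assoc, div_le_one hmpos]
      linarith
    have j2 : A * (K + L) * ((1 + S.T) / S.m) = B * (1 + S.T) := by
      rw [hB]
      ring
    have j3 : B * (1 + S.T) ≤ B * (2 + 11 / 5 * S.G) :=
      mul_le_mul_of_nonneg_left (by linarith) hB0
    have j4 : B * S.G ≤ 5 / 88 * S.G := mul_le_mul_of_nonneg_right (by linarith) hG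
    rw [j2] at hGi
    have j5 : S.G ≤ 8 * B := by nlinarith
    have j6 : 88 / 5 * A * (K + L) / S.m = 88 / 5 * B := by
      rw [hB]
      ring
    rw [j6]
    linarith

/-! ## part v5 -/

theorem Sys.T_card (S : Sys α) (hm : 1 ≤ S.m) :
    S.T = (S.F.card : ℝ) / ((2 * S.m).choose S.m : ℝ) := by
  have key : ∀ s ∈ Finset.range (2 * S.m + 1),
      S.ph s = ((S.F.filter (fun C => C.card = s)).card : ℝ) / ((2 * S.m).choose S.m : ℝ) := by
    intro s hs
    have hs' : s ≤ 2 * S.m := by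
      rw [Finset.mem_range] at hs; omega
    have hpos : (0 : ℝ) < ((2 * S.m).choose s : ℝ) := by
      exact_mod_cast Nat.choose_pos hs'
    have hpos' : (0 : ℝ) < ((2 * S.m).choose S.m : ℝ) := by
      exact_mod_cast Nat.choose_pos (by omega : S.m ≤ 2 * S.m)
    have h1 : ∑ P ∈ powersetCard s (univ : Finset α), S.f P
        = ∑ P ∈ S.F.filter (fun C => C.card = s), wt S.m s := by
      have h2 : S.F.filter (fun C => C.card = s)
          = (powersetCard s (univ : Finset α)).filter (fun C => C ∈ S.F) := by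
        ext C
        simp only [Finset.mem_filter, Finset.mem_powersetCard, Finset.subset_univ, true_and]
        tauto
      rw [h2, Finset.sum_filter]
      refine Finset.sum_congr rfl fun P hP => ?_
      rw [Finset.mem_powersetCard] at hP
      unfold Sys.f
      rw [hP.2]
    unfold Sys.ph Ev
    rw [h1, Finset.sum_const, nsmul_eq_mul, S.hcard]
    unfold wt
    field_simp
  unfold Sys.T
  rw [Finset.sum_congr rfl key, ← Finset.sum_div]
  congr 1
  rw [← Nat.cast_sum]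
  congr 1
  symm
  refine Finset.card_eq_sum_card_fiberwise (fun C _ => ?_)
  have : C.card ≤ 2 * S.m := by
    rw [← S.hcard]; exact Finset.card_le_univ C
  rw [Finset.mem_coe, Finset.mem_range]
  omega

/-! ## part v6 -/

/-- the far levels contain `O(1/m)` of the middle binomial coefficient -/
theorem tail_bound {η : ℝ} (hη : 0 < η) : ∃ C : ℝ, 0 ≤ C ∧ ∀ m : ℕ, 1 ≤ m →
    ∑ p ∈ (range (2 * m + 1)).filter (fun p : ℕ => η * m < |(p : ℝ) - m|), ((2 * m).choose p : ℝ)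
      ≤ ((2 * m).choose m : ℝ) * (C / m) := by
  refine ⟨24 / η ^ 4, by positivity, ?_⟩
  intro m hm
  have hm0 : (0 : ℝ) < m := by exact_mod_cast hm
  have hm1 : (1 : ℝ) ≤ m := by exact_mod_cast hm
  have hB : (0 : ℝ) < ((2 * m).choose m : ℝ) := by
    exact_mod_cast Nat.choose_pos (by omega)
  have hterm : ∀ p ∈ (range (2 * m + 1)).filter (fun p : ℕ => η * m < |(p : ℝ) - m|),
      ((2 * m).choose p : ℝ) ≤ ((2 * m).choose m : ℝ) * (8 / (η ^ 4 * m ^ 2)) := by
    intro p hp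
    have hp2 := (Finset.mem_filter.1 hp).2
    have h1 : ((2 * m).choose p : ℝ) = ((2 * m).choose m : ℝ) * wt m p := by
      unfold wt
      field_simp
    rw [h1]
    refine mul_le_mul_of_nonneg_left ?_ hB.le
    refine (wt_le_exp hm p).trans ?_
    have h2 : (η * m) ^ 2 ≤ ((p : ℝ) - m) ^ 2 := by
      rw [← sq_abs ((p : ℝ) - m)]
      exact pow_le_pow_left₀ (by positivity) hp2.le 2
    obtain ⟨x, hx⟩ : ∃ x : ℝ, x = η ^ 2 * m / 2 := ⟨_, rfl⟩
    have hx0 : 0 < x := by rw [hx]; positivity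
    have h3 : -(((p : ℝ) - m) ^ 2) / (2 * m) ≤ -x := by
      rw [hx, div_le_iff₀ (by positivity)]
      nlinarith
    refine (Real.exp_le_exp.2 h3).trans ?_
    have h4 : x ^ 2 / 2 ≤ Real.exp x := by
      have := Real.quadratic_le_exp_of_nonneg hx0.le
      linarith
    rw [Real.exp_neg]
    have h5 : (Real.exp x)⁻¹ ≤ (x ^ 2 / 2)⁻¹ := by
      exact inv_anti₀ (by positivity) h4
    refine h5.trans (le_of_eq ?_)
    rw [hx]
    field_simp
    norm_num
  have hsum := Finset.sum_le_card_nsmul _ _ _ hterm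
  refine hsum.trans ?_
  rw [nsmul_eq_mul]
  have hcard : ((((range (2 * m + 1)).filter (fun p : ℕ => η * m < |(p : ℝ) - m|)).card : ℕ) : ℝ) ≤
      3 * m := by
    have h1 := Finset.card_filter_le (range (2 * m + 1)) (fun p : ℕ => η * m < |(p : ℝ) - m|)
    rw [Finset.card_range] at h1
    have h2 : ((((range (2 * m + 1)).filter (fun p : ℕ => η * m < |(p : ℝ) - m|)).card : ℕ) : ℝ) ≤
        ((2 * m + 1 : ℕ) : ℝ) := by exact_mod_cast h1
    push_cast at h2
    linarith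
  refine (mul_le_mul_of_nonneg_right hcard (by positivity)).trans (le_of_eq ?_)
  field_simp
  norm_num

/-! ## part v7 -/

theorem eb_far (α : Type) [Fintype α] [DecidableEq α] (m h : ℕ) (η : ℝ)
    (hα : Fintype.card α = 2 * m) (hh : η * m < h + 1) (F : Finset (Finset α)) :
    ((F.filter (fun C => ¬ (m ≤ C.card + h ∧ C.card ≤ m + h))).card : ℝ) ≤
      ∑ p ∈ (range (2 * m + 1)).filter (fun p : ℕ => η * m < |(p : ℝ) - m|),
        ((2 * m).choose p : ℝ) := by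
  have hsub : F.filter (fun C => ¬ (m ≤ C.card + h ∧ C.card ≤ m + h)) ⊆
      ((range (2 * m + 1)).filter (fun p : ℕ => η * m < |(p : ℝ) - m|)).biUnion
        (fun p => powersetCard p (univ : Finset α)) := by
    intro C hC
    rw [Finset.mem_filter] at hC
    rw [Finset.mem_biUnion]
    refine ⟨C.card, ?_, ?_⟩
    · rw [Finset.mem_filter, Finset.mem_range]
      refine ⟨?_, ?_⟩
      · have : C.card ≤ Fintype.card α := Finset.card_le_univ C
        omega
      · rw [lt_abs]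
        by_cases h1 : m ≤ C.card + h
        · left
          have h2 : m + h + 1 ≤ C.card := by
            by_contra h3
            exact hC.2 ⟨h1, by omega⟩
          have h3 : ((m + h + 1 : ℕ) : ℝ) ≤ (C.card : ℝ) := by exact_mod_cast h2
          push_cast at h3
          linarith
        · right
          have h2 : C.card + h + 1 ≤ m := by omega
          have h3 : ((C.card + h + 1 : ℕ) : ℝ) ≤ (m : ℝ) := by exact_mod_cast h2
          push_cast at h3
          linarith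
    · rw [Finset.mem_powersetCard]
      exact ⟨Finset.subset_univ _, rfl⟩
  have h1 := (Finset.card_le_card hsub).trans Finset.card_biUnion_le
  have h2 : ∑ p ∈ (range (2 * m + 1)).filter (fun p : ℕ => η * m < |(p : ℝ) - m|),
      (powersetCard p (univ : Finset α)).card =
      ∑ p ∈ (range (2 * m + 1)).filter (fun p : ℕ => η * m < |(p : ℝ) - m|),
        (2 * m).choose p := by
    refine Finset.sum_congr rfl fun p _ => ?_
    rw [Finset.card_powersetCard, Finset.card_univ, hα]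
  rw [h2] at h1
  exact_mod_cast h1

theorem eb_near (C : ℝ) (m₀ : ℕ) (η : ℝ)
    (hmain : ∀ {α : Type} [Fintype α] [DecidableEq α] (S : Sys α),
      S.Reg → m₀ ≤ S.m → (S.h : ℝ) ≤ η * S.m → S.T ≤ 1 + C / S.m)
    (α : Type) [Fintype α] [DecidableEq α] (m h : ℕ) (hm : 100000000 ≤ m) (hm0 : m₀ ≤ m)
    (h5 : 5000 * h ≤ m) (hη : (h : ℝ) ≤ η * m)
    (hα : Fintype.card α = 2 * m) (F : Finset (Finset α))
    (hF : ∀ A ∈ F, ∀ B ∈ F, ∀ C ∈ F, A ≠ B → A ≠ C → B ≠ C → A ∪ B ≠ C)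
    (hlo : ∀ C ∈ F, m ≤ C.card + h) (hhi : ∀ C ∈ F, C.card ≤ m + h) :
    (F.card : ℝ) ≤ ((2 * m).choose m : ℝ) * (1 + C / m) := by
  have hne : Nonempty α := by
    rw [← Fintype.card_pos_iff]; omega
  have hc : ∀ D : Finset α, ∃ z : α, D ∈ F → Centre F D z := by
    intro D
    by_cases hD : D ∈ F
    · have hDn : D.Nonempty := by
        rw [← Finset.card_pos]
        have := hlo D hD
        omega
      obtain ⟨z, hz⟩ := centre_exists F hF D hD hDn
      exact ⟨z, fun _ => hz⟩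
    · exact ⟨hne.some, fun h => absurd h hD⟩
  choose z hz using hc
  let S : Sys α := ⟨m, h, F, z, hα, fun D hD => hz D hD, hlo, hhi⟩
  have hT : S.T ≤ 1 + C / S.m := hmain S ⟨hm, h5⟩ hm0 hη
  rw [Sys.T_card S (by show 1 ≤ m; omega)] at hT
  have hpos : (0 : ℝ) < ((2 * m).choose m : ℝ) := by
    exact_mod_cast Nat.choose_pos (by omega)
  have hT' : (F.card : ℝ) / ((2 * m).choose m : ℝ) ≤ 1 + C / m := hT
  rw [div_le_iff₀ hpos] at hT'
  linarith

theorem even_bound : ∃ C : ℝ, 0 ≤ C ∧ ∀ (α : Type) [Fintype α] [DecidableEq α] (m : ℕ),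
    1 ≤ m → Fintype.card α = 2 * m → ∀ F : Finset (Finset α),
      (∀ A ∈ F, ∀ B ∈ F, ∀ C ∈ F, A ≠ B → A ≠ C → B ≠ C → A ∪ B ≠ C) →
      (F.card : ℝ) ≤ ((2 * m).choose m : ℝ) * (1 + C / m) := by
  obtain ⟨C1, m0, η, hη, hC1, hmain⟩ := Sys.main_bound
  have hη' : 0 < min η (1 / 5000) := lt_min hη (by norm_num)
  obtain ⟨C2, hC2, htail⟩ := tail_bound hη'
  set e : ℝ := min η (1 / 5000) with he
  set m1 : ℕ := max m0 100000000 with hm1
  have hm10 : m0 ≤ m1 := le_max_left _ _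
  have hm11 : 100000000 ≤ m1 := le_max_right _ _
  have h4 : (0 : ℝ) ≤ 4 ^ m1 * m1 := by positivity
  refine ⟨C1 + C2 + 4 ^ m1 * m1, by linarith, ?_⟩
  intro α _ _ m hm hα F hF
  have hmR : (1 : ℝ) ≤ (m : ℝ) := by exact_mod_cast hm
  have hmpos : (0 : ℝ) < (m : ℝ) := by linarith
  have hch : (1 : ℝ) ≤ ((2 * m).choose m : ℝ) := by
    exact_mod_cast Nat.choose_pos (by omega)
  by_cases hlt : m < m1
  · have h1 : (F.card : ℝ) ≤ 4 ^ m1 := by
      have h2 : F.card ≤ 2 ^ (2 * m) := by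
        have := Finset.card_le_univ F
        rwa [Fintype.card_finset, hα] at this
      have h3 : (2 : ℕ) ^ (2 * m) ≤ 4 ^ m1 := by
        rw [pow_mul]
        exact Nat.pow_le_pow_right (by norm_num) hlt.le
      exact_mod_cast h2.trans h3
    have h2 : (4 : ℝ) ^ m1 ≤ (C1 + C2 + 4 ^ m1 * m1) / m := by
      rw [le_div_iff₀ hmpos]
      have h3 : (m : ℝ) ≤ (m1 : ℝ) := by exact_mod_cast hlt.le
      have h5 : (4 : ℝ) ^ m1 * m ≤ 4 ^ m1 * m1 :=
        mul_le_mul_of_nonneg_left h3 (by positivity)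
      linarith
    have h3 : (0 : ℝ) ≤ 4 ^ m1 := by positivity
    have h5 : 1 * (1 + (C1 + C2 + 4 ^ m1 * m1) / m) ≤
        ((2 * m).choose m : ℝ) * (1 + (C1 + C2 + 4 ^ m1 * m1) / m) :=
      mul_le_mul_of_nonneg_right hch (by linarith)
    linarith
  · have hge : m1 ≤ m := by omega
    have hem : 0 ≤ e * m := by positivity
    have hfl : ((⌊e * m⌋₊ : ℕ) : ℝ) ≤ e * m := Nat.floor_le hem
    have hfl2 : e * m < (⌊e * m⌋₊ : ℕ) + 1 := Nat.lt_floor_add_one _
    generalize ⌊e * m⌋₊ = h at hfl hfl2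
    have he1 : e ≤ η := min_le_left _ _
    have he2 : e ≤ 1 / 5000 := min_le_right _ _
    have hη2 : (h : ℝ) ≤ η * m := hfl.trans (mul_le_mul_of_nonneg_right he1 hmpos.le)
    have h5 : 5000 * h ≤ m := by
      have h6 : (h : ℝ) ≤ 1 / 5000 * m :=
        hfl.trans (mul_le_mul_of_nonneg_right he2 hmpos.le)
      have h7 : (5000 : ℝ) * h ≤ m := by linarith
      exact_mod_cast h7
    have hnear := eb_near C1 m0 η (fun {α} _ _ S => hmain S) α m h (by omega) (by omega) h5 hη2 hα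
      (F.filter (fun C => m ≤ C.card + h ∧ C.card ≤ m + h))
      (fun A hA B hB C hC => hF A (Finset.mem_filter.1 hA).1 B (Finset.mem_filter.1 hB).1
        C (Finset.mem_filter.1 hC).1)
      (fun C hC => (Finset.mem_filter.1 hC).2.1) (fun C hC => (Finset.mem_filter.1 hC).2.2)
    have hfar := eb_far α m h e hα hfl2 F
    have htl := htail m hm
    have hsum : (F.card : ℝ) =
        ((F.filter (fun C => m ≤ C.card + h ∧ C.card ≤ m + h)).card : ℝ) +
        ((F.filter (fun C => ¬ (m ≤ C.card + h ∧ C.card ≤ m + h))).card : ℝ) := by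
      have := Finset.card_filter_add_card_filter_not (s := F)
        (fun C => m ≤ C.card + h ∧ C.card ≤ m + h)
      exact_mod_cast this.symm
    rw [hsum]
    have h8 : 0 ≤ ((2 * m).choose m : ℝ) * (4 ^ m1 * m1 / m) := by positivity
    have h9 : ((2 * m).choose m : ℝ) * (1 + (C1 + C2 + 4 ^ m1 * m1) / m) =
        ((2 * m).choose m : ℝ) * (1 + C1 / m) + ((2 * m).choose m : ℝ) * (C2 / m) +
        ((2 * m).choose m : ℝ) * (4 ^ m1 * m1 / m) := by
      ring
    rw [h9]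
    linarith

/-! ## part v8 -/

def V8pi (m : ℕ) (A : Finset (Fin (m + 1))) : Finset (Fin m) :=
  univ.filter (fun i => i.castSucc ∈ A)

lemma V8_mem {m : ℕ} {A : Finset (Fin (m + 1))} {i : Fin m} :
    i ∈ V8pi m A ↔ i.castSucc ∈ A := by simp [V8pi]

lemma V8_union {m : ℕ} (A B : Finset (Fin (m + 1))) :
    V8pi m (A ∪ B) = V8pi m A ∪ V8pi m B := by
  ext i
  simp only [V8_mem, Finset.mem_union]

lemma V8_inj {m : ℕ} {A B : Finset (Fin (m+1))} (h : Fin.last m ∈ A ↔ Fin.last m ∈ B)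
    (hp : V8pi m A = V8pi m B) : A = B := by
  ext x
  refine Fin.lastCases ?_ (fun i => ?_) x
  · exact h
  · rw [← V8_mem, ← V8_mem, hp]

lemma V8_half {C : ℝ} (hC : ∀ (α : Type) [Fintype α] [DecidableEq α] (m : ℕ),
    1 ≤ m → Fintype.card α = 2 * m → ∀ F : Finset (Finset α),
      (∀ A ∈ F, ∀ B ∈ F, ∀ C ∈ F, A ≠ B → A ≠ C → B ≠ C → A ∪ B ≠ C) →
      (F.card : ℝ) ≤ ((2 * m).choose m : ℝ) * (1 + C / m)) {m : ℕ} (hm : 1 ≤ m)
    (F : Finset (Finset (Fin (2 * m + 1))))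
    (hF : ∀ A ∈ F, ∀ B ∈ F, ∀ C ∈ F, A ≠ B → A ≠ C → B ≠ C → A ∪ B ≠ C) (b : Prop)
    (hb : ∀ A ∈ F, (Fin.last (2 * m) ∈ A ↔ b)) :
    (F.card : ℝ) ≤ ((2 * m).choose m : ℝ) * (1 + C / m) := by
  have hinj : Set.InjOn (V8pi (2 * m)) (F : Set (Finset (Fin (2 * m + 1)))) := by
    intro A hA B hB h
    exact V8_inj ((hb A hA).trans (hb B hB).symm) h
  have h1 := hC (Fin (2 * m)) m hm (by simp) (F.image (V8pi (2 * m))) (by
    intro A' hA' B' hB' C' hC' h12 h13 h23 hu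
    obtain ⟨A, hA, rfl⟩ := Finset.mem_image.1 hA'
    obtain ⟨B, hB, rfl⟩ := Finset.mem_image.1 hB'
    obtain ⟨D, hD, rfl⟩ := Finset.mem_image.1 hC'
    refine hF A hA B hB D hD (fun h => h12 (by rw [h])) (fun h => h13 (by rw [h]))
      (fun h => h23 (by rw [h])) ?_
    rw [← V8_union] at hu
    refine V8_inj ?_ hu
    rw [Finset.mem_union, hb A hA, hb B hB, hb D hD, or_self])
  rw [Finset.card_image_of_injOn hinj] at h1
  exact h1

theorem final_bound :
    ∃ c : ℝ, ∀ n : ℕ, ∀ F : Finset (Finset (Fin n)),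
      (∀ A ∈ F, ∀ B ∈ F, ∀ C ∈ F, A ≠ B → A ≠ C → B ≠ C → A ∪ B ≠ C) →
      (F.card : ℝ) ≤ (n.choose (n / 2) : ℝ) * (1 + c / (n : ℝ)) := by
  classical
  obtain ⟨C, hC0, hC⟩ := even_bound
  refine ⟨10 * C + 10, ?_⟩
  intro n F hF
  rcases Nat.even_or_odd' n with ⟨m, rfl | rfl⟩
  · rcases Nat.eq_zero_or_pos m with rfl | hm
    · have h1 : F.card ≤ 1 := by
        have := F.card_le_univ
        simpa using this
      have h2 : (F.card : ℝ) ≤ 1 := by exact_mod_cast h1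
      simpa using h2
    · have h1 := hC (Fin (2 * m)) m hm (by simp) F hF
      have hm' : (0:ℝ) < m := by exact_mod_cast hm
      refine h1.trans ?_
      rw [show 2 * m / 2 = m by omega]
      apply mul_le_mul_of_nonneg_left _ (Nat.cast_nonneg _)
      have h2 : C / m ≤ (10 * C + 10) / ((2 * m : ℕ) : ℝ) := by
        rw [div_le_div_iff₀ hm' (by positivity)]
        push_cast
        nlinarith
      linarith
  · rcases Nat.eq_zero_or_pos m with rfl | hm
    · have h1 : F.card ≤ 2 := by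
        have := F.card_le_univ
        simpa using this
      have h2 : (F.card : ℝ) ≤ 2 := by exact_mod_cast h1
      have h3 : ((2 * 0 + 1).choose ((2 * 0 + 1) / 2) : ℝ) * (1 + (10 * C + 10) / ((2 * 0 + 1 : ℕ) : ℝ))
          = 1 + (10 * C + 10) := by norm_num
      rw [h3]
      linarith
    · set F0 := F.filter (fun A => Fin.last (2 * m) ∈ A) with hF0
      set F1 := F.filter (fun A => ¬ Fin.last (2 * m) ∈ A) with hF1
      have hcard : F0.card + F1.card = F.card := Finset.card_filter_add_card_filter_not _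
      have h0 := V8_half hC hm F0 (fun A hA B hB D hD => hF A (Finset.mem_filter.1 hA).1 B
        (Finset.mem_filter.1 hB).1 D (Finset.mem_filter.1 hD).1) True
        (fun A hA => iff_true_intro (Finset.mem_filter.1 hA).2)
      have h1 := V8_half hC hm F1 (fun A hA B hB D hD => hF A (Finset.mem_filter.1 hA).1 B
        (Finset.mem_filter.1 hB).1 D (Finset.mem_filter.1 hD).1) False
        (fun A hA => iff_false_intro (Finset.mem_filter.1 hA).2)
      have hcard' : (F.card : ℝ) = F0.card + F1.card := by exact_mod_cast hcard.symm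
      have hm' : (1:ℝ) ≤ m := by exact_mod_cast hm
      have hch : ((2 * m + 1).choose m) * (m + 1) = ((2 * m).choose m) * (2 * m + 1) := by
        have := Nat.choose_mul_succ_eq (2 * m) m
        rw [show 2 * m + 1 - m = m + 1 by omega] at this
        exact this.symm
      have hch' : ((2 * m + 1).choose m : ℝ) * (m + 1) = ((2 * m).choose m : ℝ) * (2 * m + 1) := by
        exact_mod_cast hch
      rw [show (2 * m + 1) / 2 = m by omega]
      have h2 : (F.card : ℝ) ≤ 2 * (((2 * m).choose m : ℝ) * (1 + C / m)) := by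
        rw [hcard']; linarith
      have h3 : ((2 * m).choose m : ℝ) = ((2 * m + 1).choose m : ℝ) * (m + 1) / (2 * m + 1) := by
        field_simp
        linarith
      refine h2.trans ?_
      rw [h3]
      have h4 : 2 * (((2 * m + 1).choose m : ℝ) * (m + 1) / (2 * m + 1) * (1 + C / m)) =
          ((2 * m + 1).choose m : ℝ) * ((2 * (m + 1) / (2 * m + 1)) * (1 + C / m)) := by ring
      rw [h4]
      apply mul_le_mul_of_nonneg_left _ (Nat.cast_nonneg _)
      push_cast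
      have hm0 : (0:ℝ) < m := by linarith
      have key : 1 + (10 * C + 10) / (2 * (m : ℝ) + 1) -
          (2 * ((m : ℝ) + 1) / (2 * m + 1)) * (1 + C / m) =
          (9 * m + 8 * C * m - 2 * C) / ((2 * m + 1) * m) := by
        field_simp
        ring
      have h5 : 0 ≤ (9 * m + 8 * C * m - 2 * C) / ((2 * (m : ℝ) + 1) * m) := by
        apply div_nonneg _ (by positivity)
        nlinarith
      linarith

end UF
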